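import Pool.Agent.P.MP_6277db_ag.KEW.L7.Basic

/-!
KEW project, layer L7, row ALG1: unique lifting, localisations of quotients.

Hints.
* `eq_near`: `algebraize [φ]`; `Algebra.FormallyUnramified.iff_exists_tensorProduct` gives
  `t : E ⊗[R] E` with `(1 ⊗ y - y ⊗ 1) * t = 0` and `lmul' t = 1`; `s` is the image of `t` under
  `g ⊗ g'` (make `D` an `R`-algebra by `g.comp φ`; induction on tensors for `x s = x (g (lmul' t))`).
* `locRed_lift`: `R` is the localisation of `B ⧸ I` at the image of `M` (`loc_of`), then `loc_lift`.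
* `locRed_po`: construct the localisation `T` of `B' ⧸ I.map f` at the image of `M`, show with
  `po_desc`, `locRed_lift`, `po_ext` that `P ≃ T`.
* `locRed_etale`: take the pushout `D` of `ψ` and `ξ` (`locRed_po` describes `R → D`), apply `eq_near` to
  `i : R → D` and `j.comp ξ'`, with the point `(ξ', id) : D → T`.
-/

namespace KEW.S7

universe u

open Polynomial

variable {A B B' R S T D E P K : Type u} [CommRing A] [CommRing B] [CommRing B'] [CommRing R]
  [CommRing S] [CommRing T] [CommRing D] [CommRing E] [CommRing P] [Field K]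

/-- Two maps out of an etale algebra which agree at a point agree near it. -/
theorem eq_near {φ : R →+* E} (hφ : φ.Etale) {g g' : E →+* D} (h : g.comp φ = g'.comp φ)
    {x : D →+* T} (hx : x.comp g = x.comp g') : ∃ s : D, x s = 1 ∧ ∀ y : E, s * g y = s * g' y := by
  algebraize [φ]
  let _ : Algebra R D := (g.comp φ).toAlgebra
  obtain ⟨t, ht, ht1⟩ := (Algebra.FormallyUnramified.iff_exists_tensorProduct (R := R)
    (S := E)).1 inferInstance
  let G : E →ₐ[R] D := { g with commutes' := fun _ => rfl }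
  let G' : E →ₐ[R] D := { g' with commutes' := fun r => (RingHom.congr_fun h r).symm }
  let Φ := Algebra.TensorProduct.productMap G G'
  have hΦ : ∀ a b : E, Φ (a ⊗ₜ b) = g a * g' b := fun a b =>
    Algebra.TensorProduct.productMap_apply_tmul G G' a b
  have hx' : ∀ y, x (g' y) = x (g y) := fun y => (RingHom.congr_fun hx y).symm
  have key : ∀ t, x (Φ t) = x (g (Algebra.TensorProduct.lmul' R t)) := by
    intro t
    induction t using TensorProduct.induction_on with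
    | zero => simp
    | tmul a b => rw [hΦ, Algebra.TensorProduct.lmul'_apply_tmul, map_mul, map_mul, map_mul, hx']
    | add a b ha hb => simp only [map_add, ha, hb]
  refine ⟨Φ t, by rw [key, ht1, map_one, map_one], fun y => ?_⟩
  have e := congrArg Φ (ht y)
  rw [map_mul, map_sub, hΦ, hΦ, map_zero, map_one, map_one] at e
  linear_combination -e

theorem alg1_locRed_ext {I : Ideal B} {M : Submonoid B} {φ : B →+* R} (h : LocRed I M φ)
    {χ χ' : R →+* T} (e : χ.comp φ = χ'.comp φ) : χ = χ' := by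
  ext z
  obtain ⟨b, s, hs, hz⟩ := h.surj z
  have e' : ∀ y, χ (φ y) = χ' (φ y) := RingHom.congr_fun e
  refine ((h.unit s hs).map χ).mul_right_cancel ?_
  rw [← map_mul, hz, e', e', ← map_mul, hz]

theorem alg1_isLoc {I : Ideal B} {M : Submonoid B} {φ : B →+* R} (h : LocRed I M φ) :
    IsLoc (Ideal.Quotient.lift I φ h.zero) (M.map (Ideal.Quotient.mk I)) := by
  refine loc_of ?_ (fun z => ?_) (fun r hr => ?_)
  · rintro _ ⟨s, hs, rfl⟩
    exact h.unit s hs
  · obtain ⟨b, s, hs, e⟩ := h.surj z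
    exact ⟨Ideal.Quotient.mk I b, Ideal.Quotient.mk I s, ⟨s, hs, rfl⟩, e⟩
  · obtain ⟨b, rfl⟩ := Ideal.Quotient.mk_surjective r
    obtain ⟨s, hs, e⟩ := h.inj b hr
    refine ⟨Ideal.Quotient.mk I s, ⟨s, hs, rfl⟩, ?_⟩
    rw [← map_mul]
    exact Ideal.Quotient.eq_zero_iff_mem.2 e

theorem locRed_lift {I : Ideal B} {M : Submonoid B} {φ : B →+* R} (h : LocRed I M φ) (ψ : B →+* T)
    (hI : ∀ b ∈ I, ψ b = 0) (hM : ∀ s ∈ M, IsUnit (ψ s)) : ∃! χ : R →+* T, χ.comp φ = ψ := by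
  obtain ⟨c, hc⟩ := loc_lift (alg1_isLoc h) (Ideal.Quotient.lift I ψ hI) (by
    rintro _ ⟨s, hs, rfl⟩
    exact hM s hs)
  have hc' : c.comp φ = ψ := RingHom.ext fun b => RingHom.congr_fun hc (Ideal.Quotient.mk I b)
  exact ⟨c, hc', fun c' h' => alg1_locRed_ext h (h'.trans hc'.symm)⟩

theorem locRed_of_ee {I : Ideal R} {f : R →+* S} (h : EE I f) :
    LocRed I ⊥ ((Ideal.Quotient.mk (I.map f)).comp f) := by
  refine ⟨fun s hs => ?_, fun z => ?_, fun b hb => ?_, fun b hb => ?_⟩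
  · rw [Submonoid.mem_bot.1 hs, map_one]
    exact isUnit_one
  · obtain ⟨y, rfl⟩ := Ideal.Quotient.mk_surjective z
    obtain ⟨x, hx⟩ := h.surj y
    refine ⟨x, 1, Submonoid.one_mem _, ?_⟩
    rw [map_one, mul_one]
    exact Ideal.Quotient.eq.2 hx
  · exact Ideal.Quotient.eq_zero_iff_mem.2 (Ideal.mem_map_of_mem f hb)
  · exact ⟨1, Submonoid.one_mem _, by
      rw [one_mul]
      exact h.inj b (Ideal.Quotient.eq_zero_iff_mem.1 hb)⟩

theorem ee_of_locRed {I : Ideal R} {f : R →+* S} (hf : f.Etale)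
    (h : LocRed I (Submonoid.powers 1) ((Ideal.Quotient.mk (I.map f)).comp f)) : EE I f := by
  refine ⟨hf, fun y => ?_, fun x hx => ?_⟩
  · obtain ⟨b, _, ⟨n, rfl⟩, e⟩ := h.surj (Ideal.Quotient.mk _ y)
    refine ⟨b, Ideal.Quotient.eq.1 ?_⟩
    simpa using e
  · obtain ⟨_, ⟨n, rfl⟩, e⟩ := h.inj x (Ideal.Quotient.eq_zero_iff_mem.2 hx)
    simpa using e

theorem alg1_fac {I : Ideal R} {M : Submonoid R} {f : R →+* S}
    (h : LocRed I M ((Ideal.Quotient.mk (I.map f)).comp f)) (ψ : R →+* T)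
    (hI : ∀ r ∈ I, ψ r = 0) (hM : ∀ s ∈ M, IsUnit (ψ s)) : ∃! χ : S →+* T, χ.comp f = ψ := by
  obtain ⟨c, hc, hu⟩ := locRed_lift h ψ hI hM
  refine ⟨c.comp (Ideal.Quotient.mk _), hc, fun χ hχ => ?_⟩
  have h0 : ∀ y ∈ I.map f, χ y = 0 := by
    have : I.map f ≤ RingHom.ker χ :=
      Ideal.map_le_iff_le_comap.2 fun r hr => (RingHom.congr_fun hχ r).trans (hI r hr)
    exact fun y hy => this hy
  rw [← hu (Ideal.Quotient.lift _ χ h0) hχ]
  rfl

theorem ee_fac {I : Ideal R} {f : R →+* S} (h : EE I f) (ψ : R →+* T) (hψ : ∀ r ∈ I, ψ r = 0) :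
    ∃! χ : S →+* T, χ.comp f = ψ :=
  alg1_fac (locRed_of_ee h) ψ hψ fun s hs => by
    rw [Submonoid.mem_bot.1 hs, map_one]
    exact isUnit_one

theorem ee_ul {I : Ideal R} {f : R →+* S} (h : EE I f) : ULP f I 1 :=
  fun _ _ x hx _ => ee_fac h x hx

theorem ul_of_locRed {I : Ideal R} {f : R →+* S} {s : R}
    (h : LocRed I (Submonoid.powers s) ((Ideal.Quotient.mk (I.map f)).comp f)) : ULP f I s :=
  fun _ _ x hx hs => alg1_fac h x hx (by
    rintro _ ⟨n, rfl⟩
    simpa using (Ne.isUnit hs).pow n)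

theorem ul_mono {I J : Ideal R} {f : R →+* S} {s s' : R} (h : ULP f I s)
    (H : ∀ (L : Type u) [Field L] (x : R →+* L), (∀ r ∈ J, x r = 0) → x s' ≠ 0 →
      (∀ r ∈ I, x r = 0) ∧ x s ≠ 0) : ULP f J s' :=
  fun L _ x hx hs => h L x (H L x hx hs).1 (H L x hx hs).2

/-- Passing to `R[1/s]` on both sides. -/
theorem ul_away {I : Ideal R} {f : R →+* S} {s : R} (h : ULP f I s) {R' S' : Type u} [CommRing R']
    [CommRing S'] {l : R →+* R'} {k : S →+* S'} {f' : R' →+* S'} {s' : R} (hl : IsAway l s')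
    (hk : IsAway k (f s')) (w : k.comp f = f'.comp l) {J : Ideal R'}
    (H : ∀ (L : Type u) [Field L] (x : R' →+* L), (∀ r ∈ J, x r = 0) →
      (∀ r ∈ I, x (l r) = 0) ∧ x (l s) ≠ 0) : ULP f' J 1 := by
  intro L _ x hx _
  obtain ⟨y, hy, hu⟩ := h L (x.comp l) (H L x hx).1 (H L x hx).2
  obtain ⟨y', hy'⟩ := away_lift hk y (by
    rw [show y (f s') = x (l s') from RingHom.congr_fun hy s']
    exact (away_unit hl).map x)
  refine ⟨y', away_ext hl ?_, fun y'' h'' => away_ext hk ?_⟩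
  · rw [RingHom.comp_assoc, ← w, ← RingHom.comp_assoc, hy', hy]
  · rw [hy']
    refine hu _ ?_
    change (y''.comp k).comp f = x.comp l
    rw [RingHom.comp_assoc, w, ← RingHom.comp_assoc, h'']

theorem ul_of_away {I : Ideal R} {l : R →+* S} {s : R} (hl : IsAway l s)
    (H : ∀ (L : Type u) [Field L] (x : R →+* L), (∀ r ∈ I, x r = 0) → x s ≠ 0) : ULP l I 1 := by
  intro L _ x hx _
  obtain ⟨y, hy⟩ := away_lift hl x (Ne.isUnit (H L x hx))
  exact ⟨y, hy, fun y' hy' => away_ext hl (hy'.trans hy.symm)⟩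

theorem alg1_exists_locRed (I : Ideal B) (M : Submonoid B) :
    ∃ (T : Type u) (_ : CommRing T) (t : B →+* T), LocRed I M t := by
  obtain ⟨T, _, l, hl⟩ := exists_loc (M.map (Ideal.Quotient.mk I))
  refine ⟨T, inferInstance, l.comp (Ideal.Quotient.mk I), fun s hs => loc_unit hl ⟨s, hs, rfl⟩,
    fun z => ?_, fun b hb => ?_, fun b hb => ?_⟩
  · obtain ⟨r, _, ⟨s, hs, rfl⟩, e⟩ := loc_surj hl z
    obtain ⟨b, rfl⟩ := Ideal.Quotient.mk_surjective r
    exact ⟨b, s, hs, e⟩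
  · rw [RingHom.comp_apply, Ideal.Quotient.eq_zero_iff_mem.2 hb, map_zero]
  · obtain ⟨_, ⟨s, hs, rfl⟩, e⟩ := loc_eq_zero hl hb
    refine ⟨s, hs, Ideal.Quotient.eq_zero_iff_mem.1 ?_⟩
    rw [map_mul]
    exact e

theorem alg1_locRed_of_inv {I : Ideal B} {M : Submonoid B} {t : B →+* T} (h : LocRed I M t)
    {α : T →+* P} {β : P →+* T} (h1 : α.comp β = RingHom.id P) (h2 : β.comp α = RingHom.id T) :
    LocRed I M (α.comp t) := by
  have e1 : ∀ z, α (β z) = z := RingHom.congr_fun h1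
  have e2 : ∀ z, β (α z) = z := RingHom.congr_fun h2
  refine ⟨fun s hs => (h.unit s hs).map α, fun z => ?_, fun b hb => ?_, fun b hb => h.inj b ?_⟩
  · obtain ⟨b, s, hs, e⟩ := h.surj (β z)
    refine ⟨b, s, hs, ?_⟩
    rw [RingHom.comp_apply, RingHom.comp_apply, ← e, map_mul, e1]
  · rw [RingHom.comp_apply, h.zero b hb, map_zero]
  · rw [← e2 (t b), show α (t b) = 0 from hb, map_zero]

theorem locRed_po {I : Ideal B} {M : Submonoid B} {φ : B →+* R} (h : LocRed I M φ) {f : B →+* B'}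
    {i : B' →+* P} {j : R →+* P} (hpo : IsPO f φ i j) : LocRed (I.map f) (M.map f) i := by
  obtain ⟨T, _, t, ht⟩ := alg1_exists_locRed (I.map f) (M.map f)
  have w : ∀ b, i (f b) = j (φ b) := RingHom.congr_fun (po_w hpo)
  have h0 : I.map f ≤ RingHom.ker i := Ideal.map_le_iff_le_comap.2 fun b hb => by
    change i (f b) = 0
    rw [w, h.zero b hb, map_zero]
  obtain ⟨α, hα, -⟩ := locRed_lift ht i (fun b hb => h0 hb) (by
    rintro _ ⟨s, hs, rfl⟩
    rw [w]
    exact (h.unit s hs).map j)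
  obtain ⟨χ, hχ, -⟩ := locRed_lift h (t.comp f)
    (fun b hb => ht.zero _ (Ideal.mem_map_of_mem f hb)) fun s hs => ht.unit _ ⟨s, hs, rfl⟩
  obtain ⟨β, hβ, hβ'⟩ := po_desc hpo t χ hχ.symm
  rw [← hα]
  refine alg1_locRed_of_inv ht (β := β) (po_ext hpo ?_ ?_) (alg1_locRed_ext ht ?_)
  · rw [RingHom.comp_assoc, hβ, hα, RingHom.id_comp]
  · rw [RingHom.comp_assoc, hβ', RingHom.id_comp]
    refine alg1_locRed_ext h ?_
    rw [RingHom.comp_assoc, hχ, ← RingHom.comp_assoc, hα, po_w hpo]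
  · rw [RingHom.comp_assoc, hα, hβ, RingHom.id_comp]

theorem locRed_etale {I : Ideal B} {M : Submonoid B} {ξ : B →+* T} (h : LocRed I M ξ) {ψ : B →+* R}
    (hψ : ψ.Etale) {ξ' : R →+* T} (e : ξ'.comp ψ = ξ) :
    LocRed (I.map ψ) ((IsUnit.submonoid T).comap ξ') ξ' := by
  have e' : ∀ b, ξ' (ψ b) = ξ b := RingHom.congr_fun e
  have hu : ∀ m ∈ M.map ψ, IsUnit (ξ' m) := by
    rintro _ ⟨s, hs, rfl⟩
    rw [e']
    exact h.unit s hs
  refine ⟨fun s hs => hs, fun z => ?_, fun b hb => ?_, fun r hr => ?_⟩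
  · obtain ⟨b, s, hs, hz⟩ := h.surj z
    exact ⟨ψ b, ψ s, hu _ ⟨s, hs, rfl⟩, by rw [e', e', hz]⟩
  · have : I.map ψ ≤ RingHom.ker ξ' :=
      Ideal.map_le_iff_le_comap.2 fun b hb => (e' b).trans (h.zero b hb)
    exact this hb
  · obtain ⟨D, _, i, j, hpo⟩ := exists_po ψ ξ
    have hD := locRed_po h hpo
    obtain ⟨x, hxi, hxj⟩ := po_desc hpo ξ' (RingHom.id T) e
    obtain ⟨σ, hσ, hy⟩ := eq_near hψ (g := i) (g' := j.comp ξ') (x := x)
      (by rw [RingHom.comp_assoc, e, po_w hpo])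
      (by rw [← RingHom.comp_assoc, hxi, hxj, RingHom.id_comp])
    have h1 : σ * i r = 0 := by rw [hy r, RingHom.comp_apply, hr, map_zero, mul_zero]
    obtain ⟨a, m, hm, ha⟩ := hD.surj σ
    obtain ⟨m', hm', hr'⟩ := hD.inj (a * r) (by
      rw [map_mul, ← ha]
      linear_combination i m * h1)
    have hxi' : ∀ y, x (i y) = ξ' y := RingHom.congr_fun hxi
    have h2 : ξ' a = ξ' m := by rw [← hxi', ← ha, map_mul, hσ, one_mul, hxi']
    refine ⟨m' * a, ?_, by rwa [mul_assoc]⟩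
    change IsUnit (ξ' (m' * a))
    rw [map_mul, h2]
    exact (hu _ hm').mul (hu _ hm)

/-- Composition of a localisation of a quotient with a localisation. -/
theorem locRed_loc {I : Ideal B} {M : Submonoid B} {φ : B →+* R} (h : LocRed I M φ)
    {N : Submonoid R} {l : R →+* S} (hl : IsLoc l N) :
    LocRed I ((IsUnit.submonoid S).comap (l.comp φ)) (l.comp φ) := by
  have hb' : ∀ {n : R} {b s : B}, n ∈ N → s ∈ M → n * φ s = φ b → IsUnit (l (φ b)) := by
    intro n b s hn hs e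
    rw [← e, map_mul]
    exact (loc_unit hl hn).mul ((h.unit s hs).map l)
  refine ⟨fun s hs => hs, fun z => ?_, fun b hb => ?_, fun b hb => ?_⟩
  · obtain ⟨r, n, hn, e⟩ := loc_surj hl z
    obtain ⟨b, s, hs, e1⟩ := h.surj r
    obtain ⟨b', s', hs', e2⟩ := h.surj n
    refine ⟨b * s', b' * s, ?_, ?_⟩
    · change IsUnit (l (φ (b' * s)))
      rw [map_mul, map_mul]
      exact (hb' hn hs' e2).mul ((h.unit s hs).map l)
    · simp only [RingHom.comp_apply, map_mul, ← e1, ← e2, ← e]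
      ring
  · rw [RingHom.comp_apply, h.zero b hb, map_zero]
  · obtain ⟨n, hn, e⟩ := loc_eq_zero hl hb
    obtain ⟨b', s', hs', e2⟩ := h.surj n
    obtain ⟨s, hs, e3⟩ := h.inj (b' * b) (by
      rw [map_mul, ← e2]
      linear_combination φ s' * e)
    refine ⟨s * b', ?_, by rwa [mul_assoc]⟩
    change IsUnit (l (φ (s * b')))
    rw [map_mul, map_mul]
    exact ((h.unit s hs).map l).mul (hb' hn hs' e2)

theorem locRed_poly {I : Ideal B} {M : Submonoid B} {φ : B →+* R} (h : LocRed I M φ) :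
    LocRed (I.map (C : B →+* B[X])) (M.map (C : B →+* B[X])) (mapRingHom φ) :=
  locRed_po h (po_flip (isPO_poly φ))

theorem locRed_res {x : R →+* K} (h : IsRes x) :
    LocRed (RingHom.ker x) ((IsUnit.submonoid K).comap x) x := by
  refine ⟨fun s hs => hs, fun z => ?_, fun b hb => hb, fun b hb => ⟨1, Submonoid.one_mem _, ?_⟩⟩
  · obtain ⟨r, s, hs, e⟩ := h z
    exact ⟨r, s, Ne.isUnit hs, e⟩
  · rw [one_mul]
    exact hb

theorem alg1_pow_mem {I p : Ideal R} (hp : p ∈ I.minimalPrimes) {r : R} (hr : r ∈ p) :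
    ∃ (s : R) (n : ℕ), s ∉ p ∧ s * r ^ n ∈ I := by
  have := hp.1.1
  by_contra hn
  have hd : Disjoint (I : Set R) (p.primeCompl ⊔ Submonoid.powers r : Submonoid R) := by
    rw [Set.disjoint_left]
    intro a ha ha'
    obtain ⟨s, hs, _, ⟨n, rfl⟩, rfl⟩ := Submonoid.mem_sup.1 ha'
    exact hn ⟨s, n, hs, ha⟩
  obtain ⟨q, hq, hIq, hqd⟩ := Ideal.exists_le_prime_disjoint I _ hd
  rw [Set.disjoint_left] at hqd
  have hqp : q ≤ p := fun a ha => by
    by_contra h'
    exact hqd ha (Submonoid.mem_sup_left h')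
  exact hqd (hp.2 ⟨hq, hIq⟩ hqp hr) (Submonoid.mem_sup_right (Submonoid.mem_powers r))

/-- At a minimal prime over a radical ideal the localisation of the quotient is the residue field. -/
theorem locRed_min {I : Ideal R} (hI : I.IsRadical) {x : R →+* K} (h : IsRes x)
    (hp : RingHom.ker x ∈ I.minimalPrimes) : LocRed I ((IsUnit.submonoid K).comap x) x := by
  refine ⟨fun s hs => hs, (locRed_res h).surj, fun b hb => hp.1.2 hb, fun b hb => ?_⟩
  obtain ⟨s, n, hs, e⟩ := alg1_pow_mem hp (show b ∈ RingHom.ker x from hb)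
  refine ⟨s, Ne.isUnit hs, hI ⟨n + 1, ?_⟩⟩
  rw [show (s * b) ^ (n + 1) = s ^ n * b * (s * b ^ n) by ring]
  exact I.mul_mem_left _ e

/-- An element of a minimal prime over `I` is nilpotent in the localisation of the quotient. -/
theorem exists_pow_mem_of_min {I p : Ideal R} (hp : p ∈ I.minimalPrimes) {r : R} (hr : r ∈ p) :
    ∃ (s : R) (n : ℕ), s ∉ p ∧ s * r ^ n ∈ I :=
  alg1_pow_mem hp hr

end KEW.S7
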