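import Pool.Agent.P.MP_6277db_ag.KEW.L7.Defs

/-!
KEW project, layer L7: basic tools (pushouts, localisations, `EP` algebras, neighbourhoods).
-/

namespace KEW.S7

universe u v

open Polynomial CategoryTheory

variable {A R S T P Q : Type u} [CommRing A] [CommRing R] [CommRing S] [CommRing T] [CommRing P]
  [CommRing Q]

theorem exists_po (f : R →+* S) (g : R →+* T) :
    ∃ (P : Type u) (_ : CommRing P) (i : S →+* P) (j : T →+* P), IsPO f g i j :=
  ⟨(Limits.pushout (CommRingCat.ofHom f) (CommRingCat.ofHom g) :), inferInstance,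
    (Limits.pushout.inl _ _ : CommRingCat.of S ⟶ _).hom,
    (Limits.pushout.inr _ _ : CommRingCat.of T ⟶ _).hom, IsPushout.of_hasPushout _ _⟩

theorem po_w {f : R →+* S} {g : R →+* T} {i : S →+* P} {j : T →+* P} (h : IsPO f g i j) :
    i.comp f = j.comp g :=
  congrArg CommRingCat.Hom.hom h.toCommSq.w

theorem po_flip {f : R →+* S} {g : R →+* T} {i : S →+* P} {j : T →+* P} (h : IsPO f g i j) :
    IsPO g f j i := IsPushout.flip h

theorem po_desc {f : R →+* S} {g : R →+* T} {i : S →+* P} {j : T →+* P} (h : IsPO f g i j)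
    (a : S →+* Q) (b : T →+* Q) (w : a.comp f = b.comp g) :
    ∃ c : P →+* Q, c.comp i = a ∧ c.comp j = b := by
  have w' : CommRingCat.ofHom f ≫ CommRingCat.ofHom a = CommRingCat.ofHom g ≫ CommRingCat.ofHom b :=
    CommRingCat.hom_ext w
  exact ⟨(IsPushout.desc h _ _ w').hom, congrArg CommRingCat.Hom.hom (IsPushout.inl_desc h _ _ w'),
    congrArg CommRingCat.Hom.hom (IsPushout.inr_desc h _ _ w')⟩

theorem po_ext {f : R →+* S} {g : R →+* T} {i : S →+* P} {j : T →+* P} (h : IsPO f g i j)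
    {c c' : P →+* Q} (h1 : c.comp i = c'.comp i) (h2 : c.comp j = c'.comp j) : c = c' := by
  have : CommRingCat.ofHom c = CommRingCat.ofHom c' :=
    IsPushout.hom_ext h (CommRingCat.hom_ext h1) (CommRingCat.hom_ext h2)
  exact congrArg CommRingCat.Hom.hom this

/-- Base change of an etale map `f` along `g`. -/
theorem po_etale {f : R →+* S} {g : R →+* T} {i : S →+* P} {j : T →+* P} (h : IsPO f g i j)
    (hf : f.Etale) : j.Etale := by
  have := RingHom.isStableUnderCobaseChange_toMorphismProperty_iff.mpr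
    RingHom.Etale.isStableUnderBaseChange
  exact MorphismProperty.of_isPushout (P := RingHom.toMorphismProperty RingHom.Etale)
    (IsPushout.flip h) hf

theorem etale_comp {f : R →+* S} {g : S →+* T} (hf : f.Etale) (hg : g.Etale) : (g.comp f).Etale :=
  RingHom.Etale.stableUnderComposition f g hf hg

theorem etale_id : (RingHom.id R).Etale := RingHom.Etale.of_bijective Function.bijective_id

theorem exists_away (r : R) : ∃ (S : Type u) (_ : CommRing S) (l : R →+* S), IsAway l r :=
  ⟨Localization.Away r, inferInstance, algebraMap _ _, isAway_algebraMap r _⟩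

theorem exists_loc (M : Submonoid R) : ∃ (S : Type u) (_ : CommRing S) (l : R →+* S), IsLoc l M :=
  ⟨Localization M, inferInstance, algebraMap _ _, isLoc_algebraMap M _⟩

theorem away_etale {l : R →+* S} {r : R} (h : IsAway l r) : l.Etale := by
  algebraize [l]
  have : IsLocalization.Away r S := h
  exact Algebra.Etale.of_isLocalizationAway r

theorem loc_unit {l : R →+* S} {M : Submonoid R} (h : IsLoc l M) {s : R} (hs : s ∈ M) :
    IsUnit (l s) := by
  algebraize [l]
  have : IsLocalization M S := h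
  exact IsLocalization.map_units S (⟨s, hs⟩ : M)

theorem loc_surj {l : R →+* S} {M : Submonoid R} (h : IsLoc l M) (z : S) :
    ∃ r : R, ∃ s ∈ M, z * l s = l r := by
  algebraize [l]
  have : IsLocalization M S := h
  obtain ⟨⟨r, s⟩, e⟩ := IsLocalization.surj M z
  exact ⟨r, s, s.2, e⟩

theorem loc_eq_zero {l : R →+* S} {M : Submonoid R} (h : IsLoc l M) {r : R} (hr : l r = 0) :
    ∃ s ∈ M, s * r = 0 := by
  algebraize [l]
  have : IsLocalization M S := h
  obtain ⟨s, hs⟩ := (IsLocalization.map_eq_zero_iff M S r).1 hr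
  exact ⟨s, s.2, hs⟩

theorem loc_of {l : R →+* S} {M : Submonoid R} (h1 : ∀ s ∈ M, IsUnit (l s))
    (h2 : ∀ z : S, ∃ r : R, ∃ s ∈ M, z * l s = l r) (h3 : ∀ r, l r = 0 → ∃ s ∈ M, s * r = 0) :
    IsLoc l M := by
  algebraize [l]
  refine (isLocalization_iff M S).2 ⟨fun s => h1 s s.2, fun z => ?_, fun {x y} e => ?_⟩
  · obtain ⟨r, s, hs, e⟩ := h2 z
    exact ⟨⟨r, ⟨s, hs⟩⟩, e⟩
  · obtain ⟨s, hs, e'⟩ := h3 (x - y) (by rw [map_sub]; exact sub_eq_zero.2 e)
    exact ⟨⟨s, hs⟩, by rw [← sub_eq_zero, ← mul_sub]; exact e'⟩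

theorem loc_lift {l : R →+* S} {M : Submonoid R} (h : IsLoc l M) (g : R →+* T)
    (hg : ∀ s ∈ M, IsUnit (g s)) : ∃ c : S →+* T, c.comp l = g := by
  algebraize [l]
  have : IsLocalization M S := h
  exact ⟨IsLocalization.lift (M := M) (S := S) (g := g) fun s => hg s s.2,
    IsLocalization.lift_comp _⟩

theorem loc_ext {l : R →+* S} {M : Submonoid R} (h : IsLoc l M) {c c' : S →+* T}
    (e : c.comp l = c'.comp l) : c = c' := by
  algebraize [l]
  have : IsLocalization M S := h
  exact IsLocalization.ringHom_ext M e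

theorem away_unit {l : R →+* S} {r : R} (h : IsAway l r) : IsUnit (l r) :=
  loc_unit h (Submonoid.mem_powers r)

theorem away_lift {l : R →+* S} {r : R} (h : IsAway l r) (g : R →+* T) (hg : IsUnit (g r)) :
    ∃ c : S →+* T, c.comp l = g :=
  loc_lift h g (by
    rintro _ ⟨n, rfl⟩
    simpa using hg.pow n)

theorem away_ext {l : R →+* S} {r : R} (h : IsAway l r) {c c' : S →+* T}
    (e : c.comp l = c'.comp l) : c = c' := loc_ext h e

theorem away_surj {l : R →+* S} {r : R} (h : IsAway l r) (z : S) :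
    ∃ (x : R) (n : ℕ), z * l r ^ n = l x := by
  obtain ⟨x, _, ⟨n, rfl⟩, e⟩ := loc_surj h z
  exact ⟨x, n, by simpa using e⟩

theorem away_eq_zero {l : R →+* S} {r : R} (h : IsAway l r) {x : R} (hx : l x = 0) :
    ∃ n : ℕ, r ^ n * x = 0 := by
  obtain ⟨_, ⟨n, rfl⟩, e⟩ := loc_eq_zero h hx
  exact ⟨n, e⟩

theorem away_of {l : R →+* S} {r : R} (h1 : IsUnit (l r))
    (h2 : ∀ z : S, ∃ (x : R) (n : ℕ), z * l r ^ n = l x)
    (h3 : ∀ x, l x = 0 → ∃ n : ℕ, r ^ n * x = 0) : IsAway l r := by
  refine loc_of ?_ (fun z => ?_) (fun x hx => ?_)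
  · rintro _ ⟨n, rfl⟩
    simpa using h1.pow n
  · obtain ⟨x, n, e⟩ := h2 z
    exact ⟨x, r ^ n, ⟨n, rfl⟩, by simpa using e⟩
  · obtain ⟨n, e⟩ := h3 x hx
    exact ⟨r ^ n, ⟨n, rfl⟩, e⟩

/-- Iterated localisation. -/
theorem away_comp {l : R →+* S} {l' : S →+* T} {r s : R} (h : IsAway l r) (h' : IsAway l' (l s)) :
    IsAway (l'.comp l) (r * s) := by
  algebraize [l, l', l'.comp l]
  have : IsLocalization.Away r S := h
  have : IsLocalization.Away (algebraMap R S s) T := h'
  exact IsLocalization.Away.mul' S T r s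

/-- An etale map which is a localisation away from `r` of its source: two models are isomorphic. -/
theorem away_bijective {l : R →+* S} {l' : R →+* T} {r : R} (h : IsAway l r) (h' : IsAway l' r)
    {c : S →+* T} (hc : c.comp l = l') : Function.Bijective c := by
  obtain ⟨c', hc'⟩ := away_lift h' l (away_unit h)
  have e1 : c'.comp c = RingHom.id S :=
    away_ext h (by rw [RingHom.comp_assoc, hc, hc']; rfl)
  have e2 : c.comp c' = RingHom.id T :=
    away_ext h' (by rw [RingHom.comp_assoc, hc', hc]; rfl)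
  exact Function.bijective_iff_has_inverse.2 ⟨c', RingHom.congr_fun e1, RingHom.congr_fun e2⟩

/-- Cancellation: a map between etale algebras is etale. -/
theorem etale_of_comp {f : R →+* S} {g : S →+* T} (hf : f.Etale) (h : (g.comp f).Etale) :
    g.Etale := by
  algebraize [f, g, g.comp f]
  exact Algebra.Etale.of_restrictScalars R S T

theorem ep_etale {a : A →+* R} {f : R →+* S} (ha : EP a) (hf : f.Etale) : EP (f.comp a) := by
  obtain ⟨n, x, h⟩ := ha
  refine ⟨n, fun i => f (x i), ?_⟩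
  have e : MvPolynomial.eval₂Hom (f.comp a) (fun i => f (x i)) =
      f.comp (MvPolynomial.eval₂Hom a x) := by
    ext <;> simp
  unfold EtN
  rw [e]
  exact etale_comp h hf

theorem ep_away {a : A →+* R} {l : R →+* S} {r : R} (ha : EP a) (h : IsAway l r) :
    EP (l.comp a) := ep_etale ha (away_etale h)

theorem ep_of_etN {ι : Type} [Finite ι] {a : A →+* R} {x : ι → R} (h : EtN a x) : EP a := by
  obtain ⟨n, ⟨e⟩⟩ := Finite.exists_equiv_fin ι
  refine ⟨n, fun i => x (e.symm i), ?_⟩
  have h' : MvPolynomial.eval₂Hom a (fun i => x (e.symm i)) =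
      (MvPolynomial.eval₂Hom a x).comp (MvPolynomial.renameEquiv A e.symm).toRingEquiv.toRingHom := by
    ext <;> simp
  unfold EtN
  rw [h']
  exact etale_comp (RingHom.Etale.of_bijective (MvPolynomial.renameEquiv A e.symm).bijective) h

theorem isPO_poly (f : R →+* S) : IsPO f (C : R →+* R[X]) (C : S →+* S[X]) (mapRingHom f) := by
  refine ⟨⟨CommRingCat.hom_ext (by ext; simp)⟩, ⟨Limits.PushoutCocone.IsColimit.mk _
    (fun s => CommRingCat.ofHom (eval₂RingHom s.inl.hom (s.inr.hom X))) (fun s => ?_) (fun s => ?_)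
    (fun s m h1 h2 => ?_)⟩⟩
  · ext r
    simp
  · refine CommRingCat.hom_ext (Polynomial.ringHom_ext (fun r => ?_) (by simp))
    have := congrArg (fun φ => φ.hom r) s.condition
    simpa using this
  · refine CommRingCat.hom_ext (Polynomial.ringHom_ext (fun r => ?_) ?_)
    · simpa using congrArg (fun φ => φ.hom r) h1
    · simpa using congrArg (fun φ => φ.hom X) h2

theorem etale_mapRingHom {f : R →+* S} (hf : f.Etale) : (mapRingHom f).Etale :=
  po_etale (isPO_poly f) hf

theorem etN_option {ι : Type} {a : A →+* R} {x : ι → R} (h : EtN a x) :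
    EtN ((C : R →+* R[X]).comp a) (fun o : Option ι => o.elim X fun i => C (x i)) := by
  have e : MvPolynomial.eval₂Hom ((C : R →+* R[X]).comp a)
      (fun o : Option ι => o.elim X fun i => C (x i)) =
      (mapRingHom (MvPolynomial.eval₂Hom a x)).comp
        (MvPolynomial.optionEquivLeft A ι).toRingEquiv.toRingHom := by
    refine MvPolynomial.ringHom_ext (fun r => by simp) (fun o => ?_)
    cases o <;> simp
  unfold EtN
  rw [e]
  exact etale_comp (RingHom.Etale.of_bijective (MvPolynomial.optionEquivLeft A ι).bijective)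
    (etale_mapRingHom h)

theorem ep_poly {a : A →+* R} (ha : EP a) : EP ((C : R →+* R[X]).comp a) := by
  obtain ⟨n, x, h⟩ := ha
  exact ep_of_etN (etN_option h)

theorem ep_lau {a : A →+* R} (ha : EP a) : EP ((lauC R).comp a) :=
  ep_away (a := (C : R →+* R[X]).comp a) (ep_poly ha) (isAway_lauL R)

theorem ep_id : EP (RingHom.id A) := by
  refine ep_of_etN (ι := PEmpty) (x := fun i => i.elim) ?_
  have e : MvPolynomial.eval₂Hom (RingHom.id A) (fun i : PEmpty => (i.elim : A)) =
      (MvPolynomial.isEmptyAlgEquiv A PEmpty).toRingEquiv.toRingHom := by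
    refine MvPolynomial.ringHom_ext (fun r => ?_) (fun o => o.elim)
    simpa using ((MvPolynomial.isEmptyAlgEquiv A PEmpty).commutes r).symm
  unfold EtN
  rw [e]
  exact RingHom.Etale.of_bijective (MvPolynomial.isEmptyAlgEquiv A PEmpty).bijective

theorem noeth_of_etale [IsNoetherianRing R] {f : R →+* S} (hf : f.Etale) : IsNoetherianRing S := by
  algebraize [f]
  exact Algebra.FiniteType.isNoetherianRing R S

theorem noeth_of_ep [IsNoetherianRing A] {a : A →+* R} (ha : EP a) : IsNoetherianRing R := by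
  obtain ⟨n, x, h⟩ := ha
  exact noeth_of_etale h

variable {K : Type u} [Field K]

/-- Two neighbourhoods have a common refinement. -/
theorem ev_and {x : R →+* K} {Φ Ψ : ∀ (D : Type u) [CommRing D], (R →+* D) → Prop}
    (hΦ : ∀ (D D' : Type u) [CommRing D] [CommRing D'] (g : R →+* D) (k : D →+* D'), g.Etale →
      k.Etale → Φ D g → Φ D' (k.comp g))
    (hΨ : ∀ (D D' : Type u) [CommRing D] [CommRing D'] (g : R →+* D) (k : D →+* D'), g.Etale →
      k.Etale → Ψ D g → Ψ D' (k.comp g))
    (h1 : Ev x Φ) (h2 : Ev x Ψ) : Ev x fun D _ g => Φ D g ∧ Ψ D g := by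
  obtain ⟨D1, _, g1, x1, hg1, hx1, h1⟩ := h1
  obtain ⟨D2, _, g2, x2, hg2, hx2, h2⟩ := h2
  obtain ⟨D, _, i, j, hpo⟩ := exists_po g1 g2
  obtain ⟨y, hy1, -⟩ := po_desc hpo x1 x2 (hx1.trans hx2.symm)
  have hi := po_etale (po_flip hpo) hg2
  have hj := po_etale hpo hg1
  refine ⟨D, inferInstance, i.comp g1, y, etale_comp hg1 hi, ?_, hΦ _ _ _ _ hg1 hi h1, ?_⟩
  · rw [← RingHom.comp_assoc, hy1, hx1]
  · rw [po_w hpo]
    exact hΨ _ _ _ _ hg2 hj h2

/-- A neighbourhood of a neighbourhood is a neighbourhood. -/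
theorem ev_of_comp {x : R →+* K} {Φ : ∀ (D : Type u) [CommRing D], (R →+* D) → Prop} {g : R →+* S}
    {x' : S →+* K} (hg : g.Etale) (hx : x'.comp g = x)
    (h : Ev x' fun D _ k => Φ D (k.comp g)) : Ev x Φ := by
  obtain ⟨D, _, k, y, hk, hy, h⟩ := h
  exact ⟨D, inferInstance, k.comp g, y, etale_comp hg hk, by rw [← RingHom.comp_assoc, hy, hx], h⟩

/-- Enlarging the field of values of a point. -/
theorem ev_of_field {L : Type u} [Field L] {x : R →+* K} (ι : K →+* L)
    {Φ : ∀ (D : Type u) [CommRing D], (R →+* D) → Prop} (h : Ev x Φ) : Ev (ι.comp x) Φ := by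
  obtain ⟨D, _, g, y, hg, hy, h⟩ := h
  exact ⟨D, inferInstance, g, ι.comp y, hg, by rw [RingHom.comp_assoc, hy], h⟩

theorem ev_away {x : R →+* K} {s : R} (hs : x s ≠ 0)
    {Φ : ∀ (D : Type u) [CommRing D], (R →+* D) → Prop}
    (h : ∀ (D : Type u) [CommRing D] (l : R →+* D), IsAway l s → Φ D l) : Ev x Φ := by
  obtain ⟨D, _, l, hl⟩ := exists_away s
  obtain ⟨y, hy⟩ := away_lift hl x (Ne.isUnit hs)
  exact ⟨D, inferInstance, l, y, away_etale hl, hy, h D l hl⟩

/-- Every point factors through its residue field. -/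
theorem exists_res (x : R →+* K) :
    ∃ (L : Type u) (_ : Field L) (x0 : R →+* L) (ι : L →+* K), IsRes x0 ∧ ι.comp x0 = x := by
  refine ⟨Subfield.closure (Set.range x), inferInstance,
    x.codRestrict _ fun r => Subfield.subset_closure ⟨r, rfl⟩, Subfield.subtype _, ?_, rfl⟩
  rintro ⟨z, hz⟩
  rw [Subfield.mem_closure_iff] at hz
  obtain ⟨y, hy, w, hw, rfl⟩ := hz
  have hr : Subring.closure (Set.range x) = x.range := Subring.closure_eq x.range
  rw [hr] at hy hw
  obtain ⟨r, rfl⟩ := hy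
  obtain ⟨s, rfl⟩ := hw
  by_cases hs : x s = 0
  · exact ⟨0, 1, by simp, Subtype.ext (by simp [hs])⟩
  · exact ⟨r, s, fun e => hs (congrArg Subtype.val e), Subtype.ext (by
      change x r / x s * x s = x r
      exact div_mul_cancel₀ _ hs)⟩

/-- Every prime ideal is the kernel of a point with values in its residue field. -/
theorem exists_res_of_prime (p : Ideal R) [p.IsPrime] :
    ∃ (L : Type u) (_ : Field L) (x : R →+* L), IsRes x ∧ RingHom.ker x = p := by
  obtain ⟨L, _, x0, ι, h, e⟩ := exists_res (algebraMap R p.ResidueField)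
  refine ⟨L, inferInstance, x0, h, ?_⟩
  rw [← Ideal.ker_algebraMap_residueField p, ← e]
  ext r
  simp [RingHom.mem_ker]

theorem isRes_of_comp {f : R →+* S} {x : R →+* K} {y : S →+* K} (h : IsRes x) (e : y.comp f = x) :
    IsRes y := fun z => by
  obtain ⟨r, s, hs, h'⟩ := h z
  subst e
  exact ⟨f r, f s, hs, h'⟩

theorem dies_map (h : RF.{u, v} A) {a : A →+* R} (ha : EP a) {x : R →+* K} {z : h.obj a}
    {b : A →+* S} (hb : EP b) (f : R →+* S) (hf : f.comp a = b) {y : S →+* K} (e : y.comp f = x)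
    (hz : h.Dies x z) : h.Dies y (h.map f hf z) := by
  obtain ⟨D, _, g, x', hg, hx, hz⟩ := hz
  obtain ⟨D', _, i, j, hpo⟩ := exists_po g f
  obtain ⟨y', -, hy'⟩ := po_desc hpo x' y (hx.trans e.symm)
  refine ⟨D', inferInstance, j, y', po_etale hpo hg, hy', ?_⟩
  have e1 : i.comp (g.comp a) = j.comp b := by
    rw [← RingHom.comp_assoc, po_w hpo, RingHom.comp_assoc, hf]
  change h.map j rfl (h.map f hf z) = 0
  rw [h.map_comp f j hf rfl (by rw [RingHom.comp_assoc, hf]) hb,
    h.map_congr (po_w hpo).symm _ (by rw [RingHom.comp_assoc]; exact e1),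
    ← h.map_comp g i rfl e1 _ (ep_etale ha hg), hz, map_zero]

theorem dies_of_map (h : RF.{u, v} A) {a : A →+* R} (ha : EP a) {x : R →+* K} {z : h.obj a}
    {f : R →+* S} (hf : f.Etale) {y : S →+* K} (e : y.comp f = x)
    (hz : h.Dies y (h.map f (rfl : f.comp a = f.comp a) z)) : h.Dies x z := by
  refine ev_of_comp hf e (hz.mono fun D _ k _ hk => ?_)
  rw [← h.map_comp f k rfl rfl rfl (ep_etale ha hf)]
  exact hk

theorem dies_zero (h : RF.{u, v} A) {a : A →+* R} (x : R →+* K) : h.Dies x (0 : h.obj a) :=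
  Ev.of_id (map_zero _)

end KEW.S7
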