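import Pool.Agent.P.MP_6277db_ag.KEW.L7.Rf
import Pool.Agent.P.MP_6277db_ag.KEW.L7.Basic
import Pool.Agent.P.MP_6277db_ag.KEW.L2a.Geom

/-!
KEW project, layer L7, row BR4: Nisnevich neighbourhoods of rings and of schemes.

Hints.
* `spE_hom_ext`, `spE_hom_exists`: `ΓSpec.adjunction`, `Scheme.toSpecΓ`, `ext_to_Spec`.
* `locally_gen`: `IsSite.exists_open` for the basic open of `st V π`; a section which is nonzero at all points is a unit.
* `locally_of_ev`: pull `Spec D ⟶ Spec Γ(V)` back along `toSpecΓ`; `IsSite.etale`; the point is the image of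
  `Spec κ(x)` (`Scheme.fromSpecResidueField`, `pullback.lift`); its residue field map has a retraction.
* `locally_ep`: `Smooth.exists_isStandardSmooth` or `IsSmooth.exists_isStandardSmooth`,
  `RingHom.IsStandardSmooth.exists_etale_mvPolynomial`, `IsAffineOpen.fromSpec`.
* `ev_of_locally`: `y` is the kernel of `x`; shrink the neighbourhood to an affine open `Spec D`; the map
  `Spec D ⟶ Spec R` is `Spec.map` of an etale ring map (`Spec.map_surjective`, `HasRingHomProperty.Spec_iff`).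
-/

set_option backward.isDefEq.respectTransparency false

noncomputable section

open CategoryTheory Limits AlgebraicGeometry Opposite Polynomial

namespace Pool.Agent.KEW

open _root_.KEW _root_.KEW.S7

variable {A : Type} [CommRing A]

/-- The map on global sections. -/
abbrev gm {V U : Sm A} (f : V ⟶ U) : Γ((smS A).obj U, ⊤) →+* Γ((smS A).obj V, ⊤) :=
  ((smS A).map f).appTop.hom

theorem gm_id (U : Sm A) : gm (𝟙 U) = RingHom.id _ := by
  rw [gm, CategoryTheory.Functor.map_id, Scheme.Hom.id_appTop]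
  rfl

theorem gm_comp {W V U : Sm A} (g : W ⟶ V) (f : V ⟶ U) : gm (g ≫ f) = (gm g).comp (gm f) := by
  rw [gm, Functor.map_comp, Scheme.Hom.comp_appTop]
  rfl

/-- Evaluation of global sections at a point. -/
def evp (V : Sm A) (x : (smS A).obj V) :
    Γ((smS A).obj V, ⊤) →+* ((smS A).obj V).residueField x :=
  (((smS A).obj V).Γevaluation x).hom

section

variable {R S K : Type} [CommRing R] [CommRing S] [Field K] {a : A →+* R} {b : A →+* S}

/-- The global sections of the spectrum. -/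
def unE (ha : EP a) : R →+* Γ((smS A).obj (spE a ha), ⊤) := (Scheme.ΓSpecIso (.of R)).inv.hom

theorem unE_st (ha : EP a) : (unE ha).comp a = st (spE a ha) := by
  exact congrArg CommRingCat.Hom.hom (Scheme.ΓSpecIso_inv_naturality (CommRingCat.ofHom a))

theorem unE_nat (ha : EP a) (hb : EP b) (f : R →+* S) (hf : f.comp a = b) :
    (gm (spM ha hb f hf)).comp (unE ha) = (unE hb).comp f := by
  exact (congrArg CommRingCat.Hom.hom (Scheme.ΓSpecIso_inv_naturality (CommRingCat.ofHom f))).symm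

theorem spE_hom_ext (ha : EP a) {V : Sm A} {φ ψ : V ⟶ spE a ha}
    (h : (gm φ).comp (unE ha) = (gm ψ).comp (unE ha)) : φ = ψ := by
  ext1
  ext1
  ext1
  exact ext_to_Spec (CommRingCat.hom_ext h)

theorem spE_hom_exists (ha : EP a) {V : Sm A} (g : R →+* Γ((smS A).obj V, ⊤))
    (hg : g.comp a = st V) : ∃ φ : V ⟶ spE a ha, (gm φ).comp (unE ha) = g := by
  have h1 : (Scheme.ΓSpecIso (.of R)).inv ≫
      (((smS A).obj V).toSpecΓ ≫ Spec.map (CommRingCat.ofHom g)).appTop = CommRingCat.ofHom g := by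
    rw [Scheme.Hom.comp_appTop, ← Scheme.ΓSpecIso_inv_naturality_assoc, Scheme.toSpecΓ_appTop]
    exact (congrArg _ (Iso.inv_hom_id _)).trans (Category.comp_id _)
  refine ⟨ObjectProperty.homMk (ObjectProperty.homMk (Over.homMk
    (((smS A).obj V).toSpecΓ ≫ Spec.map (CommRingCat.ofHom g)) ?_)),
    congrArg CommRingCat.Hom.hom h1⟩
  refine ext_to_Spec ?_
  change _ ≫ ((((smS A).obj V).toSpecΓ ≫ Spec.map (CommRingCat.ofHom g)) ≫
    Spec.map (CommRingCat.ofHom a)).appTop = _
  rw [Scheme.Hom.comp_appTop, ← Scheme.ΓSpecIso_inv_naturality_assoc, h1]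
  exact CommRingCat.hom_ext hg

/-- The affine line over the spectrum of an `EP` algebra. -/
def cylE (ha : EP a) : Cyl (smS A) (spE a ha) where
  I := spE ((C : R →+* R[X]).comp a) (ep_poly ha)
  p := spM ha (ep_poly ha) C rfl
  t := unE (ep_poly ha) X
  bij := by
    intro V
    have h1 : ∀ φ : V ⟶ spE ((C : R →+* R[X]).comp a) (ep_poly ha),
        ((gm φ).comp (unE (ep_poly ha))).comp C =
          (gm (φ ≫ spM ha (ep_poly ha) C rfl)).comp (unE ha) := fun φ => by
      rw [gm_comp, RingHom.comp_assoc, RingHom.comp_assoc, unE_nat]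
    refine ⟨fun φ ψ h => spE_hom_ext _ (Polynomial.ringHom_ext' ?_ (congrArg Prod.snd h :)), ?_⟩
    · rw [h1, h1, show φ ≫ _ = ψ ≫ _ from congrArg Prod.fst h]
    · rintro ⟨g, t⟩
      obtain ⟨φ, hφ⟩ := spE_hom_exists (ep_poly ha) (eval₂RingHom ((gm g).comp (unE ha)) t) (by
        rw [← st_nat g, ← unE_st ha]
        exact RingHom.ext fun r => eval₂_C _ _)
      refine ⟨φ, Prod.ext (spE_hom_ext ha ?_) ?_⟩
      · rw [← h1, hφ]
        exact RingHom.ext fun r => eval₂_C _ _
      · exact (RingHom.congr_fun hφ X).trans (eval₂_X _ _)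

variable [IsNoetherianRing A]

theorem locally_gen (π : A) (V : Sm A) (x : (smS A).obj V) (hx : evp V x (st V π) ≠ 0) :
    Locally (smS A) V x fun W _ => Gen π W := by
  obtain ⟨W, f, hf, hr⟩ := (isSite_sm A).exists_open V (((smS A).obj V).basicOpen (st V π))
  obtain ⟨y, rfl⟩ : x ∈ Set.range ((smS A).map f) := by
    rw [hr]
    exact (Scheme.evaluation_ne_zero_iff_mem_basicOpen _ (U := ⊤) x trivial _).1 hx
  refine ⟨W, f, y, IsNbhd.of_isOpenImmersion f y, ?_⟩
  change IsUnit (st W π)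
  rw [← st_nat f]
  refine RingedSpace.isUnit_of_isUnit_germ _ ⊤ _ fun z _ => (Scheme.mem_basicOpen_top _ _ z).1 ?_
  have hz : (smS A).map f z ∈ (((smS A).obj V).basicOpen (st V π) : Set _) := hr ▸ ⟨z, rfl⟩
  exact (Scheme.preimage_basicOpen_top ((smS A).map f) (st V π)).le hz

theorem locally_of_ev {V : Sm A} (x : (smS A).obj V)
    {Φ : ∀ (D : Type) [CommRing D], (Γ((smS A).obj V, ⊤) →+* D) → Prop} (h : Ev (evp V x) Φ) :
    Locally (smS A) V x fun W f => ∃ (D : Type) (_ : CommRing D) (g : Γ((smS A).obj V, ⊤) →+* D)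
      (ψ : D →+* Γ((smS A).obj W, ⊤)), Φ D g ∧ ψ.comp g = gm f := by
  obtain ⟨D, _, g, x', hg, hx, hΦ⟩ := h
  have : Etale (Spec.map (CommRingCat.ofHom g)) := HasRingHomProperty.Spec_iff.2 hg
  have hc : ((smS A).obj V).fromSpecResidueField x ≫ ((smS A).obj V).toSpecΓ =
      Spec.map (CommRingCat.ofHom x') ≫ Spec.map (CommRingCat.ofHom g) := by
    rw [Scheme.fromSpecResidueField, Category.assoc, Scheme.fromSpecStalk_toSpecΓ, ← Spec.map_comp,
      ← Spec.map_comp, ← CommRingCat.ofHom_comp, hx]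
    rfl
  obtain ⟨h1, h2⟩ := Geom_res_of_sec
    (pullback.fst ((smS A).obj V).toSpecΓ (Spec.map (CommRingCat.ofHom g))) x
    (pullback.lift _ _ hc) (pullback.lift_fst _ _ _) default
  obtain ⟨W, f, ι, y, hι, hf, hy⟩ := (isSite_sm A).exists_etale V
    (pullback.fst ((smS A).obj V).toSpecΓ (Spec.map (CommRingCat.ofHom g)))
    (pullback.lift _ _ hc default)
  refine ⟨W, f, y, ⟨?_, ?_, ?_⟩, D, inferInstance, g,
    ((Scheme.ΓSpecIso (.of D)).inv ≫ (ι ≫ pullback.snd _ _).appTop).hom, hΦ, ?_⟩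
  · rw [hf]
    infer_instance
  · rw [hf, Scheme.Hom.comp_apply, hy, h1]
  · rw [← hy] at h2
    rw [hf, Scheme.residueFieldMap_comp]
    infer_instance
  · have h3 : (ι ≫ pullback.snd _ _) ≫ Spec.map (CommRingCat.ofHom g) =
        (smS A).map f ≫ ((smS A).obj V).toSpecΓ := by
      rw [hf, Category.assoc, Category.assoc, pullback.condition]
    have h4 := congrArg (fun t => (Scheme.ΓSpecIso Γ((smS A).obj V, ⊤)).inv ≫ t.appTop) h3
    simp only [Scheme.Hom.comp_appTop _ (Spec.map _), Scheme.Hom.comp_appTop _ (Scheme.toSpecΓ _),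
      Scheme.toSpecΓ_appTop, Iso.inv_hom_id_assoc] at h4
    rw [← Scheme.ΓSpecIso_inv_naturality_assoc] at h4
    exact congrArg CommRingCat.Hom.hom h4

variable (A) in
/-- The spectra of `EP` algebras. -/
def IsEP (V : Sm A) : Prop :=
  ∃ (R : Type) (_ : CommRing R) (a : A →+* R) (ha : EP a), V = spE a ha

theorem locally_ep (U : Sm A) (x : (smS A).obj U) : Locally (smS A) U x fun V _ => IsEP A V := by
  have : Smooth U.obj.obj.hom := U.property
  obtain ⟨_, ⟨W, hW, rfl⟩, hx, -⟩ :=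
    U.obj.obj.left.isBasis_affineOpens.exists_subset_of_mem_open (Set.mem_univ x) isOpen_univ
  replace hW : IsAffineOpen W := hW
  obtain ⟨y, rfl⟩ : x ∈ Set.range hW.fromSpec := hW.range_fromSpec ▸ hx
  obtain ⟨ρ, hρ⟩ := Spec.map_surjective (hW.fromSpec ≫ U.obj.obj.hom)
  have h1 : ρ.hom.Smooth := by
    have : Smooth (Spec.map ρ) := hρ ▸ inferInstance
    exact HasRingHomProperty.Spec_iff.1 this
  obtain ⟨s, hs, h⟩ := h1.locally_isStandardSmooth
  obtain ⟨t, ht, hty⟩ : ∃ t ∈ s, t ∉ y.asIdeal := by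
    by_contra! h
    exact y.isPrime.ne_top (top_le_iff.1 (hs ▸ Ideal.span_le.2 h))
  obtain ⟨n, g, hg, hg'⟩ := (h t ht).exists_etale_mvPolynomial
  have ha : EP ((algebraMap _ (Localization.Away t)).comp ρ.hom) :=
    ⟨n, fun k => g (MvPolynomial.X k), by
      rw [EtN, ← hg]
      convert hg'
      exact MvPolynomial.ringHom_ext (by simp) (by simp)⟩
  let φ : spE _ ha ⟶ U := ObjectProperty.homMk (ObjectProperty.homMk (Over.homMk
    (Spec.map (CommRingCat.ofHom (algebraMap _ (Localization.Away t))) ≫ hW.fromSpec) (by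
      change _ = Spec.map (ρ ≫ CommRingCat.ofHom (algebraMap _ (Localization.Away t)))
      rw [Spec.map_comp, hρ, Category.assoc])))
  have : IsOpenImmersion ((smS A).map φ) := inferInstanceAs (IsOpenImmersion
    (Spec.map (CommRingCat.ofHom (algebraMap _ (Localization.Away t))) ≫ hW.fromSpec))
  obtain ⟨z, rfl⟩ : y ∈ Set.range (PrimeSpectrum.comap (algebraMap _ (Localization.Away t))) := by
    rw [PrimeSpectrum.localization_away_comap_range _ t]
    exact hty
  exact ⟨_, φ, z, IsNbhd.of_isOpenImmersion (u := smS A) φ z, _, _, _, ha, rfl⟩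

theorem ev_of_locally (ha : EP a) (x : R →+* K) {p : ∀ V : Sm A, (V ⟶ spE a ha) → Prop}
    (hp : ∀ V f W (g : W ⟶ V), p V f → p W (g ≫ f))
    (h : ∀ y : (smS A).obj (spE a ha), Locally (smS A) (spE a ha) y p) :
    Ev x fun _ _ g => ∃ hg : EP (g.comp a), p (spE (g.comp a) hg) (spM ha hg g rfl) := by
  obtain ⟨V, f, v, ⟨h1, h2, h3⟩, hV⟩ :=
    h (Spec.map (CommRingCat.ofHom x) (IsLocalRing.closedPoint K))
  obtain ⟨α, hα⟩ := Geom_fac (Spec.map (CommRingCat.ofHom x)) rfl
  obtain ⟨s, hs, hsv⟩ := Geom_sec_of_res ((smS A).map f) h2 h3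
  obtain ⟨_, ⟨W, hW, rfl⟩, hvW, -⟩ :=
    ((smS A).obj V).isBasis_affineOpens.exists_subset_of_mem_open (Set.mem_univ v) isOpen_univ
  replace hW : IsAffineOpen W := hW
  have hr : Set.range (Spec.map α ≫ s) ⊆ Set.range hW.fromSpec := by
    rintro _ ⟨t, rfl⟩
    rw [hW.range_fromSpec, Scheme.Hom.comp_apply]
    exact (hsv _).symm ▸ hvW
  obtain ⟨x', hx'⟩ := Spec.map_surjective (IsOpenImmersion.lift hW.fromSpec _ hr)
  obtain ⟨g, hg⟩ := Spec.map_surjective (R := .of R) (hW.fromSpec ≫ (smS A).map f)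
  have he : g.hom.Etale := by
    have : Etale (Spec.map g) := hg ▸ inferInstance
    exact HasRingHomProperty.Spec_iff.1 this
  have hx : g ≫ x' = CommRingCat.ofHom x := Spec.map_injective (by
    rw [Spec.map_comp, hx', hg, IsOpenImmersion.lift_fac_assoc, Category.assoc, hs]
    exact hα.symm)
  have hE : EP (g.hom.comp a) := ep_etale ha he
  obtain ⟨j, -, hj⟩ := (isSite_sm A).exists_lift (spM ha hE g.hom rfl) f hW.fromSpec hg.symm
  exact ⟨_, inferInstance, g.hom, x'.hom, he, congrArg CommRingCat.Hom.hom hx, hE,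
    hj ▸ hp V f _ j hV⟩

end

end Pool.Agent.KEW
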