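import Pool.Agent.P.MP_6277db_ag.KEW.L7.Alg1
import Pool.Agent.P.MP_6277db_ag.KEW.L8b.Geo0

/-!
KEW project, layer L7, row ALG2: spreading out sections, the zigzag along a divisor, descent and
lifting of etale algebras.

Hints.
* `descend_fp`: present `E` as `MvPolynomial (Fin n) R` modulo a finitely generated ideal; choose a common
  denominator `f0 ∈ M` for the images `e (X i)`, then `f1 ∈ M` killing the finitely many relations
  in the localisation of `R ⧸ I` away from `f0`; `f = f0 * f1`.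
* `genEE`: let `σ : E → Tf` be given by `descend_fp` (`Tf` = localisation of `R ⧸ I` away from `f`),
  `D` the pushout of `φ` and `c : R → Tf` (`locRed_po`), `s` from `eq_near` for `i : E → D` and
  `j.comp σ` at the point `(σ, id)`; write `s * i (φ f) ^ N = i r0`, take `r = φ f * r0`.
* `lift_etale`: `Algebra.Etale.iff_isStandardSmoothOfRelativeDimension_zero` (or a submersive
  presentation of dimension 0); multiply the relations by units from `M` so that they lift to
  `MvPolynomial _ B`; `B'` is the quotient by the lifts with the Jacobian determinant inverted.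
-/

namespace KEW.S7

universe u

open Polynomial

variable {A B R S T E W K : Type u} [CommRing A] [CommRing B] [CommRing R]
  [CommRing S] [CommRing T] [CommRing E] [CommRing W] [Field K]

theorem Alg2_exists (I : Ideal R) (N : Submonoid R) :
    ∃ (T : Type u) (_ : CommRing T) (c : R →+* T), LocRed I N c := by
  obtain ⟨T, _, l, hl⟩ := exists_loc (N.map (Ideal.Quotient.mk I))
  refine ⟨T, _, l.comp (Ideal.Quotient.mk I), fun s hs => loc_unit hl ⟨s, hs, rfl⟩, fun z => ?_,
    fun b hb => ?_, fun b hb => ?_⟩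
  · obtain ⟨r, _, ⟨s, hs, rfl⟩, e⟩ := loc_surj hl z
    obtain ⟨b, rfl⟩ := Ideal.Quotient.mk_surjective r
    exact ⟨b, s, hs, e⟩
  · rw [RingHom.comp_apply, Ideal.Quotient.eq_zero_iff_mem.2 hb, map_zero]
  · obtain ⟨_, ⟨s, hs, rfl⟩, e⟩ := loc_eq_zero hl hb
    exact ⟨s, hs, Ideal.Quotient.eq_zero_iff_mem.1 (by rw [map_mul]; exact e)⟩

theorem Alg2_lift {I : Ideal R} {f : R} {c : R →+* S} (h : LocRed I (Submonoid.powers f) c)
    (ψ : R →+* T) (hI : ∀ b ∈ I, ψ b = 0) (hf : IsUnit (ψ f)) : ∃! χ : S →+* T, χ.comp c = ψ :=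
  locRed_lift h ψ hI (by
    rintro _ ⟨n, rfl⟩
    exact map_pow ψ f n ▸ hf.pow n)

theorem Alg2_surj_lift {θ : R →+* S} (hθ : Function.Surjective θ) (a : R →+* T)
    (h : RingHom.ker θ ≤ RingHom.ker a) : ∃ d : S →+* T, d.comp θ = a :=
  ⟨θ.liftOfSurjective hθ ⟨a, h⟩, θ.liftOfRightInverse_comp _ _ _⟩

theorem Alg2_surj_ext {θ : R →+* S} (hθ : Function.Surjective θ) {d d' : S →+* T}
    (h : d.comp θ = d'.comp θ) : d = d' :=
  RingHom.ext fun y => by
    obtain ⟨r, rfl⟩ := hθ y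
    exact RingHom.congr_fun h r

theorem Alg2_po {f : R →+* S} {g : R →+* T} {i : S →+* E} {j : T →+* E} (w : i.comp f = j.comp g)
    (hex : ∀ (Z : Type u) [CommRing Z] (k : S →+* Z) (l : T →+* Z), k.comp f = l.comp g →
      ∃ d : E →+* Z, d.comp i = k ∧ d.comp j = l)
    (hun : ∀ (Z : Type u) [CommRing Z] (d d' : E →+* Z), d.comp i = d'.comp i →
      d.comp j = d'.comp j → d = d') : IsPO f g i j := by
  have H := fun s : CategoryTheory.Limits.PushoutCocone (CommRingCat.ofHom f) (CommRingCat.ofHom g) =>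
    hex s.pt s.inl.hom s.inr.hom (congrArg CommRingCat.Hom.hom s.condition)
  refine ⟨⟨CommRingCat.hom_ext w⟩, ⟨CategoryTheory.Limits.PushoutCocone.IsColimit.mk _
    (fun s => CommRingCat.ofHom (H s).choose) (fun s => CommRingCat.hom_ext (H s).choose_spec.1)
    (fun s => CommRingCat.hom_ext (H s).choose_spec.2) fun s m h1 h2 => CommRingCat.hom_ext ?_⟩⟩
  exact hun _ _ _ ((congrArg CommRingCat.Hom.hom h1).trans (H s).choose_spec.1.symm)
    ((congrArg CommRingCat.Hom.hom h2).trans (H s).choose_spec.2.symm)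

/-- The Jacobian determinant. -/
noncomputable def Alg2_jac {n : ℕ} (f : Fin n → MvPolynomial (Fin n) R) : MvPolynomial (Fin n) R :=
  Matrix.det (Matrix.of fun i j => MvPolynomial.pderiv j (f i))

theorem Alg2_jacobian [Algebra R S] {n : ℕ} (P : Algebra.PreSubmersivePresentation R S (Fin n) (Fin n))
    (hP : ∀ i, P.map i = i) : P.jacobian = MvPolynomial.aeval P.val (Alg2_jac P.relation) := by
  rw [P.jacobian_eq_jacobiMatrix_det, P.algebraMap_apply, ← Matrix.det_transpose]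
  congr 2
  ext1 i j
  rw [Matrix.transpose_apply, P.jacobiMatrix_apply, hP, Matrix.of_apply]

theorem Alg2_pres {ε : S →+* E} (hε : ε.Etale) :
    ∃ (n : ℕ) (x : Fin n → E) (f : Fin n → MvPolynomial (Fin n) S),
      Function.Surjective (MvPolynomial.eval₂Hom ε x) ∧
      RingHom.ker (MvPolynomial.eval₂Hom ε x) = Ideal.span (Set.range f) ∧
      IsUnit (MvPolynomial.eval₂Hom ε x (Alg2_jac f)) := by
  let := ε.toAlgebra
  have : Algebra.Etale S E := hε
  obtain ⟨ι, σ, _, _, P, hP⟩ :=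
    (Algebra.Etale.iff_isStandardSmoothOfRelativeDimension_zero.1 this).out
  have hb : Function.Bijective P.map :=
    P.map_inj.bijective_of_nat_card_le (Nat.sub_eq_zero_iff_le.1 hP)
  let Q := P.reindex ((Finite.equivFin σ).symm.trans (Equiv.ofBijective P.map hb))
    (Finite.equivFin σ).symm
  have hQ : ∀ i, Q.map i = i := fun i =>
    ((Finite.equivFin σ).symm.trans (Equiv.ofBijective P.map hb)).symm_apply_apply i
  refine ⟨_, Q.val, Q.relation, Q.aeval_val_surjective,
    (Q.span_range_relation_eq_ker.trans Q.ker_eq_ker_aeval_val).symm, ?_⟩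
  have h := Q.jacobian_isUnit
  rw [Alg2_jacobian _ hQ] at h
  exact h

/-- The standard etale algebra given by `n` equations in `n` variables. -/
theorem Alg2_std {n : ℕ} (g : Fin n → MvPolynomial (Fin n) B) :
    ∃ (B' : Type u) (_ : CommRing B') (π : MvPolynomial (Fin n) B →+* B'),
      (π.comp MvPolynomial.C).Etale ∧ (∀ k, π (g k) = 0) ∧
      (∀ (Z : Type u) [CommRing Z] (a : MvPolynomial (Fin n) B →+* Z), (∀ k, a (g k) = 0) →
        IsUnit (a (Alg2_jac g)) → ∃ d : B' →+* Z, d.comp π = a) ∧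
      ∀ (Z : Type u) [CommRing Z] (d d' : B' →+* Z), d.comp π = d'.comp π → d = d' := by
  let P := Algebra.PreSubmersivePresentation.naive (v := g) id Function.injective_id
  have hP : P.jacobian = Ideal.Quotient.mk _ (Alg2_jac g) := by
    rw [Alg2_jacobian P fun _ => rfl, ← P.algebraMap_apply]
    rfl
  have hl := isAway_algebraMap P.jacobian (Localization.Away P.jacobian)
  refine ⟨Localization.Away P.jacobian, inferInstance,
    (algebraMap _ _).comp (Ideal.Quotient.mk (Ideal.span (Set.range g))), ?_, fun k => ?_,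
    fun Z _ a h1 h2 => ?_, fun Z _ d d' h => ?_⟩
  · let Q : Algebra.SubmersivePresentation B (Localization.Away P.jacobian) _ _ :=
      ⟨(Algebra.PreSubmersivePresentation.localizationAway _ P.jacobian).comp P, by
        rw [Algebra.PreSubmersivePresentation.comp_jacobian_eq_jacobian_smul_jacobian,
          Algebra.PreSubmersivePresentation.localizationAway_jacobian, Algebra.smul_def]
        exact (away_unit hl).mul (away_unit hl)⟩
    exact RingHom.etale_algebraMap.2 (Algebra.Etale.iff_isStandardSmoothOfRelativeDimension_zero.2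
      (Q.isStandardSmoothOfRelativeDimension (Nat.sub_self _)))
  · rw [RingHom.comp_apply,
      Ideal.Quotient.eq_zero_iff_mem.2 (Ideal.subset_span (Set.mem_range_self k)), map_zero]
  · obtain ⟨d0, hd0⟩ := Alg2_surj_lift
      (Ideal.Quotient.mk_surjective (I := Ideal.span (Set.range g))) a (by
        rw [Ideal.mk_ker, Ideal.span_le]
        rintro _ ⟨k, rfl⟩
        exact h1 k)
    obtain ⟨d, hd⟩ := away_lift hl d0 (by rw [hP, ← RingHom.comp_apply, hd0]; exact h2)
    exact ⟨d, by rw [← RingHom.comp_assoc, hd, hd0]⟩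
  · exact away_ext hl (Alg2_surj_ext Ideal.Quotient.mk_surjective h)

theorem Alg2_denom {I : Ideal B} {M : Submonoid B} {φ : B →+* R} (h : LocRed I M φ) {ι : Type}
    (p : MvPolynomial ι R) : ∃ g : MvPolynomial ι B, ∃ s ∈ M,
      MvPolynomial.map φ g = MvPolynomial.C (φ s) * p := by
  induction p using MvPolynomial.induction_on with
  | C a =>
    obtain ⟨b, s, hs, e⟩ := h.surj a
    exact ⟨MvPolynomial.C b, s, hs, by rw [MvPolynomial.map_C, ← e, map_mul, mul_comm]⟩
  | add p q hp hq =>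
    obtain ⟨g, s, hs, e⟩ := hp
    obtain ⟨g', s', hs', e'⟩ := hq
    refine ⟨MvPolynomial.C s' * g + MvPolynomial.C s * g', s * s', M.mul_mem hs hs', ?_⟩
    simp only [map_add, map_mul, MvPolynomial.map_C, e, e']
    ring
  | mul_X p i hp =>
    obtain ⟨g, s, hs, e⟩ := hp
    exact ⟨g * MvPolynomial.X i, s, hs, by rw [map_mul, e, MvPolynomial.map_X, mul_assoc]⟩

theorem descend_fp {φ : R →+* E} (hφ : φ.FinitePresentation) {I : Ideal R} {M : Submonoid R}
    {x : R →+* T} (h : LocRed I M x) {e : E →+* T} (he : e.comp φ = x) :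
    ∃ f ∈ M, ∃ (Tf : Type u) (_ : CommRing Tf) (c : R →+* Tf) (σ : E →+* Tf) (τ : Tf →+* T),
      LocRed I (Submonoid.powers f) c ∧ σ.comp φ = c ∧ τ.comp σ = e := by
  let := φ.toAlgebra
  obtain ⟨n, θ', hs, G, hG⟩ := hφ.out
  let θ : MvPolynomial (Fin n) R →+* E := θ'.toRingHom
  have hθ : θ.comp MvPolynomial.C = φ := RingHom.ext θ'.commutes
  choose b s hsM hb using fun i => h.surj (e (θ (MvPolynomial.X i)))
  have hf0 : ∏ i, s i ∈ M := M.prod_mem fun i _ => hsM i
  obtain ⟨T0, _, c0, h0⟩ := Alg2_exists I (Submonoid.powers (∏ i, s i))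
  obtain ⟨τ0, hτ0, huniq⟩ := Alg2_lift h0 x h.zero (h.unit _ hf0)
  have hτ0' : ∀ r, τ0 (c0 r) = x r := RingHom.congr_fun hτ0
  have hu : ∀ i, IsUnit (c0 (s i)) := fun i => isUnit_of_dvd_unit
    (map_dvd c0 (Finset.dvd_prod_of_mem s (Finset.mem_univ i))) (h0.unit _ (Submonoid.mem_powers _))
  let θ0 := MvPolynomial.eval₂Hom c0 fun i => c0 (b i) * ↑(hu i).unit⁻¹
  have h1 : τ0.comp θ0 = e.comp θ := by
    refine MvPolynomial.ringHom_ext (fun r => ?_) fun i => ?_
    · simp only [θ0, RingHom.comp_apply, MvPolynomial.eval₂Hom_C, hτ0', ← he, ← hθ]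
    · refine (h.unit _ (hsM i)).mul_right_cancel ?_
      rw [RingHom.comp_apply e, hb, RingHom.comp_apply, MvPolynomial.eval₂Hom_X', ← hτ0',
        ← map_mul, mul_assoc, IsUnit.val_inv_mul, mul_one, hτ0']
  have h2 : ∀ g ∈ G, ∃ t ∈ M, c0 t * θ0 g = 0 := fun g hg => by
    obtain ⟨a, t, ht, e1⟩ := h0.surj (θ0 g)
    have e2 : θ g = 0 := by
      rw [← RingHom.mem_ker, ← hG]
      exact Ideal.subset_span hg
    obtain ⟨t', ht', e3⟩ := h.inj a (by
      rw [← hτ0', ← e1, map_mul, ← RingHom.comp_apply τ0, h1, RingHom.comp_apply, e2, map_zero,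
        zero_mul])
    refine ⟨t', ht', (h0.unit t ht).mul_right_cancel ?_⟩
    rw [mul_assoc, e1, ← map_mul, h0.zero _ e3, zero_mul]
  choose! t htM ht using h2
  have hf : (∏ i, s i) * ∏ g ∈ G, t g ∈ M := M.mul_mem hf0 (M.prod_mem htM)
  obtain ⟨Tf, _, c, hc⟩ := Alg2_exists I (Submonoid.powers ((∏ i, s i) * ∏ g ∈ G, t g))
  have hcu := hc.unit _ (Submonoid.mem_powers _)
  obtain ⟨ρ, hρ, -⟩ := Alg2_lift h0 c hc.zero
    (isUnit_of_dvd_unit (map_dvd c (dvd_mul_right _ _)) hcu)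
  obtain ⟨τ, hτ, -⟩ := Alg2_lift hc x h.zero (h.unit _ hf)
  obtain ⟨σ, hσ⟩ := Alg2_surj_lift (θ := θ) hs (ρ.comp θ0) (by
    rw [← hG, Ideal.span_le]
    intro g hg
    have e1 := congrArg ρ (ht g hg)
    rw [map_mul, map_zero, ← RingHom.comp_apply, hρ] at e1
    exact (isUnit_of_dvd_unit (map_dvd c ((Finset.dvd_prod_of_mem t hg).mul_left _))
      hcu).mul_right_eq_zero.1 e1)
  refine ⟨_, hf, Tf, _, c, σ, τ, hc, ?_, Alg2_surj_ext (θ := θ) hs ?_⟩
  · rw [← hθ, ← RingHom.comp_assoc, hσ, RingHom.comp_assoc, MvPolynomial.eval₂Hom_comp_C, hρ]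
  · rw [RingHom.comp_assoc, hσ, ← RingHom.comp_assoc,
      huniq (τ.comp ρ) ((congrArg τ.comp hρ).trans hτ), h1]

/-- A section over a localisation of `R ⧸ I` spreads out to an isomorphism of principal opens. -/
theorem genEE {φ : R →+* E} (hφ : φ.Etale) {I : Ideal R} {M : Submonoid R} {x : R →+* T}
    (h : LocRed I M x) {e : E →+* T} (he : e.comp φ = x) :
    ∃ f ∈ M, ∃ r : E, IsUnit (e r) ∧ ∀ (E' : Type u) [CommRing E'] (j : E →+* E'), IsAway j r →
      IsUnit (j (φ f)) ∧ LocRed I (Submonoid.powers f)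
        ((Ideal.Quotient.mk (I.map (j.comp φ))).comp (j.comp φ)) := by
  obtain ⟨f, hf, Tf, _, c, σ, τ, hc, hσ, hτ⟩ := descend_fp (geo_fp hφ) h he
  have hσ' : ∀ b, σ (φ b) = c b := RingHom.congr_fun hσ
  obtain ⟨D, _, i, j, hpo⟩ := exists_po φ c
  have hi := locRed_po hc hpo
  obtain ⟨p, hp1, hp2⟩ := po_desc hpo σ (RingHom.id _) (by rw [hσ, RingHom.id_comp])
  obtain ⟨s, hs1, hs2⟩ := eq_near hφ (g := i) (g' := j.comp σ)
    (by rw [po_w hpo, RingHom.comp_assoc, hσ]) (x := p)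
    (by rw [hp1, ← RingHom.comp_assoc, hp2, RingHom.id_comp])
  obtain ⟨r0, _, ⟨m, hm, rfl⟩, hr0⟩ := hi.surj s
  have hσr : IsUnit (σ (φ f * r0)) := by
    have e1 := congrArg p hr0
    rw [map_mul, hs1, one_mul, ← RingHom.comp_apply, ← RingHom.comp_apply p, hp1, hσ'] at e1
    rw [map_mul, hσ', ← e1]
    exact (hc.unit _ (Submonoid.mem_powers _)).mul (hc.unit _ hm)
  refine ⟨f, hf, φ f * r0, by rw [← hτ]; exact hσr.map τ, fun E' _ k hk => ?_⟩
  have hku := away_unit hk
  rw [map_mul, IsUnit.mul_iff] at hku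
  let q := Ideal.Quotient.mk (I.map (k.comp φ))
  have hq0 : ∀ b ∈ I, q (k (φ b)) = 0 := fun b hb =>
    Ideal.Quotient.eq_zero_iff_mem.2 (Ideal.mem_map_of_mem (k.comp φ) hb)
  have hqu : ∀ b ∈ Submonoid.powers f, IsUnit (q (k (φ b))) := by
    rintro _ ⟨n, rfl⟩
    simp only [map_pow]
    exact (hku.1.map q).pow n
  obtain ⟨κ, hκ, -⟩ := locRed_lift hi (q.comp k)
    (fun b hb => (Ideal.map_le_iff_le_comap (K := RingHom.ker (q.comp k))).2 hq0 hb)
    (by rintro _ ⟨b, hb, rfl⟩; exact hqu b hb)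
  have hκ' : ∀ y, κ (i y) = q (k y) := RingHom.congr_fun hκ
  have hκs : IsUnit (κ s) := by
    have e1 := congrArg κ hr0
    rw [map_mul, hκ' r0] at e1
    exact isUnit_of_mul_isUnit_left (e1 ▸ hku.2.map q)
  have hω : ∀ y, κ (j (σ y)) = q (k y) := fun y => by
    have e1 := congrArg κ (hs2 y)
    rw [map_mul, map_mul, hκ'] at e1
    exact (hκs.mul_left_cancel e1).symm
  refine ⟨hku.1, hqu, fun z => ?_, hq0, fun b hb => hc.inj b ?_⟩
  · obtain ⟨z, rfl⟩ := Ideal.Quotient.mk_surjective z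
    obtain ⟨y, n, e1⟩ := away_surj hk z
    obtain ⟨b, t, ht, e2⟩ := hc.surj (σ y * ↑(hσr.pow n).unit⁻¹)
    refine ⟨b, t, ht, ((hσr.pow n).map (κ.comp j)).mul_right_cancel ?_⟩
    have e3 := congrArg (fun w => κ (j (w * σ (φ f * r0) ^ n))) e2
    rw [mul_right_comm, mul_assoc (σ y), IsUnit.val_inv_mul, mul_one, ← hσ', ← hσ'] at e3
    have e4 := congrArg q e1
    simp only [map_mul, map_pow, hω, RingHom.comp_apply] at e3 e4 ⊢
    rw [← e3, ← e4]
    ring
  · obtain ⟨σ', hσ''⟩ := away_lift hk σ hσr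
    have e1 : I.map (k.comp φ) ≤ RingHom.ker σ' := Ideal.map_le_iff_le_comap.2 fun a ha => by
      change σ'.comp k (φ a) = 0
      rw [hσ'', hσ', hc.zero a ha]
    have e2 : σ'.comp k (φ b) = 0 := e1 (Ideal.Quotient.eq_zero_iff_mem.1 hb)
    rwa [hσ'', hσ'] at e2

/-- The zigzag `Spec R ← Spec V → A^1 × V(t)` of Nisnevich neighbourhoods of `V(t)`. -/
theorem zig {φ : W →+* R} {t : R} (h : Et1 φ t) :
    ((Ideal.Quotient.mk (Ideal.span {t})).comp φ).Etale ∧
    ∃ (V : Type u) (_ : CommRing V) (i : R →+* V) (j : (R ⧸ Ideal.span {t})[X] →+* V),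
      i.comp φ = j.comp (C.comp ((Ideal.Quotient.mk (Ideal.span {t})).comp φ)) ∧ i t = j X ∧
      i.Etale ∧ j.Etale ∧ ULP i (Ideal.span {t}) 1 ∧ ULP j (Ideal.span {X}) 1 := by
  obtain ⟨V, _, i, j, hi, hj, h1, h2, -⟩ := geo_zigzag h
  exact ⟨geo_hyp h, V, inferInstance, i, j, h2, h1.symm, hi.etale, hj.etale, ee_ul hi, ee_ul hj⟩

/-- Etale algebras over a localisation of a quotient of `B` come from etale `B`-algebras. -/
theorem lift_etale {I : Ideal B} {M : Submonoid B} {φ : B →+* R} (h : LocRed I M φ) {ψ : R →+* E}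
    (hψ : ψ.Etale) :
    ∃ (B' : Type u) (_ : CommRing B') (f : B →+* B') (χ : B' →+* E), f.Etale ∧ IsPO f φ χ ψ := by
  obtain ⟨n, x, f, hs, hk, hu⟩ := Alg2_pres hψ
  choose g s hsM hg using fun k => Alg2_denom h (f k)
  obtain ⟨B', _, π, h1, h2, h3, h4⟩ := Alg2_std g
  have hf : ∀ k, MvPolynomial.eval₂Hom ψ x (f k) = 0 := fun k => by
    rw [← RingHom.mem_ker, hk]
    exact Ideal.subset_span ⟨k, rfl⟩
  obtain ⟨χ, hχ⟩ := h3 E ((MvPolynomial.eval₂Hom ψ x).comp (MvPolynomial.map φ))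
    (fun k => by rw [RingHom.comp_apply, hg, map_mul, hf, mul_zero]) (by
      have e1 : MvPolynomial.map φ (Alg2_jac g) =
          (∏ k, MvPolynomial.C (φ (s k))) * Alg2_jac f := by
        rw [Alg2_jac, RingHom.map_det, Alg2_jac, ← Matrix.det_mul_column]
        congr 1
        ext1 i j
        simp [← MvPolynomial.pderiv_map, hg]
      rw [RingHom.comp_apply, e1, map_mul, map_prod]
      exact (IsUnit.prod_univ_iff.2 fun k =>
        ((h.unit _ (hsM k)).map MvPolynomial.C).map _).mul hu)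
  have hχ' : ∀ i, χ (π (MvPolynomial.X i)) = x i := fun i => by
    simpa using RingHom.congr_fun hχ (MvPolynomial.X i)
  refine ⟨B', _, _, χ, h1, Alg2_po ?_ (fun Z _ k l w => ?_) fun Z _ d d' e1 e2 => ?_⟩
  · rw [← RingHom.comp_assoc, hχ]
    ext b
    simp
  · have e1 : (MvPolynomial.eval₂Hom l fun i => k (π (MvPolynomial.X i))).comp
        (MvPolynomial.map φ) = k.comp π :=
      MvPolynomial.ringHom_ext (fun b => by simpa using (RingHom.congr_fun w b).symm)
        fun i => by simp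
    obtain ⟨d, hd⟩ := Alg2_surj_lift hs
      (MvPolynomial.eval₂Hom l fun i => k (π (MvPolynomial.X i))) (by
        rw [hk, Ideal.span_le]
        rintro _ ⟨i, rfl⟩
        have e2 := RingHom.congr_fun e1 (g i)
        rw [RingHom.comp_apply, hg, map_mul, RingHom.comp_apply, h2, map_zero] at e2
        exact (((h.unit _ (hsM i)).map MvPolynomial.C).map _).mul_right_eq_zero.1 e2)
    refine ⟨d, h4 Z _ _ ?_, ?_⟩
    · rw [RingHom.comp_assoc, hχ, ← RingHom.comp_assoc, hd, e1]
    · rw [← MvPolynomial.eval₂Hom_comp_C ψ x, ← RingHom.comp_assoc, hd,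
        MvPolynomial.eval₂Hom_comp_C]
  · refine Alg2_surj_ext hs (MvPolynomial.ringHom_ext (fun r => ?_) fun i => ?_)
    · simpa using RingHom.congr_fun e2 r
    · simpa [hχ'] using RingHom.congr_fun e1 (π (MvPolynomial.X i))

end KEW.S7
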