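import Pool.Agent.P.MP_6277db_ag.KEW.L7.Split

/-!
KEW project, layer L7, row A2GEN: a class at the generic point of the affine line which is unramified at all closed
points is constant.

Hints. `cont_loc_surj` gives `α` on `F[X][1/d]`, `d ≠ 0`. Strong induction on the degree of `d`: write `d = ω ^ r * d1` with
`ω` irreducible and prime to `d1`, `U = F[X][1/d1]`. Take `E` from `H`, invert `φ d1`, and shrink (`genEE` with `M = ⊥`,
`ee_of_locRed`) so that `U → E` is `EE (ω)`; `ζ` extends because `ker ζ ≤ ker e`. `E` is reduced and `ker ζ` is a minimal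
prime (it lies over `0` and `φ` is etale; or use `locRed_etale` with `I = ⊥` for the field `L'`: `ζ` is a lift of
`F[X] → L → L'`; note that `L'` is finite separable over `L`), so `L'` is a localisation of `E[1/ω]` and `cont_loc` shows that `β - α` dies on
`E[1/ω][1/s]`. Now `ker e = (ω)`, and by Krull's intersection theorem `s' * s = w * ω ^ k` with `e s' ≠ 0`, `e w ≠ 0`;
invert `s' * w` in `E`. `PT.a2` extends `α` to `U`. For `d` constant use `hinv`.
-/

namespace KEW.S7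

universe u w

open Polynomial

variable {κ F L : Type u} [CommRing κ] [Field F] [Field L] {m : ℕ}

section helpers

variable {E E' K L' U Uω : Type u} [CommRing E] [CommRing E'] [Field K] [Field L'] [CommRing U]
  [CommRing Uω]

theorem A2gen_krull [IsNoetherianRing E] {e : E →+* K} {ζ : E →+* L'} {w y : E} (hw : e w = 0)
    (hle : RingHom.ker ζ ≤ RingHom.ker e) (h : ∀ n : ℕ, w ^ n ∣ y) :
    ∃ s : E, ζ s ≠ 0 ∧ s * y = 0 := by
  have h1 : y ∈ (⨅ i : ℕ, (Ideal.span {w}) ^ i • ⊤ : Submodule E E) := by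
    rw [Submodule.mem_iInf]
    intro n
    rw [smul_eq_mul, Ideal.mul_top, Ideal.span_singleton_pow, Ideal.mem_span_singleton]
    exact h n
  obtain ⟨⟨r, hr⟩, h2⟩ := (Ideal.mem_iInf_smul_pow_eq_bot_iff _ y).1 h1
  obtain ⟨c, rfl⟩ := Ideal.mem_span_singleton'.1 hr
  refine ⟨1 - c * w, fun h3 => ?_, ?_⟩
  · have h4 : e (1 - c * w) = 0 := hle h3
    rw [map_sub, map_mul, hw, map_one, mul_zero, sub_zero] at h4
    exact one_ne_zero h4
  · rw [sub_mul, one_mul]
    exact sub_eq_zero.2 h2.symm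

theorem A2gen_inj [IsNoetherianRing E] {e : E →+* K} {ζ : E →+* L'} {w : E}
    (hk : RingHom.ker e = Ideal.span {w}) (hle : RingHom.ker ζ ≤ RingHom.ker e) (hw : ζ w ≠ 0)
    {y : E} (hy : ζ y = 0) : ∃ s : E, ζ s ≠ 0 ∧ s * y = 0 := by
  refine A2gen_krull (e := e) (w := w) (hk.ge (Ideal.mem_span_singleton_self w)) hle fun n => ?_
  induction n generalizing y with
  | zero => rw [pow_zero]; exact one_dvd y
  | succ n ih =>
    obtain ⟨z, rfl⟩ := Ideal.mem_span_singleton.1 (hk.le (hle hy))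
    rw [map_mul] at hy
    rw [pow_succ']
    exact mul_dvd_mul_left w (ih ((mul_eq_zero.1 hy).resolve_left hw))

theorem A2gen_fac [IsNoetherianRing E] {e : E →+* K} {ζ : E →+* L'} {w : E}
    (hk : RingHom.ker e = Ideal.span {w}) (hle : RingHom.ker ζ ≤ RingHom.ker e)
    {y : E} (hy : ζ y ≠ 0) : ∃ (n : ℕ) (v : E), e v ≠ 0 ∧ y = w ^ n * v := by
  by_contra hn
  push Not at hn
  obtain ⟨s, hs, h0⟩ := A2gen_krull (e := e) (ζ := ζ) (w := w) (y := y)
    (hk.ge (Ideal.mem_span_singleton_self w)) hle fun n => by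
      induction n with
      | zero => rw [pow_zero]; exact one_dvd y
      | succ n ih =>
        obtain ⟨v, hv⟩ := ih
        have h1 : e v = 0 := by_contra fun h => hn n v h hv
        obtain ⟨z, rfl⟩ := Ideal.mem_span_singleton.1 (hk.le h1)
        exact ⟨z, by rw [hv, pow_succ, mul_assoc]⟩
  have h2 := congrArg ζ h0
  rw [map_mul, map_zero] at h2
  exact mul_ne_zero hs hy h2

theorem A2gen_ext {e : E →+* K} {ζ : E →+* L'} (hle : RingHom.ker ζ ≤ RingHom.ker e)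
    {l : E →+* E'} {t : E} (hl : IsAway l t) {e' : E' →+* K} (he : e'.comp l = e) (ht : e t ≠ 0) :
    ∃ ζ' : E' →+* L', ζ'.comp l = ζ ∧ RingHom.ker ζ' ≤ RingHom.ker e' := by
  obtain ⟨ζ', hζ⟩ := away_lift hl ζ (Ne.isUnit fun h => ht (hle h))
  refine ⟨ζ', hζ, fun y hy => ?_⟩
  obtain ⟨x, n, h1⟩ := away_surj hl y
  have h2 := congrArg ζ' h1
  have h3 := congrArg e' h1
  rw [map_mul, RingHom.mem_ker.1 hy, zero_mul, ← RingHom.comp_apply, hζ] at h2
  rw [map_mul, map_pow, ← RingHom.comp_apply e' l, ← RingHom.comp_apply e' l, he,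
    RingHom.mem_ker.1 (hle h2.symm)] at h3
  exact (mul_eq_zero.1 h3).resolve_right (pow_ne_zero n ht)

theorem A2gen_core (P : PT.{u, w} κ m) {a : κ →+* F} (ha : IndEP a) {g ω : F[X]}
    (hω : Irreducible ω) (hc : IsCoprime g ω) {ι : F[X] →+* U} (hι : IsAway ι g) {lU : U →+* Uω}
    (hlU : IsAway lU (ι ω)) {ε : U →+* E} (hε : EE (Ideal.span {ι ω}) ε) {e : E →+* K}
    (hes : Function.Surjective e) (hk : RingHom.ker e = Ideal.span {ε (ι ω)}) {ζ : E →+* L'}
    (hres : IsRes ζ) (hle : RingHom.ker ζ ≤ RingHom.ker e) {μ : Uω →+* L'}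
    (hμ : μ.comp lU = ζ.comp ε) {b : κ →+* U} {bω : κ →+* Uω} {c : κ →+* E} {c' : κ →+* L'}
    (hb : (ι.comp C).comp a = b) (hbω : lU.comp b = bω) (hc' : ε.comp b = c)
    (h1 : ζ.comp c = c') (h2 : μ.comp bω = c') (α : P.obj bω) (β : P.obj c)
    (h : P.map μ h2 α = P.map ζ h1 β) : ∃ x : P.obj b, P.map lU hbω x = α := by
  have : IsNoetherianRing U := noeth_of_etale hι.etale
  have : IsNoetherianRing E := noeth_of_etale hε.etale
  have hζω : IsUnit (ζ (ε (ι ω))) := by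
    rw [← RingHom.comp_apply ζ ε, ← hμ]
    exact hlU.isUnit.map μ
  obtain ⟨Eω, _, lE, hlE⟩ := exists_away (ε (ι ω))
  obtain ⟨εω, hεω⟩ := away_lift hlU (lE.comp ε) hlE.isUnit
  obtain ⟨ζω, hζ⟩ := away_lift hlE ζ hζω
  have hζ' : ∀ y, ζω (lE y) = ζ y := RingHom.congr_fun hζ
  have hloc : IsLoc ζω ((IsUnit.submonoid L').comap ζω) := by
    refine loc_of (fun s hs => hs) (locRed_res (isRes_of_comp hres hζ)).surj fun y hy => ?_
    obtain ⟨x, n, h3⟩ := away_surj hlE y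
    have h4 := congrArg ζω h3
    rw [map_mul, hy, zero_mul, hζ'] at h4
    obtain ⟨s, hs, h5⟩ := A2gen_inj hk hle hζω.ne_zero h4.symm
    refine ⟨lE s, ?_, (hlE.isUnit.pow n).mul_left_eq_zero.1 ?_⟩
    · change IsUnit (ζω (lE s))
      rw [hζ']
      exact Ne.isUnit hs
    · rw [mul_assoc, h3, ← map_mul, h5, map_zero]
  have hind : IndEP (lE.comp c) := by
    subst hb hc'
    exact ((ha.polynomial.comp_etale hι.etale).comp_etale hε.etale).comp_etale hlE.etale
  have e1 : εω.comp bω = lE.comp c := by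
    rw [← hbω, ← hc', ← RingHom.comp_assoc, hεω, RingHom.comp_assoc]
  have e2 : ζω.comp (lE.comp c) = c' := by rw [← RingHom.comp_assoc, hζ, h1]
  have e3 : ζω.comp εω = μ :=
    away_ext hlU (by rw [RingHom.comp_assoc, hεω, ← RingHom.comp_assoc, hζ, hμ])
  obtain ⟨s, hs, hz⟩ := P.cont_loc hind hloc e2 (P.map εω e1 α - P.map lE rfl β) (by
    rw [map_sub, P.map_map εω ζω μ e1 e2 h2 e3, P.map_map lE ζω ζ rfl e2 h1 hζ, h, sub_self])
  obtain ⟨s0, n, h3⟩ := away_surj hlE s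
  have h4 : ζ s0 ≠ 0 := by
    rw [← hζ', ← h3, map_mul, map_pow, hζ']
    exact mul_ne_zero (IsUnit.ne_zero hs) (pow_ne_zero n hζω.ne_zero)
  obtain ⟨k, v, hv, rfl⟩ := A2gen_fac hk hle h4
  obtain ⟨E3, _, l3, hl3⟩ := exists_away v
  obtain ⟨T, _, lT, hlT⟩ := exists_away (l3 (ε (ι ω)))
  obtain ⟨τ, hτ⟩ := away_lift hlE (lT.comp l3) hlT.isUnit
  have hτ' : ∀ y, τ (lE y) = lT (l3 y) := RingHom.congr_fun hτ
  have hu : IsUnit (τ s) := by
    have h5 := congrArg τ h3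
    rw [map_mul, hτ', map_mul, map_mul, map_pow l3, map_pow lT] at h5
    exact isUnit_of_mul_isUnit_left (h5 ▸ (hlT.isUnit.pow k).mul (hl3.isUnit.map lT))
  have hee : EE (Ideal.span {ι ω}) (l3.comp ε) := by
    refine hε.comp (hl3.ee ?_)
    obtain ⟨z, hz'⟩ := hes (e v)⁻¹
    refine ⟨z, ?_⟩
    rw [Ideal.map_span, Set.image_singleton, ← hk, RingHom.mem_ker, map_sub, map_mul, hz',
      inv_mul_cancel₀ hv, map_one, sub_self]
  have e4 : τ.comp (lE.comp c) = lT.comp (l3.comp c) := by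
    rw [← RingHom.comp_assoc, hτ, RingHom.comp_assoc]
  have e5 : (τ.comp εω).comp bω = lT.comp (l3.comp c) := by rw [RingHom.comp_assoc, e1, e4]
  have h6 := hz T τ _ e4 hu
  rw [map_sub, sub_eq_zero, P.map_map εω τ _ e1 e4 e5 rfl,
    P.map_square lE τ l3 lT rfl e4 rfl rfl hτ] at h6
  exact P.a2 ha hω hc hι hlU hee hlT
    (by rw [RingHom.comp_assoc, hεω, ← RingHom.comp_assoc, hτ, RingHom.comp_assoc]) hb hbω
    (by rw [RingHom.comp_assoc, hc']) rfl e5 α _ h6

theorem A2gen_step (P : PT.{u, w} κ m) {a : κ →+* F} (ha : IndEP a) {g ω : F[X]}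
    (hω : Irreducible ω) (hc : IsCoprime g ω) {ι : F[X] →+* U} (hι : IsAway ι g) {lU : U →+* Uω}
    (hlU : IsAway lU (ι ω)) {φ : F[X] →+* E} (hφ : φ.Etale) {e : E →+* K}
    (hes : Function.Surjective (e.comp φ)) (h0 : e (φ ω) = 0) {ζ : E →+* L'}
    (hres : IsRes ζ) (hle : RingHom.ker ζ ≤ RingHom.ker e) {μ : Uω →+* L'}
    (hμ : μ.comp (lU.comp ι) = ζ.comp φ) {b : κ →+* U} {bω : κ →+* Uω} {c' : κ →+* L'}
    (hb : (ι.comp C).comp a = b) (hbω : lU.comp b = bω)
    (h1 : ζ.comp ((φ.comp C).comp a) = c') (h2 : μ.comp bω = c') (α : P.obj bω)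
    (β : P.obj ((φ.comp C).comp a)) (h : P.map μ h2 α = P.map ζ h1 β) :
    ∃ x : P.obj b, P.map lU hbω x = α := by
  have hg : ∀ x : F[X], e (φ x) = 0 → ω ∣ x := fun x hx =>
    (hω.isCoprime_or_dvd x).resolve_left fun hcop => by
      obtain ⟨p, q, hpq⟩ := hcop
      have h3 := congrArg (fun y => e (φ y)) hpq
      simp only [map_add, map_mul, map_one, h0, hx, mul_zero, add_zero] at h3
      exact zero_ne_one h3
  have hg0 : e (φ g) ≠ 0 := fun hx => hω.not_isUnit (hc.symm.isUnit_of_dvd (hg g hx))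
  obtain ⟨E1, _, j1, hj1⟩ := exists_away (φ g)
  obtain ⟨ε1, hε1⟩ := away_lift hι (j1.comp φ) hj1.isUnit
  obtain ⟨e1, he1⟩ := away_lift hj1 e (Ne.isUnit hg0)
  obtain ⟨ζ1, hζ1, hle1⟩ := A2gen_ext hle hj1 he1 hg0
  have het : ε1.Etale := etale_of_comp hι.etale (hε1 ▸ etale_comp hφ hj1.etale)
  have hπ : (e1.comp ε1).comp ι = e.comp φ := by
    rw [RingHom.comp_assoc, hε1, ← RingHom.comp_assoc, he1]
  have hπ' : ∀ x, e1.comp ε1 (ι x) = e (φ x) := RingHom.congr_fun hπ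
  have hsur : Function.Surjective (e1.comp ε1) := fun z => by
    obtain ⟨x, hx⟩ := hes z
    exact ⟨ι x, (hπ' x).trans hx⟩
  have hker : RingHom.ker (e1.comp ε1) = Ideal.span {ι ω} := by
    refine le_antisymm (fun y hy => ?_) ?_
    · obtain ⟨x, n, h3⟩ := away_surj hι y
      have h4 := congrArg (e1.comp ε1) h3
      rw [map_mul, RingHom.mem_ker.1 hy, zero_mul, hπ'] at h4
      rw [Ideal.mem_span_singleton, ← (hι.isUnit.pow n).dvd_mul_right, h3]
      exact map_dvd ι (hg x h4.symm)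
    · rw [Ideal.span_singleton_le_iff_mem, RingHom.mem_ker, hπ', h0]
  obtain ⟨t, E2, _, l, e2, ht, hl, he2, hee, hk⟩ := exists_ee_of_section het hsur e1 rfl
  rw [hker] at hee hk
  rw [Ideal.map_span, Set.image_singleton] at hk
  obtain ⟨ζ2, hζ2, hle2⟩ := A2gen_ext hle1 hl he2 (by rw [ht]; exact one_ne_zero)
  have e3 : ζ2.comp (l.comp j1) = ζ := by rw [← RingHom.comp_assoc, hζ2, hζ1]
  have e4 : (l.comp j1).comp ((φ.comp C).comp a) = (l.comp ε1).comp b := by
    rw [← hb]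
    exact congrArg (fun y : F[X] →+* E1 => l.comp ((y.comp C).comp a)) hε1.symm
  have e5 : ζ2.comp ((l.comp ε1).comp b) = c' := by rw [← e4, ← RingHom.comp_assoc, e3, h1]
  refine A2gen_core P ha hω hc hι hlU hee (e := e2) (fun z => ?_) hk (isRes_of_comp hres e3) hle2
    (μ := μ) (away_ext hι ?_) hb hbω rfl e5 h2 α (P.map (l.comp j1) e4 β) ?_
  · obtain ⟨x, hx⟩ := hsur z
    exact ⟨l (ε1 x), (RingHom.congr_fun he2 _).trans hx⟩
  · rw [RingHom.comp_assoc, hμ, ← e3, RingHom.comp_assoc, RingHom.comp_assoc, RingHom.comp_assoc,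
      RingHom.comp_assoc, hε1]
  · rw [h, P.map_map _ ζ2 ζ e4 e5 h1 e3]

end helpers

theorem a2gen (P : PT.{u, w} κ m) {a : κ →+* F} (ha : IndEP a) {ξ : F[X] →+* L}
    (hξ : IsLoc ξ (nonZeroDivisors F[X])) {cL : κ →+* L} (hcL : (ξ.comp C).comp a = cL)
    (α : P.obj cL)
    (H : ∀ ω : F[X], Irreducible ω → ∃ (E K L' : Type u) (_ : CommRing E) (_ : Field K)
      (_ : Field L') (φ : F[X] →+* E) (e : E →+* K) (ζ : E →+* L') (ι : L →+* L') (c' : κ →+* L')
      (h1 : ζ.comp ((φ.comp C).comp a) = c') (h2 : ι.comp cL = c') (β : P.obj ((φ.comp C).comp a)),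
      φ.Etale ∧ Function.Surjective (e.comp φ) ∧ e (φ ω) = 0 ∧ ζ.comp φ = ι.comp ξ ∧ IsRes ζ ∧
      RingHom.ker ζ ≤ RingHom.ker e ∧ P.map ζ h1 β = P.map ι h2 α) :
    ∃ α0 : P.obj a, P.map (ξ.comp C) hcL α0 = α := by
  have key : ∀ d : F[X], d ≠ 0 → (∀ (R1 : Type u) [CommRing R1] (l1 : F[X] →+* R1) (l2 : R1 →+* L)
      (a1 : κ →+* R1) (_ : l1.comp (C.comp a) = a1) (h2 : l2.comp a1 = cL), IsAway l1 d →
      l2.comp l1 = ξ → ∃ x1 : P.obj a1, P.map l2 h2 x1 = α) →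
      ∃ α0 : P.obj a, P.map (ξ.comp C) hcL α0 = α := by
    intro d
    induction d using WfDvdMonoid.induction_on_irreducible with
    | zero => exact fun h => absurd rfl h
    | unit d hd =>
      intro _ h
      obtain ⟨x1, hx⟩ := h F[X] (RingHom.id _) ξ (C.comp a) rfl hcL
        (isAway_of_bijective Function.bijective_id hd) rfl
      obtain ⟨α0, rfl⟩ := P.hinv ha x1
      exact ⟨α0, by rw [← hx, P.map_map C ξ (ξ.comp C) rfl hcL hcL rfl]⟩
    | mul g ω hg hω ih =>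
      intro _ h
      refine ih hg fun U _ ι l2 b hb h2 hι hl => ?_
      rcases hω.isCoprime_or_dvd g with hc | hc
      · obtain ⟨Uω, _, lU, hlU⟩ := exists_away (ι ω)
        obtain ⟨l3, hl3⟩ := away_lift hlU l2 (by
          rw [← RingHom.comp_apply, hl]
          exact loc_unit hξ (mem_nonZeroDivisors_of_ne_zero hω.ne_zero))
        have e1 : l3.comp (lU.comp b) = cL := by rw [← RingHom.comp_assoc, hl3, h2]
        have e2 : l3.comp (lU.comp ι) = ξ := by rw [← RingHom.comp_assoc, hl3, hl]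
        obtain ⟨x1, hx⟩ := h Uω (lU.comp ι) l3 (lU.comp b) (by rw [← hb]; rfl) e1
          (mul_comm g ω ▸ hι.comp hlU) e2
        obtain ⟨E, K, L', _, _, _, φ, e, ζ, ι', c', h3, h4, β, b1, b2, b3, b4, b5, b6, b7⟩ := H ω hω
        have e3 : (ι'.comp l3).comp (lU.comp b) = c' := by rw [RingHom.comp_assoc, e1, h4]
        obtain ⟨x, rfl⟩ := A2gen_step P ha hω hc.symm hι hlU b1 b2 b3 b5 b6 (μ := ι'.comp l3)
          (by rw [RingHom.comp_assoc, e2, b4]) hb rfl h3 e3 x1 β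
          (by rw [b7, ← hx, P.map_map l3 ι' _ e1 h4 e3 rfl])
        exact ⟨x, by rw [← hx, P.map_map lU l3 l2 rfl e1 h2 hl3]⟩
      · exact h U ι l2 b hb h2 (hι.of_dvd_pow (n := 1) (k := 2) (by rw [pow_one]; exact dvd_mul_left _ _)
          (by rw [sq]; exact mul_dvd_mul_right hc g)) hl
  obtain ⟨d, hd, h⟩ := P.cont_loc_surj ha.polynomial hξ hcL α
  exact key d (nonZeroDivisors.ne_zero hd) h

end KEW.S7
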