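import Pool.Agent.P.MP_6277db_ag.KEW.L7.Split

/-!
KEW project, layer L7, row A3H: splitting at a closed point of the affine line over a generic point.

Hints. `U` = pushout of `l` and `mapRingHom x`, a localisation of `F[X]` away from `d.map x`; `μ : R → U` is `LocRed` for
`M` = image of `{s | x s ≠ 0}` under `l.comp C` (`locRed_res`, `locRed_poly`, `locRed_po`). `y` factors as `yU.comp μ` and
`yU` is onto with kernel `(ω)` (the image of `F[X]` in `K` is the field `F[X]/ω`; use `IsRes y`), so `y` is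
`LocRed (π, ω) M`. First shrink `E` by `genEE` for `y` (this gives `s1` and `ULP (π, ω) (l (C s1))`, and the base change
`U → E_U` is `EE (ω)`). `PT.a3` gives `f` in `E_U`; write `f * ν s = ν f̃`, replace `E` by `Ẽ = E[1/f̃]` (the point `e` extends;
apply `genEE` once more, or check `ULP` directly: after inverting some `s2` the element `f̃` is a unit modulo `(π, ω)`).
Then `splitDesc`, `splitAt_pull`, `ul_away` with `s = s1 s2 s3`.
-/

namespace KEW.S7

universe u v w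

open Polynomial

variable {A κ : Type u} [CommRing A] [Field κ] {π : A} {ρ : A →+* κ} {m : ℕ} {g : RF.{u, v} A}

theorem A3H_point {F K U : Type u} [Field F] [Field K] [CommRing U] {d ω : F[X]}
    (hω : Irreducible ω) {ι : F[X] →+* U} (hι : IsAway ι d) {y : U →+* K} (hy : IsRes y)
    (h0 : y (ι ω) = 0) :
    IsCoprime d ω ∧ Function.Surjective y ∧ RingHom.ker y = Ideal.span {ι ω} := by
  have hco : ∀ p : F[X], y (ι p) ≠ 0 → IsCoprime p ω := by
    intro p hp
    refine ((hω.coprime_iff_not_dvd).2 ?_).symm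
    rintro ⟨q, rfl⟩
    exact hp (by rw [map_mul, map_mul, h0, zero_mul])
  have hd : y (ι d) ≠ 0 := ((away_unit hι).map y).ne_zero
  refine ⟨hco d hd, fun z => ?_, le_antisymm (fun u hu => ?_) ?_⟩
  · obtain ⟨r, s, hs, e⟩ := hy z
    obtain ⟨p, n, hp⟩ := away_surj hι s
    have hp' : y s * y (ι d) ^ n = y (ι p) := by rw [← hp, map_mul, map_pow]
    have hp0 : y (ι p) ≠ 0 := hp' ▸ mul_ne_zero hs (pow_ne_zero n hd)
    obtain ⟨a, b, hab⟩ := hco p hp0
    have h1 : y (ι a) * y (ι p) = 1 := by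
      have := congrArg (fun q => y (ι q)) hab
      simpa [h0] using this
    refine ⟨r * ι d ^ n * ι a, ?_⟩
    rw [map_mul, map_mul, map_pow, ← e]
    linear_combination z * y (ι a) * hp' + z * h1
  · obtain ⟨p, n, hp⟩ := away_surj hι u
    have hp0 : y (ι p) = 0 := by
      rw [← hp, map_mul, RingHom.mem_ker.mp hu, zero_mul]
    have hdv : ω ∣ p := by
      by_contra hn
      obtain ⟨a, b, hab⟩ := (hω.coprime_iff_not_dvd).2 hn
      have := congrArg (fun q => y (ι q)) hab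
      simp [h0, hp0] at this
    obtain ⟨q, rfl⟩ := hdv
    obtain ⟨v, hv⟩ := ((away_unit hι).pow n).exists_right_inv
    refine Ideal.mem_span_singleton'.2 ⟨ι q * v, ?_⟩
    rw [map_mul] at hp
    linear_combination -v * hp + u * hv
  · rw [Ideal.span_le, Set.singleton_subset_iff]
    exact h0

theorem a3H (hb : Base π ρ m) (hh : HasPT.{u, v, w} π ρ m g) (hU : g.UI π) : g.A3 π := by
  intro B F R K E Eω _ _ _ _ _ _ β x d ω l y ι φ e j b hβ hr hx hω hl hy hι hyω hφ he hj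
  obtain ⟨P, ⟨c⟩⟩ := hh
  have hxπ : x (β π) = 0 := by
    rw [← RingHom.mem_ker, hx]
    exact Ideal.mem_span_singleton_self _
  obtain ⟨k, hk⟩ := exists_kappa hb (x.comp β) hxπ
  have ak : ∀ r, k (ρ r) = x (β r) := fun r => RingHom.congr_fun hk r
  have aι : ∀ r, y (l (C r)) = ι (x r) := fun r => (RingHom.congr_fun hι r).symm
  have ae : ∀ r, e (φ r) = y r := fun r => RingHom.congr_fun he r
  have hres : LocRed (Ideal.span {β π}) ((IsUnit.submonoid F).comap x) x := hx ▸ locRed_res hr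
  have hind : IndEP k := indEP_locRed hb hβ hres hk.symm
  obtain ⟨U, _, μ, ιU, hpoU⟩ := exists_po l (mapRingHom x)
  have wU : ∀ p, μ (l p) = ιU (p.map x) := fun p => hpoU.comm_apply p
  have hιU : IsAway ιU (d.map x) := hpoU.isAway hl
  set M : Submonoid R := (((IsUnit.submonoid F).comap x).map (C : B →+* B[X])).map l with hM
  have hμ : LocRed (Ideal.span {(l.comp (C.comp β)) π}) M μ := by
    have := locRed_po (locRed_poly hres) hpoU
    rwa [Ideal.map_span, Set.image_singleton, Ideal.map_span, Set.image_singleton] at this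
  have hMs : ∀ s ∈ M, ∃ s0 : B, x s0 ≠ 0 ∧ l (C s0) = s := by
    rintro _ ⟨_, ⟨s0, h0, rfl⟩, rfl⟩
    exact ⟨s0, IsUnit.ne_zero h0, rfl⟩
  obtain ⟨yU, hyU, -⟩ := po_desc hpoU y (eval₂RingHom ι (y (l X)))
    (Polynomial.ringHom_ext (fun r => by simp [aι]) (by simp))
  have ayU : ∀ r, yU (μ r) = y r := fun r => RingHom.congr_fun hyU r
  obtain ⟨hc, hsurj, hker⟩ := A3H_point hω hιU (isRes_of_comp hy hyU) (by rw [← wU, ayU, hyω])
  have hyL : LocRed (Ideal.span {l (C (β π)), l ω}) M y := by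
    refine ⟨fun s hs => ?_, fun z => ?_, fun r hr => ?_, fun r hr => ?_⟩
    · rw [← ayU]
      exact (hμ.unit s hs).map yU
    · obtain ⟨u, rfl⟩ := hsurj z
      obtain ⟨r, s, hs, e1⟩ := hμ.surj u
      exact ⟨r, s, hs, by rw [← ayU, ← ayU, ← e1, map_mul]⟩
    · obtain ⟨a1, a2, rfl⟩ := Ideal.mem_span_pair.mp hr
      simp [aι, hxπ, hyω]
    · have h1 : μ r ∈ RingHom.ker yU := by rw [RingHom.mem_ker, ayU, hr]
      rw [hker, ← wU] at h1
      obtain ⟨u, hu⟩ := Ideal.mem_span_singleton'.mp h1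
      obtain ⟨r', s, hs, e1⟩ := hμ.surj u
      obtain ⟨s', hs', e2⟩ := hμ.inj (s * r - r' * l ω) (by
        rw [map_sub, map_mul, map_mul, ← hu, ← e1]
        ring)
      obtain ⟨a1, ha1⟩ := Ideal.mem_span_singleton'.mp e2
      refine ⟨s' * s, M.mul_mem hs' hs, Ideal.mem_span_pair.mpr ⟨a1, s' * r', ?_⟩⟩
      have : (l.comp (C.comp β)) π = l (C (β π)) := rfl
      rw [this] at ha1
      linear_combination ha1
  obtain ⟨EU, _, ν, ε, hpoE⟩ := exists_po φ μ
  have wE : ∀ r, ν (φ r) = ε (μ r) := fun r => hpoE.comm_apply r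
  have hε : ε.Etale := po_etale hpoE hφ
  obtain ⟨eU, -, heU⟩ := po_desc hpoE e yU (he.trans hyU.symm)
  obtain ⟨e0, E0, _, l0, s0, -, hl0, -, hEE, -⟩ := exists_ee_of_section hε hsurj eU heU
  rw [hker] at hEE
  obtain ⟨Uω, _, lU, hlU⟩ := exists_away (ιU (ω.map x))
  obtain ⟨E0ω, _, lE, hlE⟩ := exists_away ((l0.comp ε) (ιU (ω.map x)))
  obtain ⟨εω, hεω⟩ := away_lift hlU (lE.comp (l0.comp ε)) (away_unit hlE :)
  have aεω : ∀ u, εω (lU u) = lE (l0 (ε u)) := fun u => RingHom.congr_fun hεω u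
  have h0 : εω.comp (lU.comp ((ιU.comp C).comp k)) =
      lE.comp ((l0.comp ε).comp ((ιU.comp C).comp k)) := by
    ext r
    simp [aεω]
  obtain ⟨f, hf, hA⟩ := P.a3 hind hω hc hιU hlU hEE hlE hεω rfl rfl rfl rfl h0
  obtain ⟨E1, _, l1, hl1⟩ := exists_away f
  obtain ⟨E2, _, l2, hl2⟩ := exists_away (l1 ((l0.comp ε) (ιU (ω.map x))))
  obtain ⟨k', hk'⟩ := away_lift hlE (l2.comp l1) (away_unit hl2 :)
  have ak' : ∀ u, k' (lE u) = l2 (l1 u) := fun u => RingHom.congr_fun hk' u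
  have hEE1 : EE (Ideal.span {ιU (ω.map x)}) (l1.comp (l0.comp ε)) := by
    refine hEE.comp (hl1.ee ?_)
    obtain ⟨a1, a2, h⟩ := hf
    refine ⟨a1, ?_⟩
    rw [Ideal.map_span, Set.image_singleton]
    exact Ideal.mem_span_singleton'.mpr ⟨-a2, by linear_combination -h⟩
  obtain ⟨e1, he1⟩ := hEE1.exists_retract yU (fun u hu => by rwa [← hker] at hu)
  have ae1 : ∀ u, e1 (l1 (l0 (ε u))) = yU u := fun u => RingHom.congr_fun he1 u
  obtain ⟨Et, _, f1, χ, hf1, hpo2⟩ := lift_etale (locRed_po hμ hpoE)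
    (etale_comp (away_etale hl0) (away_etale hl1))
  have hpo : IsPO (f1.comp φ) μ χ ((l1.comp l0).comp ε) := hpoE.paste' hpo2
  have w2 : ∀ r, χ (f1 (φ r)) = l1 (l0 (ε (μ r))) := fun r => hpo.comm_apply r
  have w2' : ∀ z, χ (f1 z) = l1 (l0 (ν z)) := fun z => hpo2.comm_apply z
  have hφt : (f1.comp φ).Etale := etale_comp hφ hf1
  have ha : EP (l.comp (C.comp β)) := ep_away (ep_poly hβ) hl
  obtain ⟨Tt, _, jt, hjt⟩ := exists_away ((f1.comp φ) (l ω))
  have hlU' : IsAway lU (μ (l ω)) := by rw [wU]; exact hlU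
  have hl2' : IsAway l2 (χ ((f1.comp φ) (l ω))) := by
    rw [RingHom.comp_apply, w2, wU]
    exact hl2
  obtain ⟨τ, hτ⟩ := away_lift hjt (l2.comp χ) (away_unit hl2' :)
  obtain ⟨kω, hkω⟩ := away_lift hj (jt.comp f1) (away_unit hjt :)
  obtain ⟨τ0, hτ0⟩ := away_lift hj (lE.comp (l0.comp ν)) (by
    simpa [wE, wU] using away_unit hlE)
  have aτ : ∀ z, τ (jt z) = l2 (χ z) := fun z => RingHom.congr_fun hτ z
  have akω : ∀ z, kω (j z) = jt (f1 z) := fun z => RingHom.congr_fun hkω z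
  have aτ0 : ∀ z, τ0 (j z) = lE (l0 (ν z)) := fun z => RingHom.congr_fun hτ0 z
  have h1 : kω.comp (j.comp (φ.comp (l.comp (C.comp β)))) =
      jt.comp ((f1.comp φ).comp (l.comp (C.comp β))) := by
    ext r
    simp [akω]
  have hr' : μ.comp (l.comp (C.comp β)) = ((ιU.comp C).comp k).comp ρ := by
    ext r
    simp [wU, ak]
  have w3 : (k'.comp εω).comp lU = l2.comp ((l1.comp l0).comp ε) := by
    ext u
    simp [aεω, ak']
  have h3 : (k'.comp εω).comp (lU.comp ((ιU.comp C).comp k)) =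
      l2.comp (((l1.comp l0).comp ε).comp ((ιU.comp C).comp k)) := by
    ext r
    simp [aεω, ak']
  have h5 : τ.comp (jt.comp ((f1.comp φ).comp (l.comp (C.comp β)))) =
      (l2.comp (((l1.comp l0).comp ε).comp ((ιU.comp C).comp k))).comp ρ := by
    ext r
    simp [aτ, w2, wU, ak]
  have h6 : τ0.comp (j.comp (φ.comp (l.comp (C.comp β)))) =
      (lE.comp ((l0.comp ε).comp ((ιU.comp C).comp k))).comp ρ := by
    ext r
    simp [aτ0, wE, wU, ak]
  have h7 : k'.comp (lE.comp ((l0.comp ε).comp ((ιU.comp C).comp k))) =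
      l2.comp (((l1.comp l0).comp ε).comp ((ιU.comp C).comp k)) := by
    ext r
    simp [ak']
  have hEω : EP (j.comp (φ.comp (l.comp (C.comp β)))) := ep_away (ep_etale ha hφ) hj
  have hTt : EP (jt.comp ((f1.comp φ).comp (l.comp (C.comp β)))) := ep_away (ep_etale ha hφt) hjt
  have hiU : IndEP ((ιU.comp C).comp k) := hind.polynomial.comp_etale (away_etale hιU)
  have hict : IndEP (lE.comp ((l0.comp ε).comp ((ιU.comp C).comp k))) :=
    (hiU.comp_etale hEE.etale).comp_etale (away_etale hlE)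
  have hicT : IndEP (l2.comp (((l1.comp l0).comp ε).comp ((ιU.comp C).comp k))) :=
    (hiU.comp_etale hEE1.etale).comp_etale (away_etale hl2)
  obtain ⟨α, β', hαβ⟩ := hA E1 E2 l1 l2 k' (((l1.comp l0).comp ε).comp ((ιU.comp C).comp k))
    (l2.comp (((l1.comp l0).comp ε).comp ((ιU.comp C).comp k))) rfl rfl h7 hl1 hl2 hk'
    (c.c τ0 h6 b)
  have e1' : τ.comp kω = k'.comp τ0 := away_ext hj (by
    ext z
    simp [akω, aτ, aτ0, ak', w2'])
  have hs : c.c τ h5 (g.map kω h1 b) = P.map (k'.comp εω) h3 α + P.map l2 rfl β' := by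
    have h9 : (τ.comp kω).comp (j.comp (φ.comp (l.comp (C.comp β)))) =
        (l2.comp (((l1.comp l0).comp ε).comp ((ιU.comp C).comp k))).comp ρ := by
      rw [RingHom.comp_assoc, h1, h5]
    have h10 : (k'.comp τ0).comp (j.comp (φ.comp (l.comp (C.comp β)))) =
        (l2.comp (((l1.comp l0).comp ε).comp ((ιU.comp C).comp k))).comp ρ := e1' ▸ h9
    rw [c.c_left kω τ h1 h5 h9 hEω hTt hicT, ← P.map_comp εω k' h0 h7 h3, ← hαβ,
      c.c_right τ0 k' h6 h7 h10 hEω hict hicT]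
    clear hαβ
    revert h9 h10
    rw [e1']
    intro h9 h10
    rfl
  obtain ⟨s3, hs3, hsp⟩ := splitDesc hb c hU ha hφt hjt hμ hpo hlU' hl2' w3 hτ hr' rfl rfl h3 rfl h5
    (g.map kω h1 b) α β' hs
  obtain ⟨s1, hs1, r, -, hg⟩ := genEE hφt hyL (e := e1.comp χ) (by
    ext z
    simp [w2, ae1, ayU])
  obtain ⟨t3, ht3, rfl⟩ := hMs s3 hs3
  obtain ⟨t1, ht1, rfl⟩ := hMs s1 hs1
  obtain ⟨Eh, _, jr, hjr⟩ := exists_away r
  have hul := ul_of_locRed (hg Eh jr hjr).2
  obtain ⟨R3, _, l3, hl3⟩ := exists_away (l (C t3))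
  obtain ⟨E3, _, k3, hk3⟩ := exists_away ((f1.comp φ) (l (C t3)))
  obtain ⟨φ3, hφ3⟩ := away_lift hl3 (k3.comp (f1.comp φ)) (away_unit hk3 :)
  have hφ3e : φ3.Etale := etale_of_comp (away_etale hl3)
    (hφ3 ▸ etale_comp hφt (away_etale hk3))
  have hsp' := hsp R3 E3 l3 k3 φ3 hl3 hk3 hφ3
  obtain ⟨R', _, l', hl'⟩ := exists_away (l (C (t1 * t3)))
  obtain ⟨E', _, k4, hk4⟩ := exists_away ((jr.comp (f1.comp φ)) (l (C (t1 * t3))))
  obtain ⟨φ', hφ'⟩ := away_lift hl' (k4.comp (jr.comp (f1.comp φ))) (away_unit hk4 :)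
  have hφ'e : φ'.Etale := etale_of_comp (away_etale hl')
    (hφ' ▸ etale_comp (etale_comp hφt (away_etale hjr)) (away_etale hk4))
  have hu1 : IsUnit (l' (l (C t1)) * l' (l (C t3))) := by simpa using away_unit hl'
  have hu2 : IsUnit (k4 (jr (f1 (φ (l (C t1))))) * k4 (jr (f1 (φ (l (C t3)))))) := by
    simpa using away_unit hk4
  obtain ⟨l4, hl4⟩ := away_lift hl3 l' (isUnit_of_mul_isUnit_right hu1)
  obtain ⟨k5, hk5⟩ := away_lift hk3 (k4.comp jr) (isUnit_of_mul_isUnit_right hu2)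
  have ak5 : k5.comp (k3.comp f1) = (k4.comp jr).comp f1 := by rw [← RingHom.comp_assoc, hk5]
  refine ⟨t1 * t3, R', E', inferInstance, inferInstance, l', φ', (k5.comp k3).comp f1,
    mul_ne_zero_iff.mpr ⟨ht1, ht3⟩ |> fun h => by rw [map_mul]; exact h, hl', hφ'e, ?_, ?_, ?_⟩
  · rw [hk5, hφ']
    rfl
  · refine ul_away hul hl' hk4 hφ'.symm fun L _ z hz => ⟨fun r hr => hz _ ?_, ?_⟩
    · have := Ideal.mem_map_of_mem l' hr
      rwa [Ideal.map_span, Set.image_pair] at this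
    · exact ((isUnit_of_mul_isUnit_left hu1).map z).ne_zero
  · refine splitAt_pull hkω h1 hTt (splitAt_push hsp' (ep_away ha hl3) hφ3e l4 k5 ?_
      (RingHom.congr_fun hl4 _) ?_ (ep_away ha hl') hφ'e)
    · rw [← RingHom.comp_assoc, hl4]
    · refine away_ext hl3 ?_
      rw [RingHom.comp_assoc, hl4, hφ', RingHom.comp_assoc, hφ3]
      exact (congrArg (fun t => RingHom.comp t (f1.comp φ)) hk5).symm

end KEW.S7
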