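import Pool.Agent.P.MP_6277db_ag.KEW.L7.Alg2

/-!
KEW project, layer L7, row ALG3: non-nilpotence, reducedness, generic points, `IndEP`.

Hints.
* `nz_etale`: by flatness `(I.map φ : φ f ^ n) = (I : f ^ n).map φ` (tensor the exact sequence
  `0 → (I : g) → R → R ⧸ I`, or use the equational criterion `Module.Flat.exists_factorization_of_apply_eq_zero_of_free`
  for the flat `R ⧸ I`-module `E ⧸ I E`).
* `ep_quot`: base change of `EtN a x` along `MvPolynomial.map ρ`; the quotient `R ⧸ (a π)` is the pushout.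
* `radical_ep`: `R ⧸ (a π)` is etale over the domain `D = MvPolynomial _ κ`, so flat, hence torsion free, so it
  embeds in its base change to `FractionRing D`, which is reduced
  (`Algebra.FormallyUnramified.isReduced_of_field`).
* `indEP_locRed`: `descend_fp` (with `I = ⊥` on `R ⧸ (a π)`, or directly on the pushout of `d` with `κ → B ⧸ π`).
-/

namespace KEW.S7

universe u

open Polynomial

variable {A B R S T E κ K : Type u} [CommRing A] [CommRing B] [CommRing R]
  [CommRing S] [CommRing T] [CommRing E] [Field κ] [Field K] {π : A} {ρ : A →+* κ} {m : ℕ}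

theorem nz_etale {φ : R →+* E} (hφ : φ.Etale) {I : Ideal R} {x : R →+* K} {y : E →+* K}
    (e : y.comp φ = x) {f : R} (h : NZ I x f) : NZ (I.map φ) y (φ f) := by
  intro s n hs
  algebraize [φ]
  obtain ⟨k, c, g, hg⟩ := Submodule.mem_span_set'.1 hs
  choose r hr hr' using fun i => (g i).2
  obtain ⟨l, b, z, h1, h2⟩ := Module.Flat.isTrivialRelation_of_sum_smul_eq_zero (R := R) (M := E)
    (ι := Option (Fin k)) (f := fun o => o.elim (f ^ n) fun i => -r i)
    (x := fun o => o.elim s c) (by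
      rw [Fintype.sum_option]
      simp only [Option.elim, Algebra.smul_def, map_neg, RingHom.algebraMap_toAlgebra, hr',
        neg_mul, Finset.sum_neg_distrib, map_pow]
      rw [mul_comm, ← hg, add_neg_eq_zero]
      exact Finset.sum_congr rfl fun i _ => mul_comm _ _)
  have h3 : ∀ j, x (b none j) = 0 := fun j => h _ n (by
    have h4 := h2 j
    rw [Fintype.sum_option, add_eq_zero_iff_eq_neg] at h4
    rw [mul_comm]
    exact h4.symm ▸ I.neg_mem (I.sum_mem fun i _ => I.mul_mem_right _ (I.neg_mem (hr i))))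
  have h5 : s = ∑ j, b none j • z j := h1 none
  rw [h5, map_sum]
  refine Finset.sum_eq_zero fun j _ => ?_
  rw [Algebra.smul_def, map_mul, RingHom.algebraMap_toAlgebra, ← RingHom.comp_apply, e, h3,
    zero_mul]

theorem nz_of_prime {I : Ideal R} (hI : I.IsPrime) {x : R →+* K} (hx : ∀ r ∈ I, x r = 0) {f : R}
    (hf : f ∉ I) : NZ I x f := by
  intro s n hs
  exact hx s ((hI.mem_or_mem hs).resolve_right fun h => hf (hI.mem_of_pow_mem n h))

theorem nz_X (r : R) {x : R[X] →+* K} (hx : x (C r) = 0) : NZ (Ideal.span {C r}) x X := by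
  intro s n hs
  rw [Ideal.mem_span_singleton, C_dvd_iff_dvd_coeff] at hs
  obtain ⟨t, rfl⟩ : C r ∣ s := (C_dvd_iff_dvd_coeff _ _).2 fun i => by
    simpa only [coeff_mul_X_pow] using hs (i + n)
  rw [map_mul, hx, zero_mul]

/-- A generic point of `V(I)` in `D(f)` which specialises to `x`. -/
theorem exists_gen {I : Ideal R} {x : R →+* K} {f : R} (h : NZ I x f) :
    ∃ (L : Type u) (_ : Field L) (ζ : R →+* L), IsRes ζ ∧ RingHom.ker ζ ∈ I.minimalPrimes ∧
      RingHom.ker ζ ≤ RingHom.ker x ∧ ζ f ≠ 0 := by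
  let M : Submonoid R :=
    { carrier := {r | ∃ (s : R) (n : ℕ), x s ≠ 0 ∧ r = s * f ^ n}
      mul_mem' := by
        rintro _ _ ⟨s, n, hs, rfl⟩ ⟨t, k, ht, rfl⟩
        exact ⟨s * t, n + k, by rw [map_mul]; exact mul_ne_zero hs ht, by ring⟩
      one_mem' := ⟨1, 0, by simp, by simp⟩ }
  obtain ⟨P, hP, hIP, hd⟩ := I.exists_le_prime_disjoint M (Set.disjoint_left.2 (by
    rintro _ hr ⟨s, n, hs, rfl⟩
    exact hs (h s n hr)))
  obtain ⟨p, hp, hpP⟩ := Ideal.exists_minimalPrimes_le hIP
  have := hp.isPrime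
  obtain ⟨L, _, ζ, h1, rfl⟩ := exists_res_of_prime p
  refine ⟨L, inferInstance, ζ, h1, hp, fun r hr => by_contra fun hn => ?_, fun hf => ?_⟩
  · exact Set.disjoint_left.1 hd (hpP hr) ⟨r, 0, hn, by simp⟩
  · exact Set.disjoint_left.1 hd (hpP hf) ⟨1, 1, by simp, by simp⟩

/-- The `κ`-algebra structure on a ring in which `π` vanishes. -/
theorem exists_kappa (hb : Base π ρ m) (a : A →+* R) (h : a π = 0) :
    ∃ b : κ →+* R, b.comp ρ = a := by
  have hk : RingHom.ker ρ ≤ RingHom.ker a := by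
    rw [hb.ker, Ideal.span_singleton_le_iff_mem]
    exact h
  exact ⟨ρ.liftOfSurjective hb.surj ⟨a, hk⟩, ρ.liftOfSurjective_comp hb.surj ⟨a, hk⟩⟩

theorem kappa_ext (hb : Base π ρ m) {b b' : κ →+* R} (h : b.comp ρ = b'.comp ρ) : b = b' := by
  refine RingHom.ext fun z => ?_
  obtain ⟨y, rfl⟩ := hb.surj z
  exact RingHom.congr_fun h y

theorem Alg3_po {f : R →+* S} {g : R →+* T} {I : Ideal S} {j : T →+* S ⧸ I}
    (w : (Ideal.Quotient.mk I).comp f = j.comp g) (hg : Function.Surjective g)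
    (hI : I ≤ (RingHom.ker g).map f) : IsPO f g (Ideal.Quotient.mk I) j := by
  have hc : ∀ s : CategoryTheory.Limits.PushoutCocone (CommRingCat.ofHom f) (CommRingCat.ofHom g),
      ∀ r, s.inl.hom (f r) = s.inr.hom (g r) := fun s r => congrArg (fun φ => φ.hom r) s.condition
  have hz : ∀ s : CategoryTheory.Limits.PushoutCocone (CommRingCat.ofHom f) (CommRingCat.ofHom g),
      ∀ y ∈ I, s.inl.hom y = 0 := fun s y hy =>
    (Ideal.map_le_iff_le_comap (K := RingHom.ker s.inl.hom)).2 (fun r hr =>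
      (hc s r).trans (by rw [RingHom.mem_ker.1 hr, map_zero])) (hI hy)
  refine ⟨⟨CommRingCat.hom_ext w⟩, ⟨CategoryTheory.Limits.PushoutCocone.IsColimit.mk _
    (fun s => CommRingCat.ofHom (Ideal.Quotient.lift I s.inl.hom (hz s))) (fun s => ?_)
    (fun s => ?_) (fun s m h1 _ => ?_)⟩⟩
  · exact CommRingCat.hom_ext (RingHom.ext fun _ => rfl)
  · refine CommRingCat.hom_ext (RingHom.ext fun t => ?_)
    obtain ⟨r, rfl⟩ := hg t
    have h1 : j (g r) = Ideal.Quotient.mk I (f r) := (RingHom.congr_fun w r).symm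
    exact (congrArg (Ideal.Quotient.lift I s.inl.hom (hz s)) h1).trans (hc s r)
  · exact CommRingCat.hom_ext (Ideal.Quotient.ringHom_ext (congrArg CommRingCat.Hom.hom h1))

theorem Alg3_po_fp {P : Type u} [CommRing P] {f : R →+* S} {g : R →+* T} {i : S →+* P}
    {j : T →+* P} (h : IsPO f g i j) (hf : f.FinitePresentation) : j.FinitePresentation := by
  have := RingHom.isStableUnderCobaseChange_toMorphismProperty_iff.mpr
    RingHom.finitePresentation_isStableUnderBaseChange
  exact CategoryTheory.MorphismProperty.of_isPushout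
    (P := RingHom.toMorphismProperty RingHom.FinitePresentation)
    (CategoryTheory.IsPushout.flip h) hf

theorem Alg3_reduced [IsDomain R] {φ : R →+* S} (h : φ.Etale) : IsReduced S := by
  algebraize [φ]
  have := Algebra.FormallyUnramified.isReduced_of_field (FractionRing R)
    (TensorProduct R (FractionRing R) S)
  exact isReduced_of_injective _ (Algebra.TensorProduct.includeRight_injective (B := S)
    (IsFractionRing.injective R (FractionRing R)))

theorem ep_quot (hb : Base π ρ m) {a : A →+* R} (ha : EP a) {b : κ →+* R ⧸ Ideal.span {a π}}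
    (h : b.comp ρ = (Ideal.Quotient.mk _).comp a) : EP b := by
  obtain ⟨n, x, hx⟩ := ha
  refine ⟨n, fun i => Ideal.Quotient.mk _ (x i), po_etale (Alg3_po (g := MvPolynomial.map ρ) ?_
    (MvPolynomial.map_surjective ρ hb.surj) ?_) hx⟩
  · refine MvPolynomial.ringHom_ext (fun r => ?_) fun i => by simp
    simpa using (RingHom.congr_fun h r).symm
  · rw [Ideal.span_singleton_le_iff_mem, ← MvPolynomial.eval₂Hom_C a x]
    refine Ideal.mem_map_of_mem _ ?_
    rw [RingHom.mem_ker, MvPolynomial.map_C,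
      RingHom.mem_ker.1 (hb.ker.ge (Ideal.mem_span_singleton_self π)), map_zero]

theorem radical_ep (hb : Base π ρ m) {a : A →+* R} (ha : EP a) : (Ideal.span {a π}).IsRadical := by
  obtain ⟨b, h⟩ := exists_kappa hb ((Ideal.Quotient.mk (Ideal.span {a π})).comp a)
    (Ideal.Quotient.eq_zero_iff_mem.2 (Ideal.mem_span_singleton_self _))
  obtain ⟨n, x, hx⟩ := ep_quot hb ha h
  exact (Ideal.isRadical_iff_quotient_reduced _).2 (Alg3_reduced hx)

theorem indEP_locRed (hb : Base π ρ m) {β : A →+* B} (hβ : EP β) {M : Submonoid B} {φ : B →+* R}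
    (h : LocRed (Ideal.span {β π}) M φ) {a : κ →+* R} (e : φ.comp β = a.comp ρ) : IndEP a := by
  intro D _ d f hd hf
  obtain ⟨b, hb'⟩ := exists_kappa hb ((Ideal.Quotient.mk (Ideal.span {β π})).comp β)
    (Ideal.Quotient.eq_zero_iff_mem.2 (Ideal.mem_span_singleton_self _))
  have hq : LocRed ⊥ (M.map (Ideal.Quotient.mk (Ideal.span {β π})))
      (Ideal.Quotient.lift _ φ h.zero) := by
    refine ⟨?_, fun z => ?_, fun y hy => by rw [Ideal.mem_bot.1 hy, map_zero], fun y hy => ?_⟩
    · rintro _ ⟨s, hs, rfl⟩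
      exact h.unit s hs
    · obtain ⟨y, s, hs, h1⟩ := h.surj z
      exact ⟨Ideal.Quotient.mk _ y, _, ⟨s, hs, rfl⟩, h1⟩
    · obtain ⟨y, rfl⟩ := Ideal.Quotient.mk_surjective y
      obtain ⟨s, hs, h1⟩ := h.inj y hy
      exact ⟨_, ⟨s, hs, rfl⟩, Ideal.Quotient.eq_zero_iff_mem.2 h1⟩
  obtain ⟨P, _, i, j, hpo⟩ := exists_po d b
  obtain ⟨c, c1, c2⟩ := po_desc hpo f (Ideal.Quotient.lift _ φ h.zero) (kappa_ext hb (by
    rw [hf, RingHom.comp_assoc, hb', ← e]
    rfl))
  obtain ⟨t, -, Tf, _, k, σ, τ, k1, k2, k3⟩ := descend_fp (Alg3_po_fp hpo hd) hq c2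
  have hk : IsAway k t := loc_of k1.unit k1.surj k1.inj
  refine ⟨Tf, inferInstance, σ.comp i, τ, ?_, by rw [← RingHom.comp_assoc, k3, c1]⟩
  rw [RingHom.comp_assoc, po_w hpo, ← RingHom.comp_assoc, k2]
  exact ep_away (ep_quot hb hβ hb') hk

theorem prime_span_C {r : R} (h : (Ideal.span {r}).IsPrime) :
    (Ideal.span {(C r : R[X])}).IsPrime := by
  have := Ideal.isPrime_map_C_of_isPrime (P := Ideal.span {r})
  rwa [Ideal.map_span, Set.image_singleton] at this

end KEW.S7
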