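import Pool.Agent.P.MP_6277db_ag.KEW.L7.Main
import Pool.Agent.P.MP_6277db_ag.KEW.L6.Defs

/-!
KEW project, layer L7: formal properties of functors on `EP` algebras.
-/

namespace KEW.S7

universe u v v' v'' w

open Polynomial

variable {A κ : Type u} [CommRing A] [Field κ] {π : A} {ρ : A →+* κ} {m : ℕ} {h : RF.{u, v} A}
  {g : RF.{u, v'} A} {k : RF.{u, v''} A}

/-- Composition of natural transformations. -/
def rfComp (φ : h.Hom g) (ψ : g.Hom k) : h.Hom k where
  app a := (ψ.app a).comp (φ.app a)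
  nat f hf ha hb y := by
    rw [AddMonoidHom.comp_apply, AddMonoidHom.comp_apply, φ.nat f hf ha hb, ψ.nat f hf ha hb]

/-- Bijective on all `EP` algebras. -/
def RBij (φ : h.Hom g) : Prop :=
  ∀ (R : Type u) [CommRing R] (a : A →+* R), EP a → Function.Bijective (φ.app a)

theorem RBij.exists_inv {φ : h.Hom g} (hφ : RBij φ) : ∃ ψ : g.Hom h, RBij ψ := by
  classical
  let t : ∀ {R : Type u} [CommRing R] (a : A →+* R), g.obj a →+ h.obj a := fun {R} _ a =>
    if ha : EP a then (AddEquiv.ofBijective (φ.app a) (hφ R a ha)).symm.toAddMonoidHom else 0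
  have ht : ∀ {R : Type u} [CommRing R] (a : A →+* R), EP a → ∀ y, φ.app a (t a y) = y := by
    intro R _ a ha y
    simp only [t, dif_pos ha]
    exact (AddEquiv.ofBijective (φ.app a) (hφ R a ha)).apply_symm_apply y
  refine ⟨⟨t, fun f hf ha hb y => (hφ _ _ hb).1 ?_⟩, fun R _ a ha => ⟨fun y y' e => ?_, fun x =>
    ⟨φ.app a x, (hφ R a ha).1 (ht a ha _)⟩⟩⟩
  · rw [ht _ hb, φ.nat f hf ha hb, ht _ ha]
  · have := congrArg (φ.app a) e
    rwa [ht a ha, ht a ha] at this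

theorem locIso_comp {φ : h.Hom g} {ψ : g.Hom k} (hφ : RF.LocIso π φ) (hψ : RBij ψ) :
    RF.LocIso π (rfComp φ ψ) where
  surj a x ha hx z := by
    obtain ⟨z, rfl⟩ := (hψ _ a ha).2 z
    refine (hφ.surj a x ha hx z).mono fun D _ f hf ⟨y, hy⟩ => ⟨y, ?_⟩
    rw [← ψ.nat f rfl ha (ep_etale ha hf), ← hy]
    rfl
  inj a x ha hx y hy := hφ.inj a x ha hx y ((injective_iff_map_eq_zero _).1 (hψ _ a ha).1 _ hy)

theorem RBij.map {φ : h.Hom g} (hφ : RBij φ) {R S : Type u} [CommRing R] [CommRing S]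
    {a : A →+* R} {b : A →+* S} (ha : EP a) (hb : EP b) (f : R →+* S) (hf : f.comp a = b)
    (H : Function.Bijective (h.map f hf)) : Function.Bijective (g.map f hf) := by
  have e : g.map f hf ∘ φ.app a = φ.app b ∘ h.map f hf :=
    funext fun y => (φ.nat f hf ha hb y).symm
  rw [← Function.Bijective.of_comp_iff _ (hφ R a ha), e]
  exact (hφ S b hb).comp H

theorem RBij.hi {φ : h.Hom g} (hφ : RBij φ) (H : h.HI) : g.HI :=
  fun a ha => hφ.map ha (ep_poly ha) _ _ (H a ha)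

theorem RBij.ui {φ : h.Hom g} (hφ : RBij φ) (H : h.UI π) : g.UI π :=
  fun a f ha hf hu => hφ.map ha (ep_etale ha hf) _ _ (H a f ha hf hu)

theorem g2_of_hi (h1 : h.HI) (h2 : h.UI π) : L6.G2 π h := by
  intro B E _ _ β η ε hη hβ hε a
  subst hη
  obtain ⟨a1, rfl⟩ := (h2 (C.comp β) ε (ep_poly hβ) hε.etale (ee_ul hε)).2 a
  obtain ⟨a0, rfl⟩ := (h1 β hβ).2 a1
  have hid : ∀ (D : Type u) [CommRing D] (I : Ideal D), EE I (RingHom.id D) := fun D _ I =>
    ⟨etale_id, fun y => ⟨y, by simp⟩, fun x hx => by simpa using hx⟩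
  refine ⟨B, E, inferInstance, inferInstance, RingHom.id B, RingHom.id E, ε.comp C, rfl, a0,
    hid _ _, hid _ _, rfl, ?_⟩
  exact (h.map_id rfl _).trans (h.map_comp C ε rfl rfl rfl (ep_poly hβ) a0)

/-- The zero pretheory. -/
def ptZero (κ : Type u) [CommRing κ] (m : ℕ) : PT.{u, w} κ m where
  obj _ := PUnit
  map _ _ := 0
  map_id _ _ := rfl
  map_comp _ _ _ _ _ _ := rfl
  tors _ := rfl
  hinv _ _ := ⟨0, rfl⟩
  cont_surj {_ _ a} _ _ := ⟨κ, inferInstance, RingHom.id κ, a, rfl, 0, ep_id, rfl⟩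
  cont_inj {B _ _ _ _ _} f _ _ _ hβ _ := ⟨B, inferInstance, RingHom.id B, f, hβ, rfl, rfl⟩
  tr _ _ _ _ := 0
  tr_bc := by intros; rfl
  tr_add := by intros; rfl
  tr_sec := by intros; rfl
  tr_push := by intros; rfl

theorem hasPT_zero (h0 : ∀ (R : Type u) [CommRing R] (a : A →+* R), EP a → ∀ z : h.obj a, z = 0) :
    HasPT.{u, v, w} π ρ m h := by
  have hid : ∀ (D : Type u) [CommRing D] (I : Ideal D), EE I (RingHom.id D) := fun D _ I =>
    ⟨etale_id, fun y => ⟨y, by simp⟩, fun x hx => by simpa using hx⟩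
  have haw : ∀ (D : Type u) [CommRing D], IsAway (RingHom.id D) 1 := fun D _ =>
    away_of isUnit_one (fun z => ⟨z, 0, by simp⟩) fun x hx => ⟨0, by simpa using hx⟩
  refine ⟨ptZero κ m, ⟨⟨fun _ _ => 0, by intros; rfl, by intros; rfl, ?_, ?_⟩⟩⟩
  · intro B R _ _ β a φ hφ M _ _ z
    exact ⟨1, M.one_mem, B, B, inferInstance, inferInstance, RingHom.id B, RingHom.id B, φ, hφ, 0,
      haw B, hid _ _, rfl, rfl⟩
  · intro B R _ _ β a φ hφ M hβ _ x _
    exact ⟨1, M.one_mem, B, B, inferInstance, inferInstance, RingHom.id B, RingHom.id B,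
      haw B, hid _ _, h0 B _ hβ _⟩

/-- Strict homotopy invariance, with the hypotheses stated for functors isomorphic to the
cohomology groups. -/
theorem strict_hi (hb : Base π ρ m) (E : Th.{u, v} π) (g : ℤ → RF.{u, v'} A)
    (ε : ∀ q, (E.rf q).Hom (g q)) (hε : ∀ q, RBij (ε q)) (b : ℤ)
    (hV : ∀ q < b, ∀ (R : Type u) [CommRing R] (a : A →+* R), EP a → ∀ z : (g q).obj a, z = 0)
    (h : ℤ → RF.{u, v''} A) (φ : ∀ q, (h q).Hom (g q)) (hφ : ∀ q, RF.LocIso π (φ q))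
    (hh : ∀ q, HasPT.{u, v'', w} π ρ m (h q))
    (hT : ∀ q, L6.G2 π (g q) → HasPT.{u, v', w} π ρ m (g q)) (q : ℤ) : (g q).HI := by
  choose ι hι using fun q => (hε q).exists_inv
  refine (hε q).hi (hi_of_inv E (strict_inv.{u, v, w} hb E b (fun q hq R _ a ha z => ?_)
    (fun q => ?_) (fun q hq => ?_) q))
  · exact (injective_iff_map_eq_zero _).1 (hε q R a ha).1 z (hV q hq R a ha _)
  · have := locIso_comp (hφ q) (hι q)
    exact ⟨injLoc_of_locIso this (injH hb (hh q)), extH hb (hh q) this⟩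
  · exact hasPT_of_bij (ι q) (hι q)
      (hT q (g2_of_hi ((hε q).hi (hi_of_inv E hq)) ((hε q).ui (th_ui E q))))

end KEW.S7
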