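import Pool.Agent.P.MP_6277db_ag.KEW.L1.Cyl
import Pool.Agent.P.MP_6277db_ag.KEW.L2a.BG
import Pool.Agent.P.MP_6277db_ag.KEW.TensW

/-!
KEW project, layer L7, row BR1: homological algebra on a site needed to pass from rings to schemes.

Hints.
* `loc_repGen_of_vanish`: `exists_rep_replacement S`; outside `S` restrict along the inclusion `γ` of the full
  subcategory of the objects not in `S` (`Loc.map (rs L γ)` with target class `G0`; the restriction of `rep U`, `U` in
  `S`, is zero), compare homology with `TW_homologyMapIso` or `cls_surjective`, `cls_eq_zero_iff`.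
* `isLocal_sgen`: the subpresheaf `F₀(V) = {a | ¬ S V → a = 0}` of `F`; `F / F₀` is `LocZero`; `Orth.left₂`.
* `wg_sgen`: factor `φ` through its image; `wg_g_iff`, `wg_f_iff`, `shortExact_sgl`, `loc_sgl_iff`, `WG.comp`.
* `orth_of_homology`: fix `n`; the property `Hom(T⟦n⟧, K) = 0` passes to extensions (`ses_cov₂`). Use
  `HomologicalComplex.shortComplexTruncLE` twice: `τ≤b K` with `b ≪ 0` (take a Nisnevich replacement, `wg_nis_iff`,
  `bg_plus`, `homRep_bijective`, `sglShiftIso`, retract), the part in degrees `> N` with `N ≫ 0` (`bg_minus`), and the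
  middle part by induction on the length (`Orth.right₂`; a complex with homology in the single degree `q` is connected
  to `sgl q` of it by quasi-isomorphisms: `ιTruncLE`, `πTruncGE`, `CochainComplex.exists_iso_single`).
* `isLocal_of_cover`: `exists_rep_replacement S` shows that every complex is in
  `Loc (NisGen u ⊔ RepGen L S)`; `Loc.map (tensorRight line)` with target class `fun A => Orth G0 A X` (`TensW.lean` has
  the stability of locally acyclic complexes under tensor products).
-/

set_option backward.isDefEq.respectTransparency false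

noncomputable section

open CategoryTheory Limits AlgebraicGeometry Opposite MonoidalCategory

namespace Pool.Agent.KEW

variable {C : Type 1} [Category.{0} C] {C' : Type 1} [Category.{0} C'] {L : Type 1} [CommRing L]
  {u : C ⥤ Scheme.{0}}

lemma Br1_additive_of_mono [Preadditive C'] {F F' : PSh C' L} (φ : F ⟶ F') [Mono φ] [F'.Additive] :
    F.Additive where
  map_add {U V f g} := by
    rw [← cancel_mono (φ.app V), Preadditive.add_comp, φ.naturality, φ.naturality, φ.naturality,
      F'.map_add, Preadditive.comp_add]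

lemma Br1_additive_of_epi [Preadditive C'] {F F' : PSh C' L} (φ : F ⟶ F') [Epi φ] [F.Additive] :
    F'.Additive where
  map_add {U V f g} := by
    rw [← cancel_epi (φ.app U), Preadditive.comp_add, ← φ.naturality, ← φ.naturality,
      ← φ.naturality, F.map_add, Preadditive.add_comp]

theorem additive_homology [Preadditive C'] (K : Ch C' L) (h : ∀ n, (K.X n).Additive) (q : ℤ) :
    (K.homology q).Additive :=
  have := h q
  have := Br1_additive_of_mono (K.iCycles q)
  Br1_additive_of_epi (K.homologyπ q)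

lemma Br1_loc_rs {G : Ch C' L → Prop} (γ : C' ⥤ C) (F : PSh C L)
    (h : ∀ (V : C') (a : F.obj (op (γ.obj V))), a = 0) :
    Loc G ((mapC (rs L γ)).obj ((sgl 0).obj F)) :=
  Loc.of_iso ((HomologicalComplex.singleMapHomologicalComplex (rs L γ) _ 0).app F).symm
    (Loc.of_isZero ((sgl 0).map_isZero (Functor.isZero _ fun U =>
      ModuleCat.isZero_iff_subsingleton.2 ⟨fun a b => (h U.unop a).trans (h U.unop b).symm⟩)))

/-- A presheaf supported on a sieve `S` is built from representables of objects of `S`. -/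
theorem loc_repGen_of_vanish {S : C → Prop} (hS : ∀ ⦃V U : C⦄, (V ⟶ U) → S U → S V) {F : PSh C L}
    (hF : ∀ V, ¬ S V → ∀ a : F.obj (op V), a = 0) : Loc (RepGen L S) ((sgl 0).obj F) := by
  obtain ⟨X', j, -, hj, hX'⟩ := exists_rep_replacement S ((sgl 0).obj F)
  refine hj.loc_iff.2 (Loc.acyclic _ ((acyclic_iff_sections X').2 fun q U a => ?_))
  by_cases hU : S U
  · exact hX' U hU q a
  · let γ := ObjectProperty.ι fun V : C => ¬ S V
    have h1 : WG (G0 _ L) ((mapC (rs L γ)).map j) := WG.map (rs L γ) (by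
      rintro _ ⟨V, hV, rfl⟩
      refine Br1_loc_rs γ _ fun W a => ?_
      have : IsEmpty (ULift.{1} (W.obj ⟶ V)) := ⟨fun f => W.property (hS f.down hV)⟩
      exact Subsingleton.elim (α := ULift.{1} (W.obj ⟶ V) →₀ L) a 0) hj
    have h2 := (loc_G0_iff _).1 (h1.loc_iff.1 (Br1_loc_rs γ F fun W => hF W.obj W.property))
    have e := TW_homologyMapIso (rs L γ) X' q
    exact (iso_app_eq_zero_iff e.symm (U := ⟨U, hU⟩) a).1
      ((acyclic_iff_sections _).1 h2 q ⟨U, hU⟩ _)

variable (u) in
/-- Every section of `F` vanishes near every point which has no neighbourhood in `S`. -/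
def SZ (S : C → Prop) (F : PSh C L) : Prop :=
  ∀ (U : C) (x : u.obj U) (a : F.obj (op U)), Locally u U x fun V f => S V ∨ F.map f.op a = 0

variable (u) in
/-- The presheaves with `SZ`, placed in degree zero. -/
def SGen (S : C → Prop) (K : Ch C L) : Prop := ∃ F, SZ u S F ∧ K = (sgl 0).obj F

theorem isLocal_sgen {S : C → Prop} (hS : ∀ ⦃V U : C⦄, (V ⟶ U) → S U → S V) {X : Ch C L}
    (hX : IsLocal (NisGen u) X)
    (h0 : ∀ V, S V → ∀ (q : ℤ) (a : (X.homology q).obj (op V)), a = 0) : IsLocal (SGen u S) X := by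
  rintro _ ⟨F, hF, rfl⟩
  let N : ∀ V : Cᵒᵖ, Submodule L (F.obj V) := fun V =>
    { carrier := {a | ¬ S V.unop → a = 0}
      zero_mem' := fun _ => rfl
      add_mem' := fun ha hb h => by rw [ha h, hb h, add_zero]
      smul_mem' := fun r a ha h => by rw [ha h, smul_zero] }
  let F₀ : PSh C L :=
    { obj := fun V => ModuleCat.of L (N V)
      map := fun {V W} f => ModuleCat.ofHom ((F.map f).hom.restrict fun a ha h => by
        rw [ha fun h' => h (hS f.unop h'), map_zero])
      map_id := fun V => by
        ext a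
        simp
      map_comp := fun f g => by
        ext a
        simp }
  let ι : F₀ ⟶ F := { app := fun V => ModuleCat.ofHom (N V).subtype }
  have : ∀ V, Mono (ι.app V) := fun V =>
    (ModuleCat.mono_iff_injective _).2 Subtype.val_injective
  have : Mono ι := NatTrans.mono_of_mono_app _
  have hs : (ShortComplex.mk ι (cokernel.π ι) (by simp)).ShortExact :=
    { exact := ShortComplex.exact_cokernel ι }
  refine Orth.left₂ (shortExact_sgl hs 0) ?_ (hX _ ((nisGen_sgl_iff _ 0).2
    ((locSurj_iff_cokernel ι).1 fun U b x => (hF U x b).mono fun V f hf => ?_)))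
  · refine Orth.of_loc ?_ (loc_repGen_of_vanish hS fun V hV a => Subtype.ext (a.2 hV))
    rintro _ ⟨V, hV, rfl⟩
    exact ((isLocal_G0 X).orth_rep_iff 0 V).2 (h0 V hV)
  · exact ⟨⟨F.map f.op b, fun h => hf.resolve_left h⟩, rfl⟩

theorem wg_sgen {S : C → Prop} {F F' : PSh C L} (φ : F ⟶ F')
    (hi : ∀ (U : C) (x : u.obj U) (a : F.obj (op U)), φ.app (op U) a = 0 →
      Locally u U x fun V f => S V ∨ F.map f.op a = 0)
    (hs : ∀ (U : C) (x : u.obj U) (b : F'.obj (op U)),
      Locally u U x fun V f => S V ∨ ∃ a : F.obj (op V), φ.app (op V) a = F'.map f.op b)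
    (q : ℤ) : WG (SGen u S) ((sgl q).map φ) := by
  obtain ⟨Z, e, m, _, _, rfl⟩ : ∃ (Z : PSh C L) (e : F ⟶ Z) (m : Z ⟶ F'), Epi e ∧ Mono m ∧
      e ≫ m = φ := ⟨_, factorThruImage φ, image.ι φ, inferInstance, inferInstance, image.fac φ⟩
  have h1 : (ShortComplex.mk (kernel.ι e) e (by simp)).ShortExact :=
    { exact := ShortComplex.exact_kernel e }
  have h2 : (ShortComplex.mk m (cokernel.π m) (by simp)).ShortExact :=
    { exact := ShortComplex.exact_cokernel m }
  rw [Functor.map_comp]
  refine WG.comp ((wg_g_iff (shortExact_sgl h1 q)).2 ((loc_sgl_iff _ q 0).2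
    (Loc.gen _ ⟨_, fun U x a => ?_, rfl⟩))) ((wg_f_iff (shortExact_sgl h2 q)).2
    ((loc_sgl_iff _ q 0).2 (Loc.gen _ ⟨_, fun U x c => ?_, rfl⟩)))
  · refine (hi U x ((kernel.ι e).app (op U) a) (Site_zero (by simp) a)).mono
      fun V f hf => hf.imp id fun h => Site_inj (kernel.ι e) V ?_
    rw [Site_nat, h, map_zero]
  · obtain ⟨b, rfl⟩ := Site_surj (cokernel.π m) U c
    refine (hs U x b).mono fun V f hf => hf.imp id fun ⟨a, ha⟩ => ?_
    rw [← Site_nat, ← ha]
    exact Site_zero (φ := e ≫ m) (by simp) a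

/-- A complex with homology in one degree is equivalent to its homology. -/
lemma Br1_single {G : Ch C L → Prop} {A : Ch C L} (K : Ch C L) (r : ℤ)
    (h : ∀ q, q ≠ r → IsZero (K.homology q)) (h' : Orth G A ((sgl 0).obj (K.homology r))) :
    Orth G A K := by
  have hK : ∀ q, q ≠ r → K.ExactAt q := fun q hq => (K.exactAt_iff_isZero_homology q).2 (h q hq)
  have : CochainComplex.IsLE K r := (CochainComplex.isLE_iff K r).2 fun q hq => hK q hq.ne'
  let K₁ := CochainComplex.truncLE K r
  have : CochainComplex.IsGE K₁ r := (CochainComplex.isGE_iff K₁ r).2 fun q hq =>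
    (exactAt_iff_of_quasiIsoAt (CochainComplex.ιTruncLE K r) q).2 (hK q hq.ne)
  let K₂ := CochainComplex.truncGE K₁ r
  have : CochainComplex.IsStrictlyLE K₂ r := (CochainComplex.isStrictlyLE_iff K₂ r).2 fun q hq =>
    (CochainComplex.isZero_of_isStrictlyLE K₁ r q hq).of_iso (CochainComplex.truncGEXIso K₁ r q hq)
  obtain ⟨M, ⟨e⟩⟩ := CochainComplex.exists_iso_single K₂ r
  let e' : K.homology r ≅ M :=
    (asIso (HomologicalComplex.homologyMap (CochainComplex.ιTruncLE K r) r)).symm ≪≫
      asIso (HomologicalComplex.homologyMap (CochainComplex.πTruncGE K₁ r ≫ e.hom) r) ≪≫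
      HomologicalComplex.singleObjHomologySelfIso _ r M
  refine (Orth.iff_of_wg_right (WG.of_quasiIso (CochainComplex.ιTruncLE K r))).1
    ((Orth.iff_of_wg_right (WG.of_quasiIso (CochainComplex.πTruncGE K₁ r ≫ e.hom))).2 ?_)
  refine (Orth.iff_of_wg_right (WG.of_isIso
    (((CochainComplex.singleFunctors (PSh C L)).shiftIso (-r) r 0 (by ring)).hom.app M))).1 ?_
  exact (Orth.shift_right_iff (-r)).2
    ((Orth.iff_of_wg_right (WG.of_isIso ((sgl 0).map e'.hom))).1 h')

/-- Orthogonality to a retract of a representable presheaf of finite dimension may be tested on the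
homology presheaves. -/
theorem orth_of_homology (hu : IsSite u) {W : C} {d : ℕ} (hd : topologicalKrullDim (u.obj W) ≤ d)
    {T : PSh C L} (i : T ⟶ (rep C L).obj W) (p : (rep C L).obj W ⟶ T) (e : i ≫ p = 𝟙 T)
    (K : Ch C L) (h : ∀ q : ℤ, Orth (NisGen u) ((sgl 0).obj T) ((sgl 0).obj (K.homology q))) :
    Orth (NisGen u) ((sgl 0).obj T) K := by
  intro n
  let P : Ch C L → Prop := fun K => ∀ f : (QM (NisGen u)).obj (((sgl 0).obj T)⟦n⟧) ⟶
    (QM (NisGen u)).obj K, f = 0
  have hrep : ∀ K : Ch C L, (∀ K' : Ch C L, IsLocal (NisGen u) K' →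
      (∀ q, LocZero u (K.homology q) → LocZero u (K'.homology q)) →
      ∀ a : (K'.homology (0 - n)).obj (op W), a = 0) → P K := by
    intro K hK f
    obtain ⟨K', j, -, hj, hK'⟩ := hu.exists_nis_replacement K
    have := hj.isIso
    have h1 : (QM (NisGen u)).map (((sgl 0).map p)⟦n⟧') ≫ f ≫ (QM (NisGen u)).map j = 0 := by
      rw [← cancel_epi ((sglShiftQ (NisGen u) n 0).inv.app ((rep C L).obj W)), comp_zero]
      exact (hK'.homRep_eq_zero_iff _).1
        (hK K' hK' (fun q => LocZero.of_locSurj ((wg_nis_iff j).1 hj q).2) _)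
    rw [← cancel_mono ((QM (NisGen u)).map j), zero_comp,
      ← Category.id_comp (f ≫ _), ← CategoryTheory.Functor.map_id,
      ← CategoryTheory.Functor.map_id, ← CategoryTheory.Functor.map_id, ← e, Functor.map_comp,
      Functor.map_comp, Functor.map_comp, Category.assoc, h1, comp_zero]
  have hext : ∀ S : ShortComplex (Ch C L), S.ShortExact → P S.X₁ → P S.X₃ → P S.X₂ := by
    intro S hS h₁ h₃ f
    obtain ⟨y, rfl⟩ := ses_cov₂ hS f (h₃ _)
    rw [h₁ y, zero_comp]
  have hup : ∀ (K : Ch C L) (m q : ℤ), m < q →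
      Nonempty (K.homology q ≅ (CochainComplex.shortComplexTruncLE K m).X₃.homology q) :=
    fun K m q hq =>
      have := HomologicalComplex.isIso_homologyMap_shortComplexTruncLE_g K
        (ComplexShape.embeddingUpIntLE m) q
        ((ComplexShape.notMem_range_embeddingUpIntLE_iff m q).2 hq)
      ⟨asIso (HomologicalComplex.homologyMap (CochainComplex.shortComplexTruncLE K m).g q)⟩
  have hdown : ∀ (K : Ch C L) (m q : ℤ), q ≤ m →
      IsZero ((CochainComplex.shortComplexTruncLE K m).X₃.homology q) := fun K m q hq => by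
    obtain ⟨k, rfl⟩ := Int.le.dest hq
    have := (HomologicalComplex.shortComplexTruncLE_X₃_isSupportedOutside K
      (ComplexShape.embeddingUpIntLE (q + k))).exactAt k
    simpa using this.isZero_homology
  have htr : ∀ (K : Ch C L) (m : ℤ),
      (∀ q : ℤ, Orth (NisGen u) ((sgl 0).obj T) ((sgl 0).obj (K.homology q))) → ∀ q : ℤ,
      Orth (NisGen u) ((sgl 0).obj T) ((sgl 0).obj ((CochainComplex.truncLE K m).homology q)) :=
    fun K m hK q => by
      by_cases hq : q ≤ m
      · have := CochainComplex.quasiIsoAt_ιTruncLE K m q hq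
        exact (Orth.iff_of_wg_right (WG.of_isIso ((sgl 0).map
          (HomologicalComplex.homologyMap (CochainComplex.ιTruncLE K m) q)))).2 (hK q)
      · exact Orth.of_loc_right _ (Loc.of_isZero ((sgl 0).map_isZero
          (CochainComplex.isZero_of_isLE _ m q (not_le.1 hq))))
  have hA : ∀ m : ℤ, 0 - n - d - 1 ≤ m → ∀ K : Ch C L, (∀ q, m < q → IsZero (K.homology q)) →
      (∀ q : ℤ, Orth (NisGen u) ((sgl 0).obj T) ((sgl 0).obj (K.homology q))) → P K := by
    intro m hm
    induction m, hm using Int.leInduction with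
    | base =>
      intro K hK _
      exact hrep K fun K' hK' h' => bg_plus hu (hu.mvSys hK') W d hd (0 - n - d - 1)
        (fun q hq => (h' q (LocZero.of_isZero (hK q hq))).over W) _ (by omega)
    | succ m _ ih =>
      intro K hK hK'
      refine hext _ (CochainComplex.shortComplexTruncLE_shortExact K m)
        (ih _ (fun q hq => CochainComplex.isZero_of_isLE (CochainComplex.truncLE K m) m q hq)
          (htr K m hK')) ?_
      refine Br1_single _ (m + 1) (fun q hq => ?_) ?_ n
      · rcases lt_or_gt_of_ne hq with hq | hq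
        · exact hdown K m q (by omega)
        · exact (hK q hq).of_iso (hup K m q (by omega)).some.symm
      · exact (Orth.iff_of_wg_right (WG.of_isIso ((sgl 0).map
          (hup K m (m + 1) (by omega)).some.hom))).1 (hK' _)
  refine hext _ (CochainComplex.shortComplexTruncLE_shortExact K (0 - n))
    (hA (0 - n) (by omega) _ (fun q hq => CochainComplex.isZero_of_isLE
      (CochainComplex.truncLE K (0 - n)) (0 - n) q hq) (htr K _ h)) (hrep _ fun K' hK' h' => ?_)
  exact bg_minus hu (hu.mvSys hK') W (0 - n)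
    (fun q hq => (h' q (LocZero.of_isZero (hdown K _ q hq))).over W) _ le_rfl

theorem orth_line_of_cyl {G : Ch C L → Prop} {X : Ch C L} (hX : IsLocal G X) {U : C} (c : Cyl u U)
    (h : ∀ q : ℤ, Function.Bijective ((X.homology q).map c.p.op)) :
    Orth G ((sgl 0).obj ((rep C L).obj U ⊗ (u.op ⋙ line L))) X := by
  have := CochainComplex.mappingCone.quasiIso_descShortComplex
    (shortExact_sgl (c.shortExact (L := L)) 0)
  refine (Orth.iff_of_wg_left (WG.of_quasiIso (h := this) _)).1
    ((hX.orth_cone_rep_iff 0 (c.sec 0)).2 fun q => ?_)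
  refine Function.Bijective.of_comp_iff _ (h q) |>.1 ?_
  have e : ((X.homology q).map (c.sec 0).op : _ → _) ∘ (X.homology q).map c.p.op = id := by
    funext a
    rw [Function.comp_apply, ← Site_res, c.sec_p, Site_id, id]
  rw [e]
  exact Function.bijective_id

/-- Homotopy invariance of a Nisnevich local complex may be tested on a covering class. -/
theorem isLocal_of_cover {S : C → Prop}
    (hS : ∀ (U : C) (x : u.obj U), Locally u U x fun V _ => S V) {X : Ch C L}
    (hX : IsLocal (NisGen u) X)
    (h : ∀ U, S U → Orth (NisGen u) ((sgl 0).obj ((rep C L).obj U ⊗ (u.op ⋙ line L))) X) :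
    IsLocal (NGen u) X := by
  rintro K (hK | ⟨K, rfl⟩)
  · exact hX K hK
  have := isExact_tensor_line (u := u) (L := L)
  have hK : Loc (fun A => NisGen u A ∨ RepGen L S A) K := by
    obtain ⟨K', j, -, hj, hK'⟩ := exists_rep_replacement S K
    refine (WG.trans (fun A hA => Loc.gen A (Or.inr hA)) hj).loc_iff.2
      (Loc.gen _ (Or.inl fun q => (locZero_iff _).2 fun U a x => ?_))
    exact (hS U x).mono fun V f hV => hK' V hV q _
  refine Orth.of_loc (G₁ := fun A => Orth (G0 C L) A X) (fun _ hA => hA)
    (Loc.map (tensorRight (u.op ⋙ line L)) ?_ hK)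
  rintro A (hA | ⟨U, hU, rfl⟩)
  · refine Loc.gen _ (hX _ fun q => ?_)
    exact (LocZero.TW_tensor u (hA q) _).of_iso
      (TW_homologyMapIso (tensorRight (u.op ⋙ line L)) A q).symm
  · exact Loc.of_iso ((HomologicalComplex.singleMapHomologicalComplex
      (tensorRight (u.op ⋙ line L)) _ 0).app _).symm (Loc.gen _ ((hX.orth_iff _).1 (h U hU)))

end Pool.Agent.KEW
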