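import Pool.Agent.P.MP_6277db_ag.KEW.CA.Defs

/-!
KEW project: Laurent polynomial rings as localisations of polynomial rings.
-/

namespace KEW

universe u

open Polynomial

/-- The ring `R[t, 1/t]`. -/
abbrev Lau (R : Type u) [CommRing R] : Type u := Localization.Away (X : R[X])

variable {R S T : Type u} [CommRing R] [CommRing S] [CommRing T]

/-- The localisation map `R[t] → R[t, 1/t]`. -/
noncomputable def lauL (R : Type u) [CommRing R] : R[X] →+* Lau R := algebraMap R[X] (Lau R)

/-- The structure map `R → R[t, 1/t]`. -/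
noncomputable def lauC (R : Type u) [CommRing R] : R →+* Lau R := (lauL R).comp C

theorem isLoc_algebraMap (M : Submonoid R) (S : Type u) [CommRing S] [i : Algebra R S]
    [h : IsLocalization M S] : IsLoc (algebraMap R S) M := by
  have e : (algebraMap R S).toAlgebra = i := Algebra.algebra_ext _ _ fun _ => rfl
  unfold IsLoc
  rw [e]
  exact h

theorem isAway_algebraMap (r : R) (S : Type u) [CommRing S] [Algebra R S]
    [IsLocalization.Away r S] : IsAway (algebraMap R S) r :=
  isLoc_algebraMap _ S

theorem isAway_lauL (R : Type u) [CommRing R] : IsAway (lauL R) X :=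
  isAway_algebraMap (X : R[X]) (Lau R)

theorem isUnit_lauL_X (R : Type u) [CommRing R] : IsUnit (lauL R X) :=
  IsLocalization.Away.algebraMap_isUnit (S := Lau R) (X : R[X])

/-- The map out of `R[t, 1/t]` given by a map out of `R` and a unit. -/
noncomputable def lauLift (f : R →+* S) (s : S) (hs : IsUnit s) : Lau R →+* S :=
  IsLocalization.Away.lift (S := Lau R) (X : R[X]) (g := eval₂RingHom f s) (by simpa using hs)

@[simp] theorem lauLift_lauL (f : R →+* S) (s : S) (hs : IsUnit s) (p : R[X]) :
    lauLift f s hs (lauL R p) = eval₂ f s p :=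
  IsLocalization.Away.lift_eq (S := Lau R) (X : R[X]) (g := eval₂RingHom f s) _ p

theorem lau_ext {f g : Lau R →+* S} (h1 : f.comp (lauC R) = g.comp (lauC R))
    (h2 : f (lauL R X) = g (lauL R X)) : f = g := by
  refine IsLocalization.ringHom_ext (Submonoid.powers (X : R[X])) ?_
  refine Polynomial.ringHom_ext (fun r => ?_) h2
  exact RingHom.congr_fun h1 r

@[simp] theorem lauLift_lauC (f : R →+* S) (s : S) (hs : IsUnit s) (r : R) :
    lauLift f s hs (lauC R r) = f r := by
  simp [lauC]

/-- Functoriality of `R[t, 1/t]`. -/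
noncomputable def lauMap (f : R →+* S) : Lau R →+* Lau S :=
  lauLift ((lauC S).comp f) (lauL S X) (isUnit_lauL_X S)

/-- The unit section `t ↦ 1`. -/
noncomputable def lauE (R : Type u) [CommRing R] : Lau R →+* R :=
  lauLift (RingHom.id R) 1 isUnit_one

theorem lauMap_lauC (f : R →+* S) : (lauMap f).comp (lauC R) = (lauC S).comp f := by
  ext r
  simp [lauMap]

@[simp] theorem lauMap_X (f : R →+* S) : lauMap f (lauL R X) = lauL S X := by
  simp [lauMap]

theorem lauMap_lauL (f : R →+* S) :
    (lauMap f).comp (lauL R) = (lauL S).comp (mapRingHom f) := by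
  refine Polynomial.ringHom_ext (fun r => ?_) (by simp)
  simpa [lauC] using RingHom.congr_fun (lauMap_lauC f) r

theorem lauE_lauC (R : Type u) [CommRing R] : (lauE R).comp (lauC R) = RingHom.id R := by
  ext r
  simp [lauE]

@[simp] theorem lauE_X (R : Type u) [CommRing R] : lauE R (lauL R X) = 1 := by
  simp [lauE]

theorem lauMap_id (R : Type u) [CommRing R] : lauMap (RingHom.id R) = RingHom.id (Lau R) :=
  lau_ext (by rw [lauMap_lauC]; rfl) (by simp)

theorem lauMap_comp (f : R →+* S) (g : S →+* T) :
    (lauMap g).comp (lauMap f) = lauMap (g.comp f) := by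
  refine lau_ext ?_ (by simp)
  rw [RingHom.comp_assoc, lauMap_lauC, ← RingHom.comp_assoc, lauMap_lauC, lauMap_lauC]
  rfl

theorem lauE_lauMap (f : R →+* S) : (lauE S).comp (lauMap f) = f.comp (lauE R) := by
  refine lau_ext ?_ (by simp)
  rw [RingHom.comp_assoc, lauMap_lauC, ← RingHom.comp_assoc, lauE_lauC, RingHom.comp_assoc,
    lauE_lauC]
  rfl

theorem lauMap_over {A : Type u} [CommRing A] {a : A →+* R} {b : A →+* S} (f : R →+* S)
    (h : f.comp a = b) : (lauMap f).comp ((lauC R).comp a) = (lauC S).comp b := by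
  rw [← RingHom.comp_assoc, lauMap_lauC, RingHom.comp_assoc, h]

theorem lauE_over {A : Type u} [CommRing A] (a : A →+* R) :
    (lauE R).comp ((lauC R).comp a) = a := by
  rw [← RingHom.comp_assoc, lauE_lauC]
  rfl

end KEW
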