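import Pool.Agent.P.MP_6277db_ag.KEW.L7.Cmp
import Pool.Agent.P.MP_6277db_ag.KEW.L7.Lau

/-!
KEW project, layer L7 (strict homotopy invariance on rings): definitions.
A point of a ring is a homomorphism to a field; a Nisnevich neighbourhood of `x : D → K` is an etale
`g : D → D'` with a lift `x' : D' → K` of `x`.
-/

namespace KEW

universe u v v' w

open Polynomial CategoryTheory

/-- Standing hypotheses on the base: `A` noetherian, `κ = A ⧸ π` a perfect field, `m` invertible in `κ`. -/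
structure Base {A κ : Type u} [CommRing A] [Field κ] (π : A) (ρ : A →+* κ) (m : ℕ) : Prop where
  noeth : IsNoetherianRing A
  surj : Function.Surjective ρ
  ker : RingHom.ker ρ = Ideal.span {π}
  perf : PerfectField κ
  unit : IsUnit (m : κ)

section points

variable {R E K : Type u} [CommRing R] [CommRing E] [Field K]

/-- `Φ` holds on some Nisnevich neighbourhood of the point `x`. -/
def Ev (x : R →+* K) (Φ : ∀ (D : Type u) [CommRing D], (R →+* D) → Prop) : Prop :=
  ∃ (D : Type u) (_ : CommRing D) (g : R →+* D) (x' : D →+* K), g.Etale ∧ x'.comp g = x ∧ Φ D g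

/-- `K` is the residue field of the kernel of `x`. -/
def IsRes (x : R →+* K) : Prop := ∀ z : K, ∃ r s : R, x s ≠ 0 ∧ z * x s = x r

/-- Every point of `V(I) ∩ D(f)` lifts uniquely along `φ`. -/
def ULP (φ : R →+* E) (I : Ideal R) (f : R) : Prop :=
  ∀ (L : Type u) [Field L] (x : R →+* L), (∀ r ∈ I, x r = 0) → x f ≠ 0 →
    ∃! y : E →+* L, y.comp φ = x

/-- `f` is not nilpotent in the local ring of `R ⧸ I` at `x`. -/
def NZ (I : Ideal R) (x : R →+* K) (f : R) : Prop :=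
  ∀ (s : R) (n : ℕ), s * f ^ n ∈ I → x s = 0

end points

section rf

variable {A : Type u} [CommRing A]

/-- `z` vanishes on a Nisnevich neighbourhood of `x`. -/
def RF.Dies (h : RF.{u, v} A) {R K : Type u} [CommRing R] [Field K] {a : A →+* R} (x : R →+* K)
    (z : h.obj a) : Prop :=
  Ev x fun _ _ g => h.map g (rfl : g.comp a = g.comp a) z = 0

/-- Natural transformations (on `EP` algebras). -/
structure RF.Hom (h : RF.{u, v} A) (g : RF.{u, v'} A) where
  app : ∀ {R : Type u} [CommRing R] (a : A →+* R), h.obj a →+ g.obj a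
  nat : ∀ {R S : Type u} [CommRing R] [CommRing S] {a : A →+* R} {b : A →+* S} (f : R →+* S)
    (hf : f.comp a = b), EP a → EP b → ∀ y : h.obj a, app b (h.map f hf y) = g.map f hf (app a y)

/-- Nisnevich local isomorphisms at the points of the special fibre. -/
structure RF.LocIso (π : A) {h : RF.{u, v} A} {g : RF.{u, v'} A} (φ : h.Hom g) : Prop where
  surj : ∀ {R K : Type u} [CommRing R] [Field K] (a : A →+* R) (x : R →+* K), EP a → x (a π) = 0 →
    ∀ z : g.obj a, Ev x fun _ _ f =>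
      ∃ y : h.obj (f.comp a), φ.app (f.comp a) y = g.map f (rfl : f.comp a = f.comp a) z
  inj : ∀ {R K : Type u} [CommRing R] [Field K] (a : A →+* R) (x : R →+* K), EP a → x (a π) = 0 →
    ∀ y : h.obj a, φ.app a y = 0 → h.Dies x y

/-- `g` inverts the etale maps along which all points of the special fibre lift uniquely. -/
def RF.UI (π : A) (g : RF.{u, v} A) : Prop :=
  ∀ {R S : Type u} [CommRing R] [CommRing S] (a : A →+* R) (f : R →+* S), EP a → f.Etale →
    ULP f (Ideal.span {a π}) 1 → Function.Bijective (g.map f (rfl : f.comp a = f.comp a))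

/-- Homotopy invariance. -/
def RF.HI (g : RF.{u, v} A) : Prop :=
  ∀ {R : Type u} [CommRing R] (a : A →+* R), EP a →
    Function.Bijective (g.map (C : R →+* R[X]) (rfl : C.comp a = C.comp a))

/-- A section that is locally zero on a dense principal open of the special fibre is locally zero. -/
def RF.InjLoc (π : A) (g : RF.{u, v} A) : Prop :=
  ∀ {R K : Type u} [CommRing R] [Field K] (a : A →+* R) (x : R →+* K) (f : R) (z : g.obj a), EP a →
    x (a π) = 0 → NZ (Ideal.span {a π}) x f →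
    (∀ (L : Type u) [Field L] (x' : R →+* L), x' (a π) = 0 → x' f ≠ 0 → g.Dies x' z) → g.Dies x z

/-- Near a generic point `x` of the special fibre, a section over the affine line is generically
constant. -/
def RF.Ext (π : A) (g : RF.{u, v} A) : Prop :=
  ∀ {B K : Type u} [CommRing B] [Field K] (β : A →+* B) (x : B →+* K)
    (z : g.obj ((C : B →+* B[X]).comp β)), EP β → IsRes x → RingHom.ker x = Ideal.span {β π} →
    ∃ (B1 L : Type u) (_ : CommRing B1) (_ : Field L) (f : B →+* B1) (x1 : B1 →+* K)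
      (ξ : B1[X] →+* L) (z0 : g.obj (f.comp β))
      (h1 : (mapRingHom f).comp (C.comp β) = C.comp (f.comp β)),
      f.Etale ∧ x1.comp f = x ∧ RingHom.ker x1 = Ideal.span {f (β π)} ∧ IsRes ξ ∧
      RingHom.ker ξ = Ideal.span {C (f (β π))} ∧
      g.Dies ξ (g.map (mapRingHom f) h1 z - g.map C (rfl : C.comp (f.comp β) = C.comp (f.comp β)) z0)

/-- The section `b` over `E[1/ω]` becomes, on `E'[1/ω]`, a sum of a section from `R'[1/ω]` and a
section from `E'`. -/
def RF.SplitAt (g : RF.{u, v} A) {R' E E' Eω : Type u} [CommRing R'] [CommRing E] [CommRing E']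
    [CommRing Eω] (a' : A →+* R') (φ' : R' →+* E') (ω' : R') {ε : A →+* E} (j : E →+* Eω)
    (k : E →+* E') (b : g.obj (j.comp ε)) : Prop :=
  ∃ (Rω T : Type u) (_ : CommRing Rω) (_ : CommRing T) (lω : R' →+* Rω) (j' : E' →+* T)
    (kω : Eω →+* T) (φω : Rω →+* T) (h1 : kω.comp (j.comp ε) = j'.comp (φ'.comp a'))
    (h2 : φω.comp (lω.comp a') = j'.comp (φ'.comp a')) (α : g.obj (lω.comp a'))
    (β : g.obj (φ'.comp a')),
    IsAway lω ω' ∧ IsAway j' (φ' ω') ∧ kω.comp j = j'.comp k ∧ φω.comp lω = j'.comp φ' ∧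
    g.map kω h1 b = g.map φω h2 α + g.map j' (rfl : j'.comp (φ'.comp a') = j'.comp (φ'.comp a')) β

/-- Splitting at a closed point `y` (equation `ω`) of the affine line over a generic point `x` of the
special fibre. -/
def RF.A3 (π : A) (g : RF.{u, v} A) : Prop :=
  ∀ {B F R K E Eω : Type u} [CommRing B] [Field F] [CommRing R] [Field K] [CommRing E] [CommRing Eω]
    (β : A →+* B) (x : B →+* F) (d ω : B[X]) (l : B[X] →+* R) (y : R →+* K) (ι : F →+* K)
    (φ : R →+* E) (e : E →+* K) (j : E →+* Eω) (b : g.obj (j.comp (φ.comp (l.comp (C.comp β))))),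
    EP β → IsRes x → RingHom.ker x = Ideal.span {β π} → Irreducible (ω.map x) → IsAway l d →
    IsRes y → ι.comp x = y.comp (l.comp C) → y (l ω) = 0 → φ.Etale → e.comp φ = y →
    IsAway j (φ (l ω)) →
    ∃ (s : B) (R' E' : Type u) (_ : CommRing R') (_ : CommRing E') (l' : R →+* R') (φ' : R' →+* E')
      (k : E →+* E'), x s ≠ 0 ∧ IsAway l' (l (C s)) ∧ φ'.Etale ∧ k.comp φ = φ'.comp l' ∧
      ULP φ' (Ideal.span {l' (l (C (β π))), l' (l ω)}) 1 ∧
      g.SplitAt (l'.comp (l.comp (C.comp β))) φ' (l' (l ω)) j k b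

/-- Splitting along the zero section of the affine line, near any point of the special fibre. -/
def RF.K0 (π : A) (g : RF.{u, v} A) : Prop :=
  ∀ {W K E Eω : Type u} [CommRing W] [Field K] [CommRing E] [CommRing Eω] (a : A →+* W)
    (x : W →+* K) (φ : W[X] →+* E) (e : E →+* K) (j : E →+* Eω)
    (b : g.obj (j.comp (φ.comp (C.comp a)))), EP a → x (a π) = 0 → IsRes x → φ.Etale →
    e.comp φ = eval₂RingHom x 0 → IsAway j (φ X) →
    ∃ (W' E' : Type u) (_ : CommRing W') (_ : CommRing E') (f : W →+* W') (x' : W' →+* K)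
      (φ' : W'[X] →+* E') (k : E →+* E'), f.Etale ∧ x'.comp f = x ∧ φ'.Etale ∧
      k.comp φ = φ'.comp (mapRingHom f) ∧ ULP φ' (Ideal.span {C (f (a π)), X}) 1 ∧
      g.SplitAt (C.comp (f.comp a)) φ' X j k b

theorem RF.map_zero' (g : RF.{u, v} A) {R S : Type u} [CommRing R] [CommRing S] {a : A →+* R}
    {b : A →+* S} (f : R →+* S) (hf : f.comp a = b) : g.map f hf 0 = 0 := map_zero _

theorem RF.map_congr (g : RF.{u, v} A) {R S : Type u} [CommRing R] [CommRing S] {a : A →+* R}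
    {b : A →+* S} {f f' : R →+* S} (e : f = f') (hf : f.comp a = b) (hf' : f'.comp a = b)
    (z : g.obj a) : g.map f hf z = g.map f' hf' z := by
  subst e
  rfl

end rf

section pr

variable {A : Type u} [CommRing A]

/-- A functor from `A`-algebras to sets with a subfunctor `bot` (thought of as collapsed to a base
point). -/
structure Pr (A : Type u) [CommRing A] where
  obj : ∀ {D : Type u} [CommRing D], (A →+* D) → Type u
  map : ∀ {D D' : Type u} [CommRing D] [CommRing D'] {d : A →+* D} {d' : A →+* D'} (f : D →+* D'),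
    f.comp d = d' → obj d → obj d'
  map_id : ∀ {D : Type u} [CommRing D] {d : A →+* D} (h : (RingHom.id D).comp d = d) (x : obj d),
    map (RingHom.id D) h x = x
  map_comp : ∀ {D D' D'' : Type u} [CommRing D] [CommRing D'] [CommRing D''] {d : A →+* D}
    {d' : A →+* D'} {d'' : A →+* D''} (f : D →+* D') (g : D' →+* D'') (hf : f.comp d = d')
    (hg : g.comp d' = d'') (h : (g.comp f).comp d = d'') (x : obj d),
    map g hg (map f hf x) = map (g.comp f) h x
  bot : ∀ {D : Type u} [CommRing D] {d : A →+* D}, obj d → Prop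
  bot_map : ∀ {D D' : Type u} [CommRing D] [CommRing D'] {d : A →+* D} {d' : A →+* D'}
    (f : D →+* D') (hf : f.comp d = d') {x : obj d}, bot x → bot (map f hf x)

/-- Morphisms of pairs. -/
@[ext] structure Pr.Hom (P Q : Pr A) where
  app : ∀ {D : Type u} [CommRing D] {d : A →+* D}, P.obj d → Q.obj d
  nat : ∀ {D D' : Type u} [CommRing D] [CommRing D'] {d : A →+* D} {d' : A →+* D'} (f : D →+* D')
    (hf : f.comp d = d') (x : P.obj d), app (P.map f hf x) = Q.map f hf (app x)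
  bot : ∀ {D : Type u} [CommRing D] {d : A →+* D} {x : P.obj d}, P.bot x → Q.bot (app x)

instance : Category (Pr A) where
  Hom := Pr.Hom
  id _ := ⟨fun x => x, fun _ _ _ => rfl, fun h => h⟩
  comp f g := ⟨fun x => g.app (f.app x), fun a ha x => by rw [f.nat, g.nat], fun h => g.bot (f.bot h)⟩

@[simp] theorem Pr.id_app (P : Pr A) {D : Type u} [CommRing D] {d : A →+* D} (x : P.obj d) :
    Pr.Hom.app (𝟙 P) x = x := rfl

@[simp] theorem Pr.comp_app {P Q S : Pr A} (f : P ⟶ Q) (g : Q ⟶ S) {D : Type u} [CommRing D]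
    {d : A →+* D} (x : P.obj d) : Pr.Hom.app (f ≫ g) x = g.app (f.app x) := rfl

theorem Pr.hom_ext {P Q : Pr A} {f g : P ⟶ Q}
    (h : ∀ (D : Type u) [CommRing D] (d : A →+* D) (x : P.obj d), f.app x = g.app x) : f = g :=
  Pr.Hom.ext (by
    funext D _ d x
    exact h D d x)

/-- Short exact sequences of pointed sets, sectionwise. -/
structure SES {P₁ P₂ P₃ : Pr A} (i : P₁ ⟶ P₂) (j : P₂ ⟶ P₃) : Prop where
  i_bot : ∀ {D : Type u} [CommRing D] {d : A →+* D} (x : P₁.obj d), P₂.bot (i.app x) → P₁.bot x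
  i_inj : ∀ {D : Type u} [CommRing D] {d : A →+* D} (x x' : P₁.obj d), i.app x = i.app x' →
    x = x' ∨ P₁.bot x
  zero : ∀ {D : Type u} [CommRing D] {d : A →+* D} (x : P₁.obj d), P₃.bot (j.app (i.app x))
  j_bot : ∀ {D : Type u} [CommRing D] {d : A →+* D} (y : P₂.obj d), P₃.bot (j.app y) →
    P₂.bot y ∨ ∃ x, i.app x = y
  j_inj : ∀ {D : Type u} [CommRing D] {d : A →+* D} (y y' : P₂.obj d), j.app y = j.app y' →
    y = y' ∨ P₃.bot (j.app y)
  j_surj : ∀ {D : Type u} [CommRing D] {d : A →+* D} (z : P₃.obj d), P₃.bot z ∨ ∃ y, j.app y = z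

/-- Nisnevich local bijections of pointed sets at the points of the special fibre. -/
structure LocBij (π : A) {P Q : Pr A} (f : P ⟶ Q) : Prop where
  surj : ∀ {D K : Type u} [CommRing D] [Field K] (d : A →+* D) (x : D →+* K), x (d π) = 0 →
    ∀ z : Q.obj d, Ev x fun _ _ g => Q.bot (Q.map g (rfl : g.comp d = g.comp d) z) ∨
      ∃ y : P.obj (g.comp d), f.app y = Q.map g (rfl : g.comp d = g.comp d) z
  inj_bot : ∀ {D K : Type u} [CommRing D] [Field K] (d : A →+* D) (x : D →+* K), x (d π) = 0 →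
    ∀ y : P.obj d, Q.bot (f.app y) → Ev x fun _ _ g => P.bot (P.map g (rfl : g.comp d = g.comp d) y)
  inj : ∀ {D K : Type u} [CommRing D] [Field K] (d : A →+* D) (x : D →+* K), x (d π) = 0 →
    ∀ y y' : P.obj d, f.app y = f.app y' → Ev x fun _ _ g =>
      P.map g (rfl : g.comp d = g.comp d) y = P.map g (rfl : g.comp d = g.comp d) y' ∨
      Q.bot (Q.map g (rfl : g.comp d = g.comp d) (f.app y))

/-- A condition on maps out of `R` that is stable under composition. -/
structure Cond (R : Type u) [CommRing R] where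
  p : ∀ {D : Type u} [CommRing D], (R →+* D) → Prop
  comp : ∀ {D D' : Type u} [CommRing D] [CommRing D'] (f : D →+* D') {g : R →+* D},
    p g → p (f.comp g)

variable {R S : Type u} [CommRing R] [CommRing S]

/-- No condition. -/
def Cond.top (R : Type u) [CommRing R] : Cond R := ⟨fun _ => True, fun _ _ h => h⟩

/-- The empty condition. -/
def Cond.no (R : Type u) [CommRing R] : Cond R := ⟨fun _ => False, fun _ _ h => h⟩

/-- The open set `D(I)`. -/
def Cond.ideal (I : Ideal R) : Cond R :=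
  ⟨fun g => I.map g = ⊤, fun f g h => by rw [← Ideal.map_map, h, Ideal.map_top]⟩

/-- The open set `D(r)`. -/
def Cond.unit (r : R) : Cond R := ⟨fun g => IsUnit (g r), fun f _ h => h.map f⟩

/-- The pair of subfunctors of `Spec R` given by two conditions. -/
def pr (a : A →+* R) (T B : Cond R) : Pr A where
  obj d := {g : R →+* _ // g.comp a = d ∧ T.p g}
  map f hf g := ⟨f.comp g.1, by rw [RingHom.comp_assoc, g.2.1, hf], T.comp f g.2.2⟩
  map_id _ _ := rfl
  map_comp _ _ _ _ _ _ := rfl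
  bot g := B.p g.1
  bot_map f _ _ h := B.comp f h

/-- The map of pairs induced by a ring homomorphism. -/
def prMap {a : A →+* R} {b : A →+* S} {T B : Cond R} {T' B' : Cond S} (f : R →+* S)
    (hf : f.comp a = b)
    (hT : ∀ (D : Type u) [CommRing D] (g : S →+* D), T'.p g → T.p (g.comp f))
    (hB : ∀ (D : Type u) [CommRing D] (g : S →+* D), T'.p g → B'.p g → B.p (g.comp f)) :
    pr b T' B' ⟶ pr a T B where
  app g := ⟨g.1.comp f, by rw [RingHom.comp_assoc, hf, g.2.1], hT _ _ g.2.2⟩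
  nat _ _ _ := rfl
  bot {_ _ _ g} h := hB _ _ g.2.2 h

/-- `Spec R`. -/
abbrev hR (a : A →+* R) : Pr A := pr a (Cond.top R) (Cond.no R)

/-- The open subscheme `D(I)` of `Spec R`. -/
abbrev opn (a : A →+* R) (I : Ideal R) : Pr A := pr a (Cond.ideal I) (Cond.no R)

/-- The pair `(Spec R, D(ω))`. -/
abbrev rel (a : A →+* R) (ω : R) : Pr A := pr a (Cond.top R) (Cond.unit ω)

/-- Functoriality of `Spec`. -/
def hMap {a : A →+* R} {b : A →+* S} (f : R →+* S) (hf : f.comp a = b) : hR b ⟶ hR a :=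
  prMap f hf (fun _ _ _ h => h) (fun _ _ _ _ h => h)

/-- The inclusion `D(I) → Spec R`. -/
def opnι (a : A →+* R) (I : Ideal R) : opn a I ⟶ hR a :=
  prMap (RingHom.id R) rfl (fun _ _ _ _ => trivial) (fun _ _ _ _ h => h)

/-- The projection `Spec R → (Spec R, D(ω))`. -/
def relπ (a : A →+* R) (ω : R) : hR a ⟶ rel a ω :=
  prMap (RingHom.id R) rfl (fun _ _ _ h => h) (fun _ _ _ _ h => h.elim)

/-- Functoriality of the pairs `(Spec R, D(ω))`. -/
def relMap {a : A →+* R} {b : A →+* S} {ω : R} {ω' : S} (f : R →+* S) (hf : f.comp a = b)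
    (hω : f ω = ω') : rel b ω' ⟶ rel a ω :=
  prMap f hf (fun _ _ _ h => h) (fun _ _ g _ h => by
    change IsUnit (g (f ω))
    rw [hω]
    exact h)

/-- A subfunctor of the affine line. -/
structure Sub1 where
  p : ∀ {D : Type u} [CommRing D], D → Prop
  map : ∀ {D D' : Type u} [CommRing D] [CommRing D'] (f : D →+* D') {t : D}, p t → p (f t)

/-- The origin. -/
def Sub1.zero : Sub1.{u} := ⟨fun t => t = 0, fun f _ h => by rw [h, map_zero]⟩

/-- The units. -/
def Sub1.unit : Sub1.{u} := ⟨fun t => IsUnit t, fun f _ h => h.map f⟩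

/-- Smash product with the pair `(A^1, Z)`. -/
def Pr.sm (P : Pr A) (Z : Sub1.{u}) : Pr A where
  obj {D} _ d := P.obj d × D
  map f hf x := (P.map f hf x.1, f x.2)
  map_id h x := by rw [P.map_id]; rfl
  map_comp f g hf hg h x := by rw [P.map_comp]; rfl
  bot x := P.bot x.1 ∨ Z.p x.2
  bot_map f hf _ h := h.imp (P.bot_map f hf) (Z.map f)

/-- Functoriality of the smash product. -/
def smMap {P Q : Pr A} (f : P ⟶ Q) (Z : Sub1.{u}) : P.sm Z ⟶ Q.sm Z where
  app x := (f.app x.1, x.2)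
  nat g hg x := Prod.ext (f.nat g hg x.1) rfl
  bot h := h.imp f.bot id

/-- The map `Spec R[t] → Spec R ∧ (A^1, Z)`. -/
noncomputable def toSm (a : A →+* R) (Z : Sub1.{u}) : hR ((C : R →+* R[X]).comp a) ⟶ (hR a).sm Z where
  app g := (⟨g.1.comp C, g.2.1, trivial⟩, g.1 X)
  nat _ _ _ := rfl
  bot h := h.elim

theorem SES.sm {P₁ P₂ P₃ : Pr A} {i : P₁ ⟶ P₂} {j : P₂ ⟶ P₃} (h : SES i j) (Z : Sub1.{u}) :
    SES (smMap i Z) (smMap j Z) where
  i_bot x hx := hx.imp (h.i_bot x.1) id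
  i_inj x x' e := (h.i_inj x.1 x'.1 (congrArg Prod.fst e)).imp
    (fun e' => Prod.ext e' (congrArg Prod.snd e :)) Or.inl
  zero x := Or.inl (h.zero x.1)
  j_bot y hy := by
    rcases hy with hy | hy
    · rcases h.j_bot y.1 hy with h' | ⟨x, hx⟩
      · exact Or.inl (Or.inl h')
      · exact Or.inr ⟨(x, y.2), Prod.ext hx rfl⟩
    · exact Or.inl (Or.inr hy)
  j_inj y y' e := (h.j_inj y.1 y'.1 (congrArg Prod.fst e)).imp
    (fun e' => Prod.ext e' (congrArg Prod.snd e :)) Or.inl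
  j_surj z := (h.j_surj z.1).imp Or.inl fun ⟨y, hy⟩ => ⟨(y, z.2), Prod.ext hy rfl⟩

theorem Ev.mono {K : Type u} [Field K] {x : R →+* K}
    {Φ Ψ : ∀ (D : Type u) [CommRing D], (R →+* D) → Prop} (h : Ev x Φ)
    (H : ∀ (D : Type u) [CommRing D] (g : R →+* D), g.Etale → Φ D g → Ψ D g) : Ev x Ψ := by
  obtain ⟨D, _, g, x', hg, hx, hΦ⟩ := h
  exact ⟨D, inferInstance, g, x', hg, hx, H D g hg hΦ⟩

theorem Ev.of_id {K : Type u} [Field K] {x : R →+* K}
    {Φ : ∀ (D : Type u) [CommRing D], (R →+* D) → Prop} (h : Φ R (RingHom.id R)) : Ev x Φ :=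
  ⟨R, inferInstance, RingHom.id R, x, RingHom.Etale.of_bijective Function.bijective_id, rfl, h⟩

theorem LocBij.sm {π : A} {P Q : Pr A} {f : P ⟶ Q} (h : LocBij π f) (Z : Sub1.{u}) :
    LocBij π (smMap f Z) where
  surj d x hx z := (h.surj d x hx z.1).mono fun _ _ g _ h' =>
    h'.imp Or.inl fun ⟨y, hy⟩ => ⟨(y, g z.2), Prod.ext hy rfl⟩
  inj_bot d x hx y hy := by
    rcases hy with hy | hy
    · exact (h.inj_bot d x hx y.1 hy).mono fun _ _ g _ h' => Or.inl h'
    · exact Ev.of_id (Or.inr hy)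
  inj d x hx y y' e := (h.inj d x hx y.1 y'.1 (congrArg Prod.fst e)).mono fun _ _ g _ h' =>
    h'.imp (fun e' => Prod.ext e' (congrArg g (congrArg Prod.snd e :))) Or.inl

/-- A cohomology theory on pairs which only sees Nisnevich neighbourhoods of points of the special
fibre. -/
structure Th (π : A) where
  H : ℤ → Pr A → Type v
  [grp : ∀ q P, AddCommGroup (H q P)]
  map : ∀ {q : ℤ} {P Q : Pr A}, (P ⟶ Q) → H q Q →+ H q P
  map_id : ∀ {q : ℤ} {P : Pr A} (z : H q P), map (𝟙 P) z = z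
  map_comp : ∀ {q : ℤ} {P Q S : Pr A} (f : P ⟶ Q) (g : Q ⟶ S) (z : H q S),
    map (f ≫ g) z = map f (map g z)
  δ : ∀ {P₁ P₂ P₃ : Pr A} {i : P₁ ⟶ P₂} {j : P₂ ⟶ P₃}, SES i j → ∀ {p q : ℤ}, p + 1 = q →
    H p P₁ →+ H q P₃
  ex₁ : ∀ {P₁ P₂ P₃ : Pr A} {i : P₁ ⟶ P₂} {j : P₂ ⟶ P₃} (s : SES i j) {p q : ℤ} (h : p + 1 = q)
    (x : H p P₁), δ s h x = 0 ↔ ∃ y, map i y = x
  ex₂ : ∀ {P₁ P₂ P₃ : Pr A} {i : P₁ ⟶ P₂} {j : P₂ ⟶ P₃} (_ : SES i j) {q : ℤ} (y : H q P₂),
    map i y = 0 ↔ ∃ z, map j z = y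
  ex₃ : ∀ {P₁ P₂ P₃ : Pr A} {i : P₁ ⟶ P₂} {j : P₂ ⟶ P₃} (s : SES i j) {p q : ℤ} (h : p + 1 = q)
    (z : H q P₃), map j z = 0 ↔ ∃ x, δ s h x = z
  δ_nat : ∀ {P₁ P₂ P₃ Q₁ Q₂ Q₃ : Pr A} {i : P₁ ⟶ P₂} {j : P₂ ⟶ P₃} {i' : Q₁ ⟶ Q₂} {j' : Q₂ ⟶ Q₃}
    (s : SES i j) (s' : SES i' j') (f₁ : P₁ ⟶ Q₁) (f₂ : P₂ ⟶ Q₂) (f₃ : P₃ ⟶ Q₃),
    i ≫ f₂ = f₁ ≫ i' → j ≫ f₃ = f₂ ≫ j' → ∀ {p q : ℤ} (h : p + 1 = q) (x : H p Q₁),
    map f₃ (δ s' h x) = δ s h (map f₁ x)
  exc : ∀ {P Q : Pr A} {f : P ⟶ Q}, LocBij π f → ∀ q : ℤ,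
    Function.Bijective (map f : H q Q →+ H q P)

instance Th.instGrp {π : A} (E : Th.{u, v} π) (q : ℤ) (P : Pr A) : AddCommGroup (E.H q P) :=
  E.grp q P

variable {π : A}

/-- The theory `P ↦ E(P ∧ (A^1, Z))`. -/
def Th.sm (E : Th.{u, v} π) (Z : Sub1.{u}) : Th.{u, v} π where
  H q P := E.H q (P.sm Z)
  map f := E.map (smMap f Z)
  map_id z := E.map_id z
  map_comp f g z := E.map_comp (smMap f Z) (smMap g Z) z
  δ s _ _ h := E.δ (s.sm Z) h
  ex₁ s _ _ h := E.ex₁ (s.sm Z) h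
  ex₂ s := E.ex₂ (s.sm Z)
  ex₃ s _ _ h := E.ex₃ (s.sm Z) h
  δ_nat s s' f₁ f₂ f₃ h₁ h₂ _ _ h := E.δ_nat (s.sm Z) (s'.sm Z) (smMap f₁ Z) (smMap f₂ Z)
    (smMap f₃ Z) (congrArg (smMap · Z) h₁) (congrArg (smMap · Z) h₂) h
  exc h := E.exc (h.sm Z)

/-- The shifted theory. -/
def Th.shift (E : Th.{u, v} π) : Th.{u, v} π where
  H q P := E.H (q + 1) P
  map f := E.map f
  map_id z := E.map_id z
  map_comp f g z := E.map_comp f g z
  δ s _ _ h := E.δ s (congrArg (· + 1) h)
  ex₁ s _ _ h := E.ex₁ s (congrArg (· + 1) h)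
  ex₂ s := E.ex₂ s
  ex₃ s _ _ h := E.ex₃ s (congrArg (· + 1) h)
  δ_nat s s' f₁ f₂ f₃ h₁ h₂ _ _ h := E.δ_nat s s' f₁ f₂ f₃ h₁ h₂ (congrArg (· + 1) h)
  exc h q := E.exc h (q + 1)

/-- The cohomology of affine schemes in degree `q`. -/
def Th.rf (E : Th.{u, v} π) (q : ℤ) : RF.{u, v} A where
  obj a := E.H q (hR a)
  map f hf := E.map (hMap f hf)
  map_id _ z := E.map_id z
  map_comp f g hf hg _ _ z := (E.map_comp (hMap g hg) (hMap f hf) z).symm

/-- Vanishing in degree `q` on the spectra of `EP` algebras. -/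
def Th.Van (E : Th.{u, v} π) (q : ℤ) : Prop :=
  ∀ {R : Type u} [CommRing R] (a : A →+* R), EP a → ∀ z : E.H q (hR a), z = 0

/-- Homotopy invariance in degree `q`. -/
def Th.Inv (E : Th.{u, v} π) (q : ℤ) : Prop := (E.sm Sub1.zero).Van q

/-- The theory with supports in the zero section of the affine line, shifted. -/
def Th.supp (E : Th.{u, v} π) : Th.{u, v} π := (E.sm Sub1.unit).shift

end pr

end KEW
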