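import Pool.Agent.P.MP_6277db_ag.KEW.L1.Cyl
import Pool.Agent.P.MP_6277db_ag.KEW.L7.Defs

/-!
KEW project, layer L7: the cohomology theory on pairs represented by an object of `DM G`.
-/

set_option backward.isDefEq.respectTransparency false

noncomputable section

open CategoryTheory Limits AlgebraicGeometry Opposite

namespace Pool.Agent.KEW

open _root_.KEW

variable {C : Type 1} [Category.{0} C] {L : Type 1} [CommRing L] (G : Ch C L → Prop)

/-- A presheaf placed in degree `q`, as an object of `DM G`. -/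
abbrev sq (q : ℤ) : PSh C L ⥤ DM G := sgl q ⋙ QM G

/-- The shift isomorphism. -/
def shI {p q : ℤ} (h : p + 1 = q) (F : PSh C L) :
    (QM G).obj (((sgl q).obj F)⟦(1 : ℤ)⟧) ≅ (sq G p).obj F :=
  (QM G).mapIso ((sglShiftIso 1 p q (by omega)).app F)

theorem shI_nat {p q : ℤ} (h : p + 1 = q) {F F' : PSh C L} (φ : F ⟶ F') :
    (QM G).map (((sgl q).map φ)⟦(1 : ℤ)⟧') ≫ (shI G h F').hom = (shI G h F).hom ≫ (sq G p).map φ := by
  have := (sglShiftIso (C := C) (L := L) 1 p q (by omega)).hom.naturality φ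
  exact ((QM G).map_comp _ _).symm.trans ((congrArg (QM G).map this).trans ((QM G).map_comp _ _))

variable {S S' : ShortComplex (PSh C L)}

/-- The connecting morphism of a short exact sequence of presheaves. -/
def sδ (hS : S.ShortExact) {p q : ℤ} (h : p + 1 = q) : (sq G q).obj S.X₃ ⟶ (sq G p).obj S.X₁ :=
  sesδ G (shortExact_sgl hS q) ≫ (shI G h S.X₁).hom

variable {G} {Y : DM G}

theorem sδ_nat (hS : S.ShortExact) (hS' : S'.ShortExact) (φ : S ⟶ S') {p q : ℤ} (h : p + 1 = q) :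
    (sq G q).map φ.τ₃ ≫ sδ G hS' h = sδ G hS h ≫ (sq G p).map φ.τ₁ := by
  have := sesδ_naturality (G := G) (shortExact_sgl hS q) (shortExact_sgl hS' q)
    ((sgl q : PSh C L ⥤ Ch C L).mapShortComplex.map φ)
  rw [sδ, sδ, Category.assoc, ← shI_nat, ← Category.assoc, ← Category.assoc]
  exact congrArg (· ≫ (shI G h S'.X₁).hom) this.symm

theorem sδ_ex₁ (hS : S.ShortExact) {p q : ℤ} (h : p + 1 = q) (x : (sq G p).obj S.X₁ ⟶ Y) :
    sδ G hS h ≫ x = 0 ↔ ∃ y, (sq G p).map S.f ≫ y = x := by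
  constructor
  · intro hx
    obtain ⟨y, hy⟩ := ses_contra₁ (shortExact_sgl hS q) ((shI G h S.X₁).hom ≫ x)
      (by rw [← Category.assoc]; exact hx)
    refine ⟨(shI G h S.X₂).inv ≫ y, ?_⟩
    rw [← cancel_epi (shI G h S.X₁).hom, hy, ← Category.assoc, ← shI_nat, Category.assoc,
      Iso.hom_inv_id_assoc]
    rfl
  · rintro ⟨y, rfl⟩
    have := sesδ_f (G := G) (shortExact_sgl hS q)
    rw [sδ, Category.assoc, ← Category.assoc (shI G h S.X₁).hom, ← shI_nat G h S.f, Category.assoc,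
      ← Category.assoc]
    exact (congrArg (· ≫ _) this).trans zero_comp

theorem sδ_ex₂ (hS : S.ShortExact) {q : ℤ} (y : (sq G q).obj S.X₂ ⟶ Y) :
    (sq G q).map S.f ≫ y = 0 ↔ ∃ z, (sq G q).map S.g ≫ z = y := by
  constructor
  · intro hy
    obtain ⟨z, hz⟩ := ses_contra₂ (shortExact_sgl hS q) y hy
    exact ⟨z, hz.symm⟩
  · rintro ⟨z, rfl⟩
    rw [← Category.assoc, ← Functor.map_comp, S.zero, Functor.map_zero, zero_comp]

theorem sδ_ex₃ (hS : S.ShortExact) {p q : ℤ} (h : p + 1 = q) (z : (sq G q).obj S.X₃ ⟶ Y) :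
    (sq G q).map S.g ≫ z = 0 ↔ ∃ x, sδ G hS h ≫ x = z := by
  constructor
  · intro hz
    obtain ⟨x, hx⟩ := ses_contra₃ (shortExact_sgl hS q) z hz
    exact ⟨(shI G h S.X₁).inv ≫ x, by rw [sδ, Category.assoc, Iso.hom_inv_id_assoc, hx]⟩
  · rintro ⟨x, rfl⟩
    have := g_sesδ (G := G) (shortExact_sgl hS q)
    rw [sδ, Category.assoc, ← Category.assoc]
    exact (congrArg (· ≫ _) this).trans zero_comp

variable {A : Type} [CommRing A] {π : A}

/-- The theory represented by `Y`. -/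
def thOf (T : Pr A ⥤ PSh C L)
    (hz : ∀ {P₁ P₂ P₃ : Pr A} {i : P₁ ⟶ P₂} {j : P₂ ⟶ P₃}, SES i j → T.map i ≫ T.map j = 0)
    (hs : ∀ {P₁ P₂ P₃ : Pr A} {i : P₁ ⟶ P₂} {j : P₂ ⟶ P₃} (s : SES i j),
      (ShortComplex.mk _ _ (hz s)).ShortExact)
    (he : ∀ {P Q : Pr A} {f : P ⟶ Q}, LocBij π f → ∀ q : ℤ, WG G ((sgl q).map (T.map f)))
    (Y : DM G) : Th.{0, 2} π where
  H q P := (sq G q).obj (T.obj P) ⟶ Y
  map f := Preadditive.leftComp Y ((sq G _).map (T.map f))
  map_id z := by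
    change (sq G _).map (T.map (𝟙 _)) ≫ z = z
    rw [T.map_id, CategoryTheory.Functor.map_id, Category.id_comp]
  map_comp f g z := by
    change (sq G _).map (T.map (f ≫ g)) ≫ z = (sq G _).map (T.map f) ≫ (sq G _).map (T.map g) ≫ z
    rw [T.map_comp, Functor.map_comp, Category.assoc]
  δ s _ _ h := Preadditive.leftComp Y (sδ G (hs s) h)
  ex₁ s _ _ h x := sδ_ex₁ (hs s) h x
  ex₂ s _ y := sδ_ex₂ (hs s) y
  ex₃ s _ _ h z := sδ_ex₃ (hs s) h z
  δ_nat s s' f₁ f₂ f₃ h₁ h₂ _ _ h x := by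
    have := sδ_nat (G := G) (hs s) (hs s')
      { τ₁ := T.map f₁, τ₂ := T.map f₂, τ₃ := T.map f₃
        comm₁₂ := by dsimp; rw [← T.map_comp, ← T.map_comp, h₁]
        comm₂₃ := by dsimp; rw [← T.map_comp, ← T.map_comp, h₂] } h
    exact (Category.assoc _ _ _).symm.trans ((congrArg (· ≫ x) this).trans (Category.assoc _ _ _))
  exc {P Q f} h q := by
    have : IsIso ((sq G q).map (T.map f)) := (he h q).isIso
    exact ⟨fun x y e => (cancel_epi ((sq G q).map (T.map f))).1 e,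
      fun x => ⟨inv ((sq G q).map (T.map f)) ≫ x, IsIso.hom_inv_id_assoc ((sq G q).map (T.map f)) x⟩⟩

end Pool.Agent.KEW
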