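import Pool.Agent.P.MP_6277db_ag.KEW.L7.FQ
import Pool.Agent.P.MP_6277db_ag.KEW.L7.Br1
import Pool.Agent.P.MP_6277db_ag.KEW.L7.Br4

/-!
KEW project, layer L7: the presheaf of modules attached to a pair of functors on rings.
-/

set_option backward.isDefEq.respectTransparency false

noncomputable section

open CategoryTheory Limits AlgebraicGeometry Opposite

namespace Pool.Agent.KEW

open _root_.KEW _root_.KEW.S7

variable {A : Type} [CommRing A] {L : Type 1} [CommRing L]

/-- Restriction of points. -/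
def prRes (P : Pr A) {V U : Sm A} (f : V ⟶ U) (x : P.obj (st U)) : P.obj (st V) :=
  P.map (gm f) (st_nat f) x

theorem prMap_congr (P : Pr A) {D D' : Type} [CommRing D] [CommRing D'] {d : A →+* D}
    {d' : A →+* D'} {f f' : D →+* D'} (e : f = f') (hf : f.comp d = d') (hf' : f'.comp d = d')
    (x : P.obj d) : P.map f hf x = P.map f' hf' x := by
  subst e
  rfl

theorem prRes_id (P : Pr A) {U : Sm A} (x : P.obj (st U)) : prRes P (𝟙 U) x = x :=
  (prMap_congr P (gm_id U) _ rfl x).trans (P.map_id _ x)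

theorem prRes_fac (P : Pr A) {V U : Sm A} {f : V ⟶ U} {D : Type} [CommRing D]
    {g : Γ((smS A).obj U, ⊤) →+* D} {ψ : D →+* Γ((smS A).obj V, ⊤)} (e : ψ.comp g = gm f)
    {d : A →+* D} (hg : g.comp (st U) = d) (hψ : ψ.comp d = st V) (x : P.obj (st U)) :
    P.map ψ hψ (P.map g hg x) = prRes P f x :=
  (P.map_comp g ψ hg hψ (by rw [e, st_nat]) x).trans (prMap_congr P e _ _ x)

theorem prRes_comp (P : Pr A) {W V U : Sm A} (g : W ⟶ V) (f : V ⟶ U) (x : P.obj (st U)) :
    prRes P (g ≫ f) x = prRes P g (prRes P f x) :=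
  (prRes_fac P (gm_comp g f).symm _ _ x).symm

theorem prRes_bot (P : Pr A) {V U : Sm A} (f : V ⟶ U) (x : P.obj (st U)) (h : P.bot x) :
    P.bot (prRes P f x) := P.bot_map _ _ h

theorem app_prRes {P Q : Pr A} (φ : P ⟶ Q) {V U : Sm A} (f : V ⟶ U) (x : P.obj (st U)) :
    φ.app (prRes P f x) = prRes Q f (φ.app x) := φ.nat _ _ x

variable (L) in
/-- The module `L[P(V)] / L[bot]`. -/
abbrev PM (P : Pr A) (V : Sm A) : Type 1 := FQ L (P.obj (st V)) fun x => P.bot x

variable (L) in
/-- The generators of `PM`. -/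
abbrev pmGen {P : Pr A} {V : Sm A} (x : P.obj (st V)) : PM L P V := FQ.gen L _ x

variable (L) in
/-- The restriction maps of `PM`. -/
def pmRes (P : Pr A) {V U : Sm A} (f : V ⟶ U) : PM L P U →ₗ[L] PM L P V :=
  FQ.map L (prRes P f) (prRes_bot P f)

theorem pmRes_gen (P : Pr A) {V U : Sm A} (f : V ⟶ U) (x : P.obj (st U)) :
    pmRes L P f (pmGen L x) = pmGen L (prRes P f x) := FQ.map_gen _ _ x

variable (L) in
/-- The maps induced by a morphism of pairs. -/
def pmApp {P Q : Pr A} (φ : P ⟶ Q) (V : Sm A) : PM L P V →ₗ[L] PM L Q V :=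
  FQ.map L (fun x => φ.app x) fun _ h => φ.bot h

theorem pmApp_gen {P Q : Pr A} (φ : P ⟶ Q) {V : Sm A} (x : P.obj (st V)) :
    pmApp L φ V (pmGen L x) = pmGen L (φ.app x) := FQ.map_gen _ _ x

variable (L) in
/-- The presheaf `V ↦ L[P(V)] / L[bot]`. -/
def prPSh (P : Pr A) : PSh (Sm A) L where
  obj V := ModuleCat.of L (PM L P V.unop)
  map f := ModuleCat.ofHom (pmRes L P f.unop)
  map_id V := ModuleCat.hom_ext (FQ.ext fun x =>
    (pmRes_gen P _ x).trans (congrArg (pmGen L) (prRes_id P x)))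
  map_comp f g := ModuleCat.hom_ext (FQ.ext fun x => by
    change pmRes L P (g.unop ≫ f.unop) (pmGen L x) = pmRes L P g.unop (pmRes L P f.unop (pmGen L x))
    rw [pmRes_gen, pmRes_gen, pmRes_gen, prRes_comp])

variable (A L) in
/-- The functor from pairs to presheaves of modules. -/
def toPSh : Pr A ⥤ PSh (Sm A) L where
  obj P := prPSh L P
  map {P Q} φ :=
    { app := fun V => ModuleCat.ofHom (pmApp L φ V.unop)
      naturality := fun V W f => ModuleCat.hom_ext (FQ.ext fun x => by
        change pmApp L φ _ (pmRes L P f.unop (pmGen L x)) = pmRes L Q f.unop (pmApp L φ _ (pmGen L x))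
        rw [pmRes_gen, pmApp_gen, pmApp_gen, pmRes_gen, app_prRes]) }
  map_id P := by
    ext V : 2
    exact ModuleCat.hom_ext (FQ.ext fun x => pmApp_gen _ x)
  map_comp φ ψ := by
    ext V : 2
    refine ModuleCat.hom_ext (FQ.ext fun x => ?_)
    change pmApp L (φ ≫ ψ) _ (pmGen L x) = pmApp L ψ _ (pmApp L φ _ (pmGen L x))
    rw [pmApp_gen, pmApp_gen, pmApp_gen]
    rfl

variable (L) in
/-- The section attached to a point. -/
def prEl {P : Pr A} {V : Sm A} (x : P.obj (st V)) : ((toPSh A L).obj P).obj (op V) := pmGen L x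

theorem map_prEl {P : Pr A} {V U : Sm A} (f : V ⟶ U) (x : P.obj (st U)) :
    ((toPSh A L).obj P).map f.op (prEl L x) = prEl L (prRes P f x) := pmRes_gen P f x

theorem app_prEl {P Q : Pr A} (φ : P ⟶ Q) {V : Sm A} (x : P.obj (st V)) :
    ((toPSh A L).map φ).app (op V) (prEl L x) = prEl L (φ.app x) := pmApp_gen φ x

theorem prEl_bot {P : Pr A} {V : Sm A} {x : P.obj (st V)} (h : P.bot x) : prEl L x = 0 :=
  FQ.gen_bot (b := fun x => P.bot x) h

section ses

variable {P₁ P₂ P₃ : Pr A} {i : P₁ ⟶ P₂} {j : P₂ ⟶ P₃}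

theorem toPSh_zero (s : SES i j) : (toPSh A L).map i ≫ (toPSh A L).map j = 0 := by
  ext V : 2
  refine ModuleCat.hom_ext (FQ.ext fun x => ?_)
  change pmApp L j _ (pmApp L i _ (pmGen L x)) = 0
  rw [pmApp_gen, pmApp_gen]
  exact FQ.gen_bot (s.zero x)

theorem toPSh_shortExact (s : SES i j) :
    (ShortComplex.mk _ _ (toPSh_zero (L := L) s)).ShortExact := by
  have h1 : ∀ V, Mono (((toPSh A L).map i).app V) := fun V => (ModuleCat.mono_iff_injective _).2
    (FQ.map_injective _ (fun _ h => i.bot h) (fun x => s.i_bot x) fun x x' => s.i_inj x x')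
  have h2 : ∀ V, Epi (((toPSh A L).map j).app V) := fun V => (ModuleCat.epi_iff_surjective _).2
    (FQ.map_surjective _ (fun _ h => j.bot h) fun z => s.j_surj z)
  refine ShortComplex.ShortExact.mk' (sat_exact_of_eval _ fun V => ?_)
    (NatTrans.mono_of_mono_app _) (NatTrans.epi_of_epi_app _)
  exact (ShortComplex.moduleCat_exact_iff _).2 fun z hz =>
    FQ.map_exact (X := P₁.obj (st V.unop)) _ (fun _ h => i.bot h) _ (fun _ h => j.bot h)
      (fun y => s.j_bot y) (fun y y' => s.j_inj y y') hz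

end ses

section loc

variable {C : Type 1} [Category.{0} C] (u : C ⥤ Scheme.{0}) {S : C → Prop}
  (hS : ∀ ⦃V U : C⦄, (V ⟶ U) → S U → S V) {F : PSh C L} (T : ∀ W : C, Submodule L (F.obj (op W)))
  (hT : ∀ ⦃V U : C⦄ (f : V ⟶ U) (a : F.obj (op U)), a ∈ T U → F.map f.op a ∈ T V)

/-- Sections which lie locally in `T` away from `S`, after every restriction. -/
def locSub (U : C) : Submodule L (F.obj (op U)) where
  carrier := {a | ∀ (V : C) (f : V ⟶ U) (x : u.obj V),
    Locally u V x fun W g => S W ∨ F.map (g ≫ f).op a ∈ T W}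
  zero_mem' := fun _ _ x => Locally.of_forall x (Or.inr (by rw [map_zero]; exact zero_mem _))
  smul_mem' r a ha := fun V f x => (ha V f x).mono fun W g h => h.imp id fun h => by
    rw [map_smul]
    exact Submodule.smul_mem _ r h
  add_mem' {a a'} ha ha' := fun V f x => (ha V f x).bind fun W g h y =>
    (ha' W (g ≫ f) y).mono fun W' g' h' => by
      rcases h with h | h
      · exact Or.inl (hS g' h)
      refine h'.imp id fun h' => ?_
      rw [map_add, Category.assoc]
      refine add_mem ?_ h'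
      rw [Site_res]
      exact hT g' _ h

theorem locSub_locally {U : C} {a : F.obj (op U)} (h : a ∈ locSub u hS T hT U) (x : u.obj U) :
    Locally u U x fun V f => S V ∨ F.map f.op a ∈ T V :=
  (h U (𝟙 U) x).mono fun V f hf => by rwa [Category.comp_id] at hf

end loc

section rep

variable {R S : Type} [CommRing R] [CommRing S] {a : A →+* R} {b : A →+* S}

variable (L) in
/-- The comparison of the presheaf represented by `Spec R` with the presheaf attached to `hR`. -/
def ιE (ha : EP a) : (rep (Sm A) L).obj (spE a ha) ⟶ (toPSh A L).obj (hR a) :=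
  (repEquiv _ _).symm (prEl L (P := hR a) ⟨unE ha, unE_st ha, trivial⟩)

theorem repSec_ιE (ha : EP a) :
    repSec (ιE L ha) = prEl L (P := hR a) ⟨unE ha, unE_st ha, trivial⟩ :=
  (repEquiv _ _).apply_symm_apply _

theorem ιE_nat (ha : EP a) (hb : EP b) (f : R →+* S) (hf : f.comp a = b) :
    (rep (Sm A) L).map (spM ha hb f hf) ≫ ιE L ha = ιE L hb ≫ (toPSh A L).map (hMap f hf) := by
  refine (repSec_bijective _ _).1 ?_
  rw [repSec_map_comp, repSec_comp, repSec_ιE, repSec_ιE, map_prEl, app_prEl]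
  exact congrArg (prEl L) (Subtype.ext (unE_nat ha hb f hf))

instance (ha : EP a) : IsIso (ιE L ha) := by
  have : ∀ V, IsIso ((ιE L ha).app V) := by
    rintro ⟨V⟩
    choose t ht using fun g : (hR a).obj (st V) => spE_hom_exists ha g.1 g.2.1
    have e : ∀ φ : V ⟶ spE a ha, (ιE L ha).app (op V) (repEl L φ) =
        prEl L (prRes (hR a) φ ⟨unE ha, unE_st ha, trivial⟩) := fun φ => by
      rw [app_repEl, repSec_ιE, map_prEl]
    let r : PM L (hR a) V →ₗ[L] ((rep (Sm A) L).obj (spE a ha)).obj (op V) :=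
      FQ.lift (fun g => repEl L (t g)) fun _ h => False.elim h
    have hr : ∀ g, r (prEl L g) = repEl L (t g) := fun g => FQ.lift_gen _ _ g
    refine ⟨ModuleCat.ofHom r, ?_, ?_⟩
    · refine ModuleCat.hom_ext (Finsupp.lhom_ext' fun φ => LinearMap.ext_ring ?_)
      change r ((ιE L ha).app (op V) (repEl L φ.down)) = repEl L φ.down
      rw [e, hr]
      exact congrArg (repEl L) (spE_hom_ext ha (ht _))
    · refine ModuleCat.hom_ext (FQ.ext fun g => ?_)
      change (ιE L ha).app (op V) (r (prEl L g)) = prEl L g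
      rw [hr, e]
      exact congrArg (prEl L) (Subtype.ext (ht g))
  exact NatIso.isIso_of_isIso_app _

end rep

variable [IsNoetherianRing A] {π : A}

theorem locally_or {V : Sm A} (x : (smS A).obj V)
    {Φ : ∀ (D : Type) [CommRing D], (Γ((smS A).obj V, ⊤) →+* D) → Prop}
    (h : evp V x (st V π) = 0 → Ev (evp V x) Φ) {p : ∀ W : Sm A, (W ⟶ V) → Prop}
    (hp : ∀ (W : Sm A) (f : W ⟶ V) (D : Type) [CommRing D] (g : Γ((smS A).obj V, ⊤) →+* D)
      (ψ : D →+* Γ((smS A).obj W, ⊤)), ψ.comp g = gm f → ψ.comp (g.comp (st V)) = st W →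
      Φ D g → p W f) : Locally (smS A) V x fun W f => Gen π W ∨ p W f := by
  by_cases hx : evp V x (st V π) = 0
  · refine (locally_of_ev x (h hx)).mono fun W f ⟨D, _, g, ψ, h1, h2⟩ => Or.inr ?_
    exact hp W f D g ψ h2 (by rw [← RingHom.comp_assoc, h2, st_nat]) h1
  · exact (locally_gen π V x hx).mono fun _ _ => Or.inl

theorem wg_toPSh {P Q : Pr A} {φ : P ⟶ Q} (h : LocBij π φ) (q : ℤ) :
    WG (SGen (smS A) (Gen π)) ((sgl q).map ((toPSh A L).map φ)) := by
  have hS : ∀ ⦃V U : Sm A⦄, (V ⟶ U) → Gen π U → Gen π V := fun _ _ f h => h.map f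
  refine wg_sgen _ (fun U x a ha => ?_) (fun U x b => ?_) q
  · have hT : ∀ ⦃V U : Sm A⦄ (f : V ⟶ U) (a : ((toPSh A L).obj P).obj (op U)),
        a ∈ (⊥ : Submodule L _) → ((toPSh A L).obj P).map f.op a ∈ (⊥ : Submodule L _) := by
      rintro V U f _ rfl
      exact map_zero _
    have h1 : ∀ (U : Sm A) (y : P.obj (st U)), Q.bot (φ.app y) →
        prEl L y ∈ locSub (smS A) hS (fun _ => ⊥) hT U := by
      intro U y hy V f x
      refine locally_or x (fun hx => h.inj_bot (st V) _ hx (prRes P f y)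
        (by rw [app_prRes]; exact prRes_bot Q f _ hy)) fun W g D _ k ψ e hψ hb => ?_
      rw [map_prEl, prRes_comp, ← prRes_fac P e rfl hψ]
      exact prEl_bot (P.bot_map _ _ hb)
    refine locSub_locally (smS A) hS (fun _ => ⊥) hT
      (FQ.mem_of_map_eq_zero (fun x => φ.app x) (fun _ h => φ.bot h) _ (h1 U) (fun y y' e => ?_) ha) x
    intro V f x
    have e' : φ.app (prRes P f y) = φ.app (prRes P f y') := by rw [app_prRes, app_prRes, e]
    refine Locally.bind (locally_or x (fun hx => h.inj (st V) _ hx _ _ e')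
      (p := fun W g => prRes P (g ≫ f) y = prRes P (g ≫ f) y' ∨
        Q.bot (φ.app (prRes P (g ≫ f) y))) fun W g D _ k ψ e hψ hb => ?_) fun W g hg z => ?_
    · rw [prRes_comp, prRes_comp, app_prRes, ← prRes_fac P e rfl hψ, ← prRes_fac P e rfl hψ,
        ← prRes_fac Q e rfl hψ]
      exact hb.imp (congrArg _) (Q.bot_map _ _)
    have key : ∀ (W' : Sm A) (g' : W' ⟶ W),
        ((toPSh A L).obj P).map ((g' ≫ g) ≫ f).op (prEl L y - prEl L y') =
        ((toPSh A L).obj P).map (g' ≫ 𝟙 W).op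
          (prEl L (prRes P (g ≫ f) y) - prEl L (prRes P (g ≫ f) y')) := fun W' g' => by
      rw [Category.assoc, Site_res, map_sub, map_prEl, map_prEl, Category.comp_id]
    rcases hg with hg | hg | hg
    · exact Locally.of_forall z (Or.inl hg)
    · refine Locally.of_forall z (Or.inr ?_)
      erw [key, hg, sub_self, map_zero]
      exact zero_mem _
    · have hg' : Q.bot (φ.app (prRes P (g ≫ f) y')) := by
        rw [app_prRes, ← e, ← app_prRes]
        exact hg
      refine (sub_mem (h1 W _ hg) (h1 W _ hg') W (𝟙 W) z).mono fun W' g' h' => h'.imp id fun h' => ?_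
      erw [key]
      exact h'
  · let T : ∀ W : Sm A, Submodule L (((toPSh A L).obj Q).obj (op W)) := fun W =>
      LinearMap.range (((toPSh A L).map φ).app (op W)).hom
    have hT : ∀ ⦃V U : Sm A⦄ (f : V ⟶ U) (a : ((toPSh A L).obj Q).obj (op U)),
        a ∈ T U → ((toPSh A L).obj Q).map f.op a ∈ T V := by
      rintro V U f _ ⟨a, rfl⟩
      exact ⟨_, Site_nat _ f a⟩
    refine locSub_locally (smS A) hS T hT (FQ.mem_of_gen _ (fun z V f x => ?_) b) x
    refine locally_or x (fun hx => h.surj (st V) _ hx (prRes Q f z)) fun W g D _ k ψ e hψ hb => ?_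
    erw [map_prEl (L := L) (g ≫ f) z]
    rw [prRes_comp, ← prRes_fac Q e rfl hψ]
    rcases hb with hb | ⟨y, hy⟩
    · rw [prEl_bot (Q.bot_map _ _ hb)]
      exact zero_mem _
    · exact ⟨prEl L (P.map ψ hψ y), (app_prEl φ _).trans (by rw [φ.nat, hy])⟩

end Pool.Agent.KEW
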