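import Pool.Agent.P.MP_6277db_ag.KEW.L7.Br0
import Pool.Agent.P.MP_6277db_ag.KEW.L7.Br2
import Pool.Agent.P.MP_6277db_ag.KEW.L7.Br3

/-!
KEW project, layer L7: strict homotopy invariance on the smooth site.
-/

set_option backward.isDefEq.respectTransparency false

noncomputable section

open CategoryTheory Limits AlgebraicGeometry Opposite MonoidalCategory

namespace Pool.Agent.KEW

open _root_.KEW _root_.KEW.S7

universe w

variable {A κ : Type} [CommRing A] [Field κ] {π : A} {ρ : A →+* κ} {m : ℕ} {L : Type 1} [CommRing L]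

theorem rBij_rfHom {F F' : PSh (Sm A) L} (φ : F ⟶ F') [IsIso φ] : RBij (rfHom φ) := by
  intro R _ a ha
  have e : rfE F' ha ∘ (rfHom φ).app a = φ.app (op (spE a ha)) ∘ rfE F ha := rfl
  rw [← Function.Bijective.of_comp_iff' (rfE F' ha).bijective, e]
  exact Function.Bijective.comp ⟨Site_inj φ _, Site_surj φ _⟩ (rfE F ha).bijective

theorem hasPT_of_iso {F F' : PSh (Sm A) L} (e : F ≅ F') (h : HasPT.{0, 1, w} π ρ m (rf F)) :
    HasPT.{0, 1, w} π ρ m (rf F') := hasPT_of_bij (rfHom e.hom) (rBij_rfHom e.hom) h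

theorem G1.of_iso {F F' : PSh (Sm A) L} (e : F ≅ F') (h : G1 π F) : G1 π F' := fun V hV a => by
  obtain ⟨a, rfl⟩ := Site_surj e.hom V a
  rw [h V hV a, map_zero]

theorem g2_of_bij {h : RF.{0, 1} A} {g : RF.{0, 1} A} {φ : h.Hom g} (hφ : RBij φ)
    (H : L6.G2 π h) : L6.G2 π g := by
  intro B E _ _ β η ε hη hβ hε a
  subst hη
  have hE : EP ((ε.comp Polynomial.C).comp β) :=
    ep_etale (a := Polynomial.C.comp β) (ep_poly hβ) hε.etale
  obtain ⟨a, rfl⟩ := (hφ _ _ hE).2 a
  obtain ⟨B1, E', _, _, f, e, ψ, hψ, b, h1, h2, h3, h4⟩ := H B E β _ ε rfl hβ hε a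
  refine ⟨B1, E', inferInstance, inferInstance, f, e, ψ, hψ, φ.app _ b, h1, h2, h3, ?_⟩
  rw [← φ.nat e rfl hE (ep_etale hE h2.etale), h4,
    φ.nat ψ hψ (ep_etale hβ h1.etale) (ep_etale hE h2.etale)]

section

variable [IsNoetherianRing A]

theorem locIso_rfHom (π : A) {F F' : PSh (Sm A) L} {φ : F ⟶ F'} (hi : LocInj (smS A) φ)
    (hs : LocSurj (smS A) φ) : RF.LocIso π (rfHom φ) where
  surj a x ha _ z := by
    refine (ev_of_locally ha x (fun V f W g ⟨y, hy⟩ => ⟨F.map g.op y, ?_⟩)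
      (hs _ (rfE F' ha z))).mono fun D _ g _ ⟨hg, y, hy⟩ => ⟨(rfE F hg).symm y, ?_⟩
    · rw [Site_nat, hy, Site_res]
    · refine (rfE F' hg).injective ?_
      rw [rfE_app, AddEquiv.apply_symm_apply, rfE_map F' g rfl ha hg, hy]
  inj a x ha _ y hy := by
    refine (ev_of_locally ha x (fun V f W g h => ?_)
      (hi _ (rfE F ha y) (by rw [← rfE_app, hy, map_zero]))).mono fun D _ g _ ⟨hg, h⟩ => ?_
    · rw [Site_res, h, map_zero]
    · refine (rfE F hg).injective ?_
      rw [rfE_map F g rfl ha hg, h, map_zero]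

variable (π) in
/-- The theory represented by a complex. -/
def thX (X : Ch (Sm A) L) : Th.{0, 2} π :=
  thOf (G := SGen (smS A) (Gen π)) (toPSh A L) toPSh_zero toPSh_shortExact wg_toPSh ((QM _).obj X)

/-- The comparison with the homology presheaves. -/
def epsX {X : Ch (Sm A) L} (hX : IsLocal (SGen (smS A) (Gen π)) X) (q : ℤ) :
    ((thX π X).rf q).Hom (rf (X.homology q)) where
  app a :=
    { toFun := fun x h => hX.homRep ((sq _ q).map (ιE L h.down) ≫ x)
      map_zero' := funext fun _ => hX.homRep_eq_zero_iff _ |>.2 comp_zero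
      map_add' := fun x y => funext fun h =>
        (congrArg hX.homRep (Preadditive.comp_add _ _ _ _ x y)).trans (hX.homRep_add _ _) }
  nat f hf ha hb y := by
    refine (rfE _ hb).injective ?_
    rw [rfE_map _ f hf ha hb]
    refine Eq.trans ?_ (hX.homRep_map_comp (spM ha hb f hf) ((sq _ q).map (ιE L ha) ≫ y))
    refine congrArg hX.homRep ?_
    change (sq _ q).map (ιE L hb) ≫ (sq _ q).map ((toPSh A L).map (hMap f hf)) ≫ y =
      (sq _ q).map ((rep _ L).map (spM ha hb f hf)) ≫ (sq _ q).map (ιE L ha) ≫ y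
    rw [← Functor.map_comp_assoc, ← Functor.map_comp_assoc, ιE_nat]

theorem rBij_epsX {X : Ch (Sm A) L} (hX : IsLocal (SGen (smS A) (Gen π)) X) (q : ℤ) :
    RBij (epsX hX q) := by
  intro R _ a ha
  have e : rfE _ ha ∘ (epsX hX q).app a =
      hX.homRep ∘ fun x => (sq (SGen (smS A) (Gen π)) q).map (ιE L ha) ≫ x := rfl
  rw [← Function.Bijective.of_comp_iff' (rfE _ ha).bijective, e]
  exact (hX.homRep_bijective q _).comp ⟨fun x y h => (cancel_epi _).1 h,
    fun x => ⟨inv ((sq _ q).map (ιE L ha)) ≫ x, IsIso.hom_inv_id_assoc _ x⟩⟩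

theorem g1_of_local {K X : Ch (Sm A) L} {j : K ⟶ X} (hj : WG (NisGen (smS A)) j)
    (hX : IsLocal (NisGen (smS A)) X) (h1 : ∀ q, G1 π (K.homology q)) (q : ℤ) :
    G1 π (X.homology q) := by
  intro V hV a
  have hu := isSite_sm A
  refine bg_minus hu (hu.mvSys hX) V q (fun p _ W f _ c x => ?_) q le_rfl a
  refine (((wg_nis_iff j).1 hj p).2 W c x).mono fun W' g ⟨c', hc'⟩ => ?_
  rw [← hc', h1 p W' (hV.map (g ≫ f)) c', map_zero]

omit [IsNoetherianRing A] in
theorem sgen_of_g1 {X : Ch (Sm A) L} (hX : IsLocal (NisGen (smS A)) X)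
    (h1 : ∀ q, G1 π (X.homology q)) : IsLocal (SGen (smS A) (Gen π)) X :=
  isLocal_sgen (S := Gen π) (fun _ _ f h => h.map f) hX fun V hV q => h1 q V hV

theorem ui_of_g1 {X : Ch (Sm A) L} (hX : IsLocal (NisGen (smS A)) X)
    (h1 : ∀ q, G1 π (X.homology q)) (q : ℤ) : (rf (X.homology q)).UI π :=
  (rBij_epsX (sgen_of_g1 hX h1) q).ui (th_ui _ q)

theorem ui_of_local {K X : Ch (Sm A) L} {j : K ⟶ X} (hj : WG (NisGen (smS A)) j)
    (hX : IsLocal (NisGen (smS A)) X) (h1 : ∀ q, G1 π (K.homology q)) (q : ℤ) :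
    (rf (X.homology q)).UI π := ui_of_g1 hX (g1_of_local hj hX h1) q

end

/-- Strict homotopy invariance, bounded below case. -/
theorem hi_of_replacement (hb : Base π ρ m) {K X : Ch (Sm A) L} (j : K ⟶ X)
    (hj : WG (NisGen (smS A)) j) (hX : IsLocal (NisGen (smS A)) X) (b : ℤ)
    (h0 : ∀ q < b, IsZero (K.homology q)) (h1 : ∀ q, G1 π (K.homology q))
    (h2 : ∀ q, HasPT.{0, 1, w} π ρ m (rf (K.homology q)))
    (hT : ∀ q, L6.G2 π (rf (X.homology q)) → HasPT.{0, 1, w} π ρ m (rf (X.homology q))) (q : ℤ) :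
    (rf (X.homology q)).HI := by
  have := hb.noeth
  have hu := isSite_sm A
  have hj' := (wg_nis_iff j).1 hj
  have hS := sgen_of_g1 hX (g1_of_local hj hX h1)
  have hV : ∀ q < b, ∀ (V : Sm A) (z : (X.homology q).obj (op V)), z = 0 := fun q hq V z =>
    bg_minus hu (hu.mvSys hX) V q (fun p hp => (LocZero.of_locSurj (hj' p).2
      (LocZero.of_isZero (h0 p (by omega)))).over _) q le_rfl z
  have hV' : ∀ q < b, ∀ (R : Type) [CommRing R] (a : A →+* R), EP a →
      ∀ z : (rf (X.homology q)).obj a, z = 0 := fun q hq R _ a ha z =>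
    (rfE _ ha).injective ((hV q hq _ _).trans (map_zero _).symm)
  intro R _ a ha
  exact strict_hi hb (thX π X) (fun q => rf (X.homology q)) (epsX hS) (rBij_epsX hS) b hV'
    (fun q => rf (K.homology q)) (fun q => rfHom (HomologicalComplex.homologyMap j q))
    (fun q => locIso_rfHom π (hj' q).1 (hj' q).2) h2 hT q a ha

theorem bijective_cylE_iff (F : PSh (Sm A) L) {R : Type} [CommRing R] {a : A →+* R} (ha : EP a) :
    Function.Bijective (F.map (cylE ha).p.op) ↔ Function.Bijective ((rf F).map Polynomial.C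
      (rfl : Polynomial.C.comp a = Polynomial.C.comp a)) := by
  have e : F.map (cylE ha).p.op ∘ rfE F ha = rfE F (ep_poly ha) ∘ (rf F).map Polynomial.C rfl :=
    funext fun x => (rfE_map F Polynomial.C rfl ha (ep_poly ha) x).symm
  rw [← Function.Bijective.of_comp_iff _ (rfE F ha).bijective, e]
  exact Function.Bijective.of_comp_iff' (rfE F (ep_poly ha)).bijective _

theorem bijective_cylE {F : PSh (Sm A) L} (h : (rf F).HI) {R : Type} [CommRing R] {a : A →+* R}
    (ha : EP a) : Function.Bijective (F.map (cylE ha).p.op) := (bijective_cylE_iff F ha).2 (h a ha)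

theorem hi_of_local {X : Ch (Sm A) L} (hX : IsLocal (NGen (smS A)) X) (q : ℤ) :
    (rf (X.homology q)).HI := fun _ ha => (bijective_cylE_iff _ ha).1 (hX.bijective_cyl _ q)

variable {C' : Type 1} [Category.{0} C'] {γ : Sm A ⥤ C'}

/-- A good presheaf with transfers is strictly homotopy invariant on `EP` algebras. -/
theorem orth_line_good (hb : Base π ρ m) (d : TrData L γ) (hd : LocExact (smS A) (d.ρ ⋙ rs L γ))
    (hH : ∀ X : Ch C' L, (∀ n, d.P (X.X n)) → ∀ q, d.P (X.homology q))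
    (hPT : ∀ F, d.P F → L6.G2 π (rf ((rs L γ).obj F)) →
      HasPT.{0, 1, w} π ρ m (rf ((rs L γ).obj F)))
    {F : PSh C' L} (hF : d.P F) (h1 : G1 π ((rs L γ).obj F)) (h2 : L6.G2 π (rf ((rs L γ).obj F)))
    {U : Sm A} (hU : IsEP A U) :
    Orth (NisGen (smS A)) ((sgl 0).obj ((rep _ L).obj U ⊗ ((smS A).op ⋙ line L)))
      ((sgl 0).obj ((rs L γ).obj F)) := by
  have := hb.noeth
  obtain ⟨R, _, a, ha, rfl⟩ := hU
  obtain ⟨X, j, -, hP, hj, hX⟩ := (isSite_sm A).exists_nis_replacement_tr d hd ((sgl 0).obj F)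
    fun n => by
      by_cases hn : n = 0
      · subst hn
        exact d.closed.of_iso (HomologicalComplex.singleObjXSelf _ 0 F).symm hF
      · exact d.closed.of_isZero (HomologicalComplex.isZero_single_obj_X _ 0 F n hn)
  let j' : (sgl 0).obj ((rs L γ).obj F) ⟶ (mapC (rs L γ)).obj X :=
    (HomologicalComplex.singleMapHomologicalComplex (rs L γ) _ 0).inv.app F ≫ (mapC (rs L γ)).map j
  have hj' : WG (NisGen (smS A)) j' := (WG.of_isIso _).comp hj
  have hz : ∀ q : ℤ, q ≠ 0 →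
      IsZero (((sgl 0).obj ((rs L γ).obj F) : Ch (Sm A) L).homology q) := fun q hq =>
    HomologicalComplex.isZero_single_obj_homology _ 0 _ q hq
  have e0 := HomologicalComplex.singleObjHomologySelfIso (ComplexShape.up ℤ) 0 ((rs L γ).obj F)
  have hz' : ∀ q : ℤ, q ≠ 0 → ∀ (V : Sm A)
      (c : (((sgl 0).obj ((rs L γ).obj F) : Ch (Sm A) L).homology q).obj (op V)), c = 0 :=
    fun q hq V c => ModuleCat.isZero_iff_subsingleton.1
      (((evaluation _ _).obj (op V)).map_isZero (hz q hq)) |>.elim _ _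
  refine (Orth.iff_of_wg_right hj').2 (orth_line_of_cyl hX (cylE ha) fun q => bijective_cylE ?_ ha)
  refine hi_of_replacement hb j' hj' hX 0 (fun q hq => hz q hq.ne) (fun q => ?_) (fun q => ?_)
    (fun q h => ?_) q
  · by_cases hq : q = 0
    · subst hq
      exact h1.of_iso e0.symm
    · exact fun V _ c => hz' q hq V c
  · by_cases hq : q = 0
    · subst hq
      exact hasPT_of_iso e0.symm (hPT F hF h2)
    · exact hasPT_zero fun R _ a ha z => (rfE _ ha).injective ((hz' q hq _ _).trans (map_zero _).symm)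
  · have e := TW_homologyMapIso (rs L γ) X q
    exact hasPT_of_iso e.symm (hPT _ (hH X hP q) (g2_of_bij (rBij_rfHom e.hom) h))

/-- **O1**: a Nisnevich local replacement of a complex with good homology is homotopy invariant. -/
theorem o1 (hb : Base π ρ m) {n : ℕ} (hn : ringKrullDim A ≤ n) (d : TrData L γ)
    (hd : LocExact (smS A) (d.ρ ⋙ rs L γ))
    (hH : ∀ X : Ch C' L, (∀ n, d.P (X.X n)) → ∀ q, d.P (X.homology q))
    (hPT : ∀ F, d.P F → L6.G2 π (rf ((rs L γ).obj F)) →
      HasPT.{0, 1, w} π ρ m (rf ((rs L γ).obj F)))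
    {K X : Ch (Sm A) L}
    (hK : ∀ q, ∃ F, d.P F ∧ G1 π ((rs L γ).obj F) ∧ L6.G2 π (rf ((rs L γ).obj F)) ∧
      Nonempty (K.homology q ≅ (rs L γ).obj F))
    (j : K ⟶ X) (hj : WG (NisGen (smS A)) j) (hX : IsLocal (NisGen (smS A)) X) :
    IsLocal (NGen (smS A)) X := by
  have := hb.noeth
  refine isLocal_of_cover locally_ep hX fun U hU => (Orth.iff_of_wg_right hj).1 ?_
  obtain ⟨c⟩ := hasCyl_sm A U
  obtain ⟨k, hk⟩ := exists_dim_big A n hn c.I.obj
  refine orth_of_homology (isSite_sm A) hk (c.s L) (c.π L) (c.splitting L).s_g K fun q => ?_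
  obtain ⟨F, h1, h2, h3, ⟨e⟩⟩ := hK q
  exact (Orth.iff_of_wg_right (WG.of_isIso ((sgl 0).map e.hom))).2
    (orth_line_good hb d hd hH hPT h1 h2 h3 hU)

end Pool.Agent.KEW
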