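import Pool.Agent.P.MP_6277db_ag.KEW.L7.ThB

/-!
KEW project, layer L7, row CASE0: the step at a generic point of the special fibre.

Hints.
* `line_ind`: strong induction on `N`. All rings are localisations of `B[X]`. If `d.map x` is constant `= C (x s)` up to
  a denominator, `B[X][1/s] → B[X][1/(s d)]` is `ULP` (`ul_of_away`), use `th_ui`. Otherwise write
  `C (x s) * d.map x = (ω.map x) ^ r * d1.map x` with `ω.map x` irreducible and prime to `d1.map x` (`IsRes x` clears
  denominators), so `C s * d - ω ^ r * d1 ∈ (C (β π))`. Put `R = B[X][1/d1]`; `z` dies on `R[1/ω]` by `th_ui`; let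
  `K' = AdjoinRoot (ω.map x)`, `y : R → K'`; `hz` gives `(E1, e)` over `B[X]`, base change it to `R`; `glueAbs` and `h3` give
  `s'` with `z = 0` on `R[1/s']`, a localisation of `B[X]` away from `d1 * C s'` (`away_comp`), of smaller degree.
* `case0`: `a = E.map (toSm β zero) z`; `hX` gives `B1, ξ, z0`; `genDies` gives `d`; `hI` with `nz_of_prime`,
  `prime_span_C` shows that `z1 = a|B1[X] - C^* z0` dies at all points; `line_ind` gives `s`; restrict along `X = 0`
  (`eval_toSm`, `toSm_nat`) to see that `z0` dies on `B1[1/s]`; finish with `toSm_injective`. Note that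
  `mapRingHom l` is a localisation away from `C s` if `l` is one away from `s`.
-/

namespace KEW.S7

universe u v

open Polynomial CategoryTheory

variable {A κ B K : Type u} [CommRing A] [Field κ] [CommRing B] [Field K] {π : A} {ρ : A →+* κ}
  {m : ℕ} (E : Th.{u, v} π)

theorem away_mapRingHom {S : Type u} [CommRing S] {l : B →+* S} {s : B} (h : IsAway l s) :
    IsAway (mapRingHom l) (C s) := by
  algebraize [l]
  have : IsLocalization (Submonoid.powers s) S := h
  have h2 := Polynomial.isLocalization (Submonoid.powers s) S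
  rw [Submonoid.map_powers] at h2
  exact h2

section tools

variable {R S T : Type u} [CommRing R] [CommRing S] [CommRing T]

theorem case0_comp (q : ℤ) {a : A →+* R} {b : A →+* S} {c : A →+* T} (f : R →+* S) (g : S →+* T)
    (hf : f.comp a = b) (hg : g.comp b = c) {k : R →+* T} (e : g.comp f = k) (hk : k.comp a = c)
    (z : (E.rf q).obj a) :
    (E.rf q).map g hg ((E.rf q).map f hf z) = (E.rf q).map k hk z := by
  subst e
  exact (E.map_comp (hMap g hg) (hMap f hf) z).symm

theorem case0_van_unit (q : ℤ) {a : A →+* R} {z : (E.rf q).obj a} {d : R}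
    (h : ∀ (T : Type u) [CommRing T] (l : R →+* T), IsAway l d →
      (E.rf q).map l (rfl : l.comp a = l.comp a) z = 0)
    (g : R →+* S) {b : A →+* S} (hg : g.comp a = b) (hu : IsUnit (g d)) :
    (E.rf q).map g hg z = 0 := by
  obtain ⟨T, _, l, hl⟩ := exists_away d
  obtain ⟨c, hc⟩ := away_lift hl g hu
  rw [← case0_comp E q l c rfl (by rw [← RingHom.comp_assoc, hc, hg]) hc hg z, h T l hl, map_zero]

theorem case0_van_ui (q : ℤ) {a : A →+* R} (ha : EP a) {z : (E.rf q).obj a} {d : R}
    (h : ∀ (T : Type u) [CommRing T] (l : R →+* T), IsAway l d →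
      (E.rf q).map l (rfl : l.comp a = l.comp a) z = 0)
    (g : R →+* S) (hg : g.Etale)
    (H : ∀ (L : Type u) [Field L] (y : S →+* L), y (g (a π)) = 0 → y (g d) ≠ 0) :
    (E.rf q).map g (rfl : g.comp a = g.comp a) z = 0 := by
  obtain ⟨T, _, l, hl⟩ := exists_away (g d)
  have hb := th_ui E q (g.comp a) l (ep_etale ha hg) (away_etale hl)
    (ul_of_away hl fun L _ y hy => H L y (hy _ (Ideal.mem_span_singleton_self _)))
  refine hb.1 ?_
  rw [map_zero, case0_comp E q g l rfl rfl rfl rfl z]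
  exact case0_van_unit E q h _ _ (away_unit hl :)

theorem case0_dvd {x : B →+* K} {r : B} (hx : RingHom.ker x = Ideal.span {r}) {d : B[X]}
    (hd : d.map x = 0) : C r ∣ d := by
  refine (C_dvd_iff_dvd_coeff _ _).2 fun i => ?_
  rw [← Ideal.mem_span_singleton, ← hx, RingHom.mem_ker, ← coeff_map, hd, coeff_zero]

theorem case0_clear {x : B →+* K} (hr : IsRes x) (Q : K[X]) :
    ∃ (t : B) (q : B[X]), x t ≠ 0 ∧ q.map x = C (x t) * Q := by
  induction Q using Polynomial.induction_on' with
  | add P Q hP hQ =>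
    obtain ⟨t, p, ht, hp⟩ := hP
    obtain ⟨t', q, ht', hq⟩ := hQ
    refine ⟨t * t', C t' * p + C t * q, by rw [map_mul]; exact mul_ne_zero ht ht', ?_⟩
    simp only [Polynomial.map_add, Polynomial.map_mul, map_C, hp, hq, map_mul]
    ring
  | monomial n c =>
    obtain ⟨r, s, hs, e⟩ := hr c
    refine ⟨s, monomial n r, hs, ?_⟩
    rw [map_monomial, C_mul_monomial, ← e, mul_comm]

end tools

theorem line_ind {p n : ℤ} (h : p + 1 = n) (h3 : (E.rf p).A3 π) {β : A →+* B} (hβ : EP β)
    {x : B →+* K} (hr : IsRes x) (hx : RingHom.ker x = Ideal.span {β π})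
    (z : (E.rf n).obj ((C : B →+* B[X]).comp β))
    (hz : ∀ (L : Type u) [Field L] (y : B[X] →+* L), y (C (β π)) = 0 → (E.rf n).Dies y z)
    (N : ℕ) (d : B[X]) (hd : d.map x ≠ 0) (hN : (d.map x).natDegree ≤ N)
    (hzd : ∀ (T : Type u) [CommRing T] (l : B[X] →+* T), IsAway l d →
      (E.rf n).map l (rfl : l.comp (C.comp β) = l.comp (C.comp β)) z = 0) :
    ∃ s : B, x s ≠ 0 ∧ ∀ (T : Type u) [CommRing T] (l : B[X] →+* T), IsAway l (C s) →
      (E.rf n).map l (rfl : l.comp (C.comp β) = l.comp (C.comp β)) z = 0 := by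
  have hπ : x (β π) = 0 := by
    rw [← RingHom.mem_ker, hx]
    exact Ideal.mem_span_singleton_self _
  induction N using Nat.strong_induction_on generalizing d with
  | _ N ih =>
  by_cases h0 : (d.map x).natDegree = 0
  · have e0 : d.map x = C (x (d.coeff 0)) := by
      rw [← coeff_map]
      exact eq_C_of_natDegree_eq_zero h0
    refine ⟨d.coeff 0, fun e => hd (by rw [e0, e, map_zero]), fun T _ l hl => ?_⟩
    refine case0_van_ui E n (ep_poly hβ) hzd l (away_etale hl) fun L _ y hy => ?_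
    obtain ⟨w, hw⟩ := case0_dvd hx (d := d - C (d.coeff 0))
      (by rw [Polynomial.map_sub, e0, map_C, sub_self])
    have hy' : y (l (C (β π))) = 0 := hy
    have e1 : y (l d) = y (l (C (d.coeff 0))) := by
      rw [← sub_eq_zero, ← map_sub, ← map_sub, hw, map_mul, map_mul, hy', zero_mul]
    rw [e1]
    exact ((away_unit hl).map y).ne_zero
  · obtain ⟨ω0, hω0, hdvd⟩ := exists_irreducible_of_natDegree_ne_zero h0
    obtain ⟨r, P1, hP1, eP⟩ := WfDvdMonoid.max_power_factor hd hω0
    have hr0 : r ≠ 0 := by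
      rintro rfl
      rw [pow_zero, one_mul] at eP
      exact hP1 (eP ▸ hdvd)
    have hP10 : P1 ≠ 0 := by
      rintro rfl
      exact hP1 (dvd_zero _)
    obtain ⟨t, ω, ht, hω⟩ := case0_clear hr ω0
    obtain ⟨t1, d1, ht1, hd1⟩ := case0_clear hr P1
    have hirr : Irreducible (ω.map x) := by
      rw [hω]
      exact (irreducible_isUnit_mul (isUnit_C.2 (Ne.isUnit ht))).2 hω0
    have hnd : ¬ ω.map x ∣ d1.map x := by
      rw [hω, hd1]
      intro hh
      exact hP1 ((isUnit_C.2 (Ne.isUnit ht1)).dvd_mul_left.1 ((Dvd.intro_left _ rfl).trans hh))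
    obtain ⟨w, hw⟩ := case0_dvd hx (d := C (t ^ r * t1) * d - ω ^ r * d1) (by
      rw [Polynomial.map_sub, Polynomial.map_mul, Polynomial.map_mul, Polynomial.map_pow, hω, hd1,
        eP, map_C, map_mul, map_pow, map_mul, map_pow]
      ring)
    obtain ⟨R, _, l, hl⟩ := exists_away d1
    obtain ⟨Rω, _, lω, hlω⟩ := exists_away (l ω)
    have hRω : (E.rf n).map (lω.comp l) rfl z = 0 := by
      refine case0_van_ui E n (ep_poly hβ) hzd (lω.comp l)
        (etale_comp (away_etale hl) (away_etale hlω)) fun L _ y hy hyd => ?_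
      have hy' : (y.comp (lω.comp l)) (C (β π)) = 0 := hy
      have hyd' : (y.comp (lω.comp l)) d = 0 := hyd
      have e1 := congrArg (y.comp (lω.comp l)) hw
      rw [map_sub, map_mul _ (C _) d, map_mul _ (C _) w, map_mul _ _ d1, hy', hyd', mul_zero,
        zero_mul, zero_sub, neg_eq_zero, map_pow] at e1
      have u1 : IsUnit ((y.comp (lω.comp l)) ω) := (away_unit hlω).map y
      have u2 : IsUnit ((y.comp (lω.comp l)) d1) := ((away_unit hl).map lω).map y
      exact ((u1.pow r).mul u2).ne_zero e1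
    have : Fact (Irreducible (ω.map x)) := ⟨hirr⟩
    let y0 : B[X] →+* AdjoinRoot (ω.map x) := (AdjoinRoot.mk (ω.map x)).comp (mapRingHom x)
    have hy0 : ∀ q : B[X], y0 q = AdjoinRoot.mk (ω.map x) (q.map x) := fun _ => rfl
    have hy0C : ∀ b : B, y0 (C b) = AdjoinRoot.of (ω.map x) (x b) := fun b => by
      rw [hy0, map_C]
      rfl
    have hres0 : IsRes y0 := fun c => by
      obtain ⟨Q, rfl⟩ := AdjoinRoot.mk_surjective c
      obtain ⟨s, q, hs, hq⟩ := case0_clear hr Q
      refine ⟨q, C s, ?_, ?_⟩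
      · rw [hy0C]
        exact (_root_.map_ne_zero _).2 hs
      · rw [hy0, hy0, hq, map_C, map_mul, mul_comm]
    obtain ⟨y, hy⟩ := away_lift hl y0 (Ne.isUnit fun e => hnd (AdjoinRoot.mk_eq_zero.1 e))
    have hyl : ∀ q, y (l q) = y0 q := RingHom.congr_fun hy
    have hR : EP (l.comp (C.comp β)) := ep_away (ep_poly hβ) hl
    obtain ⟨E1, _, φ, e, hφ, he, hz1⟩ := dies_map (E.rf n) (ep_poly hβ) hR l rfl hy
      (hz _ y0 (by rw [hy0C, hπ, map_zero]))
    obtain ⟨Eω, _, j, hj⟩ := exists_away (φ (l ω))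
    obtain ⟨b, hb⟩ := glueAbs E h hlω hj ((E.rf n).map l rfl z)
      ((case0_comp E n l lω rfl rfl rfl rfl z).trans hRω) hz1
    obtain ⟨s', R', E', _, _, l', φ', k, hs', hl', hφ', hk, hU, hS⟩ :=
      h3 β x d1 ω l y (AdjoinRoot.of (ω.map x)) φ e j b hβ hr hx hirr hl (isRes_of_comp hres0 hy)
        (RingHom.ext fun c => ((hyl (C c)).trans (hy0C c)).symm)
        (by rw [hyl, hy0]; exact AdjoinRoot.mk_self) hφ he hj
    have hz' := hb R' E' l' φ' k hk hφ' hU hS
    rw [case0_comp E n l l' rfl rfl rfl rfl z] at hz'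
    have haw := away_comp hl hl'
    have emap : (d1 * C s').map x = C (x t1 * x s') * P1 := by
      rw [Polynomial.map_mul, hd1, map_C, map_mul]
      ring
    have hne : x t1 * x s' ≠ 0 := mul_ne_zero ht1 hs'
    have hdeg : ((d1 * C s').map x).natDegree < N := by
      rw [emap, natDegree_C_mul hne]
      have e2 := congrArg natDegree eP
      rw [natDegree_mul (pow_ne_zero _ hω0.ne_zero) hP10, natDegree_pow] at e2
      have := hω0.natDegree_pos
      have : 0 < r * ω0.natDegree := Nat.mul_pos (Nat.pos_of_ne_zero hr0) this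
      omega
    refine ih _ hdeg (d1 * C s') ?_ le_rfl fun T _ l'' hl'' => ?_
    · rw [emap]
      exact mul_ne_zero (C_ne_zero.2 hne) hP10
    · obtain ⟨c, hc⟩ := away_lift haw l'' (away_unit hl'')
      rw [← case0_comp E n (l'.comp l) c rfl (by rw [← RingHom.comp_assoc, hc]) hc rfl z]
      exact (congrArg _ hz').trans (map_zero _)

theorem case0 (hb : Base π ρ m) {p n : ℤ} (h : p + 1 = n) (hI : (E.rf n).InjLoc π)
    (hX : (E.rf n).Ext π) (h3 : (E.rf p).A3 π) {β : A →+* B} (hβ : EP β) {x : B →+* K}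
    (hr : IsRes x) (hx : RingHom.ker x = Ideal.span {β π}) (z : ((E.sm Sub1.zero).rf n).obj β) :
    ((E.sm Sub1.zero).rf n).Dies x z := by
  let a : (E.rf n).obj ((C : B →+* B[X]).comp β) := E.map (toSm β Sub1.zero) z
  obtain ⟨B1, L, _, _, f, x1, ξ, z0, h1, hf, hx1, hk1, hξ, hkξ, hd⟩ := hX β x a hβ hr hx
  have hβ1 : EP (f.comp β) := ep_etale hβ hf
  obtain ⟨d, hd0, hzd⟩ := genDies hb (th_ui E n) (ep_poly hβ1) hξ hkξ hd
  have hdI : d ∉ Ideal.span {(C (f (β π)) : B1[X])} := by
    rw [← hkξ]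
    exact hd0
  have hpr : (Ideal.span {(C (f (β π)) : B1[X])}).IsPrime := by
    rw [← hkξ]
    exact RingHom.ker_isPrime ξ
  obtain ⟨s, hs, hzs⟩ := line_ind E h h3 hβ1 (isRes_of_comp hr hx1) hk1 _ (fun L' _ y hy =>
      hI (C.comp (f.comp β)) y d _ (ep_poly hβ1) hy
        (nz_of_prime hpr (fun r hr' => by
          obtain ⟨w, rfl⟩ := Ideal.mem_span_singleton'.1 hr'
          have hy' : y (C (f (β π))) = 0 := hy
          rw [map_mul, hy', mul_zero]) hdI)
        fun L'' _ x' _ hx' => ev_away hx' fun D _ l hl => hzd D l hl) _ d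
    (fun e => hdI (Ideal.mem_span_singleton.2 (case0_dvd hk1 e))) le_rfl hzd
  refine ev_of_comp hf hx1 (ev_away hs fun B2 _ l hl => ?_)
  refine toSm_injective E ((l.comp f).comp β) n _ ?_
  have key : E.map (toSm ((l.comp f).comp β) Sub1.zero)
      (((E.sm Sub1.zero).rf n).map (l.comp f) rfl z) =
      (E.rf n).map (mapRingHom (l.comp f)) (mapRingHom_over (l.comp f) rfl) a := by
    change E.map _ (E.map (smMap (hMap (l.comp f) rfl) Sub1.zero) z) = E.map _ (E.map _ z)
    rw [← E.map_comp, ← E.map_comp, toSm_nat]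
  have hev := eval_toSm E ((l.comp f).comp β) n (((E.sm Sub1.zero).rf n).map (l.comp f) rfl z)
  rw [key] at hev ⊢
  have hl2 : (mapRingHom l).comp (C.comp (f.comp β)) = C.comp ((l.comp f).comp β) :=
    mapRingHom_over l rfl
  have hv := case0_van_unit E n hzs (mapRingHom l) hl2 (away_unit (away_mapRingHom hl))
  have eC : (mapRingHom l).comp C = (C : B2 →+* B2[X]).comp l :=
    RingHom.ext fun c => map_C l
  rw [map_sub, sub_eq_zero, case0_comp E n (mapRingHom f) (mapRingHom l) h1 hl2
      (mapRingHom_comp l f) (mapRingHom_over (l.comp f) rfl) a,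
    case0_comp E n C (mapRingHom l) rfl hl2 eC rfl z0,
    ← case0_comp E n l C (b := (l.comp f).comp β) rfl rfl rfl rfl z0] at hv
  rw [hv] at hev ⊢
  rw [case0_comp E n C (evalRingHom 0) rfl (evalZero_over _) (k := RingHom.id B2)
    (RingHom.ext fun c => by simp) rfl, (E.rf n).map_id] at hev
  rw [hev, map_zero]
  rfl

end KEW.S7
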