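import Pool.Agent.P.MP_6277db_ag.KEW.PT.Defs

/-!
KEW project, interface between L6 and L7: functors on `EP` algebras over `A` and their comparison with a
pretheory over the residue field.
-/

namespace KEW

universe u v w

/-- A functor from `A`-algebras to abelian groups; functoriality is only required through `EP`
algebras (the values on other algebras are irrelevant). -/
structure RF (A : Type u) [CommRing A] where
  obj : ∀ {R : Type u} [CommRing R], (A →+* R) → Type v
  [grp : ∀ {R : Type u} [CommRing R] (a : A →+* R), AddCommGroup (obj a)]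
  map : ∀ {R S : Type u} [CommRing R] [CommRing S] {a : A →+* R} {b : A →+* S} (f : R →+* S),
    f.comp a = b → obj a →+ obj b
  map_id : ∀ {R : Type u} [CommRing R] {a : A →+* R} (h : (RingHom.id R).comp a = a) (x : obj a),
    map (RingHom.id R) h x = x
  map_comp : ∀ {R S T : Type u} [CommRing R] [CommRing S] [CommRing T] {a : A →+* R} {b : A →+* S}
    {c : A →+* T} (f : R →+* S) (g : S →+* T) (hf : f.comp a = b) (hg : g.comp b = c)
    (h : (g.comp f).comp a = c), EP b → ∀ x : obj a, map g hg (map f hf x) = map (g.comp f) h x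

instance RF.instGrp {A : Type u} [CommRing A] (h : RF.{u, v} A) {R : Type u} [CommRing R]
    (a : A →+* R) : AddCommGroup (h.obj a) := h.grp a

/-- `φ : B → R` presents `R` as the localisation of `B ⧸ I` at the image of `M`. -/
structure LocRed {B R : Type u} [CommRing B] [CommRing R] (I : Ideal B) (M : Submonoid B)
    (φ : B →+* R) : Prop where
  unit : ∀ s ∈ M, IsUnit (φ s)
  surj : ∀ z : R, ∃ b : B, ∃ s ∈ M, z * φ s = φ b
  zero : ∀ b ∈ I, φ b = 0
  inj : ∀ b : B, φ b = 0 → ∃ s ∈ M, s * b ∈ I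

/-- Comparison of a functor `h` on `EP` algebras over `A` with a pretheory `P` over `κ = A ⧸ π`:
the value of `P` at a localisation of `B ⧸ π` is the colimit of the values of `h` on the etale
neighbourhoods of `V(π)` in the principal opens `D(s)`. -/
structure Cmp {A κ : Type u} [CommRing A] [CommRing κ] (π : A) (ρ : A →+* κ) {m : ℕ}
    (h : RF.{u, v} A) (P : PT.{u, w} κ m) where
  c : ∀ {B R : Type u} [CommRing B] [CommRing R] {β : A →+* B} {a : κ →+* R} (φ : B →+* R),
    φ.comp β = a.comp ρ → h.obj β →+ P.obj a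
  c_left : ∀ {B B' R : Type u} [CommRing B] [CommRing B'] [CommRing R] {β : A →+* B}
    {β' : A →+* B'} {a : κ →+* R} (f : B →+* B') (φ : B' →+* R) (hf : f.comp β = β')
    (hφ : φ.comp β' = a.comp ρ) (h' : (φ.comp f).comp β = a.comp ρ), EP β → EP β' → IndEP a →
    ∀ x : h.obj β, c φ hφ (h.map f hf x) = c (φ.comp f) h' x
  c_right : ∀ {B R R' : Type u} [CommRing B] [CommRing R] [CommRing R'] {β : A →+* B}
    {a : κ →+* R} {a' : κ →+* R'} (φ : B →+* R) (g : R →+* R') (hφ : φ.comp β = a.comp ρ)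
    (hg : g.comp a = a') (h' : (g.comp φ).comp β = a'.comp ρ), EP β → IndEP a → IndEP a' →
    ∀ x : h.obj β, P.map g hg (c φ hφ x) = c (g.comp φ) h' x
  surj : ∀ {B R : Type u} [CommRing B] [CommRing R] {β : A →+* B} {a : κ →+* R} (φ : B →+* R)
    (_ : φ.comp β = a.comp ρ) (M : Submonoid B), EP β → LocRed (Ideal.span {β π}) M φ →
    ∀ z : P.obj a, ∃ s ∈ M, ∃ (Bs B1 : Type u) (_ : CommRing Bs) (_ : CommRing B1) (l : B →+* Bs)
      (f : Bs →+* B1) (φ1 : B1 →+* R) (h1 : φ1.comp ((f.comp l).comp β) = a.comp ρ)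
      (x : h.obj ((f.comp l).comp β)), IsAway l s ∧ EE (Ideal.span {l (β π)}) f ∧
      φ1.comp (f.comp l) = φ ∧ c φ1 h1 x = z
  inj : ∀ {B R : Type u} [CommRing B] [CommRing R] {β : A →+* B} {a : κ →+* R} (φ : B →+* R)
    (hφ : φ.comp β = a.comp ρ) (M : Submonoid B), EP β → LocRed (Ideal.span {β π}) M φ →
    ∀ x : h.obj β, c φ hφ x = 0 → ∃ s ∈ M, ∃ (Bs B1 : Type u) (_ : CommRing Bs) (_ : CommRing B1)
      (l : B →+* Bs) (f : Bs →+* B1), IsAway l s ∧ EE (Ideal.span {l (β π)}) f ∧
      h.map (f.comp l) (rfl : (f.comp l).comp β = (f.comp l).comp β) x = 0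

/-- `h` has a comparison pretheory. -/
def HasPT {A κ : Type u} [CommRing A] [CommRing κ] (π : A) (ρ : A →+* κ) (m : ℕ)
    (h : RF.{u, v} A) : Prop :=
  ∃ P : PT.{u, w} κ m, Nonempty (Cmp π ρ h P)

end KEW
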