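import Pool.Agent.P.MP_6277db_ag.KEW.L7.Alg3

/-!
KEW project, layer L7, row COORD: etale coordinates adapted to a point of the special fibre.

Hints.
* `exists_sep_subset`: among the finitely many subsets `s` with `z|s` a transcendence basis of `K` over `κ`
  take one for which the separable closure of `κ(z|s)` in `K` is maximal; if some `z n` is not separable, the
  exchange lemma `exists_isTranscendenceBasis_and_isSeparable_of_linearIndepOn_pow'` gives a bigger one (copy the
  end of Mathlib/FieldTheory/SeparablyGenerated.lean; characteristic zero is trivial).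
* `coord`: let `z : Fin n → R` be etale coordinates. `K` is finite separable over `κ(x z)` (etale and `IsRes`), in
  particular algebraic. Take `s` from `exists_sep_subset`, `y = z|s`. For `j ∉ s` clear denominators in the minimal
  polynomial of `x (z j)` over `κ(x y)` and lift: `P j ∈ (MvPolynomial s A)[Z]` with `x (P j (z j)) = 0`,
  `x (P j' (z j)) ≠ 0`. Put `t j = P j (z j)`. The map `A[y, t] → A[y, z][1/∏ P j' (z j)]` is etale (one variable at a
  time: `geo_change` in L8b/Geo0.lean). Then `R1 ⧸ (π, t)` is etale over `κ[y]` and `ker x` lies over `0`, so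
  `locRed_etale` (base `A[y, t] → κ(y)`... or `eq_near`) shows that every element of `ker x` is killed modulo
  `(π, t)` by an element outside `ker x`; `ker x` is finitely generated, so invert one more element.
* `chart`: `B0 = R1 ⧸ (t)` is etale over `A[y]`; `R2` = pushout of `A[y] → R1` and `A[y] → B0`; `E` = pushout of
  `B0 → R2` and `B0 → K`; `locRed_po` with `locRed_res` for `B0 → K` (kernel `(π)`).
-/

namespace KEW.S7

universe u

open Polynomial

variable {A R S κ K : Type u} [CommRing A] [CommRing R] [CommRing S] [Field κ] [Field K] {π : A}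
  {ρ : A →+* κ} {m : ℕ}

theorem exists_sep_subset [PerfectField κ] [Algebra κ K] {ι : Type} [Finite ι] (z : ι → K)
    [Algebra.IsAlgebraic (Algebra.adjoin κ (Set.range z)) K] :
    ∃ s : Set ι, AlgebraicIndependent κ (fun i : s => z i) ∧
      ∀ j, IsSeparable (IntermediateField.adjoin κ (z '' s)) (z j) := by
  have hne : {s : Set ι | IsTranscendenceBasis κ fun i : s => z i}.Nonempty := by
    obtain ⟨t, hts, ht⟩ := exists_isTranscendenceBasis_subset (R := κ) (Set.range z)
    obtain ⟨s', hs', hinj'⟩ := Set.exists_image_eq_injOn_of_subset_range hts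
    refine ⟨s', (isTranscendenceBasis_image hinj').2 ?_⟩
    rw [hs']
    exact ht
  obtain _ | ⟨p, hp, hpk⟩ := CharP.exists' κ
  · obtain ⟨s, hs⟩ := hne
    refine ⟨s, hs.1, fun j => ?_⟩
    have : Algebra.IsAlgebraic (IntermediateField.adjoin κ (z '' s)) K := by
      rw [Set.image_eq_range]
      exact IsTranscendenceBasis.isAlgebraic_field hs
    exact Algebra.IsSeparable.isSeparable _ _
  have : ExpChar κ p := .prime hp.out
  have : CharP K p := .of_ringHom_of_ne_zero (algebraMap κ K) p hp.out.ne_zero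
  have H : ∀ s : Finset K, LinearIndepOn κ id (s : Set K) → LinearIndepOn κ (· ^ p) (s : Set K) := by
    intro s hs
    apply hs.map_of_injective_injective (frobeniusEquiv κ p).symm
      (frobenius K p).toAddMonoidHom <;>
      simp [frobenius, Algebra.smul_def, mul_pow, ← map_pow, frobeniusEquiv_symm_pow]
  obtain ⟨s, hs, Hs⟩ := Set.Finite.exists_maximalFor
    (fun s : Set ι => (separableClosure (IntermediateField.adjoin κ (z '' s)) K).restrictScalars κ)
    _ (Set.toFinite _) hne
  refine ⟨s, hs.1, fun n => of_not_not fun hn => ?_⟩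
  have hns : n ∉ s := fun h => hn (le_restrictScalars_separableClosure _
    (IntermediateField.subset_adjoin _ _ ⟨n, h, rfl⟩))
  obtain ⟨i, hi₁, hi₂⟩ := exists_isTranscendenceBasis_and_isSeparable_of_linearIndepOn_pow'
    p hp.out H s n hs hns
  refine not_lt_iff_le_imp_ge.mpr (Hs hi₁) (SetLike.lt_iff_le_and_exists.mpr ⟨?_, z n, ?_, hn⟩)
  · rw [separableClosure_le_separableClosure_iff, IntermediateField.adjoin_le_iff]
    rintro _ ⟨j, hj, rfl⟩
    obtain rfl | ne := eq_or_ne j i
    exacts [hi₂, le_restrictScalars_separableClosure _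
      (IntermediateField.subset_adjoin _ _ ⟨j, ⟨.inr hj, ne⟩, rfl⟩)]
  · obtain rfl | ne := eq_or_ne n i
    exacts [hi₂, le_restrictScalars_separableClosure _
      (IntermediateField.subset_adjoin _ _ ⟨n, ⟨.inl rfl, ne⟩, rfl⟩)]

section aux

variable {B P D K0 : Type u} [CommRing B] [CommRing P] [CommRing D] [Field K0]

theorem etale_iff_of_bijective {e : B →+* P} (he : Function.Bijective e) {g : P →+* R} :
    (g.comp e).Etale ↔ g.Etale :=
  ⟨etale_of_comp (RingHom.Etale.of_bijective he), etale_comp (RingHom.Etale.of_bijective he)⟩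

theorem etN_equiv {ι ι' : Type} (e : ι' ≃ ι) {a : A →+* R} {z : ι → R} :
    EtN a (fun i => z (e i)) ↔ EtN a z := by
  have h' : MvPolynomial.eval₂Hom a (fun i => z (e i)) =
      (MvPolynomial.eval₂Hom a z).comp (MvPolynomial.renameEquiv A e).toRingEquiv.toRingHom := by
    ext <;> simp
  unfold EtN
  rw [h']
  exact etale_iff_of_bijective (MvPolynomial.renameEquiv A e).bijective

theorem etN_option_iff {ι : Type} {a : A →+* R} {z : Option ι → R} :
    EtN a z ↔ Et1 (MvPolynomial.eval₂Hom a fun i => z (some i)) (z none) := by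
  have h' : MvPolynomial.eval₂Hom a z =
      (eval₂RingHom (MvPolynomial.eval₂Hom a fun i => z (some i)) (z none)).comp
        (MvPolynomial.optionEquivLeft A ι).toRingEquiv.toRingHom := by
    refine MvPolynomial.ringHom_ext (fun r => by simp) (fun o => ?_)
    cases o <;> simp
  unfold EtN Et1
  rw [h']
  exact etale_iff_of_bijective (MvPolynomial.optionEquivLeft A ι).bijective

theorem etN_sum {σ τ : Type} {a : A →+* R} {y : σ → R} {t : τ → R} :
    EtN a (Sum.elim y t) ↔ EtN (MvPolynomial.eval₂Hom a y) t := by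
  rw [← etN_equiv (Equiv.sumComm τ σ)]
  have h' : MvPolynomial.eval₂Hom a (fun i => Sum.elim y t (Equiv.sumComm τ σ i)) =
      (MvPolynomial.eval₂Hom (MvPolynomial.eval₂Hom a y) t).comp
        (MvPolynomial.sumRingEquiv A τ σ).toRingHom := by
    refine MvPolynomial.ringHom_ext (fun r => by simp) (fun o => ?_)
    cases o <;> simp
  unfold EtN
  rw [h']
  exact etale_iff_of_bijective (MvPolynomial.sumRingEquiv A τ σ).bijective

theorem etN_comp {ι : Type} {a : A →+* R} {z : ι → R} (h : EtN a z) {f : R →+* S} (hf : f.Etale) :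
    EtN (f.comp a) fun i => f (z i) := by
  have h' : MvPolynomial.eval₂Hom (f.comp a) (fun i => f (z i)) =
      f.comp (MvPolynomial.eval₂Hom a z) := by
    ext <;> simp
  unfold EtN
  rw [h']
  exact etale_comp h hf

theorem ep_C {ι : Type} [Finite ι] : EP (MvPolynomial.C : A →+* MvPolynomial ι A) := by
  refine ep_of_etN (x := MvPolynomial.X) ?_
  have h' : MvPolynomial.eval₂Hom (MvPolynomial.C : A →+* MvPolynomial ι A) MvPolynomial.X =
      RingHom.id _ := by
    ext <;> simp
  unfold EtN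
  rw [h']
  exact etale_id

theorem etN_isolate {ι : Type} [DecidableEq ι] {a : A →+* R} {z : ι → R} (j : ι) :
    EtN a z ↔ Et1 (MvPolynomial.eval₂Hom a fun i : {i // i ≠ j} => z i) (z j) := by
  rw [← etN_equiv (Equiv.optionSubtypeNe j), etN_option_iff]
  rfl

theorem etN_update {ι σ : Type} [DecidableEq ι] {a : A →+* R} {z : ι → R} (h : EtN a z) (j : ι)
    (e : σ → ι) (he : ∀ i, e i ≠ j) (Q : (MvPolynomial σ A)[X])
    (hQ : IsUnit (eval₂ (MvPolynomial.eval₂Hom a fun i => z (e i)) (z j) Q.derivative)) :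
    EtN a (Function.update z j (eval₂ (MvPolynomial.eval₂Hom a fun i => z (e i)) (z j) Q)) := by
  rw [etN_isolate j] at h ⊢
  let r : MvPolynomial σ A →+* MvPolynomial {i // i ≠ j} A :=
    (MvPolynomial.rename fun i => (⟨e i, he i⟩ : {i // i ≠ j})).toRingHom
  have hr : (MvPolynomial.eval₂Hom a fun i : {i // i ≠ j} => z i).comp r =
      MvPolynomial.eval₂Hom a fun i => z (e i) := by
    ext <;> simp [r]
  have h1 := geo_change h (Q.map r) (by rwa [derivative_map, eval₂_map, hr])
  rw [eval₂_map, hr] at h1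
  have h2 : (fun i : {i // i ≠ j} => Function.update z j
      (eval₂ (MvPolynomial.eval₂Hom a fun i => z (e i)) (z j) Q) i) =
      fun i : {i // i ≠ j} => z i :=
    funext fun i => Function.update_of_ne i.2 _ _
  rw [h2, Function.update_self]
  exact h1

theorem etN_change {ι : Type} [Finite ι] {a : A →+* R} {z : ι → R} (h : EtN a z) (s : Set ι)
    (Q : ι → (MvPolynomial s A)[X])
    (hQ : ∀ j ∉ s, IsUnit (eval₂ (MvPolynomial.eval₂Hom a fun i : s => z i) (z j) (Q j).derivative)) :
    EtN a (Sum.elim (fun i : s => z i) fun j : (sᶜ : Set ι) =>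
      eval₂ (MvPolynomial.eval₂Hom a fun i : s => z i) (z j) (Q j)) := by
  classical
  have := Fintype.ofFinite ι
  have key : ∀ T : Finset ι, (∀ j ∈ T, j ∉ s) → EtN a fun j => if j ∈ T then
      eval₂ (MvPolynomial.eval₂Hom a fun i : s => z i) (z j) (Q j) else z j := by
    intro T
    induction T using Finset.induction_on with
    | empty => simpa using h
    | insert j T hj ih =>
      intro hT
      have hjs : j ∉ s := hT j (Finset.mem_insert_self j T)
      have hT' : ∀ i ∈ T, i ∉ s := fun i hi => hT i (Finset.mem_insert_of_mem hi)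
      have h1 := etN_update (ih hT') j (fun i : s => (i : ι)) (fun i e => hjs (e ▸ i.2)) (Q j)
      have h2 : (fun i : s => if (i : ι) ∈ T then
          eval₂ (MvPolynomial.eval₂Hom a fun i : s => z i) (z i) (Q i) else z i) =
          fun i : s => z i := funext fun i => if_neg fun hi => hT' i hi i.2
      simp only [h2, if_neg hj] at h1
      convert h1 (hQ j hjs) using 2 with i
      by_cases hi : i = j
      · subst hi
        simp
      · simp [hi]
  have h1 := (etN_equiv (Equiv.Set.sumCompl s)).2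
    (key (Finset.univ.filter (· ∉ s)) (fun j hj => (Finset.mem_filter.1 hj).2))
  refine (congrArg (EtN a) (funext fun i => ?_)).mp h1
  rcases i with i | i
  · simp
  · have : (i : ι) ∉ s := i.2
    simp [this]

theorem etN_po {ι : Type} {η : P →+* R} {t : ι → R} (h : EtN η t) {g : P →+* B} {i : R →+* D}
    {j : B →+* D} (hpo : IsPO η g i j) : EtN j fun k => i (t k) := by
  obtain ⟨D', _, i', j', hpo'⟩ := exists_po (MvPolynomial.eval₂Hom η t) (MvPolynomial.map g)
  have hj' := po_etale hpo' h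
  have w := po_w hpo
  have w' := po_w hpo'
  have w1 : ∀ r, i' (η r) = j' (MvPolynomial.C (g r)) := fun r => by
    simpa using RingHom.congr_fun w' (MvPolynomial.C r)
  have w2 : ∀ k, i' (t k) = j' (MvPolynomial.X k) := fun k => by
    simpa using RingHom.congr_fun w' (MvPolynomial.X k)
  obtain ⟨c, hc1, hc2⟩ := po_desc hpo' i (MvPolynomial.eval₂Hom j fun k => i (t k)) (by
    refine MvPolynomial.ringHom_ext (fun r => ?_) (fun k => by simp)
    simpa using RingHom.congr_fun w r)
  obtain ⟨c', hc1', hc2'⟩ := po_desc hpo i' (j'.comp MvPolynomial.C) (RingHom.ext w1)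
  have e1 : c.comp c' = RingHom.id _ := by
    refine po_ext hpo ?_ ?_
    · rw [RingHom.comp_assoc, hc1', hc1, RingHom.id_comp]
    · rw [RingHom.comp_assoc, hc2', ← RingHom.comp_assoc, hc2]
      ext
      simp
  have e2 : c'.comp c = RingHom.id _ := by
    refine po_ext hpo' ?_ ?_
    · rw [RingHom.comp_assoc, hc1, hc1', RingHom.id_comp]
    · rw [RingHom.comp_assoc, hc2]
      refine MvPolynomial.ringHom_ext (fun r => ?_) (fun k => ?_)
      · simpa using RingHom.congr_fun hc2' r
      · simpa [← w2] using RingHom.congr_fun hc1' (t k)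
  unfold EtN
  rw [← hc2]
  exact etale_comp hj' (RingHom.Etale.of_bijective (Function.bijective_iff_has_inverse.2
    ⟨c', RingHom.congr_fun e2, RingHom.congr_fun e1⟩))

theorem finite_of_etale {j : K0 →+* D} (hj : j.Etale) : j.Finite := by
  algebraize [j]
  exact Algebra.FormallyUnramified.finite_of_free K0 D

theorem alg_of_etale [Algebra K0 K] {ψ : B →+* R} (hψ : ψ.Etale) {ξ : B →+* K0} {x : R →+* K}
    (e : x.comp ψ = (algebraMap K0 K).comp ξ) (hr : IsRes x) : Algebra.IsAlgebraic K0 K := by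
  obtain ⟨D, _, i, j, hpo⟩ := exists_po ψ ξ
  obtain ⟨x', h1, h2⟩ := po_desc hpo x (algebraMap K0 K) e
  have hj := finite_of_etale (po_etale hpo hψ)
  algebraize [j]
  let xa : D →ₐ[K0] K := ⟨x', RingHom.congr_fun h2⟩
  have h3 : ∀ r, IsAlgebraic K0 (x r) := fun r => by
    have := (Algebra.IsIntegral.isIntegral (R := K0) (i r)).map xa
    rw [← RingHom.congr_fun h1 r]
    exact this.isAlgebraic
  refine ⟨fun z => ?_⟩
  obtain ⟨r, s, hs, hz⟩ := hr z
  rw [eq_div_of_mul_eq hs hz, div_eq_mul_inv]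
  exact (h3 r).mul (h3 s).inv

theorem regular_of_etale {j : K0 →+* D} (hj : j.Etale) (d : D) : ∃ e : D, (1 - e * d) * d = 0 := by
  have hf := finite_of_etale hj
  algebraize [j]
  have : IsReduced D := Algebra.FormallyUnramified.isReduced_of_field K0 D
  have : IsArtinianRing D := IsArtinianRing.of_finite K0 D
  obtain ⟨n, e, he⟩ := IsArtinian.exists_pow_succ_smul_dvd d (1 : D)
  refine ⟨e, IsNilpotent.eq_zero ⟨n + 1, ?_⟩⟩
  simp only [smul_eq_mul, Nat.succ_eq_add_one, mul_one] at he
  rw [mul_pow]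
  linear_combination (-(1 - e * d) ^ n * d) * he

/-- A prime of an etale algebra is locally generated by the prime under it. -/
theorem kill_of_etale {ψ : B →+* R} (hψ : ψ.Etale) (x : R →+* K) {r : R} (hr : x r = 0) :
    ∃ s : R, x s ≠ 0 ∧ s * r ∈ (RingHom.ker (x.comp ψ)).map ψ := by
  obtain ⟨L, _, ξ, ι, hξ, e⟩ := exists_res (x.comp ψ)
  have hker : RingHom.ker ξ = RingHom.ker (x.comp ψ) := by
    rw [← e]
    ext b
    simp [RingHom.mem_ker]
  obtain ⟨D, _, i, j, hpo⟩ := exists_po ψ ξ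
  obtain ⟨x', h1, h2⟩ := po_desc hpo x ι e.symm
  have hL := locRed_po (locRed_res hξ) hpo
  obtain ⟨d, hd⟩ := regular_of_etale (po_etale hpo hψ) (i r)
  obtain ⟨b, s, hs, hb⟩ := hL.surj (1 - d * i r)
  obtain ⟨s', hs', h⟩ := hL.inj (b * r) (by rw [map_mul, ← hb, mul_right_comm, hd, zero_mul])
  have hu : ∀ s ∈ ((IsUnit.submonoid L).comap ξ).map ψ, x s ≠ 0 := fun s hs => by
    rw [← RingHom.congr_fun h1 s]
    exact ((hL.unit s hs).map x').ne_zero
  refine ⟨s' * b, ?_, by rwa [← hker, mul_assoc]⟩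
  have h3 : x b = x s := by
    rw [← RingHom.congr_fun h1 b, RingHom.comp_apply, ← hb, map_mul, map_sub, map_mul, map_one,
      ← RingHom.comp_apply x' i r, h1, hr, mul_zero, sub_zero, one_mul, ← RingHom.comp_apply, h1]
  rw [map_mul, h3]
  exact mul_ne_zero (hu s' hs') (hu s hs)

theorem kill_ker [IsNoetherianRing R] (x : R →+* K) {I : Ideal R}
    (h : ∀ r, x r = 0 → ∃ s : R, x s ≠ 0 ∧ s * r ∈ I) :
    ∃ s : R, x s ≠ 0 ∧ ∀ r, x r = 0 → s * r ∈ I := by
  have key : ∀ J : Ideal R, J.FG → J ≤ RingHom.ker x → ∃ s : R, x s ≠ 0 ∧ ∀ r ∈ J, s * r ∈ I := by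
    intro J hJ
    refine Submodule.fg_induction (motive := fun J _ =>
      J ≤ RingHom.ker x → ∃ s : R, x s ≠ 0 ∧ ∀ r ∈ J, s * r ∈ I) ?_ ?_ J hJ
    · intro r hr
      obtain ⟨s, hs, h'⟩ := h r (hr (Submodule.mem_span_singleton_self r))
      refine ⟨s, hs, fun r' hr' => ?_⟩
      obtain ⟨c, rfl⟩ := Submodule.mem_span_singleton.1 hr'
      rw [smul_eq_mul, mul_left_comm]
      exact I.mul_mem_left _ h'
    · intro J₁ J₂ _ _ h₁ h₂ hJ
      obtain ⟨s₁, hs₁, h₁⟩ := h₁ (le_sup_left.trans hJ)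
      obtain ⟨s₂, hs₂, h₂⟩ := h₂ (le_sup_right.trans hJ)
      refine ⟨s₁ * s₂, by rw [map_mul]; exact mul_ne_zero hs₁ hs₂, fun r hr => ?_⟩
      obtain ⟨r₁, hr₁, r₂, hr₂, rfl⟩ := Submodule.mem_sup.1 hr
      have e : s₁ * s₂ * (r₁ + r₂) = s₂ * (s₁ * r₁) + s₁ * (s₂ * r₂) := by ring
      rw [e]
      exact add_mem (I.mul_mem_left _ (h₁ _ hr₁)) (I.mul_mem_left _ (h₂ _ hr₂))
  exact key _ (IsNoetherian.noetherian _) le_rfl

theorem clear_denoms (ξ : B →+* K) (ι : K0 →+* K)
    (h : ∀ z : K0, ∃ u v : B, ξ v ≠ 0 ∧ ι z * ξ v = ξ u) (p : K0[X]) :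
    ∃ (Q : B[X]) (v : B), ξ v ≠ 0 ∧ Q.map ξ = C (ξ v) * p.map ι := by
  induction p using Polynomial.induction_on' with
  | add p q hp hq =>
    obtain ⟨Q₁, v₁, h₁, e₁⟩ := hp
    obtain ⟨Q₂, v₂, h₂, e₂⟩ := hq
    refine ⟨C v₂ * Q₁ + C v₁ * Q₂, v₁ * v₂, by rw [map_mul]; exact mul_ne_zero h₁ h₂, ?_⟩
    simp only [Polynomial.map_add, Polynomial.map_mul, map_C, e₁, e₂, map_mul]
    ring
  | monomial n z =>
    obtain ⟨u, v, hv, e⟩ := h z
    refine ⟨monomial n u, v, hv, ?_⟩
    rw [map_monomial, map_monomial, C_mul_monomial, mul_comm, e]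

theorem eval₂Hom_sub_mem {ι : Type} (η : P →+* R) (t : ι → R) (p : MvPolynomial ι P) :
    MvPolynomial.eval₂Hom η t p - η (MvPolynomial.constantCoeff p) ∈ Ideal.span (Set.range t) := by
  rw [← Ideal.Quotient.eq]
  have : (Ideal.Quotient.mk (Ideal.span (Set.range t))).comp (MvPolynomial.eval₂Hom η t) =
      ((Ideal.Quotient.mk (Ideal.span (Set.range t))).comp η).comp MvPolynomial.constantCoeff := by
    refine MvPolynomial.ringHom_ext (fun r => by simp) (fun k => ?_)
    simp
  exact RingHom.congr_fun this p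

end aux

theorem coord (hb : Base π ρ m) {a : A →+* R} (ha : EP a) {x : R →+* K} (hx : x (a π) = 0)
    (hr : IsRes x) :
    ∃ (f : R) (R1 : Type u) (_ : CommRing R1) (l : R →+* R1) (x1 : R1 →+* K) (d c : ℕ)
      (y : Fin d → R1) (t : Fin c → R1), IsAway l f ∧ x1.comp l = x ∧
      EtN (l.comp a) (Sum.elim y t) ∧
      RingHom.ker x1 = Ideal.span (insert (l (a π)) (Set.range t)) := by
  classical
  obtain ⟨n, z, hz⟩ := id ha
  obtain ⟨k, hk⟩ := exists_kappa hb (x.comp a) hx
  have := hb.perf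
  have := hb.noeth
  let := k.toAlgebra
  have hk' : ∀ r, algebraMap κ K (ρ r) = x (a r) := RingHom.congr_fun hk
  let w : Fin n → K := fun i => x (z i)
  have : Algebra.IsAlgebraic (Algebra.adjoin κ (Set.range w)) K := by
    rw [← IntermediateField.isAlgebraic_adjoin_iff_top]
    refine alg_of_etale hz (ξ := MvPolynomial.eval₂Hom
      ((algebraMap κ (IntermediateField.adjoin κ (Set.range w))).comp ρ)
      fun i => ⟨w i, IntermediateField.subset_adjoin _ _ ⟨i, rfl⟩⟩) ?_ hr
    refine MvPolynomial.ringHom_ext (fun r => ?_) (fun i => by simp [w])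
    simp [← hk']
  obtain ⟨s, hs, hsep⟩ := exists_sep_subset (κ := κ) w
  let η : MvPolynomial s A →+* R := MvPolynomial.eval₂Hom a fun i : s => z i
  have hη : ∀ u, x (η u) = MvPolynomial.aeval (fun i : s => w i) (MvPolynomial.map ρ u) := by
    have : x.comp η = (MvPolynomial.aeval (fun i : s => w i)).toRingHom.comp
        (MvPolynomial.map ρ) :=
      MvPolynomial.ringHom_ext (fun r => by simp [η, hk']) (fun i => by simp [η, w])
    exact RingHom.congr_fun this
  have hfr : ∀ y : IntermediateField.adjoin κ (w '' s), ∃ u v, x.comp η v ≠ 0 ∧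
      algebraMap _ K y * x.comp η v = x.comp η u := by
    rintro ⟨y, hy⟩
    rw [Set.image_eq_range, IntermediateField.mem_adjoin_range_iff] at hy
    obtain ⟨u, v, rfl⟩ := hy
    obtain ⟨u, rfl⟩ := MvPolynomial.map_surjective ρ hb.surj u
    obtain ⟨v, rfl⟩ := MvPolynomial.map_surjective ρ hb.surj v
    by_cases hv : x (η v) = 0
    · refine ⟨0, 1, by simp, ?_⟩
      simp [← hη, hv]
    · refine ⟨u, v, hv, ?_⟩
      simp [← hη, hv]
  have hQ : ∀ j, ∃ Q : (MvPolynomial s A)[X], x (eval₂ η (z j) Q) = 0 ∧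
      x (eval₂ η (z j) Q.derivative) ≠ 0 := by
    intro j
    obtain ⟨Q, v, hv, e⟩ := clear_denoms (x.comp η) (algebraMap _ K) hfr
      (minpoly (IntermediateField.adjoin κ (w '' s)) (w j))
    refine ⟨Q, ?_, ?_⟩
    · rw [hom_eval₂, ← eval_map, e, eval_mul, eval_map_algebraMap, minpoly.aeval, mul_zero]
    · rw [hom_eval₂, ← eval_map, ← derivative_map, e, derivative_C_mul, eval_mul, eval_C,
        derivative_map, eval_map_algebraMap]
      exact mul_ne_zero hv ((hsep j).aeval_derivative_ne_zero (minpoly.aeval _ _))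
  choose Q hQ0 hQ1 using hQ
  obtain ⟨f, hf, hfd⟩ : ∃ f : R, x f ≠ 0 ∧ ∀ j, eval₂ η (z j) (Q j).derivative ∣ f := by
    refine ⟨∏ j, eval₂ η (z j) (Q j).derivative, ?_, fun j => Finset.dvd_prod_of_mem
      (fun j => eval₂ η (z j) (Q j).derivative) (Finset.mem_univ j)⟩
    rw [map_prod]
    exact Finset.prod_ne_zero_iff.2 fun j _ => hQ1 j
  obtain ⟨R1, _, l, hl⟩ := exists_away f
  obtain ⟨x1, hx1⟩ := away_lift hl x hf.isUnit
  have hx1' : ∀ r, x1 (l r) = x r := RingHom.congr_fun hx1
  have hη1 : (MvPolynomial.eval₂Hom (l.comp a) fun i : s => l (z i)) = l.comp η := by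
    ext <;> simp [η]
  have h1 := etN_change (etN_comp hz (away_etale hl)) s Q (fun j _ => by
    rw [hη1, ← hom_eval₂]
    exact isUnit_of_dvd_unit (map_dvd l (hfd j)) (away_unit hl))
  obtain ⟨c, ⟨ec⟩⟩ := Finite.exists_equiv_fin (sᶜ : Set (Fin n))
  obtain ⟨d, ⟨ed⟩⟩ := Finite.exists_equiv_fin s
  let t : Fin c → R := fun j => eval₂ η (z (ec.symm j)) (Q (ec.symm j))
  have h2 : EtN (l.comp a) (Sum.elim (fun i : s => l (z i)) fun j => l (t j)) := by
    rw [← etN_equiv (Equiv.sumCongr (Equiv.refl s) ec.symm), hη1] at h1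
    refine (congrArg (EtN _) (funext fun i => ?_)).mp h1
    rcases i with i | i
    · rfl
    · exact (hom_eval₂ _ _ _ _).symm
  have h3 := etN_sum.1 h2
  rw [hη1] at h3
  have hR1 : IsNoetherianRing R1 := noeth_of_ep (ep_away ha hl)
  let I : Ideal R1 := Ideal.span (insert (l (a π)) (Set.range fun j => l (t j)))
  obtain ⟨g, hg, hgI⟩ := kill_ker x1 (I := I) fun r hr => by
    obtain ⟨g, hg, h⟩ := kill_of_etale h3 x1 hr
    refine ⟨g, hg, Ideal.map_le_iff_le_comap.2 (fun p hp => ?_) h⟩
    have e1 := eval₂Hom_sub_mem (l.comp η) (fun j => l (t j)) p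
    have e2 : x1 (MvPolynomial.eval₂Hom (l.comp η) (fun j => l (t j)) p -
        l.comp η (MvPolynomial.constantCoeff p)) = 0 := by
      refine (Ideal.span_le (I := RingHom.ker x1)).2 ?_ e1
      rintro _ ⟨j, rfl⟩
      exact (hx1' _).trans (hQ0 _)
    have e3 : x1 (MvPolynomial.eval₂Hom (l.comp η) (fun j => l (t j)) p) = 0 := hp
    rw [map_sub, e3, zero_sub, neg_eq_zero, RingHom.comp_apply, hx1', hη,
      map_eq_zero_iff _ hs, ← RingHom.mem_ker, MvPolynomial.ker_map, hb.ker, Ideal.map_span,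
      Set.image_singleton, Ideal.mem_span_singleton'] at e2
    obtain ⟨q, hq⟩ := e2
    have e4 : l.comp η (MvPolynomial.constantCoeff p) ∈ I := by
      rw [← hq, map_mul]
      refine I.mul_mem_left _ (Ideal.subset_span (Or.inl ?_))
      simp [η]
    have := add_mem (Ideal.span_mono (Set.subset_insert (l (a π)) _) e1) e4
    rwa [sub_add_cancel] at this
  obtain ⟨g0, N, hg0⟩ := away_surj hl g
  have hg1 : x1 (l g0) ≠ 0 := by
    rw [← hg0, map_mul, map_pow, hx1']
    exact mul_ne_zero hg (pow_ne_zero _ hf)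
  obtain ⟨R2, _, l', hl'⟩ := exists_away (l g0)
  obtain ⟨x2, hx2⟩ := away_lift hl' x1 hg1.isUnit
  have hx2' : ∀ r, x2 (l' r) = x1 r := RingHom.congr_fun hx2
  refine ⟨f * g0, R2, inferInstance, l'.comp l, x2, d, c, fun i => l' (l (z (ed.symm i))),
    fun j => l' (l (t j)), away_comp hl hl', by rw [← RingHom.comp_assoc, hx2, hx1], ?_, ?_⟩
  · have h4 := etN_comp h2 (away_etale hl')
    rw [← etN_equiv (Equiv.sumCongr ed.symm (Equiv.refl _))] at h4
    refine (congrArg (EtN _) (funext fun i => ?_)).mp h4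
    rcases i with i | i <;> rfl
  · apply le_antisymm
    · intro u hu
      obtain ⟨r, M, hr⟩ := away_surj hl' u
      have hr0 : x1 r = 0 := by
        rw [← hx2', ← hr, map_mul, RingHom.mem_ker.1 hu, zero_mul]
      have h5 : l g0 * r ∈ I := by
        rw [← hg0, mul_right_comm]
        exact I.mul_mem_right _ (hgI r hr0)
      have h6 := Ideal.mem_map_of_mem l' h5
      rw [map_mul, ← hr, Ideal.unit_mul_mem_iff_mem _ (away_unit hl'),
        Ideal.mul_unit_mem_iff_mem _ ((away_unit hl').pow M), Ideal.map_span,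
        Set.image_insert_eq, ← Set.range_comp] at h6
      exact h6
    · refine Ideal.span_le.2 ?_
      rintro _ (rfl | ⟨j, rfl⟩)
      · exact ((hx2' _).trans (hx1' _)).trans hx
      · exact ((hx2' _).trans (hx1' _)).trans (hQ0 _)

theorem coord' (hb : Base π ρ m) {a : A →+* R} (ha : EP a) {x : R →+* K} (hx : x (a π) = 0)
    (hr : IsRes x) :
    ∃ (f : R) (R1 : Type u) (_ : CommRing R1) (l : R →+* R1) (x1 : R1 →+* K), IsAway l f ∧
      x1.comp l = x ∧ (RingHom.ker x1 = Ideal.span {l (a π)} ∨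
        ∃ (W : Type u) (_ : CommRing W) (w : A →+* W) (φ : W →+* R1) (t : R1), EP w ∧
          φ.comp w = l.comp a ∧ Et1 φ t ∧ x1 t = 0) := by
  obtain ⟨f, R1, _, l, x1, d, c, y, t, hl, hx1, h, hker⟩ := coord hb ha hx hr
  refine ⟨f, R1, inferInstance, l, x1, hl, hx1, ?_⟩
  rcases c with _ | c
  · left
    rw [hker, Set.range_eq_empty, LawfulSingleton.insert_empty_eq]
  · right
    rw [etN_isolate (Sum.inr 0)] at h
    refine ⟨_, inferInstance, MvPolynomial.C, _, _, ep_C, ?_, h, ?_⟩
    · ext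
      simp
    · rw [← RingHom.mem_ker, hker]
      exact Ideal.subset_span (Or.inr ⟨0, rfl⟩)

/-- A chart: the point `x` has a Nisnevich neighbourhood `R2` such that a localisation `E` of `R2 ⧸ π` is etale over
a polynomial ring over the residue field `K`, the point being a rational point over the origin. -/
theorem chart (hb : Base π ρ m) {a : A →+* R} (ha : EP a) {x : R →+* K} (hx : x (a π) = 0)
    (hr : IsRes x) :
    ∃ (R2 E : Type u) (_ : CommRing R2) (_ : CommRing E) (f : R →+* R2) (φ : R2 →+* E)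
      (M : Submonoid R2) (k : κ →+* K) (ψ : K →+* E) (c : ℕ) (t : Fin c → E) (e : E →+* K),
      f.Etale ∧ k.comp ρ = x.comp a ∧ IndEP k ∧ LocRed (Ideal.span {f (a π)}) M φ ∧
      φ.comp (f.comp a) = (ψ.comp k).comp ρ ∧ EtN ψ t ∧ e.comp ψ = RingHom.id K ∧
      (∀ i, e (t i) = 0) ∧ e.comp (φ.comp f) = x := by
  obtain ⟨f, R1, _, l, x1, d, c, y, t, hl, hx1, h, hker⟩ := coord hb ha hx hr
  obtain ⟨k, hk⟩ := exists_kappa hb (x.comp a) hx
  rw [etN_sum] at h
  set η := MvPolynomial.eval₂Hom (l.comp a) y with hη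
  have hηC : η.comp MvPolynomial.C = l.comp a := by
    ext
    simp [η]
  have ht : ∀ j, x1 (t j) = 0 := fun j => by
    rw [← RingHom.mem_ker, hker]
    exact Ideal.subset_span (Or.inr ⟨j, rfl⟩)
  obtain ⟨B0, _, i0, j0, hpo0⟩ := exists_po (MvPolynomial.eval₂Hom η t) MvPolynomial.constantCoeff
  have hj0 := po_etale hpo0 h
  obtain ⟨x0, hx0, hx0'⟩ := po_desc hpo0 x1 (x1.comp η)
    (MvPolynomial.ringHom_ext (fun r => by simp) (fun j => by simp [ht]))
  have w1 : ∀ r, i0 (η r) = j0 r := fun r => by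
    simpa using RingHom.congr_fun (po_w hpo0) (MvPolynomial.C r)
  have w2 : ∀ j, i0 (t j) = 0 := fun j => by
    simpa using RingHom.congr_fun (po_w hpo0) (MvPolynomial.X j)
  have hi0 : Function.Surjective i0 := by
    have hL : LocRed (RingHom.ker (MvPolynomial.constantCoeff :
        MvPolynomial (Fin c) (MvPolynomial (Fin d) A) →+* _)) ⊥ MvPolynomial.constantCoeff :=
      ⟨fun s hs => by rw [Submonoid.mem_bot.1 hs, map_one]; exact isUnit_one,
        fun z => ⟨MvPolynomial.C z, 1, one_mem _, by simp⟩, fun _ h => h,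
        fun b hb => ⟨1, one_mem _, by rwa [one_mul]⟩⟩
    intro z
    obtain ⟨b, _, ⟨s, hs, rfl⟩, e⟩ := (locRed_po hL hpo0).surj z
    rw [Submonoid.mem_bot.1 hs, map_one, map_one, mul_one] at e
    exact ⟨b, e.symm⟩
  have hπ : i0 (l (a π)) = j0 (MvPolynomial.C π) := by
    rw [← w1]
    exact congrArg i0 (RingHom.congr_fun hηC π).symm
  have hker0 : RingHom.ker x0 = Ideal.span {j0.comp MvPolynomial.C π} := by
    apply le_antisymm
    · intro z hz
      obtain ⟨r, rfl⟩ := hi0 z
      have hr1 : r ∈ RingHom.ker x1 := (RingHom.congr_fun hx0 r).symm.trans hz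
      rw [hker] at hr1
      refine Ideal.map_le_iff_le_comap.2 (Ideal.span_le.2 ?_) (Ideal.mem_map_of_mem i0 hr1)
      rintro _ (rfl | ⟨j, rfl⟩)
      · rw [SetLike.mem_coe, Ideal.mem_comap, hπ]
        exact Ideal.mem_span_singleton_self _
      · rw [SetLike.mem_coe, Ideal.mem_comap, w2]
        exact zero_mem _
    · rw [Ideal.span_le, Set.singleton_subset_iff]
      change x0 (j0 (MvPolynomial.C π)) = 0
      rw [← hπ, ← RingHom.comp_apply x0 i0, hx0, ← RingHom.comp_apply x1 l, hx1, hx]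
  have hL0 := locRed_res (isRes_of_comp (isRes_of_comp hr hx1) hx0)
  rw [hker0] at hL0
  have hxk : x0.comp (j0.comp MvPolynomial.C) = k.comp ρ := by
    rw [← RingHom.comp_assoc, hx0', RingHom.comp_assoc, hηC, ← RingHom.comp_assoc, hx1, hk]
  obtain ⟨R2, _, i2, j2, hpo2⟩ := exists_po η j0
  obtain ⟨x2, hx2, hx2'⟩ := po_desc hpo2 x1 x0 hx0'.symm
  obtain ⟨E, _, φ, ψ, hpo⟩ := exists_po j2 x0
  obtain ⟨e, he, he'⟩ := po_desc hpo x2 (RingHom.id K) hx2'
  have hL := locRed_po hL0 hpo
  have h2 : (i2.comp l).comp a = j2.comp (j0.comp MvPolynomial.C) := by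
    rw [RingHom.comp_assoc, ← hηC, ← RingHom.comp_assoc, po_w hpo2, RingHom.comp_assoc]
  rw [Ideal.map_span, Set.image_singleton, ← RingHom.comp_apply j2, ← h2] at hL
  refine ⟨R2, E, inferInstance, inferInstance, i2.comp l, φ, _, k, ψ, c, fun j => φ (i2 (t j)), e,
    etale_comp (away_etale hl) (po_etale (po_flip hpo2) hj0), hk,
    indEP_locRed hb (ep_etale ep_C hj0) hL0 hxk, hL, ?_, etN_po (etN_po h hpo2) hpo, he', ?_, ?_⟩
  · rw [h2, ← RingHom.comp_assoc, po_w hpo, RingHom.comp_assoc, hxk, RingHom.comp_assoc]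
  · intro j
    rw [← RingHom.comp_apply e φ, he, ← RingHom.comp_apply x2 i2, hx2, ht]
  · rw [← RingHom.comp_assoc, he, ← RingHom.comp_assoc, hx2, hx1]

end KEW.S7
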