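import Pool.Agent.P.MP_6277db_ag.KEW.L7.Alg1

/-!
KEW project, layer L7, row EXC: standard exact sequences of pairs and excision.

Hints.
* An element of `(pr a T B).obj d` is `⟨g, hg, hT⟩` with `g : R →+* D`; `(prMap f ..).app g = ⟨g.1.comp f, _⟩`.
* `locBij_prMap`, `surj`: `z = g : R → D`, point `x`. If `B.p (x.comp g)` use openness of `B` and `ev_away`. Otherwise
  let `y` be the lift of `x.comp g`, `D'` the pushout of `φ` and `g` (`exists_po`, `po_etale`, `po_desc`), and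
  localise once more using openness of `T'`. `inj`: if not `B.p`, uniqueness of the lift gives
  `x.comp g = x.comp g'`, then `eq_near` and `ev_away`.
* `Cond.ideal` is open: if `I.map (x.comp g) = ⊤` then `x (g r) ≠ 0` for some `r ∈ I`; take `s = g r`.
-/

namespace KEW.S7

universe u v

open Polynomial CategoryTheory

variable {A R S E : Type u} [CommRing A] [CommRing R] [CommRing S] [CommRing E] {π : A}

/-- The condition `T` defines an open subfunctor. -/
def CondOpen (T : Cond R) : Prop :=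
  ∀ (D K : Type u) [CommRing D] [Field K] (g : R →+* D) (x : D →+* K), T.p (x.comp g) →
    ∃ s : D, x s ≠ 0 ∧ ∀ (D' : Type u) [CommRing D'] (l : D →+* D'), IsUnit (l s) → T.p (l.comp g)

theorem condOpen_top : CondOpen (Cond.top R) :=
  fun _ _ _ _ _ x _ => ⟨1, by rw [map_one]; exact one_ne_zero, fun _ _ _ _ => trivial⟩

theorem condOpen_no : CondOpen (Cond.no R) :=
  fun _ _ _ _ _ _ h => h.elim

theorem exc_ideal_p {K : Type u} [Field K] (I : Ideal R) (x : R →+* K) :
    I.map x = ⊤ ↔ ∃ r ∈ I, x r ≠ 0 := by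
  refine ⟨fun h => ?_, fun ⟨r, hr, h⟩ =>
    Ideal.eq_top_of_isUnit_mem _ (Ideal.mem_map_of_mem x hr) (Ne.isUnit h)⟩
  by_contra hn
  push Not at hn
  have h1 : I.map x = ⊥ := (Ideal.map_eq_bot_iff_le_ker x).2 hn
  exact bot_ne_top (h1.symm.trans h)

theorem condOpen_ideal (I : Ideal R) : CondOpen (Cond.ideal I) := by
  intro D K _ _ g x h
  obtain ⟨r, hr, h⟩ := (exc_ideal_p I _).1 h
  exact ⟨g r, h, fun D' _ l hl =>
    Ideal.eq_top_of_isUnit_mem _ (Ideal.mem_map_of_mem (l.comp g) hr) hl⟩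

theorem condOpen_unit (r : R) : CondOpen (Cond.unit r) :=
  fun _ _ _ _ g _ h => ⟨g r, IsUnit.ne_zero h, fun _ _ _ hl => hl⟩

theorem ideal_p_iff {K : Type u} [Field K] (I : Ideal R) (x : R →+* K) :
    (Cond.ideal I).p x ↔ ∃ r ∈ I, x r ≠ 0 :=
  exc_ideal_p I x

/-- Excision for an etale map. -/
theorem locBij_prMap {a : A →+* R} {b : A →+* E} {T B : Cond R} {T' B' : Cond E} (φ : R →+* E)
    (hf : φ.comp a = b)
    (hT : ∀ (D : Type u) [CommRing D] (g : E →+* D), T'.p g → T.p (g.comp φ))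
    (hB : ∀ (D : Type u) [CommRing D] (g : E →+* D), T'.p g → B'.p g → B.p (g.comp φ))
    (hφ : φ.Etale) (oB : CondOpen B) (oT' : CondOpen T') (oB' : CondOpen B')
    (hL : ∀ (K : Type u) [Field K] (x : R →+* K), x (a π) = 0 → T.p x → ¬ B.p x →
      ∃! y : E →+* K, y.comp φ = x ∧ T'.p y)
    (hB' : ∀ (K : Type u) [Field K] (y : E →+* K), y (b π) = 0 → T'.p y → B.p (y.comp φ) → B'.p y) :
    LocBij π (prMap φ hf hT hB : pr b T' B' ⟶ pr a T B) := by
  refine ⟨fun {D K _ _} d x hx z => ?_, fun {D K _ _} d x hx y hy => ?_,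
    fun {D K _ _} d x hx y y' e => ?_⟩
  · obtain ⟨g, hg, hTg⟩ := z
    by_cases hb : B.p (x.comp g)
    · obtain ⟨s, hs, H⟩ := oB D K g x hb
      exact ev_away hs fun D' _ l hl => Or.inl (H D' l (away_unit hl))
    · obtain ⟨y, ⟨hy, hT'⟩, -⟩ := hL K (x.comp g) (by rw [← hg] at hx; exact hx)
        (T.comp x hTg) hb
      obtain ⟨P, _, i, j, hpo⟩ := exists_po φ g
      obtain ⟨c, hci, hcj⟩ := po_desc hpo y x hy
      obtain ⟨s, hs, H⟩ := oT' P K i c (by rw [hci]; exact hT')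
      have w := po_w hpo
      refine ev_of_comp (po_etale hpo hφ) hcj (ev_away hs fun D' _ l hl =>
        Or.inr ⟨⟨l.comp i, ?_, H D' l (away_unit hl)⟩, Subtype.ext ?_⟩)
      · rw [← hf, ← hg, RingHom.comp_assoc, RingHom.comp_assoc, ← RingHom.comp_assoc a φ i, w,
          RingHom.comp_assoc]
      · change (l.comp i).comp φ = (l.comp j).comp g
        rw [RingHom.comp_assoc, RingHom.comp_assoc, w]
  · obtain ⟨g, hg, hTg⟩ := y
    obtain ⟨s, hs, H⟩ := oB' D K g x
      (hB' K (x.comp g) (by rw [← hg] at hx; exact hx) (T'.comp x hTg) (B.comp x hy))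
    exact ev_away hs fun D' _ l hl => H D' l (away_unit hl)
  · obtain ⟨g, hg, hTg⟩ := y
    obtain ⟨g', hg', hTg'⟩ := y'
    have e' : g.comp φ = g'.comp φ := congrArg Subtype.val e
    by_cases hb : B.p (x.comp (g.comp φ))
    · obtain ⟨s, hs, H⟩ := oB D K (g.comp φ) x hb
      exact ev_away hs fun D' _ l hl => Or.inr (H D' l (away_unit hl))
    · have h0 : x.comp (g.comp φ) (a π) = 0 := by
        rw [← hg, ← hf] at hx
        exact hx
      have h1 : x.comp g = x.comp g' :=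
        (hL K _ h0 (T.comp x (hT D g hTg)) hb).unique ⟨rfl, T'.comp x hTg⟩
          ⟨by rw [e']; rfl, T'.comp x hTg'⟩
      obtain ⟨s, hs, H⟩ := eq_near hφ e' h1
      refine ev_away (s := s) (by rw [hs]; exact one_ne_zero) fun D' _ l hl =>
        Or.inl (Subtype.ext (RingHom.ext fun r => (away_unit hl).mul_left_cancel ?_))
      change l s * l (g r) = l s * l (g' r)
      rw [← map_mul, ← map_mul, H]

theorem locBij_hMap {a : A →+* R} {φ : R →+* E} (hφ : φ.Etale) (h : ULP φ (Ideal.span {a π}) 1) :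
    LocBij π (hMap φ (rfl : φ.comp a = φ.comp a)) := by
  refine locBij_prMap φ rfl _ _ hφ condOpen_no condOpen_top condOpen_no (fun K _ x hx _ _ => ?_)
    fun _ _ _ _ _ h => h
  have h1 : Ideal.span {a π} ≤ RingHom.ker x := (Ideal.span_singleton_le_iff_mem _).2 hx
  obtain ⟨y, hy, hu⟩ := h K x h1 (by rw [map_one]; exact one_ne_zero)
  exact ⟨y, ⟨hy, trivial⟩, fun y' hy' => hu y' hy'.1⟩

theorem locBij_relMap {a : A →+* R} {φ : R →+* E} {ω : R} {ω' : E} (hω : φ ω = ω') (hφ : φ.Etale)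
    (h : ULP φ (Ideal.span {a π, ω}) 1) : LocBij π (relMap φ (rfl : φ.comp a = φ.comp a) hω) := by
  refine locBij_prMap φ rfl _ _ hφ (condOpen_unit ω) condOpen_top (condOpen_unit ω')
    (fun K _ x hx _ hn => ?_) fun _ _ y _ _ h => ?_
  · have h0 : x ω = 0 := by_contra fun h0 => hn (Ne.isUnit h0)
    have h1 : Ideal.span {a π, ω} ≤ RingHom.ker x := by
      rw [Ideal.span_le, Set.insert_subset_iff, Set.singleton_subset_iff]
      exact ⟨hx, h0⟩
    obtain ⟨y, hy, hu⟩ := h K x h1 (by rw [map_one]; exact one_ne_zero)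
    exact ⟨y, ⟨hy, trivial⟩, fun y' hy' => hu y' hy'.1⟩
  · change IsUnit (y ω')
    rw [← hω]
    exact h

/-- A sectionwise bijection which reflects the base points. -/
theorem locBij_of_bijective {P Q : Pr A} (f : P ⟶ Q)
    (h : ∀ (D : Type u) [CommRing D] (d : A →+* D), Function.Bijective (f.app : P.obj d → Q.obj d))
    (hb : ∀ (D : Type u) [CommRing D] (d : A →+* D) (y : P.obj d), Q.bot (f.app y) → P.bot y) :
    LocBij π f :=
  ⟨fun _ _ _ _ => Ev.of_id (Or.inr ((h _ _).2 _)),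
    fun _ _ _ y hy => Ev.of_id (P.bot_map _ _ (hb _ _ y hy)),
    fun _ _ _ _ _ e => Ev.of_id (Or.inl (by rw [(h _ _).1 e]))⟩

theorem ses_away (a : A →+* R) {l : R →+* S} {ω : R} (hl : IsAway l ω) :
    SES (hMap l (rfl : l.comp a = l.comp a)) (relπ a ω) := by
  refine ⟨fun _ h => h, fun x x' e => Or.inl (Subtype.ext (away_ext hl (congrArg Subtype.val e))),
    fun x => (away_unit hl).map x.1, fun y hy => ?_,
    fun y y' e => Or.inl (Subtype.ext (congrArg Subtype.val e)), fun z => Or.inr ⟨⟨z.1, z.2⟩, rfl⟩⟩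
  obtain ⟨c, hc⟩ := away_lift hl y.1 hy
  exact Or.inr ⟨⟨c, by rw [← RingHom.comp_assoc, hc]; exact y.2.1, trivial⟩, Subtype.ext hc⟩

/-- The inclusion of the smaller of two conditions. -/
def subι (a : A →+* R) {T' T : Cond R}
    (h : ∀ (D : Type u) [CommRing D] (g : R →+* D), T'.p g → T.p g) :
    pr a T' (Cond.no R) ⟶ pr a T (Cond.no R) :=
  prMap (RingHom.id R) rfl h fun _ _ _ _ h => h

/-- The projection to the pair. -/
def subπ (a : A →+* R) (T' T : Cond R) : pr a T (Cond.no R) ⟶ pr a T T' :=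
  prMap (RingHom.id R) rfl (fun _ _ _ h => h) fun _ _ _ _ h => h.elim

theorem ses_sub (a : A →+* R) {T' T : Cond R}
    (h : ∀ (D : Type u) [CommRing D] (g : R →+* D), T'.p g → T.p g) :
    SES (subι a h) (subπ a T' T) :=
  ⟨fun _ h => h, fun _ _ e => Or.inl (Subtype.ext (congrArg (fun z => z.1) e :)), fun x => x.2.2,
    fun y hy => Or.inr ⟨⟨y.1, y.2.1, hy⟩, rfl⟩,
    fun _ _ e => Or.inl (Subtype.ext (congrArg Subtype.val e)), fun z => Or.inr ⟨⟨z.1, z.2⟩, rfl⟩⟩

theorem evalZero_over (a : A →+* R) : (evalRingHom 0).comp ((C : R →+* R[X]).comp a) = a := by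
  ext
  simp

theorem exc_bij (a : A →+* R) (Z : Sub1.{u}) (D : Type u) [CommRing D] (d : A →+* D) :
    Function.Bijective ((toSm a Z).app : (hR (C.comp a)).obj d → ((hR a).sm Z).obj d) := by
  refine ⟨fun y y' e => Subtype.ext (Polynomial.ringHom_ext'
    (congrArg (fun z => z.1.1) e) (congrArg Prod.snd e)), fun z => ?_⟩
  have h : (eval₂RingHom z.1.1 z.2).comp C = z.1.1 := RingHom.ext fun r => eval₂_C _ _
  exact ⟨⟨eval₂RingHom z.1.1 z.2, by rw [← RingHom.comp_assoc, h]; exact z.1.2.1, trivial⟩,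
    Prod.ext (Subtype.ext h) (eval₂_X _ _)⟩

theorem ses_line (a : A →+* R) :
    SES (hMap (evalRingHom 0) (evalZero_over a)) (toSm a Sub1.zero) := by
  refine ⟨fun _ h => h, fun x x' e => Or.inl (Subtype.ext (RingHom.ext fun r => ?_)),
    fun x => Or.inr ?_, fun y hy => Or.inr ⟨⟨y.1.comp C, y.2.1, trivial⟩, Subtype.ext ?_⟩,
    fun y y' e => Or.inl ((exc_bij a _ _ _).1 e), fun z => Or.inr ((exc_bij a _ _ _).2 z)⟩
  · have h : x.1 (eval 0 (C r)) = x'.1 (eval 0 (C r)) := congrArg (fun z => z.1 (C r)) e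
    rwa [eval_C] at h
  · change x.1 (eval 0 X) = 0
    rw [eval_X, map_zero]
  · have h : y.1 X = 0 := hy.elim False.elim id
    refine Polynomial.ringHom_ext (fun r => ?_) ?_
    · change y.1 (C (eval 0 (C r))) = y.1 (C r)
      rw [eval_C]
    · change y.1 (C (eval 0 X)) = y.1 X
      rw [eval_X, map_zero, map_zero, h]

theorem ses_lau (a : A →+* R) :
    SES (hMap (lauL R) (rfl : (lauL R).comp (C.comp a) = (lauC R).comp a)) (toSm a Sub1.unit) := by
  refine ⟨fun _ h => h,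
    fun x x' e => Or.inl (Subtype.ext (away_ext (isAway_lauL R) (congrArg Subtype.val e))),
    fun x => Or.inr ((isUnit_lauL_X R).map x.1), fun y hy => ?_,
    fun y y' e => Or.inl ((exc_bij a _ _ _).1 e), fun z => Or.inr ((exc_bij a _ _ _).2 z)⟩
  obtain ⟨c, hc⟩ := away_lift (isAway_lauL R) y.1 (hy.elim False.elim id)
  refine Or.inr ⟨⟨c, ?_, trivial⟩, Subtype.ext hc⟩
  rw [← y.2.1, ← hc]
  rfl

/-- The pair `(A^1_R, G_m)` as a smash product. -/
noncomputable def relSm (a : A →+* R) :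
    rel ((C : R →+* R[X]).comp a) X ⟶ (hR a).sm Sub1.unit where
  app g := (⟨g.1.comp C, g.2.1, trivial⟩, g.1 X)
  nat _ _ _ := rfl
  bot h := Or.inr h

theorem locBij_relSm (a : A →+* R) : LocBij π (relSm a) :=
  locBij_of_bijective _ (fun D _ d => exc_bij a Sub1.unit D d)
    fun _ _ _ _ h => h.elim False.elim id

theorem relπ_relSm (a : A →+* R) : relπ (C.comp a) X ≫ relSm a = toSm a Sub1.unit := rfl

/-- Commutativity of the smash product. -/
def swapSm (P : Pr A) (Z Z' : Sub1.{u}) : (P.sm Z).sm Z' ⟶ (P.sm Z').sm Z where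
  app x := ((x.1.1, x.2), x.1.2)
  nat _ _ _ := rfl
  bot h := h.elim (fun h => h.elim (fun h => Or.inl (Or.inl h)) Or.inr) fun h => Or.inl (Or.inr h)

theorem swapSm_swapSm (P : Pr A) (Z Z' : Sub1.{u}) : swapSm P Z Z' ≫ swapSm P Z' Z = 𝟙 _ := rfl

theorem hMap_comp {T : Type u} [CommRing T] {a : A →+* R} {b : A →+* S} {c : A →+* T} (f : R →+* S)
    (g : S →+* T) (hf : f.comp a = b) (hg : g.comp b = c) (h : (g.comp f).comp a = c) :
    hMap g hg ≫ hMap f hf = hMap (g.comp f) h := rfl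

theorem mapRingHom_over {a : A →+* R} {b : A →+* S} (f : R →+* S) (hf : f.comp a = b) :
    (mapRingHom f).comp ((C : R →+* R[X]).comp a) = C.comp b := by
  rw [← hf]
  ext
  simp

theorem toSm_nat {a : A →+* R} {b : A →+* S} (f : R →+* S) (hf : f.comp a = b) (Z : Sub1.{u}) :
    toSm b Z ≫ smMap (hMap f hf) Z = hMap (mapRingHom f) (mapRingHom_over f hf) ≫ toSm a Z := by
  refine Pr.hom_ext fun D _ d x => Prod.ext (Subtype.ext (RingHom.ext fun r => ?_)) ?_
  · change x.1 (C (f r)) = x.1 (Polynomial.map f (C r))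
    rw [map_C]
  · change x.1 X = x.1 (Polynomial.map f X)
    rw [map_X]

theorem relSm_nat {a : A →+* R} {b : A →+* S} (f : R →+* S) (hf : f.comp a = b) :
    relSm b ≫ smMap (hMap f hf) Sub1.unit =
      relMap (mapRingHom f) (mapRingHom_over f hf) (by simp) ≫ relSm a := by
  refine Pr.hom_ext fun D _ d x => Prod.ext (Subtype.ext (RingHom.ext fun r => ?_)) ?_
  · change x.1 (C (f r)) = x.1 (Polynomial.map f (C r))
    rw [map_C]
  · change x.1 X = x.1 (Polynomial.map f X)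
    rw [map_X]

end KEW.S7
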