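import Pool.Agent.P.MP_6277db_ag.KEW.L7.Split

/-!
KEW project, layer L7, row INJH: local injectivity.

Hints.
* `injH`: reduce to a residue field point (`exists_res`, `ev_of_field`). `chart` gives `R2, E, f, φ, M, k, ψ, t, e`; put
  `y2 = h.map f z`. `nz_etale`, `exists_gen` give `ζ : R2 → L`; `y2` dies near `ζ` (`dies_map`), so `c ζ y2 = 0` (`c_left`;
  `locRed_min`, `radical_ep`, `exists_kappa`, `indEP_locRed`). `Cmp.inj` for `ζ` gives `s` with `ζ s ≠ 0` and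
  `B1` over `R2[1/s]` killing `y2`; `ee_fac` shows that `b = c φ y2` dies on `E[1/φ s]` (`c_right`, `locRed_loc`).
  `φ s` is nonzero in the local ring at `e` because `ker ζ ≤ ker (e.comp φ)`. `PT.Inj`, `ee_fac` for the point,
  `lift_etale`, `locRed_po`, `cmp_dies`, `dies_of_map`.
* `hasPT_of_bij`: `c' φ = c φ ∘ (app β)⁻¹` if `EP β`, else `0`.
-/

namespace KEW.S7

universe u v v' w

open Polynomial

variable {A κ : Type u} [CommRing A] [Field κ] {π : A} {ρ : A →+* κ} {m : ℕ} {h : RF.{u, v} A}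
  {g : RF.{u, v'} A}

theorem InjH_congr {P : PT.{u, w} κ m} (c : Cmp π ρ h P) {B R : Type u} [CommRing B] [CommRing R]
    {β : A →+* B} {a : κ →+* R} {φ φ' : B →+* R} (e : φ = φ') (h1 : φ.comp β = a.comp ρ)
    (h2 : φ'.comp β = a.comp ρ) (y : h.obj β) : c.c φ h1 y = c.c φ' h2 y := by
  subst e
  rfl

/-- If `y` is killed by an etale map through which `φ` factors then its class vanishes. -/
theorem InjH_zero {P : PT.{u, w} κ m} (c : Cmp π ρ h P) {B D R : Type u} [CommRing B] [CommRing D]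
    [CommRing R] {β : A →+* B} {a : κ →+* R} {φ : B →+* R} (h1 : φ.comp β = a.comp ρ) (hβ : EP β)
    (ha : IndEP a) {j : B →+* D} (hj : j.Etale) {χ : D →+* R} (e : χ.comp j = φ) {y : h.obj β}
    (hy : h.map j (rfl : j.comp β = j.comp β) y = 0) : c.c φ h1 y = 0 := by
  subst e
  rw [← c.c_left j χ rfl h1 h1 hβ (ep_etale hβ hj) ha, hy, map_zero]

theorem InjH_nz {R E K : Type u} [CommRing R] [CommRing E] [Field K] {j : R →+* E} (hj : j.Etale)
    {r f : R} {y : E →+* K} (h : NZ (Ideal.span {r}) (y.comp j) f) :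
    NZ (Ideal.span {j r}) y (j f) := by
  have h1 := nz_etale hj rfl h
  rwa [Ideal.map_span, Set.image_singleton] at h1

theorem InjH_res (hb : Base π ρ m) (hh : HasPT.{u, v, w} π ρ m h) {R K : Type u} [CommRing R]
    [Field K] {a : A →+* R} {x : R →+* K} {f : R} {z : h.obj a} (ha : EP a) (hx : x (a π) = 0)
    (hr : IsRes x) (hnz : NZ (Ideal.span {a π}) x f)
    (H : ∀ (L : Type u) [Field L] (x' : R →+* L), x' (a π) = 0 → x' f ≠ 0 → h.Dies x' z) :
    h.Dies x z := by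
  obtain ⟨P, ⟨c⟩⟩ := hh
  obtain ⟨R2, E, _, _, j, φ, M, k, ψ, n, t, e, hj, -, hind, hM, hφ, hψ, he, ht, rfl⟩ :=
    chart hb ha hx hr
  have ha2 : EP (j.comp a) := ep_etale ha hj
  have hc : IndEP (ψ.comp k) := hind.comp_etN hψ
  obtain ⟨L, _, ζ, hres, hp, hle, hζf⟩ := exists_gen (InjH_nz hj (y := e.comp φ) hnz)
  have hI : ∀ r ∈ Ideal.span {j (a π)}, ζ r = 0 := fun r hr => hp.1.2 hr
  have hζ0 : ζ (j (a π)) = 0 := hI _ (Ideal.mem_span_singleton_self _)
  obtain ⟨D, _, i, ζ', hi, hζ', h0⟩ := dies_map h ha ha2 j rfl rfl (H L (ζ.comp j) hζ0 hζf)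
  obtain ⟨kL, hkL⟩ := exists_kappa hb (ζ.comp (j.comp a)) hζ0
  have hζ := locRed_min (radical_ep hb ha2) hres hp
  obtain ⟨s, hs, Bs, B1, _, _, l, f1, hl, hf1, h1⟩ := c.inj ζ hkL.symm _ ha2 hζ _
    (InjH_zero c hkL.symm ha2 (indEP_locRed hb ha2 hζ hkL.symm) hi hζ' h0)
  obtain ⟨Et, _, lE, hlE⟩ := exists_away (φ s)
  obtain ⟨σ, hσ⟩ := away_lift hl (lE.comp φ) (away_unit hlE :)
  obtain ⟨χ, hχ, -⟩ := ee_fac hf1 σ (by
    intro r hr
    obtain ⟨r', rfl⟩ := Ideal.mem_span_singleton'.1 hr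
    rw [map_mul, ← RingHom.comp_apply σ l, hσ, RingHom.comp_apply, RingHom.comp_apply,
      hM.zero _ (Ideal.mem_span_singleton_self _), map_zero, mul_zero])
  have hct : IndEP (lE.comp (ψ.comp k)) := hc.comp_etale (away_etale hlE)
  have h2 : (lE.comp φ).comp (j.comp a) = (lE.comp (ψ.comp k)).comp ρ := by
    rw [RingHom.comp_assoc, hφ]
    rfl
  have h3 : P.map lE rfl (c.c φ hφ (h.map j rfl z)) = 0 := by
    rw [c.c_right φ lE hφ rfl h2 ha2 hc hct]
    exact InjH_zero c h2 ha2 hct (etale_comp (away_etale hl) hf1.etale)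
      (by rw [← RingHom.comp_assoc, hχ, hσ]) h1
  have hm : (m : K) ≠ 0 := by
    have := (hb.unit.map k).ne_zero
    rwa [map_natCast] at this
  have h4 : ∀ s', e s' ≠ 0 → s' * φ s ≠ 0 := by
    intro s' hs' h5
    obtain ⟨b, q, hq, h6⟩ := hM.surj s'
    obtain ⟨q', hq', h7⟩ := hM.inj (b * s) (by rw [map_mul, ← h6, mul_right_comm, h5, zero_mul])
    have h8 := hI _ h7
    rw [map_mul, map_mul] at h8
    rcases mul_eq_zero.1 h8 with h9 | h9
    · exact ((hM.unit q' hq').map e).ne_zero (hle h9)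
    · have h10 : e (φ b) = 0 := hle ((mul_eq_zero.1 h9).resolve_right (IsUnit.ne_zero hs))
      rw [← h6, map_mul] at h10
      exact mul_ne_zero hs' ((hM.unit q hq).map e).ne_zero h10
  obtain ⟨E', _, ρ', hρ', h5⟩ := P.Inj hm hind hψ he ht h4 hlE rfl rfl _ h3
  obtain ⟨e', he', -⟩ := ee_fac hρ' e fun r hr => hr
  obtain ⟨B', _, f2, χ2, hf2, hpo⟩ := lift_etale hM hρ'.etale
  have hM2 := locRed_po hM hpo
  rw [Ideal.map_span, Set.image_singleton] at hM2
  have h6 : (ρ'.comp φ).comp (j.comp a) = (ρ'.comp (ψ.comp k)).comp ρ := by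
    rw [RingHom.comp_assoc, hφ]
    rfl
  have h7 : (χ2.comp f2).comp (j.comp a) = (ρ'.comp (ψ.comp k)).comp ρ := by
    rw [po_w hpo, h6]
  have hc' : IndEP (ρ'.comp (ψ.comp k)) := hc.comp_etale hρ'.etale
  have h8 : c.c (β := f2.comp (j.comp a)) χ2 h7 (h.map f2 rfl (h.map j rfl z)) = 0 := by
    rw [c.c_left f2 χ2 rfl h7 h7 ha2 (ep_etale ha2 hf2) hc', InjH_congr c (po_w hpo) h7 h6,
      ← c.c_right φ ρ' hφ rfl h6 ha2 hc hc', h5]
  have h9 := cmp_dies c (β := f2.comp (j.comp a)) h7 (ep_etale ha2 hf2) hM2 h8 e'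
  refine dies_of_map h ha hj (y := e.comp φ) rfl (dies_of_map h ha2 hf2 ?_ h9)
  rw [RingHom.comp_assoc, po_w hpo, ← RingHom.comp_assoc, he']

theorem injH (hb : Base π ρ m) (hh : HasPT.{u, v, w} π ρ m h) : h.InjLoc π := by
  intro R K _ _ a x f z ha hx hnz H
  obtain ⟨L, _, x0, ι, hr, rfl⟩ := exists_res x
  refine ev_of_field ι (InjH_res hb hh ha (ι.injective ?_) hr (fun s n hs => ι.injective ?_) H)
  · rw [map_zero]
    exact hx
  · rw [map_zero]
    exact hnz s n hs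

theorem dies_app (φ : h.Hom g) {R K : Type u} [CommRing R] [Field K] {a : A →+* R} (ha : EP a)
    {x : R →+* K} {y : h.obj a} (hy : h.Dies x y) : g.Dies x (φ.app a y) := by
  refine hy.mono fun D _ j hj h0 => ?_
  rw [← φ.nat j rfl ha (ep_etale ha hj), h0, map_zero]

theorem dies_of_app {φ : h.Hom g} (hφ : RF.LocIso π φ) {R K : Type u} [CommRing R] [Field K]
    {a : A →+* R} (ha : EP a) {x : R →+* K} (hx : x (a π) = 0) {y : h.obj a}
    (hy : g.Dies x (φ.app a y)) : h.Dies x y := by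
  obtain ⟨D, _, j, x', hj, rfl, h0⟩ := hy
  refine dies_of_map h ha hj rfl (hφ.inj (j.comp a) x' (ep_etale ha hj) hx _ ?_)
  rw [φ.nat j rfl ha (ep_etale ha hj), h0]

theorem injLoc_of_locIso {φ : h.Hom g} (hφ : RF.LocIso π φ) (hI : h.InjLoc π) : g.InjLoc π := by
  intro R K _ _ a x f z ha hx hnz H
  obtain ⟨D, _, j, x', hj, rfl, y, hy⟩ := hφ.surj a x ha hx z
  have ha' := ep_etale ha hj
  refine dies_of_map g ha hj rfl ?_
  rw [← hy]
  refine dies_app φ ha' (hI (j.comp a) x' (j f) y ha' hx (InjH_nz hj hnz) fun L _ w h1 h2 => ?_)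
  refine dies_of_app hφ ha' h1 ?_
  rw [hy]
  exact dies_map g ha ha' j rfl rfl (H L (w.comp j) h1 h2)

theorem hasPT_of_bij (φ : h.Hom g)
    (hφ : ∀ (R : Type u) [CommRing R] (a : A →+* R), EP a → Function.Bijective (φ.app a))
    (hh : HasPT.{u, v, w} π ρ m h) : HasPT.{u, v', w} π ρ m g := by
  obtain ⟨P, ⟨c⟩⟩ := hh
  have hex : ∀ (R : Type u) [CommRing R] (a : A →+* R), ∃ i : g.obj a →+ h.obj a,
      EP a → (∀ y, i (φ.app a y) = y) ∧ ∀ z, φ.app a (i z) = z := by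
    intro R _ a
    by_cases ha : EP a
    · let e := AddEquiv.ofBijective (φ.app a) (hφ R a ha)
      exact ⟨e.symm.toAddMonoidHom, fun _ => ⟨e.symm_apply_apply, e.apply_symm_apply⟩⟩
    · exact ⟨0, fun h => absurd h ha⟩
  choose i hi using hex
  have hn : ∀ {R S : Type u} [CommRing R] [CommRing S] {a : A →+* R} {b : A →+* S} (f : R →+* S)
      (hf : f.comp a = b), EP a → EP b → ∀ z : g.obj a,
      i S b (g.map f hf z) = h.map f hf (i R a z) := by
    intro R S _ _ a b f hf ha hb z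
    rw [← (hi S b hb).1 (h.map f hf _), φ.nat f hf ha hb, (hi R a ha).2]
  refine ⟨P, ⟨⟨fun {B} _ _ _ β _ ψ hψ => (c.c ψ hψ).comp (i B β), ?_, ?_, ?_, ?_⟩⟩⟩
  · intro B B' R _ _ _ β β' a f ψ hf hψ h' hβ hβ' ha x
    simp only [AddMonoidHom.comp_apply]
    rw [hn f hf hβ hβ', c.c_left f ψ hf hψ h' hβ hβ' ha]
  · intro B R R' _ _ _ β a a' ψ k hψ hk h' hβ ha ha' x
    exact c.c_right ψ k hψ hk h' hβ ha ha' _
  · intro B R _ _ β a ψ hψ M hβ hM z
    obtain ⟨s, hs, Bs, B1, _, _, l, f, ψ1, h1, x, hl, hf, h2, h3⟩ := c.surj ψ hψ M hβ hM z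
    refine ⟨s, hs, Bs, B1, inferInstance, inferInstance, l, f, ψ1, h1, φ.app _ x, hl, hf, h2, ?_⟩
    rw [AddMonoidHom.comp_apply,
      (hi B1 _ (ep_etale hβ (etale_comp (away_etale hl) hf.etale))).1, h3]
  · intro B R _ _ β a ψ hψ M hβ hM x hx
    obtain ⟨s, hs, Bs, B1, _, _, l, f, hl, hf, h1⟩ := c.inj ψ hψ M hβ hM _ hx
    refine ⟨s, hs, Bs, B1, inferInstance, inferInstance, l, f, hl, hf, ?_⟩
    rw [← (hi B β hβ).2 x, ← φ.nat _ rfl hβ (ep_etale hβ (etale_comp (away_etale hl) hf.etale)),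
      h1, map_zero]

end KEW.S7
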