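import Pool.Agent.P.MP_6277db_ag.KEW.L7.A2gen
import Pool.Agent.P.MP_6277db_ag.KEW.L7.InjH

/-!
KEW project, layer L7, row EXTH: sections over the affine line are generically constant.

Hints. `L = FractionRing K[X]`, `ξ0 = (algebraMap _ L).comp (mapRingHom x)`; `locRed_res`, `locRed_poly`, `locRed_loc`.
`hφ.surj` at `ξ0` gives `ψ : B[X] → R'`, `ξ'`, `y`; `α = c ξ' y`. Hypothesis `H` of `a2gen` at `ω`: `K' = AdjoinRoot ω`,
`hφ.surj` at `(mk ω).comp (mapRingHom x)` gives `ψω : B[X] → Rω`, `e0`, `β̃`; `E` = pushout of `ψω` and `mapRingHom x`,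
`β = c i β̃` (`locRed_po`, `indEP_locRed`). Take `ζ` from `exists_gen` with `I = ⊥`, `f = 1`; `ker ζ` lies over `0` since
nonzero polynomials are nonzerodivisors on the flat algebra `E` (`exists_pow_mem_of_min`). On the pushout of `ψ` and `ψω`
the difference of `y` and `β̃` is killed by `φ`, so dies near the point `(ι ξ', ζ i)` (`hφ.inj`); `c_left`, `c_right`.
Then `Cmp.surj` at `x` for `α0` gives `B1`, `x1`, `y0`; `z0 = φ.app _ y0`. On the pushout `R3` of `ψ` and `B[X] → B1[X]`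
the difference of `y` and `y0` has `c = 0` in `P(L)`; `locRed_etale`, `cmp_dies` (with `e = id`), `dies_app`, `dies_of_map`.
-/

namespace KEW.S7

universe u v v' w

open Polynomial

variable {A κ : Type u} [CommRing A] [Field κ] {π : A} {ρ : A →+* κ} {m : ℕ} {h : RF.{u, v} A}
  {g : RF.{u, v'} A}

section

variable {P : PT.{u, w} κ m}

theorem extH_congr (c : Cmp π ρ h P) {B R : Type u} [CommRing B] [CommRing R] {β : A →+* B}
    {a : κ →+* R} {f f' : B →+* R} (e : f = f') (hf : f.comp β = a.comp ρ)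
    (hf' : f'.comp β = a.comp ρ) (y : h.obj β) : c.c f hf y = c.c f' hf' y := by
  subst e
  rfl

/-- A section which dies near a point has trivial value at the point. -/
theorem extH_c_zero (c : Cmp π ρ h P) {D L : Type u} [CommRing D] [Field L] {d : A →+* D}
    (hd : EP d) {a : κ →+* L} (ha : IndEP a) {η : D →+* L} (hη : η.comp d = a.comp ρ)
    {y : h.obj d} (hy : h.Dies η y) : c.c η hη y = 0 := by
  obtain ⟨D', _, q, η', hq, rfl, hy⟩ := hy
  have := c.c_left q η' rfl hη hη hd (ep_etale hd hq) ha y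
  rw [← this]
  change h.map q rfl y = 0 at hy
  rw [hy, map_zero]

/-- Two local representatives of one section have the same value at a common point. -/
theorem extH_glue (hb : Base π ρ m) (c : Cmp π ρ h P) {φ : h.Hom g} (hφ : RF.LocIso π φ)
    {S R1 R2 L : Type u} [CommRing S] [CommRing R1] [CommRing R2] [Field L] {a0 : A →+* S}
    (ha0 : EP a0) (z : g.obj a0) {ψ1 : S →+* R1} {ψ2 : S →+* R2} (h1 : ψ1.Etale) (h2 : ψ2.Etale)
    {y1 : h.obj (ψ1.comp a0)} {y2 : h.obj (ψ2.comp a0)}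
    (e1 : φ.app _ y1 = g.map ψ1 (rfl : ψ1.comp a0 = ψ1.comp a0) z)
    (e2 : φ.app _ y2 = g.map ψ2 (rfl : ψ2.comp a0 = ψ2.comp a0) z) {η1 : R1 →+* L} {η2 : R2 →+* L}
    (w : η1.comp ψ1 = η2.comp ψ2) {a : κ →+* L} (ha : IndEP a)
    (k1 : η1.comp (ψ1.comp a0) = a.comp ρ) (k2 : η2.comp (ψ2.comp a0) = a.comp ρ) :
    c.c η1 k1 y1 = c.c η2 k2 y2 := by
  obtain ⟨D, _, p1, p2, hpo⟩ := exists_po ψ1 ψ2
  obtain ⟨η, rfl, rfl⟩ := po_desc hpo η1 η2 w
  have hp2 : p2.Etale := po_etale hpo h1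
  have E1 := ep_etale ha0 h1
  have E2 := ep_etale ha0 h2
  have Ed := ep_etale E2 hp2
  have t1 : p1.comp (ψ1.comp a0) = p2.comp (ψ2.comp a0) := by
    rw [← RingHom.comp_assoc, po_w hpo, RingHom.comp_assoc]
  have hη : η.comp (p2.comp (ψ2.comp a0)) = a.comp ρ := k2
  have hπ : η ((p2.comp (ψ2.comp a0)) π) = 0 := by
    have h0 : ρ π = 0 := by
      rw [← RingHom.mem_ker, hb.ker]
      exact Ideal.mem_span_singleton_self π
    have := RingHom.congr_fun hη π
    simpa [h0] using this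
  have hw : φ.app _ (h.map p1 t1 y1 - h.map p2 rfl y2) = 0 := by
    rw [map_sub, φ.nat p1 t1 E1 Ed, φ.nat p2 rfl E2 Ed, e1, e2,
      g.map_comp ψ1 p1 rfl t1 t1 E1, g.map_comp ψ2 p2 rfl rfl rfl E2,
      g.map_congr (po_w hpo) t1 rfl, sub_self]
  have h0 := extH_c_zero c Ed ha hη (hφ.inj _ η Ed hπ _ hw)
  rw [map_sub, c.c_left p1 η t1 hη k1 E1 Ed ha, c.c_left p2 η rfl hη k2 E2 Ed ha] at h0
  exact sub_eq_zero.1 h0

end

theorem extH_isLoc {R S : Type u} [CommRing R] [CommRing S] {M : Submonoid R} {l : R →+* S}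
    (h : LocRed ⊥ M l) : IsLoc l M :=
  loc_of h.unit h.surj fun r hr => by simpa using h.inj r hr

theorem extH_isRes {R K : Type u} [CommRing R] [Field K] {I : Ideal R} {M : Submonoid R}
    {x : R →+* K} (h : LocRed I M x) : IsRes x := fun z => by
  obtain ⟨b, s, hs, e⟩ := h.surj z
  exact ⟨b, s, (h.unit s hs).ne_zero, e⟩

theorem extH_span {R S : Type u} [CommRing R] [CommRing S] (f : R →+* S) (r : R) :
    (Ideal.span {r}).map f = Ideal.span {f r} := by
  rw [Ideal.map_span, Set.image_singleton]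

/-- A generic point of an etale algebra over a domain, specialising to a given point. -/
theorem extH_gen {R E K L : Type u} [CommRing R] [IsDomain R] [CommRing E] [Field K] [Field L]
    {j : R →+* E} (hj : j.Etale) (e : E →+* K) {ξ : R →+* L} (hξ : IsLoc ξ (nonZeroDivisors R)) :
    ∃ (L' : Type u) (_ : Field L') (ζ : E →+* L') (ι : L →+* L') (N : Submonoid E),
      ζ.comp j = ι.comp ξ ∧ IsRes ζ ∧ RingHom.ker ζ ≤ RingHom.ker e ∧ IsLoc ζ N := by
  obtain ⟨L', _, ζ, hr, hmin, hle, -⟩ := exists_gen (I := ⊥) (x := e) (f := 1) (fun s n hs => by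
    rw [one_pow, mul_one, Ideal.mem_bot] at hs
    rw [hs, map_zero])
  have hu : ∀ p ∈ nonZeroDivisors R, IsUnit ((ζ.comp j) p) := by
    intro p hp
    refine Ne.isUnit fun h0 => ?_
    obtain ⟨s, n, hs, hn⟩ := exists_pow_mem_of_min hmin (show j p ∈ RingHom.ker ζ from h0)
    have h1 : NZ (⊥ : Ideal R) (ζ.comp j) p :=
      nz_of_prime Ideal.isPrime_bot (fun r hr => by rw [Ideal.mem_bot.1 hr, map_zero])
        (fun hp0 => nonZeroDivisors.ne_zero hp (Ideal.mem_bot.1 hp0))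
    have h2 := nz_etale hj (y := ζ) rfl h1 s n (by rwa [Ideal.map_bot])
    exact hs h2
  obtain ⟨ι, hι⟩ := loc_lift hξ (ζ.comp j) hu
  have := Alg3_reduced hj
  exact ⟨L', inferInstance, ζ, ι, _, hι.symm, hr, hle,
    extH_isLoc (locRed_min Ideal.isRadical_bot hr hmin)⟩

theorem extH_ker {B Bs B1 K : Type u} [CommRing B] [CommRing Bs] [CommRing B1] [Field K] {r s : B}
    {l : B →+* Bs} {f : Bs →+* B1} {x1 : B1 →+* K} (hl : IsAway l s)
    (hf : EE (Ideal.span {l r}) f)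
    (hk : RingHom.ker (x1.comp (f.comp l)) = Ideal.span {r}) :
    RingHom.ker x1 = Ideal.span {f (l r)} := by
  have h0 : x1 (f (l r)) = 0 := by
    have : r ∈ RingHom.ker (x1.comp (f.comp l)) := by
      rw [hk]
      exact Ideal.mem_span_singleton_self r
    exact this
  have hle : Ideal.span {f (l r)} ≤ RingHom.ker x1 := by
    rw [Ideal.span_singleton_le_iff_mem]
    exact h0
  refine le_antisymm (fun y hy => ?_) hle
  obtain ⟨b, hb⟩ := hf.surj y
  rw [extH_span] at hb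
  have h1 : x1 (f b) = 0 := by
    have h2 : x1 (y - f b) = 0 := hle hb
    rw [map_sub, show x1 y = 0 from hy, zero_sub, neg_eq_zero] at h2
    exact h2
  obtain ⟨b0, n, e⟩ := away_surj hl b
  have h3 : b0 ∈ Ideal.span {r} := by
    rw [← hk]
    change x1 (f (l b0)) = 0
    rw [← e, map_mul, map_mul, h1, zero_mul]
  have h4 : b * l s ^ n ∈ Ideal.span {l r} := by
    rw [e, ← extH_span]
    exact Ideal.mem_map_of_mem l h3
  have h5 : b ∈ Ideal.span {l r} :=
    (Ideal.mul_unit_mem_iff_mem _ ((away_unit hl).pow n)).1 h4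
  have h6 : f b ∈ Ideal.span {f (l r)} := by
    rw [← extH_span]
    exact Ideal.mem_map_of_mem f h5
  simpa using Ideal.add_mem _ hb h6

theorem extH (hb : Base π ρ m) (hh : HasPT.{u, v, w} π ρ m h) {φ : h.Hom g}
    (hφ : RF.LocIso π φ) : g.Ext π := by
  intro B K _ _ β x z hβ hx hker
  obtain ⟨P, ⟨c⟩⟩ := hh
  have hx0 : x (β π) = 0 := by
    rw [← RingHom.mem_ker, hker]
    exact Ideal.mem_span_singleton_self _
  obtain ⟨k, hk⟩ := exists_kappa hb (x.comp β) hx0
  have lx := locRed_res hx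
  rw [hker] at lx
  have ik : IndEP k := indEP_locRed hb hβ lx hk.symm
  obtain ⟨L, _, ξ, hξ, hξi⟩ : ∃ (L : Type u) (_ : Field L) (ξ : K[X] →+* L),
      IsLoc ξ (nonZeroDivisors K[X]) ∧ Function.Injective ξ :=
    ⟨FractionRing K[X], inferInstance, algebraMap _ _, isLoc_algebraMap _ _,
      IsFractionRing.injective _ _⟩
  have lμ := locRed_poly lx
  rw [extH_span] at lμ
  have lξ := locRed_loc lμ hξ
  have EC := ep_poly hβ
  have hμ : (mapRingHom x).comp (C.comp β) = (C.comp k).comp ρ := by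
    rw [RingHom.comp_assoc, hk]
    ext r : 1
    simp
  have hξ0 : (ξ.comp (mapRingHom x)).comp (C.comp β) = ((ξ.comp C).comp k).comp ρ := by
    rw [RingHom.comp_assoc, hμ]
    rfl
  have iL : IndEP ((ξ.comp C).comp k) := indEP_locRed hb EC lξ hξ0
  obtain ⟨R', _, ψ, ξ', hψ, hξ', y, hy⟩ :=
    hφ.surj (C.comp β) (ξ.comp (mapRingHom x)) EC (by simp [hx0]) z
  have k1 : ξ'.comp (ψ.comp (C.comp β)) = ((ξ.comp C).comp k).comp ρ := by
    rw [← RingHom.comp_assoc, hξ', hξ0]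
  have E1 := ep_etale EC hψ
  obtain ⟨α0, hα0⟩ := a2gen P ik hξ rfl (c.c ξ' k1 y) (fun ω hω => by
    have : Fact (Irreducible ω) := ⟨hω⟩
    obtain ⟨Rω, _, ψω, e0, hψω, he0, βt, hβt⟩ :=
      hφ.surj (C.comp β) ((AdjoinRoot.mk ω).comp (mapRingHom x)) EC (by simp [hx0]) z
    obtain ⟨E, _, i, j, hpo⟩ := exists_po ψω (mapRingHom x)
    obtain ⟨e, -, hej⟩ := po_desc hpo e0 (AdjoinRoot.mk ω) he0
    have hj : j.Etale := po_etale hpo hψω
    have li := locRed_po lμ hpo
    rw [extH_span] at li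
    have E2 := ep_etale EC hψω
    have hi : i.comp (ψω.comp (C.comp β)) = ((j.comp C).comp k).comp ρ := by
      rw [← RingHom.comp_assoc, po_w hpo, RingHom.comp_assoc, hμ]
      rfl
    have iE : IndEP ((j.comp C).comp k) := indEP_locRed hb E2 li hi
    obtain ⟨L', _, ζ, ι, N, hζ, hr, hle, hN⟩ := extH_gen hj e hξ
    have h1 : ζ.comp ((j.comp C).comp k) = ι.comp ((ξ.comp C).comp k) := by
      rw [← RingHom.comp_assoc, ← RingHom.comp_assoc, hζ]
      rfl
    have k2 : (ζ.comp i).comp (ψω.comp (C.comp β)) = (ι.comp ((ξ.comp C).comp k)).comp ρ := by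
      rw [RingHom.comp_assoc, hi, ← RingHom.comp_assoc, h1]
    have k3 : (ι.comp ξ').comp (ψ.comp (C.comp β)) = (ι.comp ((ξ.comp C).comp k)).comp ρ := by
      rw [RingHom.comp_assoc, k1]
      rfl
    have iL' : IndEP (ι.comp ((ξ.comp C).comp k)) := indEP_locRed hb E2 (locRed_loc li hN) k2
    refine ⟨E, AdjoinRoot ω, L', inferInstance, inferInstance, inferInstance, j, e, ζ, ι, _, h1, rfl,
      c.c i hi βt, hj, ?_, ?_, hζ, hr, hle, ?_⟩
    · rw [hej]
      exact AdjoinRoot.mk_surjective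
    · exact (RingHom.congr_fun hej ω).trans AdjoinRoot.mk_self
    · rw [c.c_right i ζ hi h1 k2 E2 iE iL', c.c_right ξ' ι k1 rfl k3 E1 iL iL']
      refine extH_glue hb c hφ EC z hψω hψ hβt hy ?_ iL' k2 k3
      rw [RingHom.comp_assoc, po_w hpo, ← RingHom.comp_assoc, hζ, RingHom.comp_assoc,
        RingHom.comp_assoc, hξ'])
  obtain ⟨s, -, Bs, B1, _, _, l, f1, x1, h1, y0, hl, hf1, hx1, hy0⟩ :=
    c.surj x hk.symm _ hβ lx α0
  have hf : (f1.comp l).Etale := etale_comp (away_etale hl) hf1.etale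
  have hker1 : RingHom.ker x1 = Ideal.span {(f1.comp l) (β π)} :=
    extH_ker (l := l) (f := f1) (r := β π) hl hf1 (by rw [hx1, hker])
  clear hl hf1
  generalize f1.comp l = f at *
  subst hx1
  have hmm : (mapRingHom x1).comp (mapRingHom f) = mapRingHom (x1.comp f) := mapRingHom_comp _ _
  have hm : (mapRingHom f).comp (C.comp β) = C.comp (f.comp β) := by
    ext r : 1
    simp
  have hξ1 : (ξ.comp (mapRingHom x1)).comp (mapRingHom f) = ξ.comp (mapRingHom (x1.comp f)) := by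
    rw [RingHom.comp_assoc, hmm]
  have E3 := ep_etale hβ hf
  have E4 := ep_poly E3
  refine ⟨B1, L, inferInstance, inferInstance, f, x1, ξ.comp (mapRingHom x1), φ.app _ y0, hm, hf,
    rfl, hker1, isRes_of_comp (extH_isRes lξ) hξ1, ?_, ?_⟩
  · rw [RingHom.ker_comp_of_injective _ hξi, ker_mapRingHom, hker1, extH_span]
  obtain ⟨R3, _, p1, p2, hpo⟩ := exists_po ψ (mapRingHom f)
  obtain ⟨η, hη1, hη2⟩ := po_desc hpo ξ' (ξ.comp (mapRingHom x1)) (hξ'.trans hξ1.symm)
  have hp2 : p2.Etale := po_etale hpo hψ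
  have Ed := ep_etale E4 hp2
  have t1 : p1.comp (ψ.comp (C.comp β)) = p2.comp (C.comp (f.comp β)) := by
    rw [← RingHom.comp_assoc, po_w hpo, RingHom.comp_assoc, hm]
  have hη : η.comp (p2.comp (C.comp (f.comp β))) = ((ξ.comp C).comp k).comp ρ := by
    rw [← t1, ← RingHom.comp_assoc, hη1, k1]
  have lη := locRed_etale lξ (etale_comp (etale_mapRingHom hf) hp2) (ξ' := η) (by
    rw [← RingHom.comp_assoc, hη2, hξ1])
  rw [extH_span] at lη
  have e3 : (p2.comp (mapRingHom f)) (C (β π)) = (p2.comp (C.comp (f.comp β))) π := by simp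
  rw [e3] at lη
  have t2 : (η.comp (p2.comp C)) = (ξ.comp C).comp x1 := by
    rw [← RingHom.comp_assoc, hη2]
    ext r : 1
    simp
  have t3 : (p2.comp C).comp (f.comp β) = p2.comp (C.comp (f.comp β)) := rfl
  have t4 : ((ξ.comp C).comp x1).comp (f.comp β) = ((ξ.comp C).comp k).comp ρ := by
    rw [← t2]
    exact hη
  have hc : c.c η hη (h.map p1 t1 y - h.map (p2.comp C) t3 y0) = 0 := by
    rw [map_sub, c.c_left p1 η t1 hη (by rw [hη1]; exact k1) E1 Ed iL,
      c.c_left (p2.comp C) η t3 hη hη E3 Ed iL, extH_congr c hη1 _ k1, ← hα0, ← hy0,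
      c.c_right x1 (ξ.comp C) h1 rfl t4 E3 ik iL, extH_congr c t2 _ t4, sub_self]
  have hd := dies_app φ Ed (cmp_dies c hη Ed lη hc (RingHom.id L))
  refine dies_of_map g E4 hp2 hη2 ?_
  rw [map_sub, φ.nat p1 t1 E1 Ed, φ.nat (p2.comp C) t3 E3 Ed, hy,
    g.map_comp ψ p1 rfl t1 t1 E1] at hd
  rw [map_sub, g.map_comp (mapRingHom f) p2 hm rfl (by rw [RingHom.comp_assoc, hm]) E4,
    g.map_comp C p2 rfl rfl t3 E4, ← g.map_congr (po_w hpo) t1]
  exact hd

end KEW.S7
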