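import Mathlib

/-!
KEW project, layer L7: the free module on a set with a collapsed subset.
-/

noncomputable section

namespace Pool.Agent.KEW

variable (L : Type 1) [CommRing L]

/-- The module `L[X] / L[b]`. -/
def FQ (X : Type) (b : X → Prop) : Type 1 := (X →₀ L) ⧸ Finsupp.supported L L {x | b x}

namespace FQ

variable {X Y Z : Type} {b : X → Prop} {b' : Y → Prop} {b'' : Z → Prop}

instance : AddCommGroup (FQ L X b) :=
  inferInstanceAs (AddCommGroup ((X →₀ L) ⧸ Finsupp.supported L L {x | b x}))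

instance : Module L (FQ L X b) :=
  inferInstanceAs (Module L ((X →₀ L) ⧸ Finsupp.supported L L {x | b x}))

variable (b) in
/-- The generators. -/
def gen (x : X) : FQ L X b :=
  (Submodule.Quotient.mk (Finsupp.single x 1) : (X →₀ L) ⧸ Finsupp.supported L L {x | b x})

variable {L}

theorem gen_bot {x : X} (h : b x) : gen L b x = 0 :=
  (Submodule.Quotient.mk_eq_zero _).2 (Finsupp.single_mem_supported L _ h)

variable {M : Type 1} [AddCommGroup M] [Module L M]

/-- Linear maps out of `FQ`. -/
def lift (g : X → M) (hg : ∀ x, b x → g x = 0) : FQ L X b →ₗ[L] M :=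
  Submodule.liftQ _ (Finsupp.linearCombination L g) (by
    rw [Finsupp.supported_eq_span_single, Submodule.span_le]
    rintro _ ⟨x, hx, rfl⟩
    simpa using hg x hx)

@[simp] theorem lift_gen (g : X → M) (hg : ∀ x, b x → g x = 0) (x : X) :
    lift g hg (gen L b x) = g x :=
  (Finsupp.linearCombination_single L 1 x).trans (one_smul _ _)

theorem ext {f g : FQ L X b →ₗ[L] M} (h : ∀ x, f (gen L b x) = g (gen L b x)) : f = g :=
  Submodule.linearMap_qext _ (Finsupp.lhom_ext' fun x => LinearMap.ext_ring (h x))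

theorem mem_of_gen (N : Submodule L (FQ L X b)) (h : ∀ x, gen L b x ∈ N) (z : FQ L X b) : z ∈ N := by
  have e : N.mkQ = 0 := ext fun x => (Submodule.Quotient.mk_eq_zero N).2 (h x)
  exact (Submodule.Quotient.mk_eq_zero N).1 (LinearMap.congr_fun e z)

variable (L) in
/-- Functoriality. -/
def map (f : X → Y) (hf : ∀ x, b x → b' (f x)) : FQ L X b →ₗ[L] FQ L Y b' :=
  lift (fun x => gen L b' (f x)) fun x hx => gen_bot (hf x hx)

@[simp] theorem map_gen (f : X → Y) (hf : ∀ x, b x → b' (f x)) (x : X) :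
    map L f hf (gen L b x) = gen L b' (f x) := lift_gen _ _ x

/-- The kernel of `map` is generated by the obvious elements. -/
theorem mem_of_map_eq_zero (f : X → Y) (hf : ∀ x, b x → b' (f x)) (N : Submodule L (FQ L X b))
    (h1 : ∀ x, b' (f x) → gen L b x ∈ N) (h2 : ∀ x x', f x = f x' → gen L b x - gen L b x' ∈ N)
    {z : FQ L X b} (hz : map L f hf z = 0) : z ∈ N := by
  classical
  let t : FQ L Y b' →ₗ[L] FQ L X b ⧸ N :=
    lift (fun y => if h : ∃ x, f x = y then N.mkQ (gen L b h.choose) else 0) fun y hy => by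
      split_ifs with h
      · exact (Submodule.Quotient.mk_eq_zero N).2 (h1 _ (by rwa [h.choose_spec]))
      · rfl
  have e : t.comp (map L f hf) = N.mkQ := ext fun x => by
    have h : ∃ x', f x' = f x := ⟨x, rfl⟩
    rw [LinearMap.comp_apply, map_gen, lift_gen, dif_pos h]
    exact (Submodule.Quotient.eq N).2 (h2 _ _ h.choose_spec)
  have := LinearMap.congr_fun e z
  rw [LinearMap.comp_apply, hz, map_zero] at this
  exact (Submodule.Quotient.mk_eq_zero N).1 this.symm

theorem map_injective (f : X → Y) (hf : ∀ x, b x → b' (f x)) (h1 : ∀ x, b' (f x) → b x)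
    (h2 : ∀ x x', f x = f x' → x = x' ∨ b x) : Function.Injective (map L f hf) := by
  refine (injective_iff_map_eq_zero _).2 fun z hz => ?_
  refine mem_of_map_eq_zero f hf ⊥ (fun x hx => gen_bot (h1 x hx)) (fun x x' e => ?_) hz
  rcases h2 x x' e with rfl | h
  · exact sub_self _
  · rw [gen_bot h, gen_bot (h1 x' (e ▸ hf x h)), sub_zero]
    rfl

theorem map_surjective (f : X → Y) (hf : ∀ x, b x → b' (f x)) (h : ∀ y, b' y ∨ ∃ x, f x = y) :
    Function.Surjective (map L f hf) := fun z => by
  refine mem_of_gen (LinearMap.range (map L f hf)) (fun y => ?_) z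
  rcases h y with h | ⟨x, rfl⟩
  · rw [gen_bot h]
    exact zero_mem _
  · exact ⟨gen L b x, map_gen f hf x⟩

theorem map_exact (i : X → Y) (hi : ∀ x, b x → b' (i x)) (j : Y → Z) (hj : ∀ y, b' y → b'' (j y))
    (h1 : ∀ y, b'' (j y) → b' y ∨ ∃ x, i x = y) (h2 : ∀ y y', j y = j y' → y = y' ∨ b'' (j y))
    {z : FQ L Y b'} (hz : map L j hj z = 0) : ∃ w, map L i hi w = z := by
  have h3 : ∀ y, b'' (j y) → gen L b' y ∈ LinearMap.range (map L i hi) := fun y hy => by
    rcases h1 y hy with h | ⟨x, rfl⟩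
    · rw [gen_bot h]
      exact zero_mem _
    · exact ⟨gen L b x, map_gen i hi x⟩
  refine mem_of_map_eq_zero j hj (LinearMap.range (map L i hi)) h3 (fun y y' e => ?_) hz
  rcases h2 y y' e with rfl | h
  · rw [sub_self]
    exact zero_mem _
  · exact sub_mem (h3 y h) (h3 y' (e ▸ h))

end FQ

end Pool.Agent.KEW
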