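import Pool.Agent.P.MP_6277db_ag.KEW.L7.Split
import Pool.Agent.P.MP_6277db_ag.KEW.L7.Case0

/-!
KEW project, layer L7, row K0H: splitting along the zero section.

Hints. `chart` at `x` gives `W2, EW, f, μ0, M, k, ψ, t, e0`. `Ẽ0` = pushout of `φ` and `mapRingHom f`, `E1` = pushout of
`W2[X] → Ẽ0` and `mapRingHom μ0` (`locRed_poly`, `locRed_po`); `E1` is etale over `EW[X]`, so `EtN` over `K` in the coordinates
`Option.elim X t` (`etN_option`, `EtN.comp`), with the point `e1 = (e, eval₂ e0 0)`. `PT.K0a` with `k0 = none` gives `E'`;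
`lift_etale` gives `Ẽ` etale over `Ẽ0`; paste the pushouts (`IsPO.paste'`). Push `α` from `K[X][1/X]` to `EW[X][1/X]`.
`splitDesc` gives `C s`, `s ∈ M`; `W3 = W2[1/s]`, `R' = W3[X]` (`away_mapRingHom`), `E'' = Ẽ[1/s]`. Finally `zig` for
`W3 → E''`, `t = φ' X`: `W' = E'' ⧸ (t)`; `splitAt_push`, `splitAt_pull`, `ul_mono`.
-/

namespace KEW.S7

universe u v w

open Polynomial

variable {A κ : Type u} [CommRing A] [Field κ] {π : A} {ρ : A →+* κ} {m : ℕ} {g : RF.{u, v} A}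

theorem k0H (hb : Base π ρ m) (hh : HasPT.{u, v, w} π ρ m g) (hU : g.UI π) : g.K0 π := by
  intro W K E Eω _ _ _ _ a x φ e j b ha hx hr hφ he hj
  obtain ⟨P, ⟨c⟩⟩ := hh
  obtain ⟨W2, EW, _, _, f, μ0, M, k, ψ, n, t, e0, hf, hk, hind, hM, hμ, hψ, he0, ht, hx0⟩ :=
    chart hb ha hx hr
  have hx0' : ∀ r, e0 (μ0 (f r)) = x r := fun r => RingHom.congr_fun hx0 r
  obtain ⟨E0, _, i0, φ0, hpo0⟩ := exists_po φ (mapRingHom f)
  obtain ⟨E1, _, i1, φ1, hpo1⟩ := exists_po φ0 (mapRingHom μ0)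
  have hφ0 : φ0.Etale := po_etale hpo0 hφ
  have hφ1 : φ1.Etale := po_etale hpo1 hφ0
  have w0 : ∀ p, i0 (φ p) = φ0 (p.map f) := fun p => hpo0.comm_apply p
  have w1 : ∀ p, i1 (φ0 p) = φ1 (p.map μ0) := fun p => hpo1.comm_apply p
  obtain ⟨eE0, -, heE0⟩ := po_desc hpo0 e (eval₂RingHom (e0.comp μ0) 0) (by
    rw [he]
    exact Polynomial.ringHom_ext (fun r => by simp [hx0']) (by simp))
  obtain ⟨e1, -, he1⟩ := po_desc hpo1 eE0 (eval₂RingHom e0 0) (by
    rw [heE0]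
    exact Polynomial.ringHom_ext (fun r => by simp) (by simp))
  have he1' : ∀ p, e1 (φ1 p) = p.eval₂ e0 0 := fun p => RingHom.congr_fun he1 p
  have hEt : EtN (φ1.comp (C.comp ψ))
      (fun o : Option (Fin n) => φ1 (o.elim X fun i => C (t i))) := (etN_option hψ).comp hφ1
  have hsec : e1.comp (φ1.comp (C.comp ψ)) = RingHom.id K := by
    ext r
    simpa [he1'] using RingHom.congr_fun he0 r
  have h0 : ∀ o : Option (Fin n), e1 (φ1 (o.elim X fun i => C (t i))) = 0 := by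
    intro o
    cases o <;> simp [he1', ht]
  obtain ⟨E1t, _, l, hl⟩ := exists_away (φ1 X)
  obtain ⟨G, _, lG, hG⟩ := exists_away (X : K[X])
  obtain ⟨γ, hγ⟩ := away_lift hG (l.comp (eval₂RingHom (φ1.comp (C.comp ψ)) (φ1 X)))
    (by simpa using away_unit hl)
  have hγC : ∀ r, γ (lG (C r)) = l (φ1 (C (ψ r))) := fun r => by
    simpa using RingHom.congr_fun hγ (C r)
  have hγX : γ (lG X) = l (φ1 X) := by simpa using RingHom.congr_fun hγ X
  have hm : (m : K) ≠ 0 := by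
    have := (hb.unit.map k).ne_zero
    rwa [map_natCast] at this
  obtain ⟨E', _, ρ', hρ', hK⟩ := P.K0a hm hind hEt hsec h0 none hl hG hγ
    (cG := (lG.comp C).comp k) (ct := γ.comp ((lG.comp C).comp k)) rfl rfl
  obtain ⟨e', he', -⟩ := hρ'.point
  have he'' : ∀ y, e' (ρ' y) = e1 y := fun y => RingHom.congr_fun he' y
  obtain ⟨Et, _, f1, χ, hf1, hpo2⟩ := lift_etale (locRed_po (locRed_poly hM) hpo1) hρ'.etale
  have hpo : IsPO (f1.comp φ0) (mapRingHom μ0) χ (ρ'.comp φ1) := hpo1.paste' hpo2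
  have w2 : ∀ p, χ (f1 (φ0 p)) = ρ' (φ1 (p.map μ0)) := fun p => hpo.comm_apply p
  have w2' : ∀ y, χ (f1 y) = ρ' (i1 y) := fun y => hpo2.comm_apply y
  have hφt : (f1.comp φ0).Etale := etale_comp hφ0 hf1
  have ha2 : EP ((C : W2 →+* W2[X]).comp (f.comp a)) := ep_poly (ep_etale ha hf)
  have hμ' : LocRed (Ideal.span {((C : W2 →+* W2[X]).comp (f.comp a)) π})
      (M.map (C : W2 →+* W2[X])) (mapRingHom μ0) := by
    have := locRed_poly hM
    rwa [Ideal.map_span, Set.image_singleton] at this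
  obtain ⟨Tt, _, jt, hjt⟩ := exists_away ((f1.comp φ0) X)
  obtain ⟨Rω, _, lω, hlω⟩ := exists_away (mapRingHom μ0 X)
  obtain ⟨E2, _, jω, hjω⟩ := exists_away (χ ((f1.comp φ0) X))
  have eX : χ ((f1.comp φ0) X) = ρ' (φ1 X) := by simpa using w2 X
  have hjω' : IsAway jω (ρ' (φ1 X)) := eX ▸ hjω
  have huX : IsUnit (jω (ρ' (φ1 X))) := away_unit hjω'
  obtain ⟨φω, hφω⟩ := away_lift hlω (jω.comp (ρ'.comp φ1)) (by simpa using huX)
  obtain ⟨τ, hτ⟩ := away_lift hjt (jω.comp χ) (away_unit hjω :)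
  obtain ⟨k', hk'⟩ := away_lift hl (jω.comp ρ') huX
  obtain ⟨kω, hkω⟩ := away_lift hj (jt.comp (f1.comp i0)) (by
    simpa [w0] using away_unit hjt)
  obtain ⟨τ0, hτ0⟩ := away_lift hj (l.comp (i1.comp i0)) (by
    simpa [w0, w1] using away_unit hl)
  obtain ⟨γ', hγ'⟩ := away_lift hG (lω.comp (mapRingHom ψ)) (by simpa using away_unit hlω)
  have aφω : ∀ p, φω (lω p) = jω (ρ' (φ1 p)) := fun p => RingHom.congr_fun hφω p
  have aτ : ∀ y, τ (jt y) = jω (χ y) := fun y => RingHom.congr_fun hτ y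
  have ak' : ∀ y, k' (l y) = jω (ρ' y) := fun y => RingHom.congr_fun hk' y
  have akω : ∀ y, kω (j y) = jt (f1 (i0 y)) := fun y => RingHom.congr_fun hkω y
  have aτ0 : ∀ y, τ0 (j y) = l (i1 (i0 y)) := fun y => RingHom.congr_fun hτ0 y
  have aγ' : ∀ p, γ' (lG p) = lω (p.map ψ) := fun p => RingHom.congr_fun hγ' p
  have aμ : ∀ r, μ0 (f (a r)) = ψ (k (ρ r)) := fun r => RingHom.congr_fun hμ r
  have h1 : kω.comp (j.comp (φ.comp (C.comp a))) =
      jt.comp ((f1.comp φ0).comp (C.comp (f.comp a))) := by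
    ext r
    simp [akω, w0]
  have hr' : (mapRingHom μ0).comp (C.comp (f.comp a)) = (C.comp (ψ.comp k)).comp ρ := by
    ext r : 1
    simp [aμ]
  have h4 : jω.comp ((ρ'.comp φ1).comp (C.comp (ψ.comp k))) =
      φω.comp (lω.comp (C.comp (ψ.comp k))) := by
    ext r
    simp [aφω]
  have h5 : τ.comp (jt.comp ((f1.comp φ0).comp (C.comp (f.comp a)))) =
      (φω.comp (lω.comp (C.comp (ψ.comp k)))).comp ρ := by
    ext r
    simp [aτ, aφω, w2, aμ]
  have h6 : τ0.comp (j.comp (φ.comp (C.comp a))) = (γ.comp ((lG.comp C).comp k)).comp ρ := by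
    ext r
    simp [aτ0, hγC, w0, w1, aμ]
  have h7 : k'.comp (γ.comp ((lG.comp C).comp k)) = φω.comp (lω.comp (C.comp (ψ.comp k))) := by
    ext r
    simp [hγC, ak', aφω]
  have h8 : γ'.comp ((lG.comp C).comp k) = lω.comp (C.comp (ψ.comp k)) := by
    ext r
    simp [aγ']
  have hEω : EP (j.comp (φ.comp (C.comp a))) := ep_away (ep_etale (ep_poly ha) hφ) hj
  have hTt : EP (jt.comp ((f1.comp φ0).comp (C.comp (f.comp a)))) := ep_away (ep_etale ha2 hφt) hjt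
  have hi1 : IndEP ((φ1.comp (C.comp ψ)).comp k) := hind.comp_etN hEt
  have hict : IndEP (γ.comp ((lG.comp C).comp k)) := by
    have e : γ.comp ((lG.comp C).comp k) = l.comp ((φ1.comp (C.comp ψ)).comp k) := by
      ext r
      simp [hγC]
    rw [e]
    exact hi1.comp_etale (away_etale hl)
  have hicT : IndEP (φω.comp (lω.comp (C.comp (ψ.comp k)))) := by
    rw [← h4]
    exact (hi1.comp_etale hρ'.etale).comp_etale (away_etale hjω)
  obtain ⟨α, β, hαβ⟩ := hK E2 jω k' ((ρ'.comp φ1).comp (C.comp (ψ.comp k)))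
    (φω.comp (lω.comp (C.comp (ψ.comp k)))) rfl h4 h7 hjω' hk' (c.c τ0 h6 b)
  have e1' : τ.comp kω = k'.comp τ0 := away_ext hj (by
    ext y
    simp [akω, aτ, aτ0, ak', w2'])
  have e2' : φω.comp γ' = k'.comp γ := away_ext hG (Polynomial.ringHom_ext
    (fun r => by simp [aγ', aφω, hγC, ak']) (by simp [aγ', aφω, hγX, ak']))
  have hs : c.c τ h5 (g.map kω h1 b) =
      P.map φω rfl (P.map γ' h8 α) + P.map jω h4 β := by
    have h9 : (τ.comp kω).comp (j.comp (φ.comp (C.comp a))) =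
        (φω.comp (lω.comp (C.comp (ψ.comp k)))).comp ρ := by
      rw [RingHom.comp_assoc, h1, h5]
    have h10 : (k'.comp τ0).comp (j.comp (φ.comp (C.comp a))) =
        (φω.comp (lω.comp (C.comp (ψ.comp k)))).comp ρ := e1' ▸ h9
    rw [c.c_left kω τ h1 h5 h9 hEω hTt hicT, P.map_square γ' φω γ k' h8 rfl rfl h7 e2', ← hαβ,
      c.c_right τ0 k' h6 h7 h10 hEω hict hicT]
    clear hαβ
    revert h9 h10
    rw [e1']
    intro h9 h10
    rfl
  obtain ⟨s, hsM, hsp⟩ := splitDesc hb c hU ha2 hφt hjt hμ' hpo hlω hjω hφω hτ hr' rfl rfl rfl h4 h5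
    (g.map kω h1 b) (P.map γ' h8 α) β hs
  obtain ⟨s0, hs0, rfl⟩ := hsM
  obtain ⟨W3, _, l3, hl3⟩ := exists_away s0
  obtain ⟨E3, _, k3, hk3⟩ := exists_away ((f1.comp φ0) (C s0))
  obtain ⟨φ3, hφ3⟩ := away_lift hl3.polynomial (k3.comp (f1.comp φ0)) (away_unit hk3 :)
  have aφ3 : ∀ p : W2[X], φ3 (p.map l3) = k3 (f1 (φ0 p)) := fun p => RingHom.congr_fun hφ3 p
  have aφ3C : ∀ r, φ3 (C (l3 r)) = k3 (f1 (φ0 (C r))) := fun r => by simpa using aφ3 (C r)
  have aφ3X : φ3 X = k3 (f1 (φ0 X)) := by simpa using aφ3 X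
  have hφ3e : φ3.Etale := etale_of_comp (away_etale hl3.polynomial)
    (hφ3 ▸ etale_comp hφt (away_etale hk3))
  have hsp' := hsp W3[X] E3 (mapRingHom l3) k3 φ3 hl3.polynomial hk3 hφ3
  obtain ⟨e3, he3⟩ := away_lift hk3 (e'.comp χ) (by
    have := (hM.unit s0 hs0).map e0
    simpa [w2, he'', he1'] using this)
  have ae3 : ∀ y, e3 (k3 y) = e' (χ y) := fun y => RingHom.congr_fun he3 y
  obtain ⟨hq, V, _, i, jV, hi1', hi2, -, hjV, -, hul⟩ := zig (et1_of_etale hφ3e)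
  have ai : ∀ r, i (φ3 (C r)) = jV (C (Ideal.Quotient.mk (Ideal.span {φ3 X}) (φ3 (C r)))) :=
    fun r => RingHom.congr_fun hi1' r
  have hfW : (((Ideal.Quotient.mk (Ideal.span {φ3 X})).comp (φ3.comp C)).comp (l3.comp f)).Etale :=
    etale_comp (etale_comp hf (away_etale hl3)) hq
  refine ⟨E3 ⧸ Ideal.span {φ3 X}, V, inferInstance, inferInstance,
    ((Ideal.Quotient.mk (Ideal.span {φ3 X})).comp (φ3.comp C)).comp (l3.comp f),
    Ideal.Quotient.lift _ e3 ?_, jV, (i.comp k3).comp (f1.comp i0), hfW, ?_, hjV, ?_, ?_, ?_⟩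
  · intro y hy
    obtain ⟨z, rfl⟩ := Ideal.mem_span_singleton'.mp hy
    simp [aφ3X, ae3, w2, he'', he1']
  · ext r
    simp [aφ3C, ae3, w2, he'', he1', hx0']
  · refine Polynomial.ringHom_ext (fun r => ?_) ?_
    · simp [w0, ← aφ3C, ai]
    · simp [w0, ← aφ3X, hi2]
  · refine ul_mono hul fun L _ y hy hy1 => ⟨fun r hr => hy r ?_, hy1⟩
    exact Ideal.span_mono (by simp) hr
  · refine splitAt_pull hkω h1 hTt (splitAt_push hsp' (ep_away ha2 hl3.polynomial) hφ3e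
      (mapRingHom ((Ideal.Quotient.mk (Ideal.span {φ3 X})).comp (φ3.comp C))) i ?_ (by simp) ?_
      (ep_poly (ep_etale ha hfW)) hjV)
    · ext r : 1
      simp
    · exact Polynomial.ringHom_ext (fun r => by simp [ai]) (by simp [hi2])

end KEW.S7
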