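import Pool.Agent.P.MP_6277db_ag.KEW.L7.Red
import Pool.Agent.P.MP_6277db_ag.KEW.L7.ExtH
import Pool.Agent.P.MP_6277db_ag.KEW.L7.A3H
import Pool.Agent.P.MP_6277db_ag.KEW.L7.K0H

/-!
KEW project, layer L7: strict homotopy invariance for theories on rings.
-/

namespace KEW.S7

universe u v w

open Polynomial CategoryTheory

variable {A κ : Type u} [CommRing A] [Field κ] {π : A} {ρ : A →+* κ} {m : ℕ}

/-- The identity transformation. -/
def rfId (g : RF.{u, v} A) : g.Hom g := ⟨fun _ => AddMonoidHom.id _, fun _ _ _ _ _ => rfl⟩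

theorem locIso_id (g : RF.{u, v} A) : RF.LocIso π (rfId g) where
  surj _ _ _ _ z := Ev.of_id ⟨_, rfl⟩
  inj _ x _ _ y hy := by
    obtain rfl : y = 0 := hy
    exact dies_zero g x

/-- The inductive step in the top degree. -/
theorem inv_step (hb : Base π ρ m) (E : Th.{u, v} π) {p : ℤ} (hInv : ∀ q ≤ p, E.Inv q)
    (hI : (E.rf (p + 1)).InjLoc π) (hX : (E.rf (p + 1)).Ext π) (h3 : (E.rf p).A3 π)
    (hS : E.supp.Inv p) : E.Inv (p + 1) := by
  have := hb.noeth
  have hInv' : ∀ q ≤ p, (E.sm Sub1.zero).Van q := hInv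
  change (E.sm Sub1.zero).Van (p + 1)
  apply bgb (E.sm Sub1.zero) (rfl : p + 1 = p + 1) hInv'
  intro R K _ _ a x I z ha hr hI' hmin hz
  have hx : x (a π) = 0 := hmin.1.2 hI'
  obtain ⟨f, R1, _, l, x1, hl, hx1, h⟩ := coord' hb ha hx hr
  rcases h with h | ⟨W, _, w, φ, t, hw, hφ, ht, hxt⟩
  · exact dies_of_map _ ha (away_etale hl) hx1
      (case0 E hb rfl hI hX h3 (ep_away ha hl) (isRes_of_comp hr hx1) h _)
  · obtain ⟨r, k, hrk⟩ := away_surj hl t
    have hr0 : r ∈ RingHom.ker x := by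
      rw [RingHom.mem_ker, ← hx1, RingHom.comp_apply, ← hrk, map_mul, hxt, zero_mul]
    obtain ⟨s, N, hs, hsN⟩ := exists_pow_mem_of_min hmin hr0
    obtain ⟨R2, _, l2, hl2⟩ := exists_away (l s)
    have hs1 : x1 (l s) ≠ 0 := by
      rw [← RingHom.comp_apply, hx1]
      exact hs
    obtain ⟨x2, hx2⟩ := away_lift hl2 x1 hs1.isUnit
    obtain ⟨R3, _, l3, hl3⟩ := exists_away (l2 t)
    have hl12 : (l2.comp l).Etale := etale_comp (away_etale hl) (away_etale hl2)
    refine ⟨R2, inferInstance, l2.comp l, x2, hl12, by rw [← RingHom.comp_assoc, hx2, hx1], ?_⟩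
    refine case1 E hS hw (φ := l2.comp φ) (t := l2 t) (Et1.comp ht (away_etale hl2))
      (by rw [RingHom.comp_assoc, hφ]; rfl) hl3 _ ?_
    refine (RF.map_comp _ (l2.comp l) l3 rfl rfl rfl (ep_etale ha hl12) z).trans ?_
    have hu : IsUnit (l3 (l2 (l (s * r ^ N)))) := by
      rw [map_mul, map_pow, ← hrk]
      simp only [map_mul, map_pow]
      exact ((away_unit hl2).map l3).mul (((away_unit hl3).mul
        ((((away_unit hl).map l2).map l3).pow k)).pow N)
    let ι : hR ((l3.comp (l2.comp l)).comp a) ⟶ opn a I :=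
      prMap (l3.comp (l2.comp l)) rfl (fun D _ g _ => Ideal.eq_top_of_isUnit_mem _
        (Ideal.mem_map_of_mem _ hsN) (hu.map g)) fun _ _ _ _ h => h
    have e : hMap (l3.comp (l2.comp l)) rfl = ι ≫ opnι a I := rfl
    change (E.sm Sub1.zero).map (hMap (l3.comp (l2.comp l)) rfl) z = 0
    rw [e, Th.map_comp, hz, map_zero]

theorem main_ind (hb : Base π ρ m) (k : ℕ) : ∀ (E : Th.{u, v} π) (b : ℤ), (∀ q < b, E.Van q) →
    (∀ q < b + k, (E.rf q).InjLoc π ∧ (E.rf q).Ext π) →
    (∀ q, q + 1 < b + k → E.Inv q → HasPT.{u, v, w} π ρ m (E.rf q)) → ∀ q < b + k, E.Inv q := by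
  have := hb.noeth
  induction k with
  | zero =>
    intro E b hV _ _ q hq
    exact inv_of_van E (p := q - 1) (by omega) (hV _ (by omega)) (hV _ (by omega))
  | succ k ih =>
    intro E b hV hL hT
    have hInv : ∀ q < b + k, E.Inv q :=
      ih E b hV (fun q hq => hL q (by omega)) fun q hq => hT q (by omega)
    have hP : ∀ q < b + k, HasPT.{u, v, w} π ρ m (E.rf q) :=
      fun q hq => hT q (by omega) (hInv q hq)
    have hR : ∀ q < b + k, HasPT.{u, v, w} π ρ m (E.red q) :=
      fun q hq => hasPT_red hb E q (hP q hq)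
    have hB : ∀ q < b + k, RF.LocIso π (bd E q) := fun q hq =>
      bd_locIso E (hInv q hq) (hL (q + 1) (by omega)).1 (k0H hb (hP q hq) (th_ui E q))
    have hV1 : ∀ q, q + 1 < b → E.supp.Van q := fun q hq =>
      supp_van E rfl (hV q (by omega)) (hV (q + 1) hq)
    have hV' : ∀ q < b, E.supp.Van q := by
      intro q hq
      by_cases h : q + 1 < b
      · exact hV1 q h
      refine bgb E.supp (p := q - 1) (by omega) (fun q' hq' => hV1 q' (by omega))
        fun R K _ _ a x I z ha _ hI' hmin _ => ?_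
      refine ((hB q (by omega)).surj a x ha (hmin.1.2 hI') z).mono fun D _ f hf ⟨y, hy⟩ => ?_
      have hy0 : y = 0 := Subtype.ext (hV q hq _ (ep_lau (ep_etale ha hf)) y.1)
      rw [← hy, hy0, map_zero]
    have hS : ∀ q < b + k, E.supp.Inv q := by
      refine ih E.supp b hV' (fun q hq => ⟨injLoc_of_locIso (hB q hq) (injH hb (hR q hq)),
        extH hb (hR q hq) (hB q hq)⟩) fun q hq _ => ?_
      exact hasPT_of_bij (bd E q) (fun R _ a ha => ⟨bd_injective E (hInv q (by omega)) ha,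
        bd_surjective E (hInv (q + 1) hq) ha⟩) (hR q (by omega))
    intro q hq
    by_cases h : q < b + k
    · exact hInv q h
    obtain ⟨p, rfl⟩ : ∃ p, q = p + 1 := ⟨q - 1, by omega⟩
    exact inv_step hb E (fun q' hq' => hInv q' (by omega)) (hL _ hq).1 (hL _ hq).2
      (a3H hb (hP p (by omega)) (th_ui E p)) (hS p (by omega))

/-- Strict homotopy invariance for a bounded below theory whose cohomology groups are locally given by
functors with a comparison pretheory. -/
theorem strict_inv (hb : Base π ρ m) (E : Th.{u, v} π) (b : ℤ) (hV : ∀ q < b, E.Van q)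
    (hL : ∀ q, (E.rf q).InjLoc π ∧ (E.rf q).Ext π)
    (hT : ∀ q, E.Inv q → HasPT.{u, v, w} π ρ m (E.rf q)) (q : ℤ) : E.Inv q :=
  main_ind hb (q + 1 - b).toNat E b hV (fun q _ => hL q) (fun q _ => hT q) q (by omega)

end KEW.S7
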