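import Pool.Agent.P.MP_6277db_ag.KEW.L7.Br5
import Pool.Agent.P.MP_6277db_ag.KEW.L6.Tr

/-!
KEW project, layer L7: strict homotopy invariance for complexes with transfers.
-/

set_option backward.isDefEq.respectTransparency false

noncomputable section

open CategoryTheory Limits AlgebraicGeometry Opposite

namespace Pool.Agent.KEW

open _root_.KEW _root_.KEW.S7

variable {A κ : Type} [CommRing A] [Field κ] {π : A} {ρ : A →+* κ} {m : ℕ} {L : Type 1} [CommRing L]

theorem locExact_trS [IsNoetherianRing A] :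
    LocExact (smS A) ((trData m (smV A) L).ρ ⋙ rs L (gamS m A)) :=
  locExact_rho (v := smV A) (isSite_sm A) (fun _ => inferInstance) L

/-- Nisnevich local replacement of an additive complex with transfers. -/
theorem exists_nis_trS [IsNoetherianRing A] (K : Ch (TrS m A) L) (hK : ∀ n, (K.X n).Additive) :
    ∃ (X : Ch (TrS m A) L) (j : K ⟶ X), Mono j ∧ (∀ n, (X.X n).Additive) ∧
      WG (NisGen (smS A)) ((mapC (fgt L m A)).map j) ∧
      IsLocal (NisGen (smS A)) ((mapC (fgt L m A)).obj X) :=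
  (isSite_sm A).exists_nis_replacement_tr (trData m (smV A) L) locExact_trS K hK

/-- **O1** for complexes whose homology presheaves admit transfers. -/
theorem o1_sm (hb : Base π ρ m) (hm : IsUnit (m : A)) (hL : (m : L) = 0) {n : ℕ}
    (hn : ringKrullDim A ≤ n) {K X : Ch (Sm A) L}
    (hK : ∀ q, ∃ F : PSh (TrS m A) L, F.Additive ∧ G1 π ((fgt L m A).obj F) ∧
      L6.G2 π (rf ((fgt L m A).obj F)) ∧ Nonempty (K.homology q ≅ (fgt L m A).obj F))
    (j : K ⟶ X) (hj : WG (NisGen (smS A)) j) (hX : IsLocal (NisGen (smS A)) X) :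
    IsLocal (NGen (smS A)) X :=
  have := hb.noeth
  o1 hb hn (trData m (smV A) L) locExact_trS additive_homology
    (fun F hF h => have : F.Additive := hF; hasPT_rf F hL hb hm h) hK j hj hX

/-- **O1** for additive complexes with transfers. -/
theorem o1_tr (hb : Base π ρ m) (hm : IsUnit (m : A)) (hL : (m : L) = 0) {n : ℕ}
    (hn : ringKrullDim A ≤ n) {K : Ch (TrS m A) L} (hK : ∀ n, (K.X n).Additive)
    (h1 : ∀ q, G1 π ((fgt L m A).obj (K.homology q)))
    (h2 : ∀ q, L6.G2 π (rf ((fgt L m A).obj (K.homology q)))) {X : Ch (Sm A) L}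
    (j : (mapC (fgt L m A)).obj K ⟶ X) (hj : WG (NisGen (smS A)) j)
    (hX : IsLocal (NisGen (smS A)) X) : IsLocal (NGen (smS A)) X :=
  o1_sm hb hm hL hn (fun q => ⟨K.homology q, additive_homology K hK q, h1 q, h2 q,
    ⟨TW_homologyMapIso (fgt L m A) K q⟩⟩) j hj hX

end Pool.Agent.KEW
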