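import Pool.Agent.P.MP_6277db_ag.KEW.L7.ThB

/-!
KEW project, layer L7, row SUPP: the theory with supports in the zero section.

Hints.
* `bd_injective`: `ex₁` for `ses_lau`, `hi_of_inv`, and `lauE`.
* `bd_surjective`: `ex₃`; the image of `z` in degree `q + 1` on `R[X]` is a pull back `C^* z0` (`hi_of_inv`) and dies on
  `Lau R`, so `z0 = 0` by `lauE`. Then `z = δ α`; replace `α` by `α - lauC^* lauE^* α`.
* `bd_locIso.surj`: reduce to a residue field point (`exists_res`, `ev_of_field`). The image of `z` on `W[X]` dies on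
  `Lau W`, so it dies at all points with `X ≠ 0`; `hL` with `nz_X` at the point `eval₂RingHom x 0` gives `(E1, e)`.
  Apply `glueRel` to `E.map (relSm a) z`, then `hK`; transport `α` to `Lau W'` (`away_bijective`, `δ_nat`), use
  `relSm_nat` and the injectivity of `E.map (relSm _)`.
* `case1`: lift `z` to the pair `rel _ t` (`ses_away`, in the theory `E.sm Sub1.zero`), use `zig`, `locBij_relMap` twice
  (`ul_mono`), `locBij_relSm`, and `swapSm`.
-/

namespace KEW

universe u v

open Polynomial CategoryTheory S7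

variable {A : Type u} [CommRing A] {π : A}

/-- The reduced part of the cohomology of `G_m × -`. -/
noncomputable def Th.red (E : Th.{u, v} π) (q : ℤ) : RF.{u, v} A where
  obj {R} _ a := (E.map (q := q) (hMap (lauE R) (lauE_over a))).ker
  map {R S} _ _ {a b} f hf :=
    ((E.map (hMap (lauMap f) (lauMap_over f hf))).comp (AddSubgroup.subtype _)).codRestrict _
      fun z => by
        have e : hMap (lauE S) (lauE_over b) ≫ hMap (lauMap f) (lauMap_over f hf) =
            hMap f hf ≫ hMap (lauE R) (lauE_over a) :=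
          Pr.hom_ext fun D _ d x => Subtype.ext
            (congrArg x.1.comp (lauE_lauMap f) :)
        change E.map _ (E.map _ z.1) = 0
        rw [← E.map_comp, e, E.map_comp, z.2, map_zero]
  map_id {R} _ {a} h z := Subtype.ext (by
    have e : hMap (lauMap (RingHom.id R)) (lauMap_over _ h) = 𝟙 _ :=
      Pr.hom_ext fun D _ d x => Subtype.ext (congrArg x.1.comp (lauMap_id R) :)
    change E.map _ z.1 = z.1
    rw [e, E.map_id])
  map_comp f g hf hg h _ z := Subtype.ext (by
    have e : hMap (lauMap g) (lauMap_over g hg) ≫ hMap (lauMap f) (lauMap_over f hf) =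
        hMap (lauMap (g.comp f)) (lauMap_over _ h) :=
      Pr.hom_ext fun D _ d x => Subtype.ext (congrArg x.1.comp (lauMap_comp f g) :)
    change E.map _ (E.map _ z.1) = E.map _ z.1
    rw [← E.map_comp, e])

theorem Th.red_map_val (E : Th.{u, v} π) (q : ℤ) {R S : Type u} [CommRing R] [CommRing S]
    {a : A →+* R} {b : A →+* S} (f : R →+* S) (hf : f.comp a = b) (z : (E.red q).obj a) :
    ((E.red q).map f hf z).1 = (E.rf q).map (lauMap f) (lauMap_over f hf) z.1 := rfl

namespace S7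

variable (E : Th.{u, v} π)

theorem bd_nat (q : ℤ) {R S : Type u} [CommRing R] [CommRing S] {a : A →+* R} {b : A →+* S}
    (f : R →+* S) (hf : f.comp a = b) (y : E.H q (hR ((lauC R).comp a))) :
    E.δ (ses_lau b) rfl (E.map (hMap (lauMap f) (lauMap_over f hf)) y) =
      E.map (smMap (hMap f hf) Sub1.unit) (E.δ (ses_lau a) (rfl : q + 1 = q + 1) y) := by
  refine (E.δ_nat (ses_lau b) (ses_lau a) (hMap (lauMap f) (lauMap_over f hf))
    (hMap (mapRingHom f) (mapRingHom_over f hf)) (smMap (hMap f hf) Sub1.unit) ?_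
    (toSm_nat f hf _) rfl y).symm
  exact Pr.hom_ext fun D _ d x => Subtype.ext (congrArg x.1.comp (lauMap_lauL f).symm :)

/-- The boundary map to the cohomology with supports. -/
noncomputable def bd (q : ℤ) : (E.red q).Hom (E.supp.rf q) where
  app a := (E.δ (ses_lau a) rfl).comp (AddSubgroup.subtype _)
  nat f hf _ _ y := bd_nat E q f hf y.1

theorem Supp_lauL_over {R : Type u} [CommRing R] (a : A →+* R) :
    (lauL R).comp (C.comp a) = (lauC R).comp a := rfl

theorem Supp_lauE_sec (q : ℤ) {R : Type u} [CommRing R] (a : A →+* R) (y : E.H q (hR a)) :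
    E.map (hMap (lauE R) (lauE_over a))
      (E.map (hMap (lauL R) (Supp_lauL_over a))
        (E.map (hMap (C : R →+* R[X]) (rfl : C.comp a = C.comp a)) y)) = y := by
  have e : hMap (lauE R) (lauE_over a) ≫ hMap (lauL R) (Supp_lauL_over a) ≫
        hMap (C : R →+* R[X]) (rfl : C.comp a = C.comp a) = 𝟙 _ :=
    Pr.hom_ext fun D _ d x => Subtype.ext (congrArg x.1.comp (lauE_lauC R) :)
  rw [← E.map_comp, ← E.map_comp, Category.assoc, e, E.map_id]

theorem Supp_exists_red (q : ℤ) {R : Type u} [CommRing R] (a : A →+* R)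
    (α : E.H q (hR ((lauC R).comp a))) :
    ∃ y : (E.red q).obj a, (bd E q).app a y = E.δ (ses_lau a) (rfl : q + 1 = q + 1) α := by
  refine ⟨⟨α - E.map (hMap (lauL R) (Supp_lauL_over a))
    (E.map (hMap (C : R →+* R[X]) (rfl : C.comp a = C.comp a))
      (E.map (hMap (lauE R) (lauE_over a)) α)), ?_⟩, ?_⟩
  · change E.map _ (_ - _) = 0
    rw [map_sub, Supp_lauE_sec, sub_self]
  · refine (map_sub (E.δ (ses_lau a) (rfl : q + 1 = q + 1)) _ _).trans ?_
    exact sub_eq_self.2 ((E.ex₁ (ses_lau a) (rfl : q + 1 = q + 1) _).2 ⟨_, rfl⟩)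

theorem bd_injective {q : ℤ} (h : E.Inv q) {R : Type u} [CommRing R] {a : A →+* R} (ha : EP a) :
    Function.Injective ((bd E q).app a) := by
  rw [injective_iff_map_eq_zero]
  intro z hz
  obtain ⟨y, hy⟩ := (E.ex₁ (ses_lau a) (rfl : q + 1 = q + 1) z.1).1 hz
  obtain ⟨y0, rfl⟩ := (hi_of_inv E h a ha).2 y
  have h0 : y0 = 0 := by
    rw [← Supp_lauE_sec E q a y0]
    exact (congrArg (E.map (hMap (lauE R) (lauE_over a))) hy).trans z.2
  refine Subtype.ext (hy.symm.trans ?_)
  rw [h0, map_zero]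
  exact map_zero _

theorem bd_surjective {q : ℤ} (h : E.Inv (q + 1)) {R : Type u} [CommRing R] {a : A →+* R}
    (ha : EP a) : Function.Surjective ((bd E q).app a) := by
  intro z
  obtain ⟨z0, hz0⟩ := (hi_of_inv E h a ha).2 (E.map (toSm a Sub1.unit) z)
  have h1 : E.map (hMap (lauL R) (Supp_lauL_over a))
      (E.map (toSm a Sub1.unit) z) = 0 := (E.ex₂ (ses_lau a) _).2 ⟨z, rfl⟩
  have h0 : z0 = 0 := by
    refine (Supp_lauE_sec E (q + 1) a z0).symm.trans ?_
    refine (congrArg (fun u => E.map (hMap (lauE R) (lauE_over a))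
      (E.map (hMap (lauL R) (Supp_lauL_over a)) u)) hz0).trans ?_
    exact (congrArg (E.map (hMap (lauE R) (lauE_over a))) h1).trans (map_zero _)
  have h2 : E.map (toSm a Sub1.unit) z = 0 := by
    refine hz0.symm.trans ?_
    rw [h0]
    exact map_zero _
  obtain ⟨α, hα⟩ := (E.ex₃ (ses_lau a) (rfl : q + 1 = q + 1) z).1 h2
  obtain ⟨y, hy⟩ := Supp_exists_red E q a α
  exact ⟨y, hy.trans hα⟩

theorem Supp_transport (q : ℤ) {W Rω : Type u} [CommRing W] [CommRing Rω] (a : A →+* W)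
    {lω : W[X] →+* Rω} (hl : IsAway lω X) (α : E.H q (hR (lω.comp (C.comp a)))) :
    ∃ α' : E.H q (hR ((lauC W).comp a)),
      E.map (relSm a) (E.δ (ses_lau a) (rfl : q + 1 = q + 1) α') =
        E.δ (ses_away (C.comp a) hl) (rfl : q + 1 = q + 1) α := by
  obtain ⟨c, hc⟩ := away_lift (isAway_lauL W) lω (away_unit hl)
  obtain ⟨c', hc'⟩ := away_lift hl (lauL W) (isUnit_lauL_X W)
  have hcc : c.comp c' = RingHom.id Rω :=
    away_ext hl (by rw [RingHom.comp_assoc, hc', hc, RingHom.id_comp])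
  have o1 : c.comp ((lauC W).comp a) = lω.comp (C.comp a) := by
    rw [← hc]
    rfl
  have o2 : c'.comp (lω.comp (C.comp a)) = (lauC W).comp a := by
    rw [← RingHom.comp_assoc, hc']
    rfl
  refine ⟨E.map (hMap c' o2) α, ?_⟩
  have e1 : hMap lω (rfl : lω.comp (C.comp a) = lω.comp (C.comp a)) ≫ 𝟙 _ =
      hMap c o1 ≫ hMap (lauL W) (Supp_lauL_over a) :=
    Pr.hom_ext fun D _ d x => Subtype.ext (congrArg x.1.comp hc.symm :)
  have e2 : hMap c o1 ≫ hMap c' o2 = 𝟙 _ :=
    Pr.hom_ext fun D _ d x => Subtype.ext (congrArg x.1.comp hcc :)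
  refine (E.δ_nat (ses_away (C.comp a) hl) (ses_lau a) (hMap c o1) (𝟙 _) (relSm a) e1
    ((relπ_relSm a).trans (Category.id_comp _).symm) rfl _).trans (congrArg _ ?_)
  refine (E.map_comp (hMap c o1) (hMap c' o2) α).symm.trans ?_
  rw [e2, E.map_id]

theorem Supp_surj_res {q : ℤ} (hL : (E.rf (q + 1)).InjLoc π) (hK : (E.rf q).K0 π) {W K : Type u}
    [CommRing W] [Field K] (a : A →+* W) (x : W →+* K) (ha : EP a) (hx : x (a π) = 0)
    (hres : IsRes x) (z : (E.supp.rf q).obj a) :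
    Ev x fun _ _ f => ∃ y : (E.red q).obj (f.comp a),
      (bd E q).app (f.comp a) y = (E.supp.rf q).map f (rfl : f.comp a = f.comp a) z := by
  have h1 : E.map (hMap (lauL W) (Supp_lauL_over a))
      (E.map (toSm a Sub1.unit) z) = 0 := (E.ex₂ (ses_lau a) _).2 ⟨z, rfl⟩
  have hx' : eval₂RingHom x 0 (C (a π)) = 0 := by simpa using hx
  have hd : (E.rf (q + 1)).Dies (a := C.comp a) (eval₂RingHom x 0)
      (E.map (toSm a Sub1.unit) z) := by
    refine hL (C.comp a) (eval₂RingHom x 0) X _ (ep_poly ha) hx' (nz_X (a π) hx') ?_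
    intro L _ x' _ hX
    obtain ⟨c, hc⟩ := away_lift (isAway_lauL W) x' (IsUnit.mk0 _ hX)
    exact ⟨Lau W, inferInstance, lauL W, c, away_etale (isAway_lauL W), hc, h1⟩
  obtain ⟨E1, _, φ, e, hφ, he, hz⟩ := hd
  obtain ⟨Eω, _, j, hj⟩ := exists_away (φ X)
  have hz' : E.map (hMap φ (rfl : φ.comp (C.comp a) = φ.comp (C.comp a)) ≫ relπ (C.comp a) X)
      (E.map (relSm a) z) = 0 := by
    rw [← E.map_comp, Category.assoc, relπ_relSm, E.map_comp]
    exact hz
  obtain ⟨b, Hb⟩ := glueRel E (rfl : q + 1 = q + 1) hj (E.map (relSm a) z) hz'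
  obtain ⟨W', E', _, _, f, x', φ', k, hf, hfx, hφ', hk, hU, hsp⟩ :=
    hK a x φ e j b ha hx hres hφ he hj
  obtain ⟨Rω, _, lω, hl, α, hα⟩ := Hb W'[X] E' (C.comp (f.comp a)) (mapRingHom f) φ' k X
    (mapRingHom_over f rfl) (by simp) hk hφ' hU hsp
  obtain ⟨α', hα'⟩ := Supp_transport E q (f.comp a) hl α
  obtain ⟨y, hy⟩ := Supp_exists_red E q (f.comp a) α'
  refine ⟨W', inferInstance, f, x', hf, hfx, y, hy.trans ?_⟩
  refine (E.exc (locBij_relSm (π := π) (f.comp a)) (q + 1)).1 (hα'.trans (hα.symm.trans ?_))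
  change _ = E.map (relSm (f.comp a)) (E.map (smMap (hMap f rfl) Sub1.unit) z)
  rw [← E.map_comp, ← E.map_comp, relSm_nat]

theorem bd_locIso {q : ℤ} (h : E.Inv q) (hL : (E.rf (q + 1)).InjLoc π) (hK : (E.rf q).K0 π) :
    RF.LocIso π (bd E q) := by
  refine ⟨fun {W K} _ _ a x ha hx z => ?_, fun {W K} _ _ a x ha hx y hy => ?_⟩
  · obtain ⟨L, _, x0, ι, hres, rfl⟩ := exists_res x
    have hx0 : x0 (a π) = 0 := ι.injective (hx.trans (map_zero ι).symm)
    exact ev_of_field ι (Supp_surj_res E hL hK a x0 ha hx0 hres z)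
  · have h0 : y = 0 := bd_injective E h ha (hy.trans (map_zero _).symm)
    rw [h0]
    exact dies_zero _ x

theorem Supp_rel_van (q : ℤ) {R S : Type u} [CommRing R] [CommRing S] {a : A →+* R} {φ : R →+* S}
    {b : A →+* S} (hb : φ.comp a = b) {ω : R} {ω' : S} (hω : φ ω = ω') (hφ : φ.Etale)
    (h : ULP φ (Ideal.span {ω}) 1) :
    (∀ z : E.H q (rel a ω), z = 0) ↔ ∀ z : E.H q (rel b ω'), z = 0 := by
  subst hb
  have h' : ULP φ (Ideal.span {a π, ω}) 1 := ul_mono h fun L _ x hx h1 =>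
    ⟨fun r hr => hx r (Ideal.span_mono (by simp) hr), h1⟩
  have hb := E.exc (locBij_relMap hω hφ h') q
  constructor
  · intro H z
    obtain ⟨z', rfl⟩ := hb.2 z
    rw [H z', map_zero]
  · intro H z
    exact hb.1 ((H _).trans (map_zero _).symm)

/-- The step at a point of positive codimension. -/
theorem case1 {p : ℤ} (hS : E.supp.Inv p) {W R Rt : Type u} [CommRing W] [CommRing R] [CommRing Rt]
    {w : A →+* W} (hw : EP w) {φ : W →+* R} {t : R} (ht : Et1 φ t) {a : A →+* R} (ha : φ.comp w = a)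
    {l : R →+* Rt} (hl : IsAway l t) (z : ((E.sm Sub1.zero).rf (p + 1)).obj a)
    (hz : ((E.sm Sub1.zero).rf (p + 1)).map l (rfl : l.comp a = l.comp a) z = 0) : z = 0 := by
  obtain ⟨z', hz'⟩ := ((E.sm Sub1.zero).ex₂ (ses_away a hl) z).1 hz
  obtain ⟨h0, V, _, i, j, hij, ht', hi, hj, ui, uj⟩ := zig ht
  have hb : EP (((Ideal.Quotient.mk (Ideal.span {t})).comp φ).comp w) := ep_etale hw h0
  have e : j.comp (C.comp (((Ideal.Quotient.mk (Ideal.span {t})).comp φ).comp w)) = i.comp a := by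
    rw [← ha, ← RingHom.comp_assoc w φ i, hij]
    rfl
  have v1 : ∀ u : (E.sm Sub1.zero).H (p + 1)
      (rel (C.comp (((Ideal.Quotient.mk (Ideal.span {t})).comp φ).comp w)) X), u = 0 := by
    intro u
    obtain ⟨u', rfl⟩ := ((E.sm Sub1.zero).exc (locBij_relSm (π := π) _) (p + 1)).2 u
    have h1 : E.map (swapSm _ Sub1.zero Sub1.unit) u' = 0 := hS _ hb _
    have h2 : u' = 0 := by
      refine (E.map_id u').symm.trans ?_
      rw [← swapSm_swapSm, E.map_comp]
      exact (congrArg (E.map _) h1).trans (map_zero _)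
    rw [h2, map_zero]
  have v2 := (Supp_rel_van (E.sm Sub1.zero) (p + 1) e ht'.symm hj uj).1 v1
  have v3 := (Supp_rel_van (E.sm Sub1.zero) (p + 1) (rfl : i.comp a = i.comp a) rfl hi ui).2 v2
  rw [← hz', v3 z']
  exact map_zero _

end S7

end KEW
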