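import Pool.Agent.P.MP_6277db_ag.KEW.L7.Split
import Pool.Agent.P.MP_6277db_ag.KEW.L7.Supp

/-!
KEW project, layer L7, row RED: the comparison pretheory of the reduced part, vanishing on tori.

Hints.
* `hasPT_red`: the pretheory is `P.red`; `c' φ` is the restriction of `c (lauMap φ)` if `EP β ∧ IndEP a`, else `0`.
  `isPO_lau` and `locRed_po` show that `lauMap φ` is `LocRed` for `M.map (lauC B)`; use `th_ui`, `cmp_surj_ui`,
  `cmp_inj_ui`, and take `B1 = Bs`, `f = id`.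
* `vanF_of_dies`: `vanF_of_generic`; lift the `EP` domain `B` over `κ` to an `EP` algebra over `A` (CA/Pres.lean), use
  `Cmp.surj` with `M = ⊥`, the hypothesis at the generic point `B → FractionRing B`, `c_left`, `c_right`, `cont_loc`.
-/

namespace KEW.S7

universe u v w

open Polynomial

variable {A κ : Type u} [CommRing A] [Field κ] {π : A} {ρ : A →+* κ} {m : ℕ}

section

variable {B B' R R' : Type u} [CommRing B] [CommRing B'] [CommRing R] [CommRing R']

theorem Red_congr {h : RF.{u, v} A} {P : PT.{u, w} κ m} (c : Cmp π ρ h P) {β : A →+* B}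
    {a : κ →+* R} {φ φ' : B →+* R} (e : φ = φ') (h1 : φ.comp β = a.comp ρ)
    (h2 : φ'.comp β = a.comp ρ) (x : h.obj β) : c.c φ h1 x = c.c φ' h2 x := by
  subst e
  rfl

theorem Red_over {β : A →+* B} {a : κ →+* R} {φ : B →+* R} (hφ : φ.comp β = a.comp ρ) :
    (lauMap φ).comp ((lauC B).comp β) = ((lauC R).comp a).comp ρ :=
  lauMap_over φ hφ

theorem Red_lauE {h : RF.{u, v} A} {P : PT.{u, w} κ m} (c : Cmp π ρ h P) {β : A →+* B}
    {a : κ →+* R} {φ : B →+* R} (hφ : φ.comp β = a.comp ρ) (hβ : EP β) (ha : IndEP a)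
    (y : h.obj ((lauC B).comp β)) :
    P.map (lauE R) (lauE_over a) (c.c (lauMap φ) (Red_over hφ) y) =
      c.c φ hφ (h.map (lauE B) (lauE_over β) y) := by
  have e1 : (φ.comp (lauE B)).comp ((lauC B).comp β) = a.comp ρ := by
    rw [RingHom.comp_assoc, lauE_over, hφ]
  have e2 : ((lauE R).comp (lauMap φ)).comp ((lauC B).comp β) = a.comp ρ := by
    rw [lauE_lauMap, e1]
  rw [c.c_right (lauMap φ) (lauE R) (Red_over hφ) (lauE_over a) e2 (ep_lau hβ) ha.lau ha,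
    c.c_left (lauE B) φ (lauE_over β) hφ e1 (ep_lau hβ) hβ ha]
  exact Red_congr c (lauE_lauMap φ) _ _ y

theorem Red_lauC {h : RF.{u, v} A} {P : PT.{u, w} κ m} (c : Cmp π ρ h P) {β : A →+* B}
    {a : κ →+* R} {φ : B →+* R} (hφ : φ.comp β = a.comp ρ) (hβ : EP β) (ha : IndEP a)
    (y : h.obj β) :
    c.c (lauMap φ) (Red_over hφ) (h.map (lauC B) rfl y) =
      P.map (lauC R) rfl (c.c φ hφ y) := by
  have e1 : ((lauC R).comp φ).comp β = ((lauC R).comp a).comp ρ := by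
    rw [RingHom.comp_assoc, hφ]
    rfl
  have e2 : ((lauMap φ).comp (lauC B)).comp β = ((lauC R).comp a).comp ρ := by
    rw [lauMap_lauC, e1]
  rw [c.c_right φ (lauC R) hφ rfl e1 hβ ha ha.lau,
    c.c_left (lauC B) (lauMap φ) rfl (Red_over hφ) e2 hβ (ep_lau hβ) ha.lau]
  exact Red_congr c (lauMap_lauC φ) _ _ y

open Classical in
/-- The comparison map of the reduced parts. -/
noncomputable def Red_c {E : Th.{u, v} π} {q : ℤ} {P : PT.{u, w} κ m} (c : Cmp π ρ (E.rf q) P)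
    {β : A →+* B} {a : κ →+* R} (φ : B →+* R) (hφ : φ.comp β = a.comp ρ) :
    (E.red q).obj β →+ P.red.obj a :=
  if h : EP β ∧ IndEP a then
    ((c.c (lauMap φ) (Red_over hφ)).comp (AddSubgroup.subtype _)).codRestrict _ fun z => by
      have hz : (E.rf q).map (lauE B) (lauE_over β) z.1 = 0 := z.2
      change P.map (lauE R) (lauE_over a) (c.c (lauMap φ) (Red_over hφ) z.1) = 0
      rw [Red_lauE c hφ h.1 h.2, hz, map_zero]
  else 0

theorem Red_c_val {E : Th.{u, v} π} {q : ℤ} {P : PT.{u, w} κ m} (c : Cmp π ρ (E.rf q) P)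
    {β : A →+* B} {a : κ →+* R} (φ : B →+* R) (hφ : φ.comp β = a.comp ρ) (hβ : EP β)
    (ha : IndEP a) (z : (E.red q).obj β) :
    (Red_c c φ hφ z).1 = c.c (lauMap φ) (Red_over hφ) z.1 := by
  unfold Red_c
  rw [dif_pos ⟨hβ, ha⟩]
  rfl

theorem Red_locRed {β : A →+* B} {φ : B →+* R} {M : Submonoid B}
    (h : LocRed (Ideal.span {β π}) M φ) :
    LocRed (Ideal.span {((lauC B).comp β) π}) (M.map (lauC B)) (lauMap φ) := by
  have h1 := locRed_po h (isPO_lau φ).flip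
  rwa [Ideal.map_span, Set.image_singleton] at h1

theorem Red_surj (hb : Base π ρ m) {E : Th.{u, v} π} {q : ℤ} {P : PT.{u, w} κ m}
    (c : Cmp π ρ (E.rf q) P) {β : A →+* B} {a : κ →+* R} (φ : B →+* R)
    (hφ : φ.comp β = a.comp ρ) (M : Submonoid B) (hβ : EP β)
    (hL : LocRed (Ideal.span {β π}) M φ) (z : P.red.obj a) :
    ∃ s ∈ M, ∃ (Bs B1 : Type u) (_ : CommRing Bs) (_ : CommRing B1) (l : B →+* Bs)
      (f : Bs →+* B1) (φ1 : B1 →+* R) (h1 : φ1.comp ((f.comp l).comp β) = a.comp ρ)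
      (x : (E.red q).obj ((f.comp l).comp β)), IsAway l s ∧ EE (Ideal.span {l (β π)}) f ∧
      φ1.comp (f.comp l) = φ ∧ Red_c c φ1 h1 x = z := by
  have ha : IndEP a := indEP_locRed hb hβ hL hφ
  obtain ⟨_, ⟨s, hs, rfl⟩, H⟩ := cmp_surj_ui hb c (th_ui E q) (Red_over hφ) (ep_lau hβ)
    (Red_locRed hL) z.1
  obtain ⟨Bs, _, l, hl⟩ := exists_away s
  obtain ⟨φ1, hφ1⟩ := away_lift hl φ (hL.unit s hs)
  have hφ1' : φ1.comp ((RingHom.id Bs).comp l) = φ := hφ1
  have hβ1 : EP (((RingHom.id Bs).comp l).comp β) := ep_away hβ hl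
  have h1 : φ1.comp (((RingHom.id Bs).comp l).comp β) = a.comp ρ := by
    rw [← RingHom.comp_assoc, hφ1', hφ]
  obtain ⟨y, hy⟩ := H (Lau Bs) ((lauC Bs).comp (((RingHom.id Bs).comp l).comp β))
    (lauMap ((RingHom.id Bs).comp l)) (lauMap φ1) (Red_over h1) (lauMap_over _ rfl) (ep_lau hβ1)
    (by
      rw [G_lauMap_apply]
      exact (away_unit hl).map (lauC Bs))
    (by rw [lauMap_comp, hφ1'])
  have hz : P.map (lauE R) (lauE_over a) z.1 = 0 := z.2
  have h0 : c.c φ1 h1 ((E.rf q).map (lauE Bs) (lauE_over _) y) = 0 := by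
    rw [← Red_lauE c h1 hβ1 ha, hy, hz]
  have hk : (E.rf q).map (lauE Bs) (lauE_over _)
      (y - (E.rf q).map (lauC Bs) rfl ((E.rf q).map (lauE Bs) (lauE_over _) y)) = 0 := by
    have e : ((lauE Bs).comp (lauC Bs)).comp (((RingHom.id Bs).comp l).comp β) =
        ((RingHom.id Bs).comp l).comp β := by
      rw [lauE_lauC]
      rfl
    rw [map_sub, (E.rf q).map_comp (lauC Bs) (lauE Bs) rfl (lauE_over _) e (ep_lau hβ1),
      (E.rf q).map_congr (lauE_lauC Bs) e rfl, (E.rf q).map_id, sub_self]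
  refine ⟨s, hs, Bs, Bs, inferInstance, inferInstance, l, RingHom.id Bs, φ1, h1, ⟨_, hk⟩, hl,
    ee_id _, hφ1', Subtype.ext ?_⟩
  rw [Red_c_val c φ1 h1 hβ1 ha]
  change c.c (lauMap φ1) (Red_over h1)
    (y - (E.rf q).map (lauC Bs) rfl ((E.rf q).map (lauE Bs) (lauE_over _) y)) = z.1
  rw [map_sub, Red_lauC c h1 hβ1 ha, h0, map_zero, sub_zero, hy]

theorem Red_inj (hb : Base π ρ m) {E : Th.{u, v} π} {q : ℤ} {P : PT.{u, w} κ m}
    (c : Cmp π ρ (E.rf q) P) {β : A →+* B} {a : κ →+* R} (φ : B →+* R)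
    (hφ : φ.comp β = a.comp ρ) (M : Submonoid B) (hβ : EP β)
    (hL : LocRed (Ideal.span {β π}) M φ) (x : (E.red q).obj β) (hx : Red_c c φ hφ x = 0) :
    ∃ s ∈ M, ∃ (Bs B1 : Type u) (_ : CommRing Bs) (_ : CommRing B1)
      (l : B →+* Bs) (f : Bs →+* B1), IsAway l s ∧ EE (Ideal.span {l (β π)}) f ∧
      (E.red q).map (f.comp l) (rfl : (f.comp l).comp β = (f.comp l).comp β) x = 0 := by
  have ha : IndEP a := indEP_locRed hb hβ hL hφ
  have hx' : c.c (lauMap φ) (Red_over hφ) x.1 = 0 := by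
    rw [← Red_c_val c φ hφ hβ ha, hx]
    rfl
  obtain ⟨_, ⟨s, hs, rfl⟩, H⟩ := cmp_inj_ui c (th_ui E q) (Red_over hφ) (ep_lau hβ)
    (Red_locRed hL) hx'
  obtain ⟨Bs, _, l, hl⟩ := exists_away s
  refine ⟨s, hs, Bs, Bs, inferInstance, inferInstance, l, RingHom.id Bs, hl, ee_id _,
    Subtype.ext ?_⟩
  rw [Th.red_map_val]
  refine H _ _ _ _ ?_
  rw [G_lauMap_apply]
  exact (away_unit hl).map (lauC Bs)

end

theorem hasPT_red (hb : Base π ρ m) (E : Th.{u, v} π) (q : ℤ)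
    (h : HasPT.{u, v, w} π ρ m (E.rf q)) : HasPT.{u, v, w} π ρ m (E.red q) := by
  obtain ⟨P, ⟨c⟩⟩ := h
  refine ⟨P.red, ⟨{
    c := fun φ hφ => Red_c c φ hφ
    c_left := fun f φ hf hφ h' hβ hβ' ha x => Subtype.ext ?_
    c_right := fun φ g hφ hg h' hβ ha ha' x => Subtype.ext ?_
    surj := fun φ hφ M hβ hL z => Red_surj hb c φ hφ M hβ hL z
    inj := fun φ hφ M hβ hL x hx => Red_inj hb c φ hφ M hβ hL x hx }⟩⟩
  · rw [Red_c_val c φ hφ hβ' ha, Red_c_val c _ h' hβ ha, Th.red_map_val,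
      c.c_left (lauMap f) (lauMap φ) (lauMap_over f hf) (Red_over hφ)
        (by rw [lauMap_comp]; exact Red_over h') (ep_lau hβ) (ep_lau hβ') ha.lau]
    exact Red_congr c (lauMap_comp f φ) _ _ _
  · change P.map (lauMap g) (lauMap_over g hg) (Red_c c φ hφ x).1 = _
    rw [Red_c_val c φ hφ hβ ha, Red_c_val c _ h' hβ ha',
      c.c_right (lauMap φ) (lauMap g) (Red_over hφ) (lauMap_over g hg)
        (by rw [lauMap_comp]; exact Red_over h') (ep_lau hβ) ha.lau ha'.lau]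
    exact Red_congr c (lauMap_comp φ g) _ _ _

theorem vanF_of_dies (hb : Base π ρ m) {h : RF.{u, v} A} {P : PT.{u, w} κ m} (c : Cmp π ρ h P)
    (h0 : ∀ (R K : Type u) [CommRing R] [Field K] (a : A →+* R) (x : R →+* K), EP a → x (a π) = 0 →
      ∀ z : h.obj a, h.Dies x z) : P.VanF := by
  have := hb.perf
  refine vanF_of_generic P fun B _ _ β hβ x => ?_
  obtain ⟨B', _, ε, p, hε, hpo⟩ := ep_lift hb.surj hβ
  have hρ : LocRed (Ideal.span {π}) ⊥ ρ := by
    refine ⟨fun s hs => ?_, fun z => ?_, fun b hb' => ?_, fun b hb' => ⟨1, one_mem _, ?_⟩⟩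
    · rw [Submonoid.mem_bot.1 hs, map_one]
      exact isUnit_one
    · obtain ⟨b, rfl⟩ := hb.surj z
      exact ⟨b, 1, one_mem _, by simp⟩
    · rwa [← hb.ker] at hb'
    · rw [one_mul, ← hb.ker]
      exact hb'
  have hL := locRed_po hρ hpo
  rw [Ideal.map_span, Set.image_singleton] at hL
  obtain ⟨s, -, Bs, B1, _, _, l, f, φ1, h1, y, hl, hf, -, rfl⟩ :=
    c.surj p hpo.comm _ hε hL x
  have hB1 : EP ((f.comp l).comp ε) := ep_etale hε (etale_comp (away_etale hl) hf.etale)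
  have hloc : IsLoc (algebraMap B (FractionRing B)) (nonZeroDivisors B) := isLoc_algebraMap _ _
  have hK : IndEP ((algebraMap B (FractionRing B)).comp β) := hβ.indEP.comp_isLoc hloc
  have hπ : ρ π = 0 := by
    rw [← RingHom.mem_ker, hb.ker]
    exact Ideal.mem_span_singleton_self π
  obtain ⟨D, _, g, x', hg, hx', hy⟩ := h0 B1 (FractionRing B) ((f.comp l).comp ε)
    ((algebraMap B (FractionRing B)).comp φ1) hB1 (by
      have e : φ1 (((f.comp l).comp ε) π) = β (ρ π) := RingHom.congr_fun h1 π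
      rw [RingHom.comp_apply, e, hπ, map_zero, map_zero]) y
  have e1 : ((algebraMap B (FractionRing B)).comp φ1).comp ((f.comp l).comp ε) =
      ((algebraMap B (FractionRing B)).comp β).comp ρ := by
    rw [RingHom.comp_assoc, h1]
    rfl
  have e2 : (x'.comp g).comp ((f.comp l).comp ε) =
      ((algebraMap B (FractionRing B)).comp β).comp ρ := by rw [hx', e1]
  have hz : P.map (algebraMap B (FractionRing B)) rfl (c.c φ1 h1 y) = 0 := by
    have hy' : h.map g (rfl : g.comp ((f.comp l).comp ε) = _) y = 0 := hy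
    rw [c.c_right φ1 _ h1 rfl e1 hB1 hβ.indEP hK, ← Red_congr c hx' e2 e1,
      ← c.c_left g x' rfl e2 e2 hB1 (ep_etale hB1 hg) hK, hy', map_zero]
  obtain ⟨t, ht, H⟩ := P.cont_loc hβ.indEP hloc rfl _ hz
  exact ⟨t, nonZeroDivisors.ne_zero ht, fun B2 _ l2 hl2 => H B2 l2 _ rfl (away_unit hl2)⟩

end KEW.S7
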