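import Pool.Agent.P.MP_6277db_ag.KEW.Sites
import Pool.Agent.P.MP_6277db_ag.KEW.L7.Defs

/-!
KEW project, layer L7: presheaves on the smooth site as functors on `EP` algebras.
-/

set_option backward.isDefEq.respectTransparency false

noncomputable section

open CategoryTheory Limits AlgebraicGeometry Opposite

namespace Pool.Agent.KEW

open _root_.KEW

variable {A : Type} [CommRing A] {L : Type 1} [CommRing L]

section

variable {R S T : Type} [CommRing R] [CommRing S] [CommRing T] {a : A →+* R} {b : A →+* S}
  {c : A →+* T}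

theorem ep_smooth (h : EP a) : a.Smooth := by
  obtain ⟨n, x, h⟩ := h
  have e : a = (MvPolynomial.eval₂Hom a x).comp MvPolynomial.C := by
    ext r
    simp
  rw [e]
  refine RingHom.Smooth.stableUnderComposition _ _ ?_ ?_
  · exact RingHom.smooth_algebraMap.2
      (⟨inferInstance, inferInstance⟩ : Algebra.Smooth A (MvPolynomial (Fin n) A))
  · exact (RingHom.etale_iff_formallyUnramified_and_smooth _).1 h |>.2

variable (a) in
/-- The spectrum of an `EP` algebra. -/
abbrev spE (h : EP a) : Sm A := specSm a (ep_smooth h)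

/-- The morphism of spectra attached to an algebra map. -/
def spM (ha : EP a) (hb : EP b) (f : R →+* S) (hf : f.comp a = b) : spE b hb ⟶ spE a ha :=
  specSmMap _ _ f hf

theorem smS_spM (ha : EP a) (hb : EP b) (f : R →+* S) (hf : f.comp a = b) :
    (smS A).map (spM ha hb f hf) = Spec.map (CommRingCat.ofHom f) := rfl

theorem spM_id (ha : EP a) (h : (RingHom.id R).comp a = a) : spM ha ha (RingHom.id R) h = 𝟙 _ :=
  specSmMap_id _ h

theorem spM_comp (ha : EP a) (hb : EP b) (hc : EP c) (f : R →+* S) (g : S →+* T)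
    (hf : f.comp a = b) (hg : g.comp b = c) (h : (g.comp f).comp a = c) :
    spM ha hc (g.comp f) h = spM hb hc g hg ≫ spM ha hb f hf :=
  specSmMap_comp _ _ _ f g hf hg h

open Classical in
/-- The map on sections over spectra of `EP` algebras. -/
def rfMap (F : PSh (Sm A) L) (f : R →+* S) (hf : f.comp a = b) :
    (∀ h : PLift (EP a), F.obj (op (spE a h.down))) →+
      ∀ h : PLift (EP b), F.obj (op (spE b h.down)) :=
  if ha : EP a then
    { toFun := fun x hb => F.map (spM ha hb.down f hf).op (x ⟨ha⟩)
      map_zero' := funext fun _ => map_zero _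
      map_add' := fun _ _ => funext fun _ => map_add _ _ _ }
  else 0

theorem rfMap_apply (F : PSh (Sm A) L) (f : R →+* S) (hf : f.comp a = b) (ha : EP a) (hb : EP b)
    (x : ∀ h : PLift (EP a), F.obj (op (spE a h.down))) :
    rfMap F f hf x ⟨hb⟩ = F.map (spM ha hb f hf).op (x ⟨ha⟩) := by
  rw [rfMap, dif_pos ha]
  rfl

end

/-- A presheaf on the smooth site as a functor on `EP` algebras. -/
def rf (F : PSh (Sm A) L) : RF.{0, 1} A where
  obj a := ∀ h : PLift (EP a), F.obj (op (spE a h.down))
  map f hf := rfMap F f hf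
  map_id h x := funext fun ⟨ha⟩ => by
    rw [rfMap_apply F _ h ha ha, spM_id, op_id, F.map_id]
    rfl
  map_comp {R S T _ _ _ a b c} f g hf hg h hb x := by
    by_cases ha : EP a
    · funext ⟨hc⟩
      rw [rfMap_apply F g hg hb hc, rfMap_apply F f hf ha hb, rfMap_apply F _ h ha hc,
        spM_comp ha hb hc f g hf hg h, op_comp, F.map_comp]
      rfl
    · have e : x = 0 := funext fun ha' => absurd ha'.down ha
      rw [e, map_zero, map_zero, map_zero]

section

variable {R S : Type} [CommRing R] [CommRing S] {a : A →+* R} {b : A →+* S}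

/-- The values of `rf F` on an `EP` algebra. -/
def rfE (F : PSh (Sm A) L) (ha : EP a) : (rf F).obj a ≃+ F.obj (op (spE a ha)) where
  toFun x := (show ∀ h : PLift (EP a), F.obj (op (spE a h.down)) from x) ⟨ha⟩
  invFun y := fun _ => y
  left_inv _ := rfl
  right_inv _ := rfl
  map_add' _ _ := rfl

theorem rfE_map (F : PSh (Sm A) L) (f : R →+* S) (hf : f.comp a = b) (ha : EP a) (hb : EP b)
    (x : (rf F).obj a) :
    rfE F hb ((rf F).map f hf x) = F.map (spM ha hb f hf).op (rfE F ha x) :=
  rfMap_apply F f hf ha hb x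

/-- The natural transformation attached to a map of presheaves. -/
def rfHom {F F' : PSh (Sm A) L} (φ : F ⟶ F') : (rf F).Hom (rf F') where
  app a :=
    { toFun := fun x h => φ.app (op (spE a h.down)) (rfE F h.down x)
      map_zero' := funext fun _ => by rw [map_zero, map_zero]; rfl
      map_add' := fun _ _ => funext fun _ => by rw [map_add, map_add]; rfl }
  nat f hf ha hb y := by
    refine (rfE F' hb).injective ?_
    rw [rfE_map F' f hf ha hb]
    change φ.app _ (rfE F hb ((rf F).map f hf y)) = _
    rw [rfE_map F f hf ha hb]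
    exact congrArg (fun θ => θ.hom (rfE F ha y)) (φ.naturality (spM ha hb f hf).op)

theorem rfE_app {F F' : PSh (Sm A) L} (φ : F ⟶ F') (h : EP a) (x : (rf F).obj a) :
    rfE F' h ((rfHom φ).app a x) = φ.app (op (spE a h)) (rfE F h x) := rfl

end

variable (A) in
/-- The smooth site as a category over `Spec A`. -/
def smV : Sm A ⥤ Over (Spec (.of A)) := smBig A ⋙ ObjectProperty.ι _

theorem smV_forget : smV A ⋙ Over.forget _ = smS A := rfl

/-- The structure map on global sections. -/
def st (V : Sm A) : A →+* Γ((smS A).obj V, ⊤) :=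
  ((Scheme.ΓSpecIso (.of A)).inv ≫ V.obj.obj.hom.appTop).hom

theorem st_nat {V U : Sm A} (f : V ⟶ U) : ((smS A).map f).appTop.hom.comp (st U) = st V := by
  have e : (smS A).map f ≫ U.obj.obj.hom = V.obj.obj.hom := Over.w f.hom.hom
  rw [st, st, ← e, Scheme.Hom.comp_appTop]
  rfl

/-- The special fibre of `V` is empty. -/
def Gen (π : A) (V : Sm A) : Prop := IsUnit (st V π)

theorem Gen.map {π : A} {V U : Sm A} (f : V ⟶ U) (h : Gen π U) : Gen π V := by
  rw [Gen, ← st_nat f]
  exact IsUnit.map ((smS A).map f).appTop.hom h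

/-- Condition (G1): vanishing on the schemes with empty special fibre. -/
def G1 (π : A) (F : PSh (Sm A) L) : Prop := ∀ V, Gen π V → ∀ a : F.obj (op V), a = 0

end Pool.Agent.KEW
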