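import Pool.Agent.P.MP_6277db_ag.KEW.L7.Coord
import Pool.Agent.P.MP_6277db_ag.KEW.PT.All

/-!
KEW project, layer L7, row SPLIT: using a comparison pretheory; descent of splittings.

Hints.
* `cmp_dies`: `Cmp.inj` gives `s, Bs, B1, l, f`; extend `e.comp φ` to `Bs` (`away_lift`) and to `B1` (`ee_fac`).
* `cmp_inj_ui`, `cmp_surj_ui`: `ee_ul` and `hU` replace `B1` by `Bs`; then map `Bs → B'` (`away_lift`), `c_left`.
* `splitAt_push`: localise `R''` and `E''` away from the image of `ω'` (`exists_away`, `away_lift`).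
* `splitDesc`: `locRed_po` gives `LocRed` for `ν`; the maps `R̃[1/ω] → R̄ω` and `τ` are base changes, so they are `LocRed` for the
  image of `M0` too (a localisation square is a pushout: `IsAway.isPO`). `cmp_surj_ui` for `α` and `β` gives
  `s1, s2 ∈ M0`, then `cmp_inj_ui` on `T̃[1/(s1 s2)]` gives `s3`; `s = s1 s2 s3`. `IndEP` by `indEP_locRed`.
-/

namespace KEW.S7

universe u v w

open Polynomial

variable {A κ B R K : Type u} [CommRing A] [Field κ] [CommRing B] [CommRing R] [Field K] {π : A}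
  {ρ : A →+* κ} {m : ℕ} {g : RF.{u, v} A} {P : PT.{u, w} κ m}

theorem split_map_map {R1 R2 R3 : Type u} [CommRing R1] [CommRing R2] [CommRing R3] {a1 : A →+* R1}
    {a2 : A →+* R2} {a3 : A →+* R3} (f : R1 →+* R2) (f' : R2 →+* R3) (k : R1 →+* R3)
    (hf : f.comp a1 = a2) (hf' : f'.comp a2 = a3) (hk : k.comp a1 = a3) (e : f'.comp f = k)
    (h2 : EP a2) (x : g.obj a1) : g.map f' hf' (g.map f hf x) = g.map k hk x := by
  subst e
  exact g.map_comp f f' hf hf' hk h2 x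

theorem split_map_sq {R1 R2 R2' R3 : Type u} [CommRing R1] [CommRing R2] [CommRing R2']
    [CommRing R3] {a1 : A →+* R1} {a2 : A →+* R2} {a2' : A →+* R2'} {a3 : A →+* R3}
    (f : R1 →+* R2) (f' : R2 →+* R3) (p : R1 →+* R2') (p' : R2' →+* R3) (hf : f.comp a1 = a2)
    (hf' : f'.comp a2 = a3) (hp : p.comp a1 = a2') (hp' : p'.comp a2' = a3)
    (e : f'.comp f = p'.comp p) (h2 : EP a2) (h2' : EP a2') (x : g.obj a1) :
    g.map f' hf' (g.map f hf x) = g.map p' hp' (g.map p hp x) := by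
  have hk : (f'.comp f).comp a1 = a3 := by rw [RingHom.comp_assoc, hf, hf']
  rw [split_map_map f f' _ hf hf' hk rfl h2, split_map_map p p' _ hp hp' hk e.symm h2']

theorem split_c_left (c : Cmp π ρ g P) {B' : Type u} [CommRing B'] {β : A →+* B} {β' : A →+* B'}
    {a : κ →+* R} (f : B →+* B') (φ : B' →+* R) (ψ : B →+* R) (hf : f.comp β = β')
    (hφ : φ.comp β' = a.comp ρ) (hψ : ψ.comp β = a.comp ρ) (e : φ.comp f = ψ) (hβ : EP β)
    (hβ' : EP β') (ha : IndEP a) (x : g.obj β) : c.c φ hφ (g.map f hf x) = c.c ψ hψ x := by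
  subst e
  exact c.c_left f φ hf hφ hψ hβ hβ' ha x

theorem split_c_sq (c : Cmp π ρ g P) {B' R' : Type u} [CommRing B'] [CommRing R'] {β : A →+* B}
    {β' : A →+* B'} {a : κ →+* R} {a' : κ →+* R'} (f : B →+* B') (φ' : B' →+* R') (φ : B →+* R)
    (q : R →+* R') (hf : f.comp β = β') (hφ' : φ'.comp β' = a'.comp ρ)
    (hφ : φ.comp β = a.comp ρ) (hq : q.comp a = a') (e : φ'.comp f = q.comp φ) (hβ : EP β)
    (hβ' : EP β') (ha : IndEP a) (ha' : IndEP a') (x : g.obj β) :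
    c.c φ' hφ' (g.map f hf x) = P.map q hq (c.c φ hφ x) := by
  have h' : (q.comp φ).comp β = a'.comp ρ := by
    rw [RingHom.comp_assoc, hφ, ← RingHom.comp_assoc, hq]
  rw [c.c_right φ q hφ hq h' hβ ha ha', split_c_left c f φ' (q.comp φ) hf hφ' h' e hβ hβ' ha']

theorem split_locRed_po {B' S : Type u} [CommRing B'] [CommRing S] {p : B} {M : Submonoid B}
    {φ : B →+* R} (h : LocRed (Ideal.span {p}) M φ) {f : B →+* B'} {i : B' →+* S} {j : R →+* S}
    (hpo : IsPO f φ i j) : LocRed (Ideal.span {f p}) (M.map f) i := by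
  have h1 := locRed_po h hpo
  rwa [Ideal.map_span, Set.image_singleton] at h1

theorem split_locRed_away {B' : Type u} [CommRing B'] {p : B} {M : Submonoid B} {φ : B →+* R}
    (h : LocRed (Ideal.span {p}) M φ) {s : B} (hs : s ∈ M) {l : B →+* B'} (hl : IsAway l s) :
    ∃ φ' : B' →+* R, φ'.comp l = φ ∧ LocRed (Ideal.span {l p}) (M.map l) φ' := by
  obtain ⟨φ', hφ'⟩ := away_lift hl φ (h.unit s hs)
  have hid : IsAway (RingHom.id R) (φ s) :=
    away_of (h.unit s hs) (fun z => ⟨z, 0, by simp⟩) fun x hx => ⟨0, by simpa using hx⟩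
  exact ⟨φ', hφ', split_locRed_po h (hl.isPO hid hφ')⟩

theorem cmp_dies (c : Cmp π ρ g P) {β : A →+* B} {a : κ →+* R} {φ : B →+* R}
    (hφ : φ.comp β = a.comp ρ) {M : Submonoid B} (hβ : EP β) (h : LocRed (Ideal.span {β π}) M φ)
    {y : g.obj β} (hy : c.c φ hφ y = 0) (e : R →+* K) : g.Dies (e.comp φ) y := by
  obtain ⟨s, hs, Bs, B1, _, _, l, f, hl, hf, h0⟩ := c.inj φ hφ M hβ h y hy
  obtain ⟨x1, hx1⟩ := away_lift hl (e.comp φ) ((h.unit s hs).map e)
  obtain ⟨x2, hx2, -⟩ := ee_fac hf x1 (by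
    intro r hr
    obtain ⟨t, rfl⟩ := Ideal.mem_span_singleton'.1 hr
    rw [map_mul, show x1 (l (β π)) = e (φ (β π)) from RingHom.congr_fun hx1 _,
      h.zero _ (Ideal.mem_span_singleton_self _), map_zero, mul_zero])
  exact ⟨B1, inferInstance, f.comp l, x2, etale_comp (away_etale hl) hf.etale,
    by rw [← RingHom.comp_assoc, hx2, hx1], h0⟩

theorem cmp_inj_ui (c : Cmp π ρ g P) (hU : g.UI π) {β : A →+* B} {a : κ →+* R} {φ : B →+* R}
    (hφ : φ.comp β = a.comp ρ) {M : Submonoid B} (hβ : EP β) (h : LocRed (Ideal.span {β π}) M φ)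
    {y : g.obj β} (hy : c.c φ hφ y = 0) :
    ∃ s ∈ M, ∀ (B' : Type u) [CommRing B'] (β' : A →+* B') (l : B →+* B') (hl : l.comp β = β'),
      IsUnit (l s) → g.map l hl y = 0 := by
  obtain ⟨s, hs, Bs, B1, _, _, l, f, hl, hf, h0⟩ := c.inj φ hφ M hβ h y hy
  refine ⟨s, hs, fun B' _ β' l' hl' hu => ?_⟩
  obtain ⟨t, ht⟩ := away_lift hl l' hu
  have hE : EP (l.comp β) := ep_away hβ hl
  have h1 : g.map l (rfl : l.comp β = l.comp β) y = 0 := by
    refine (hU (l.comp β) f hE hf.etale (ee_ul hf)).1 ?_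
    rw [map_zero]
    exact (split_map_map l f (f.comp l) rfl rfl rfl rfl hE y).trans h0
  rw [← split_map_map l t l' rfl (by rw [← RingHom.comp_assoc, ht, hl']) hl' ht hE y, h1, map_zero]

theorem cmp_surj_ui (hb : Base π ρ m) (c : Cmp π ρ g P) (hU : g.UI π) {β : A →+* B} {a : κ →+* R}
    {φ : B →+* R} (hφ : φ.comp β = a.comp ρ) {M : Submonoid B} (hβ : EP β)
    (h : LocRed (Ideal.span {β π}) M φ) (z : P.obj a) :
    ∃ s ∈ M, ∀ (B' : Type u) [CommRing B'] (β' : A →+* B') (l : B →+* B') (φ' : B' →+* R)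
      (h' : φ'.comp β' = a.comp ρ), l.comp β = β' → EP β' → IsUnit (l s) → φ'.comp l = φ →
      ∃ y : g.obj β', c.c φ' h' y = z := by
  obtain ⟨s, hs, Bs, B1, _, _, l, f, φ1, h1, x, hl, hf, hφ1, hx⟩ := c.surj φ hφ M hβ h z
  refine ⟨s, hs, fun B' _ β' l' φ' h' hl' hβ' hu hφ' => ?_⟩
  obtain ⟨t, ht⟩ := away_lift hl l' hu
  have hE : EP (l.comp β) := ep_away hβ hl
  have ha : IndEP a := indEP_locRed hb hβ h hφ
  obtain ⟨x0, hx0⟩ := (hU (l.comp β) f hE hf.etale (ee_ul hf)).2 x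
  have ht' : t.comp (l.comp β) = β' := by rw [← RingHom.comp_assoc, ht, hl']
  have e : φ'.comp t = φ1.comp f :=
    away_ext hl (by rw [RingHom.comp_assoc, ht, hφ', RingHom.comp_assoc, hφ1])
  refine ⟨g.map t ht' x0, ?_⟩
  rw [split_c_left c t φ' (φ1.comp f) ht' h' h1 e hE hβ' ha, ← hx, ← hx0]
  exact (split_c_left c f φ1 (φ1.comp f) rfl h1 h1 rfl hE (ep_etale hE hf.etale) ha x0).symm

section

variable {R' E E' Eω : Type u} [CommRing R'] [CommRing E] [CommRing E'] [CommRing Eω]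

theorem splitAt_pull {E0 E0ω : Type u} [CommRing E0] [CommRing E0ω] {a' : A →+* R'} {φ' : R' →+* E'}
    {ω' : R'} {ε : A →+* E} {j : E →+* Eω} {k : E →+* E'} {ε0 : A →+* E0} {j0 : E0 →+* E0ω}
    {k0 : E0 →+* E} {kω : E0ω →+* Eω} (w : kω.comp j0 = j.comp k0)
    (h1 : kω.comp (j0.comp ε0) = j.comp ε) (hE : EP (j.comp ε)) {b : g.obj (j0.comp ε0)}
    (h : g.SplitAt a' φ' ω' j k (g.map kω h1 b)) : g.SplitAt a' φ' ω' j0 (k.comp k0) b := by
  obtain ⟨Rω, T, _, _, lω, j', kω', φω, h1', h2, α, β, H1, H2, H3, H4, H5⟩ := h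
  have h3 : (kω'.comp kω).comp (j0.comp ε0) = j'.comp (φ'.comp a') := by
    rw [RingHom.comp_assoc, h1, h1']
  refine ⟨Rω, T, inferInstance, inferInstance, lω, j', kω'.comp kω, φω, h3, h2, α, β, H1, H2, ?_,
    H4, ?_⟩
  · rw [RingHom.comp_assoc, w, ← RingHom.comp_assoc, H3, RingHom.comp_assoc]
  · rw [← H5, split_map_map kω kω' _ h1 h1' h3 rfl hE]

theorem splitAt_push {R'' E'' : Type u} [CommRing R''] [CommRing E''] {a' : A →+* R'}
    {φ' : R' →+* E'} {ω' : R'} {ε : A →+* E} {j : E →+* Eω} {k : E →+* E'} {b : g.obj (j.comp ε)}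
    (h : g.SplitAt a' φ' ω' j k b) (ha' : EP a') (hφ' : φ'.Etale) {a'' : A →+* R''}
    {φ'' : R'' →+* E''} {ω'' : R''} (l2 : R' →+* R'') (k2 : E' →+* E'') (hl : l2.comp a' = a'')
    (hω : l2 ω' = ω'') (w : φ''.comp l2 = k2.comp φ') (ha'' : EP a'') (hφ'' : φ''.Etale) :
    g.SplitAt a'' φ'' ω'' j (k2.comp k) b := by
  obtain ⟨Rω, T, _, _, lω, j', kω, φω, h1, h2, α, β, H1, H2, H3, H4, H5⟩ := h
  subst hl hω
  obtain ⟨Rω2, _, lω2, hlω2⟩ := exists_away (l2 ω')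
  obtain ⟨T2, _, j2, hj2⟩ := exists_away (φ'' (l2 ω'))
  have w' : ∀ x, k2 (φ' x) = φ'' (l2 x) := fun x => (RingHom.congr_fun w x).symm
  obtain ⟨p, hp⟩ := away_lift H1 (lω2.comp l2) (away_unit hlω2 :)
  obtain ⟨t, ht⟩ := away_lift H2 (j2.comp k2) (by
    rw [RingHom.comp_apply, w']
    exact away_unit hj2)
  obtain ⟨φω2, hφω2⟩ := away_lift hlω2 (j2.comp φ'') (away_unit hj2 :)
  have ep : ∀ x, p (lω x) = lω2 (l2 x) := RingHom.congr_fun hp
  have et : ∀ x, t (j' x) = j2 (k2 x) := RingHom.congr_fun ht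
  have eφ : ∀ x, φω2 (lω2 x) = j2 (φ'' x) := RingHom.congr_fun hφω2
  have e4 : ∀ x, φω (lω x) = j' (φ' x) := RingHom.congr_fun H4
  have hE : EP (j'.comp (φ'.comp a')) := ep_away (ep_etale ha' hφ') H2
  have ht' : t.comp (j'.comp (φ'.comp a')) = j2.comp (φ''.comp (l2.comp a')) :=
    RingHom.ext fun x => by simp only [RingHom.comp_apply, et, w']
  have hp' : p.comp (lω.comp a') = lω2.comp (l2.comp a') :=
    RingHom.ext fun x => by simp only [RingHom.comp_apply, ep]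
  have hk' : k2.comp (φ'.comp a') = φ''.comp (l2.comp a') :=
    RingHom.ext fun x => by simp only [RingHom.comp_apply, w']
  have g1 : (t.comp kω).comp (j.comp ε) = j2.comp (φ''.comp (l2.comp a')) := by
    rw [RingHom.comp_assoc, h1, ht']
  have g2 : φω2.comp (lω2.comp (l2.comp a')) = j2.comp (φ''.comp (l2.comp a')) :=
    RingHom.ext fun x => by simp only [RingHom.comp_apply, eφ]
  refine ⟨Rω2, T2, inferInstance, inferInstance, lω2, j2, t.comp kω, φω2, g1, g2, g.map p hp' α,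
    g.map k2 hk' β, hlω2, hj2, ?_, hφω2, ?_⟩
  · rw [RingHom.comp_assoc, H3, ← RingHom.comp_assoc, ht, RingHom.comp_assoc]
  · rw [← split_map_map kω t _ h1 ht' g1 rfl hE, H5, map_add,
      split_map_sq φω t p φω2 h2 ht' hp' g2 (away_ext H1 (RingHom.ext fun x => by
        simp only [RingHom.comp_apply, e4, et, ep, eφ, w'])) hE (ep_away ha'' hlω2),
      split_map_sq j' t k2 j2 rfl ht' hk' rfl ht hE (ep_etale ha'' hφ'')]

end

/-- A splitting in the pretheory descends to a splitting after inverting one element of `M0`. -/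
theorem splitDesc (hb : Base π ρ m) (c : Cmp π ρ g P) (hU : g.UI π)
    {Rt Et Tt Rb Eb Rω Eω : Type u} [CommRing Rt] [CommRing Et] [CommRing Tt] [CommRing Rb]
    [CommRing Eb] [CommRing Rω] [CommRing Eω] {a : A →+* Rt} (ha : EP a) {M : Submonoid Rt} {ω : Rt}
    {φ : Rt →+* Et} (hφ : φ.Etale) {j : Et →+* Tt} (hj : IsAway j (φ ω)) {μ : Rt →+* Rb}
    (hμ : LocRed (Ideal.span {a π}) M μ) {ν : Et →+* Eb} {φb : Rb →+* Eb} (hpo : IsPO φ μ ν φb)
    {lω : Rb →+* Rω} (hlω : IsAway lω (μ ω)) {jω : Eb →+* Eω} (hjω : IsAway jω (ν (φ ω)))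
    {φω : Rω →+* Eω} (w : φω.comp lω = jω.comp φb) {τ : Tt →+* Eω} (hτ : τ.comp j = jω.comp ν)
    {r : κ →+* Rb} (hr : μ.comp a = r.comp ρ) {cR : κ →+* Rω} {cE : κ →+* Eb} {cT : κ →+* Eω}
    (h1 : lω.comp r = cR) (h2 : φb.comp r = cE) (h3 : φω.comp cR = cT) (h4 : jω.comp cE = cT)
    (h5 : τ.comp (j.comp (φ.comp a)) = cT.comp ρ) (b : g.obj (j.comp (φ.comp a))) (α : P.obj cR)
    (β : P.obj cE) (hs : c.c τ h5 b = P.map φω h3 α + P.map jω h4 β) :
    ∃ s ∈ M, ∀ (R' E' : Type u) [CommRing R'] [CommRing E'] (l' : Rt →+* R') (k : Et →+* E')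
      (φ' : R' →+* E'), IsAway l' s → IsAway k (φ s) → φ'.comp l' = k.comp φ →
      g.SplitAt (l'.comp a) φ' (l' ω) j k b := by
  obtain ⟨Rtω, _, lt, hlt⟩ := exists_away ω
  obtain ⟨μω, hμω⟩ := away_lift hlt (lω.comp μ) (away_unit hlω :)
  have L1 := split_locRed_po hμ (hlt.isPO hlω hμω)
  have L2 := split_locRed_po hμ hpo
  have L3 := split_locRed_po L2 (hj.isPO hjω hτ)
  have eμ : ∀ x, μω (lt x) = lω (μ x) := RingHom.congr_fun hμω
  have eν : ∀ x, ν (φ x) = φb (μ x) := RingHom.congr_fun (po_w hpo)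
  have eτ : ∀ x, τ (j x) = jω (ν x) := RingHom.congr_fun hτ
  have ew : ∀ x, φω (lω x) = jω (φb x) := RingHom.congr_fun w
  have er : ∀ x, μ (a x) = r (ρ x) := RingHom.congr_fun hr
  have E1 : EP (lt.comp a) := ep_away ha hlt
  have E2 : EP (φ.comp a) := ep_etale ha hφ
  have E3 : EP (j.comp (φ.comp a)) := ep_away E2 hj
  have c1 : μω.comp (lt.comp a) = cR.comp ρ :=
    RingHom.ext fun x => by simp only [RingHom.comp_apply, eμ, er, ← h1]
  have c2 : ν.comp (φ.comp a) = cE.comp ρ :=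
    RingHom.ext fun x => by simp only [RingHom.comp_apply, eν, er, ← h2]
  have I1 : IndEP cR := indEP_locRed hb E1 L1 c1
  have I2 : IndEP cE := indEP_locRed hb E2 L2 c2
  have I3 : IndEP cT := indEP_locRed hb E3 L3 h5
  obtain ⟨_, ⟨s1, hs1, rfl⟩, H1⟩ := cmp_surj_ui hb c hU c1 E1 L1 α
  obtain ⟨_, ⟨s2, hs2, rfl⟩, H2⟩ := cmp_surj_ui hb c hU c2 E2 L2 β
  obtain ⟨R2, _, l1, hl1⟩ := exists_away (lt s1)
  obtain ⟨E2', _, l2, hl2⟩ := exists_away (φ s2)
  obtain ⟨T2, _, l3, hl3⟩ := exists_away (j (φ (s1 * s2)))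
  obtain ⟨φ1, hφ1⟩ := away_lift hl1 μω (L1.unit _ ⟨s1, hs1, rfl⟩)
  obtain ⟨ν2, hν2⟩ := away_lift hl2 ν (L2.unit _ ⟨s2, hs2, rfl⟩)
  obtain ⟨τ2, hτ2, L4⟩ := split_locRed_away L3 ⟨_, ⟨s1 * s2, M.mul_mem hs1 hs2, rfl⟩, rfl⟩ hl3
  have F1 : EP (l1.comp (lt.comp a)) := ep_away E1 hl1
  have F2 : EP (l2.comp (φ.comp a)) := ep_away E2 hl2
  have F3 : EP (l3.comp (j.comp (φ.comp a))) := ep_away E3 hl3
  have d1 : φ1.comp (l1.comp (lt.comp a)) = cR.comp ρ := by rw [← RingHom.comp_assoc, hφ1, c1]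
  have d2 : ν2.comp (l2.comp (φ.comp a)) = cE.comp ρ := by rw [← RingHom.comp_assoc, hν2, c2]
  have d3 : τ2.comp (l3.comp (j.comp (φ.comp a))) = cT.comp ρ := by
    rw [← RingHom.comp_assoc, hτ2, h5]
  obtain ⟨α1, rfl⟩ := H1 R2 _ l1 φ1 d1 rfl F1 (away_unit hl1) hφ1
  obtain ⟨β1, rfl⟩ := H2 E2' _ l2 ν2 d2 rfl F2 (away_unit hl2) hν2
  have u12 : IsUnit (l3 (j (φ s1))) ∧ IsUnit (l3 (j (φ s2))) := by
    have := away_unit hl3
    rwa [map_mul, map_mul, map_mul, IsUnit.mul_iff] at this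
  obtain ⟨p0, hp0⟩ := away_lift hlt (l3.comp (j.comp φ)) ((away_unit hj).map l3)
  have ep0 : ∀ x, p0 (lt x) = l3 (j (φ x)) := RingHom.congr_fun hp0
  obtain ⟨p1, hp1⟩ := away_lift hl1 p0 (by rw [ep0]; exact u12.1)
  obtain ⟨p2, hp2⟩ := away_lift hl2 (l3.comp j) u12.2
  have ep1 : ∀ x, p1 (l1 x) = p0 x := RingHom.congr_fun hp1
  have ep2 : ∀ x, p2 (l2 x) = l3 (j x) := RingHom.congr_fun hp2
  have eφ1 : ∀ x, φ1 (l1 x) = μω x := RingHom.congr_fun hφ1
  have eν2 : ∀ x, ν2 (l2 x) = ν x := RingHom.congr_fun hν2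
  have eτ2 : ∀ x, τ2 (l3 x) = τ x := RingHom.congr_fun hτ2
  have q1 : p1.comp (l1.comp (lt.comp a)) = l3.comp (j.comp (φ.comp a)) :=
    RingHom.ext fun x => by simp only [RingHom.comp_apply, ep1, ep0]
  have q2 : p2.comp (l2.comp (φ.comp a)) = l3.comp (j.comp (φ.comp a)) :=
    RingHom.ext fun x => by simp only [RingHom.comp_apply, ep2]
  have hy : c.c τ2 d3 (g.map l3 rfl b - (g.map p1 q1 α1 + g.map p2 q2 β1)) = 0 := by
    rw [map_sub, map_add, split_c_left c l3 τ2 τ rfl d3 h5 hτ2 E3 F3 I3,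
      split_c_sq c p1 τ2 φ1 φω q1 d3 d1 h3 (away_ext hl1 (away_ext hlt (RingHom.ext fun x => by
        simp only [RingHom.comp_apply, ep1, ep0, eτ2, eτ, eν, eφ1, eμ, ew]))) F1 F3 I1 I3,
      split_c_sq c p2 τ2 ν2 jω q2 d3 d2 h4 (away_ext hl2 (RingHom.ext fun x => by
        simp only [RingHom.comp_apply, ep2, eτ2, eτ, eν2])) F2 F3 I2 I3, hs, sub_self]
  obtain ⟨_, ⟨_, ⟨_, ⟨s3, hs3, rfl⟩, rfl⟩, rfl⟩, H3⟩ := cmp_inj_ui c hU d3 F3 L4 hy
  refine ⟨s1 * s2 * s3, M.mul_mem (M.mul_mem hs1 hs2) hs3, fun R' E' _ _ l' k φ' hl' hk w' => ?_⟩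
  have ek : ∀ x, k (φ x) = φ' (l' x) := fun x => (RingHom.congr_fun w' x).symm
  have v : (IsUnit (l' s1) ∧ IsUnit (l' s2)) ∧ IsUnit (l' s3) := by
    have := away_unit hl'
    rwa [map_mul, map_mul, IsUnit.mul_iff, IsUnit.mul_iff] at this
  obtain ⟨Rω', _, lω', hlω'⟩ := exists_away (l' ω)
  obtain ⟨T', _, j', hj'⟩ := exists_away (φ' (l' ω))
  obtain ⟨kω, hkω⟩ := away_lift hj (j'.comp k) (by
    rw [RingHom.comp_apply, ek]
    exact away_unit hj')
  have ekω : ∀ x, kω (j x) = j' (k x) := RingHom.congr_fun hkω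
  obtain ⟨φω', hφω'⟩ := away_lift hlω' (j'.comp φ') (away_unit hj' :)
  have eφω' : ∀ x, φω' (lω' x) = j' (φ' x) := RingHom.congr_fun hφω'
  obtain ⟨t, ht⟩ := away_lift hl3 kω (by
    rw [ekω, ek, map_mul]
    exact (((v.1.1.mul v.1.2).map φ').map j'))
  have et : ∀ x, t (l3 x) = kω x := RingHom.congr_fun ht
  obtain ⟨n0, hn0⟩ := away_lift hlt (lω'.comp l') (away_unit hlω' :)
  have en0 : ∀ x, n0 (lt x) = lω' (l' x) := RingHom.congr_fun hn0
  obtain ⟨n1, hn1⟩ := away_lift hl1 n0 (by rw [en0]; exact v.1.1.map lω')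
  obtain ⟨n2, hn2⟩ := away_lift hl2 k (by rw [ek]; exact v.1.2.map φ')
  have en1 : ∀ x, n1 (l1 x) = n0 x := RingHom.congr_fun hn1
  have en2 : ∀ x, n2 (l2 x) = k x := RingHom.congr_fun hn2
  have G2 : EP (φ'.comp (l'.comp a)) := by
    rw [← RingHom.comp_assoc, w']
    exact (ep_away E2 hk :)
  have g0 : t.comp (l3.comp (j.comp (φ.comp a))) = j'.comp (φ'.comp (l'.comp a)) :=
    RingHom.ext fun x => by simp only [RingHom.comp_apply, et, ekω, ek]
  have g1 : kω.comp (j.comp (φ.comp a)) = j'.comp (φ'.comp (l'.comp a)) :=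
    RingHom.ext fun x => by simp only [RingHom.comp_apply, ekω, ek]
  have g2 : φω'.comp (lω'.comp (l'.comp a)) = j'.comp (φ'.comp (l'.comp a)) :=
    RingHom.ext fun x => by simp only [RingHom.comp_apply, eφω']
  have g3 : n1.comp (l1.comp (lt.comp a)) = lω'.comp (l'.comp a) :=
    RingHom.ext fun x => by simp only [RingHom.comp_apply, en1, en0]
  have g4 : n2.comp (l2.comp (φ.comp a)) = φ'.comp (l'.comp a) :=
    RingHom.ext fun x => by simp only [RingHom.comp_apply, en2, ek]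
  have H := H3 T' _ t g0 (by
    rw [et, ekω, ek]
    exact (v.2.map φ').map j')
  refine ⟨Rω', T', inferInstance, inferInstance, lω', j', kω, φω', g1, g2, g.map n1 g3 α1,
    g.map n2 g4 β1, hlω', hj', hkω, hφω', ?_⟩
  rwa [map_sub, map_add, split_map_map l3 t kω rfl g0 g1 ht F3,
    split_map_sq p1 t n1 φω' q1 g0 g3 g2 (away_ext hl1 (away_ext hlt (RingHom.ext fun x => by
      simp only [RingHom.comp_apply, ep1, ep0, et, ekω, ek, en1, en0, eφω']))) F3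
      (ep_away (ep_away ha hl') hlω'),
    split_map_sq p2 t n2 j' q2 g0 g4 rfl (away_ext hl2 (RingHom.ext fun x => by
      simp only [RingHom.comp_apply, ep2, et, ekω, en2])) F3 G2, sub_eq_zero] at H

end KEW.S7
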