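import Pool.Agent.P.MP_6277db_ag.KEW.L7.Exc
import Pool.Agent.P.MP_6277db_ag.KEW.L7.Alg3

/-!
KEW project, layer L7, row THB: formal properties of theories, gluing, Brown-Gersten vanishing.

Hints.
* `eq_zero_of_bot`: let `pt` be the pair with one point which is a base point. `SES (𝟙 pt) (𝟙 pt)` and `ex₂` give
  `H q pt = 0`; the map `P ⟶ pt` is `LocBij`.
* `toSm_injective`: `ex₃` for `ses_line`; every class on `hR a` is the restriction along `t = 0` of its pull back
  along `C`, so `δ` vanishes (`ex₁`).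
* `glueRel`: `ex₃` for `ses_away (φ.comp a) hj` gives `b`; use `δ_nat` three times and the injectivity part of
  `exc (locBij_relMap ..)`.
* `van_opn`: `R` is noetherian (`noeth_of_ep`); induction on the number of generators of `I`, for all degrees `≤ q` and all
  rings at once. For `I = (f) ⊔ I'` use `ses_sub` for `D(I') ⊆ D(I)` and excision (`locBij_prMap`) to the pair
  `(Spec R[1/f], D(I' R[1/f]))`. For `I = ⊥` use `eq_zero_of_bot`-like emptiness: `opn a ⊥` has no points.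
* `bgb`: take `I` maximal among the ideals containing `a π` with `z|D(I) = 0` (`D(π)` has no points in the special
  fibre). `I` is radical. If `I ≠ ⊤` take a minimal prime `p`, `exists_res_of_prime`, `hL` gives `(E', e)`,
  `locRed_min`, `genEE`, `ul_of_locRed` give `f ∉ p` and `E''`; `I1 = I ⊔ (f)`; compare `ses_sub` for
  `D(I) ⊆ D(I1)` on `R` with `ses_sub` for `D(I E'') ⊆ Spec E''`, use `van_opn` in degree `p` and excision.
-/

namespace KEW.S7

universe u v

open Polynomial CategoryTheory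

variable {A R S : Type u} [CommRing A] [CommRing R] [CommRing S] {π : A} (E : Th.{u, v} π)

/-- The pair with one point, which is a base point. -/
def thbPt (A : Type u) [CommRing A] : Pr A where
  obj _ := PUnit
  map _ _ x := x
  map_id _ _ := rfl
  map_comp _ _ _ _ _ _ := rfl
  bot _ := True
  bot_map _ _ _ h := h

theorem thb_ext {a : A →+* R} {T B : Cond R} {P : Pr A} {f g : P ⟶ pr a T B}
    (h : ∀ (D : Type u) [CommRing D] (d : A →+* D) (x : P.obj d), (f.app x).1 = (g.app x).1) :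
    f = g :=
  Pr.hom_ext fun D _ d x => Subtype.ext (h D d x)

theorem eq_zero_of_bot (P : Pr A)
    (hP : ∀ (D K : Type u) [CommRing D] [Field K] (d : A →+* D) (x : D →+* K), x (d π) = 0 →
      ∀ y : P.obj d, Ev x fun _ _ g => P.bot (P.map g (rfl : g.comp d = g.comp d) y))
    (q : ℤ) (z : E.H q P) : z = 0 := by
  have s : SES (𝟙 (thbPt A)) (𝟙 (thbPt A)) :=
    ⟨fun _ h => h, fun _ _ _ => Or.inr trivial, fun _ => trivial, fun _ h => Or.inl h,
      fun _ _ _ => Or.inr trivial, fun _ => Or.inl trivial⟩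
  let f : P ⟶ thbPt A := ⟨fun _ => PUnit.unit, fun _ _ _ => rfl, fun _ => trivial⟩
  have hf : LocBij π f := ⟨fun _ _ _ _ => Ev.of_id (Or.inl trivial),
    fun d x hx y _ => hP _ _ d x hx y, fun _ _ _ _ _ _ => Ev.of_id (Or.inr trivial)⟩
  obtain ⟨w, rfl⟩ := (E.exc hf q).2 z
  have h := (E.ex₂ s w).2 ⟨w, E.map_id w⟩
  rw [E.map_id] at h
  rw [h, map_zero]

theorem th_ui (q : ℤ) : (E.rf q).UI π :=
  fun _ _ _ hf h => E.exc (locBij_hMap hf h) q

theorem thb_eval_C (a : A →+* R) (q : ℤ) (x : E.H q (hR a)) :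
    E.map (hMap (evalRingHom 0) (evalZero_over a))
      (E.map (hMap (C : R →+* R[X]) (rfl : C.comp a = C.comp a)) x) = x := by
  have e : hMap (evalRingHom 0) (evalZero_over a) ≫
      hMap (C : R →+* R[X]) (rfl : C.comp a = C.comp a) = 𝟙 _ :=
    thb_ext fun D _ d x => RingHom.ext fun r => congrArg x.1 eval_C
  rw [← E.map_comp, e, E.map_id]

theorem toSm_injective (a : A →+* R) (q : ℤ) (z : E.H q ((hR a).sm Sub1.zero))
    (h : E.map (toSm a Sub1.zero) z = 0) : z = 0 := by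
  obtain ⟨x, rfl⟩ := (E.ex₃ (ses_line a) (sub_add_cancel q 1) z).1 h
  exact (E.ex₁ (ses_line a) _ x).2 ⟨_, thb_eval_C E a _ x⟩

theorem eval_toSm (a : A →+* R) (q : ℤ) (z : E.H q ((hR a).sm Sub1.zero)) :
    (E.rf q).map (evalRingHom 0) (evalZero_over a) (E.map (toSm a Sub1.zero) z) = 0 :=
  (E.ex₂ (ses_line a) _).2 ⟨z, rfl⟩

theorem hi_of_inv {q : ℤ} (h : E.Inv q) : (E.rf q).HI := by
  intro R _ a ha
  refine ⟨Function.LeftInverse.injective (thb_eval_C E a q),
    fun (y : E.H q (hR ((C : R →+* R[X]).comp a))) => ?_⟩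
  obtain ⟨z, hz⟩ := (E.ex₂ (ses_line a) (y - E.map (hMap (C : R →+* R[X]) rfl)
    (E.map (hMap (evalRingHom 0) (evalZero_over a)) y))).1 (by rw [map_sub, thb_eval_C, sub_self])
  rw [show z = 0 from h a ha z, map_zero, eq_comm, sub_eq_zero] at hz
  exact ⟨_, hz.symm⟩

theorem inv_of_van {p q : ℤ} (hpq : p + 1 = q) (hp : E.Van p) (hq : E.Van q) : E.Inv q :=
  fun a ha z => toSm_injective E a q z (hq _ (ep_poly ha) _)

theorem supp_van {p q : ℤ} (hpq : p + 1 = q) (hp : E.Van p) (hq : E.Van q) : E.supp.Van p := by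
  subst hpq
  intro R _ a ha z
  obtain ⟨x, hx⟩ := (E.ex₃ (ses_lau a) rfl z).1 (hq _ (ep_poly ha) _)
  have h0 : x = 0 := hp _ (ep_lau ha) x
  rw [h0, map_zero] at hx
  exact hx.symm

theorem glueRel {p q : ℤ} (h : p + 1 = q) {E1 Eω : Type u} [CommRing E1] [CommRing Eω] {a : A →+* R}
    {φ : R →+* E1} {ω : R} {j : E1 →+* Eω} (hj : IsAway j (φ ω)) (z : E.H q (rel a ω))
    (hz : E.map (hMap φ (rfl : φ.comp a = φ.comp a) ≫ relπ a ω) z = 0) :
    ∃ b : (E.rf p).obj (j.comp (φ.comp a)), ∀ (R' E' : Type u) [CommRing R'] [CommRing E']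
      (a' : A →+* R') (l' : R →+* R') (φ' : R' →+* E') (k : E1 →+* E') (ω' : R')
      (hl' : l'.comp a = a') (hω : l' ω = ω'),
      k.comp φ = φ'.comp l' → φ'.Etale → ULP φ' (Ideal.span {a' π, ω'}) 1 →
      (E.rf p).SplitAt a' φ' ω' j k b →
      ∃ (Rω : Type u) (_ : CommRing Rω) (lω : R' →+* Rω) (hl : IsAway lω ω')
        (α : E.H p (hR (lω.comp a'))),
        E.map (relMap l' hl' hω) z = E.δ (ses_away a' hl) h α := by
  obtain ⟨b, hb⟩ := (E.ex₃ (ses_away (φ.comp a) hj) h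
    (E.map (relMap φ (rfl : φ.comp a = φ.comp a) (rfl : φ ω = φ ω)) z)).1
    ((E.map_comp _ _ z).symm.trans hz)
  refine ⟨b, fun R' E' _ _ a' l' φ' k ω' hl' hω w hφ' hU hS => ?_⟩
  obtain ⟨Rω, T, _, _, lω, j', kω, φω, h1, h2, α, β, hlω, hj', w1, w2, e⟩ := hS
  refine ⟨Rω, inferInstance, lω, hlω, α, (E.exc (locBij_relMap rfl hφ' hU) q).1 ?_⟩
  have hk : k.comp (φ.comp a) = φ'.comp a' := by
    rw [← RingHom.comp_assoc, w, RingHom.comp_assoc, hl']
  have hkω : k (φ ω) = φ' ω' := by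
    rw [← hω]
    exact RingHom.congr_fun w ω
  have e1 : relMap φ' (rfl : φ'.comp a' = φ'.comp a') (rfl : φ' ω' = φ' ω') ≫ relMap l' hl' hω =
      relMap k hk hkω ≫ relMap φ (rfl : φ.comp a = φ.comp a) (rfl : φ ω = φ ω) :=
    thb_ext fun D _ d x => congrArg x.1.comp w.symm
  have e2 := E.δ_nat (ses_away (φ'.comp a') hj') (ses_away (φ.comp a) hj) (hMap kω h1) (hMap k hk)
    (relMap k hk hkω) (thb_ext fun D _ d x => congrArg x.1.comp w1.symm) rfl h b
  have e3 := E.δ_nat (ses_away (φ'.comp a') hj') (ses_away a' hlω) (hMap φω h2) (hMap φ' rfl)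
    (relMap φ' rfl rfl) (thb_ext fun D _ d x => congrArg x.1.comp w2.symm) rfl h α
  have e4 := (E.ex₁ (ses_away (φ'.comp a') hj') h _).2 ⟨β, rfl⟩
  have e5 : E.map (hMap kω h1) b = E.map (hMap φω h2) α + E.map (hMap j' rfl) β := e
  rw [← E.map_comp, e1, E.map_comp, ← hb, e2, e3, e5, map_add, e4, add_zero]

theorem glueAbs {p q : ℤ} (h : p + 1 = q) {Rω E1 Eω : Type u} [CommRing Rω] [CommRing E1]
    [CommRing Eω] {a : A →+* R} {φ : R →+* E1} {ω : R} {l : R →+* Rω} (hl : IsAway l ω)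
    {j : E1 →+* Eω} (hj : IsAway j (φ ω)) (z : (E.rf q).obj a)
    (h1 : (E.rf q).map l (rfl : l.comp a = l.comp a) z = 0)
    (h2 : (E.rf q).map φ (rfl : φ.comp a = φ.comp a) z = 0) :
    ∃ b : (E.rf p).obj (j.comp (φ.comp a)), ∀ (R' E' : Type u) [CommRing R'] [CommRing E']
      (l' : R →+* R') (φ' : R' →+* E') (k : E1 →+* E'),
      k.comp φ = φ'.comp l' → φ'.Etale → ULP φ' (Ideal.span {l' (a π), l' ω}) 1 →
      (E.rf p).SplitAt (l'.comp a) φ' (l' ω) j k b →
      (E.rf q).map l' (rfl : l'.comp a = l'.comp a) z = 0 := by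
  obtain ⟨z0, rfl⟩ := (E.ex₂ (ses_away a hl) z).1 h1
  obtain ⟨b, hb⟩ := glueRel E h hj z0 ((E.map_comp _ _ z0).trans h2)
  refine ⟨b, fun R' E' _ _ l' φ' k w hφ' hU hS => ?_⟩
  obtain ⟨Rω', _, lω, hlω, α, e⟩ := hb R' E' (l'.comp a) l' φ' k (l' ω) rfl rfl w hφ' hU hS
  have e1 := (E.ex₃ (ses_away (l'.comp a) hlω) h _).2 ⟨α, rfl⟩
  rw [← e, ← E.map_comp] at e1
  exact (E.map_comp _ _ z0).symm.trans e1

/-- An open set without points in the special fibre has no cohomology. -/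
theorem thb_empty {a : A →+* R} {I : Ideal R} (hI : I ≤ Ideal.span {a π}) (q : ℤ)
    (z : E.H q (opn a I)) : z = 0 := by
  refine eq_zero_of_bot E _ (fun D K _ _ d x hx y => ?_) q z
  obtain ⟨g, hg, hT⟩ := y
  obtain ⟨r, hr, h⟩ := (ideal_p_iff I _).1 ((Cond.ideal I).comp x hT)
  have h1 : Ideal.span {a π} ≤ RingHom.ker (x.comp g) :=
    (Ideal.span_singleton_le_iff_mem _).2 (by rw [← hg] at hx; exact hx)
  exact absurd (h1 (hI hr)) h

theorem thb_le {I J : Ideal R} (h : I ≤ J) (D : Type u) [CommRing D] (g : R →+* D)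
    (hg : (Cond.ideal I).p g) : (Cond.ideal J).p g :=
  top_le_iff.1 ((Eq.ge hg).trans (Ideal.map_mono h))

theorem thb_unit {I : Ideal R} {f : R} (hf : f ∈ I) {φ : R →+* S} (hu : IsUnit (φ f))
    (D : Type u) [CommRing D] (g : S →+* D) (_ : (Cond.top S).p g) : (Cond.ideal I).p (g.comp φ) :=
  Ideal.eq_top_of_isUnit_mem _ (Ideal.mem_map_of_mem (g.comp φ) hf) (hu.map g)

/-- Gluing along an elementary Nisnevich square. -/
theorem thb_glue {p q : ℤ} (h : p + 1 = q) {a : A →+* R} {I J : Ideal R} {f : R} {φ : R →+* S}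
    (hIJ : I ≤ J) (hf : f ∈ J) (hJ : J ≤ I ⊔ Ideal.span {f}) (hφ : φ.Etale) (hu : IsUnit (φ f))
    (hU : ULP φ I f) (hV : ∀ x : E.H p (opn (φ.comp a) (I.map φ)), x = 0) (z : E.H q (opn a J))
    (h1 : E.map (subι a (thb_le hIJ)) z = 0)
    (h2 : E.map (prMap φ rfl (thb_unit hf hu) (fun _ _ _ _ h => h) :
      hR (φ.comp a) ⟶ opn a J) z = 0) : z = 0 := by
  obtain ⟨z3, rfl⟩ := (E.ex₂ (ses_sub a (thb_le hIJ)) z).1 h1
  let ψ : pr (φ.comp a) (Cond.top S) (Cond.ideal (I.map φ)) ⟶ pr a (Cond.ideal J) (Cond.ideal I) :=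
    prMap φ rfl (thb_unit hf hu) fun D _ g _ hg => (Ideal.map_map φ g).symm.trans hg
  have hψ : LocBij π ψ := locBij_prMap φ rfl _ _ hφ (condOpen_ideal I) condOpen_top
    (condOpen_ideal _) (fun K _ x _ hT hB => ?_) fun K _ y _ _ hy => (Ideal.map_map φ y).trans hy
  · have s := ses_sub (φ.comp a) (T' := Cond.ideal (I.map φ)) (T := Cond.top S)
      fun _ _ _ _ => trivial
    rw [← E.map_comp] at h2
    obtain ⟨x, hx⟩ := (E.ex₃ s h (E.map ψ z3)).1 ((E.map_comp _ ψ z3).symm.trans h2)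
    rw [hV x, map_zero] at hx
    rw [(E.exc hψ q).1 (hx.symm.trans (map_zero _).symm), map_zero]
  · have h3 : I ≤ RingHom.ker x := fun r hr =>
      by_contra fun h0 => hB ((ideal_p_iff I x).2 ⟨r, hr, h0⟩)
    have h4 : x f ≠ 0 := fun h0 => by
      obtain ⟨r, hr, h5⟩ := (ideal_p_iff J x).1 hT
      exact h5 (sup_le h3 ((Ideal.span_singleton_le_iff_mem _).2 h0) (hJ hr))
    obtain ⟨y, hy, hy'⟩ := hU K x h3 h4
    exact ⟨y, ⟨hy, trivial⟩, fun y' h' => hy' y' h'.1⟩

theorem thb_van_list {q : ℤ} (h : ∀ p ≤ q, E.Van p) (n : ℕ) :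
    ∀ (R : Type u) [CommRing R] (a : A →+* R) (L : List R), EP a → L.length = n →
      ∀ p ≤ q, ∀ z : E.H p (opn a (Ideal.ofList L)), z = 0 := by
  induction n with
  | zero =>
    intro R _ a L _ hL p _ z
    obtain rfl := List.length_eq_zero_iff.1 hL
    exact thb_empty E (by rw [Ideal.ofList_nil]; exact bot_le) p z
  | succ n ih =>
    intro R _ a L ha hL p hp z
    obtain ⟨f, L', rfl⟩ := List.exists_cons_of_length_eq_add_one hL
    have hL' : L'.length = n := Nat.succ_injective hL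
    obtain ⟨S, _, l, hl⟩ := exists_away f
    have e := Ideal.ofList_cons f L'
    refine thb_glue E (sub_add_cancel p 1) (I := Ideal.ofList L') (f := f) (φ := l)
      (e.ge.trans' le_sup_right) (e.ge (Ideal.mem_sup_left (Ideal.mem_span_singleton_self f)))
      (e.le.trans (sup_comm _ _).le) (away_etale hl) (away_unit hl) (fun K _ x _ hx => ?_) ?_ z
      (ih R a L' ha hL' p hp _) (h p hp _ (ep_away ha hl) _)
    · obtain ⟨y, hy⟩ := away_lift hl x (Ne.isUnit hx)
      exact ⟨y, hy, fun y' hy' => away_ext hl (hy'.trans hy.symm)⟩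
    · rw [Ideal.map_ofList]
      exact ih S _ _ (ep_away ha hl) ((List.length_map _).trans hL') _ (by omega)

theorem van_opn [IsNoetherianRing A] {q : ℤ} (h : ∀ p ≤ q, E.Van p) {a : A →+* R} (ha : EP a)
    (I : Ideal R) (z : E.H q (opn a I)) : z = 0 := by
  have := noeth_of_ep ha
  obtain ⟨s, hs⟩ := IsNoetherian.noetherian I
  have e : Ideal.ofList s.toList = I := by
    rw [← hs]
    exact congrArg Ideal.span (Set.ext fun _ => Finset.mem_toList)
  subst e
  exact thb_van_list E h _ R a _ ha rfl q le_rfl z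

/-- Brown-Gersten vanishing in the lowest degree. -/
theorem bgb [IsNoetherianRing A] {p n : ℤ} (h : p + 1 = n) (hV : ∀ q ≤ p, E.Van q)
    (hL : ∀ (R K : Type u) [CommRing R] [Field K] (a : A →+* R) (x : R →+* K) (I : Ideal R)
      (z : (E.rf n).obj a), EP a → IsRes x → a π ∈ I → RingHom.ker x ∈ I.minimalPrimes →
      E.map (opnι a I) z = 0 → (E.rf n).Dies x z) : E.Van n := by
  intro R _ a ha z
  have := noeth_of_ep ha
  obtain ⟨I, ⟨hπ, hz⟩, hmax⟩ : ∃ I : Ideal R, (a π ∈ I ∧ E.map (opnι a I) z = 0) ∧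
      ∀ J : Ideal R, (a π ∈ J ∧ E.map (opnι a J) z = 0) → ¬ I < J :=
    set_has_maximal_iff_noetherian.2 (inferInstanceAs (IsNoetherian R R))
      {I : Ideal R | a π ∈ I ∧ E.map (opnι a I) z = 0}
      ⟨_, Ideal.mem_span_singleton_self _, thb_empty E le_rfl _ _⟩
  by_cases hI : I = ⊤
  · subst hI
    refine (E.exc (locBij_of_bijective (opnι a ⊤) (fun D _ d => ⟨fun y y' e =>
      Subtype.ext (congrArg (fun w => w.1) e :), fun y => ⟨⟨y.1, y.2.1, Ideal.map_top _⟩, rfl⟩⟩)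
      fun _ _ _ _ h => h) n).1 (hz.trans (map_zero _).symm)
  have hrad : I.IsRadical := by
    have e : opnι a I.radical = subι a (T' := Cond.ideal I.radical) (T := Cond.ideal I)
        (fun D _ g hg => Ideal.radical_eq_top.1
          (top_le_iff.1 ((Eq.ge hg).trans (Ideal.map_radical_le g)))) ≫ opnι a I := rfl
    exact ((Ideal.le_radical (I := I)).eq_of_not_lt (hmax _ ⟨Ideal.le_radical hπ, by
      rw [e, E.map_comp, hz, map_zero]⟩)).ge
  obtain ⟨P, hP⟩ := Ideal.nonempty_minimalPrimes hI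
  have := hP.1.1
  obtain ⟨K, _, x, hres, rfl⟩ := exists_res_of_prime P
  obtain ⟨D, _, g, x', hg, hx, hd⟩ := hL R K a x I z ha hres hπ hP hz
  obtain ⟨f, hf, r, -, H⟩ := genEE hg (locRed_min hrad hres hP) hx
  obtain ⟨D', _, j, hj⟩ := exists_away r
  obtain ⟨hu, hR'⟩ := H D' j hj
  have hφ := etale_comp hg (away_etale hj)
  have hfJ : f ∈ I ⊔ Ideal.span {f} := Ideal.mem_sup_right (Ideal.mem_span_singleton_self f)
  refine (hmax (I ⊔ Ideal.span {f}) ⟨Ideal.mem_sup_left hπ, ?_⟩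
    (lt_of_le_of_ne le_sup_left fun e => IsUnit.ne_zero hf (hP.1.2 (e ▸ hfJ)))).elim
  refine thb_glue E h (φ := j.comp g) le_sup_left hfJ le_rfl hφ hu (ul_of_locRed hR')
    (van_opn E hV (ep_etale ha hφ) _) _ ((E.map_comp _ _ z).symm.trans hz) ?_
  have e1 : E.map (hMap g (rfl : g.comp a = g.comp a)) z = 0 := hd
  have e2 := E.map_comp (hMap j (rfl : j.comp (g.comp a) = (j.comp g).comp a)) (hMap g rfl) z
  rw [e1, map_zero] at e2
  exact (E.map_comp _ _ z).symm.trans e2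

/-- A class which dies near a generic point of the special fibre dies on a principal open. -/
theorem genDies {κ K : Type u} [Field κ] [Field K] {ρ : A →+* κ} {m : ℕ} (hb : Base π ρ m)
    {g : RF.{u, v} A} (hg : g.UI π) {a : A →+* R} (ha : EP a) {ξ : R →+* K} (hr : IsRes ξ)
    (hξ : RingHom.ker ξ = Ideal.span {a π}) {z : g.obj a} (hz : g.Dies ξ z) :
    ∃ d : R, ξ d ≠ 0 ∧ ∀ (T : Type u) [CommRing T] (l : R →+* T), IsAway l d →
      g.map l (rfl : l.comp a = l.comp a) z = 0 := by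
  obtain ⟨D, _, k, x', hk, hx, hd⟩ := hz
  obtain ⟨f, hf, r, -, H⟩ := genEE hk (locRed_res hr) hx
  refine ⟨f, IsUnit.ne_zero hf, fun T _ l hl => ?_⟩
  obtain ⟨D', _, j, hj⟩ := exists_away r
  obtain ⟨hu, hR'⟩ := H D' j hj
  have hU := ul_of_locRed hR'
  obtain ⟨c, hc⟩ := away_lift hl (j.comp k) hu
  have hce : c.Etale := etale_of_comp (away_etale hl) (hc ▸ etale_comp hk (away_etale hj))
  have hcU : ULP c (Ideal.span {l.comp a π}) 1 := fun L _ x hx0 _ => by
    have h1 : RingHom.ker ξ ≤ RingHom.ker (x.comp l) := by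
      rw [hξ, Ideal.span_singleton_le_iff_mem]
      exact hx0 _ (Ideal.mem_span_singleton_self _)
    obtain ⟨y, hy, hy'⟩ := hU L (x.comp l) h1 ((away_unit hl).map x).ne_zero
    refine ⟨y, away_ext hl (by rw [RingHom.comp_assoc, hc]; exact hy), fun y' h' => hy' y' ?_⟩
    change y'.comp (j.comp k) = x.comp l
    rw [← hc, ← RingHom.comp_assoc, show y'.comp c = x from h']
  refine (hg (l.comp a) c (ep_away ha hl) hce hcU).1 ?_
  have e : j.comp (k.comp a) = c.comp (l.comp a) := by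
    rw [← RingHom.comp_assoc, ← hc, RingHom.comp_assoc]
  have e1 : g.map k (rfl : k.comp a = k.comp a) z = 0 := hd
  rw [map_zero, g.map_comp l c rfl rfl rfl (ep_away ha hl), g.map_congr hc _ e,
    ← g.map_comp k j rfl e _ (ep_etale ha hk), e1, map_zero]

end KEW.S7
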